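import Pool.Agent.Xtc.Core

set_option autoImplicit false

namespace Pool.Agent.Xtc

open Polynomial Pool.Agent.Xtr

section

variable {K : Type*} [Field K]

/- MODULE ua -/
/-- Module ua, helper. -/
private theorem ua_shf (f : K[X][X]) (c : K) (h : K[X]) :
    (shf f c).eval (taylor c h) = taylor c (f.eval h) := by
  have h1 : (shf f c).eval (taylor c h) =
      eval₂ ((taylorAlgHom c : K[X] →ₐ[K] K[X]) : K[X] →+* K[X])
        (((taylorAlgHom c : K[X] →ₐ[K] K[X]) : K[X] →+* K[X]) h) f := by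
    rw [shf, eval_map]
    rfl
  rw [h1, eval₂_at_apply]
  rfl

/-- Module ua. -/
theorem ev_shf (f : K[X][X]) (c a b : K) : ev (shf f c) a b = ev f (a + c) b := by
  have h1 : (shf f c).eval (C b) = taylor c (f.eval (C b)) := by
    have := ua_shf f c (C b)
    rwa [taylor_C] at this
  rw [ev, h1, taylor_eval, ev]

/-- Module ua. -/
theorem shf_eval (f : K[X][X]) (c : K) (h : K[X]) :
    (shf f c).eval (taylor c h) = taylor c (f.eval h) := by
  exact ua_shf f c h

/-- Module ua. PROOF. `taylor` commutes with ring homomorphisms (see `tc_aeval`). -/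
theorem tc_shf (f : K[X][X]) (c : K) (h : K[X]) (i : ℕ) :
    tc (shf f c) (taylor c h) i = taylor c (tc f h i) := by
  have h1 : taylor (taylor c h) (shf f c) = (taylor h f).map
      ((taylorAlgHom c : K[X] →ₐ[K] K[X]) : K[X] →+* K[X]) := by
    have h2 : taylor c h = ((taylorAlgHom c : K[X] →ₐ[K] K[X]) : K[X] →+* K[X]) h := rfl
    rw [h2, shf, map_taylor]
  rw [tc, h1, coeff_map]
  rfl

/-- Module ua. -/
theorem shf_monic (f : K[X][X]) (c : K) (hf : f.Monic) :
    (shf f c).Monic ∧ (shf f c).natDegree = f.natDegree := by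
  exact ⟨hf.map _, hf.natDegree_map _⟩
/- END ua -/

/- MODULE ub -/
/-- Module ub. A bound for the degrees, stable under translation. PROOF. Let `D` be at least the
degrees of all coefficients of `f`. For `c = 0` (no translation): `f.coeff i * h ^ i` has degree
`≤ D + i * D ≤ l * D` for `i < l` and `≤ l * D` for `i = l`. In general
`(shf f c).eval h = taylor c (f.eval (taylor (-c) h))` and `natDegree_taylor`. -/
theorem degb (f : K[X][X]) (l : ℕ) (hl : 1 ≤ l) (hfm : f.Monic) (hfd : f.natDegree = l) :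
    ∃ D : ℕ, ∀ c : K, ∀ h : K[X], h.natDegree ≤ D → ((shf f c).eval h).natDegree ≤ l * D := by
  refine ⟨(Finset.range (l + 1)).sup fun i => (f.coeff i).natDegree, fun c h hh => ?_⟩
  set D := (Finset.range (l + 1)).sup fun i => (f.coeff i).natDegree with hD
  obtain ⟨hm, hd⟩ := shf_monic f c hfm
  rw [eval_eq_sum_range, hd, hfd]
  refine natDegree_sum_le_of_forall_le _ _ fun i hi => ?_
  have hi' : i ≤ l := Nat.lt_succ_iff.1 (Finset.mem_range.1 hi)
  have h1 : (h ^ i).natDegree ≤ i * D := natDegree_pow_le.trans (Nat.mul_le_mul_left i hh)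
  rcases hi'.eq_or_lt with rfl | hlt
  · have h2 : (shf f c).coeff i = 1 := by
      have := hm.coeff_natDegree
      rwa [hd, hfd] at this
    rw [h2, one_mul]
    exact h1
  · have h3 : ((shf f c).coeff i).natDegree ≤ D := by
      have h4 : (shf f c).coeff i = taylor c (f.coeff i) := by
        rw [shf, coeff_map]
        rfl
      rw [h4, natDegree_taylor]
      exact Finset.le_sup (f := fun i => (f.coeff i).natDegree) hi
    calc ((shf f c).coeff i * h ^ i).natDegree
        ≤ ((shf f c).coeff i).natDegree + (h ^ i).natDegree := natDegree_mul_le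
      _ ≤ D + i * D := Nat.add_le_add h3 h1
      _ = (i + 1) * D := by ring
      _ ≤ l * D := Nat.mul_le_mul_right D hlt
/- END ub -/

end

section

variable {K : Type*} [Field K] {Γ : Type*} [LinearOrderedCommGroupWithZero Γ]
  {L : Type*} [Field L] [Algebra K L]

/- MODULE uc -/
/-- Module uc. A closer point with room for values of the form `v g * v u ^ l`. PROOF. `dich hv`.
Divisible case: `a'` from `closer`, `v t = w (x - a')` (`Imm.val`), `v u ^ l = v (t / g)`. Case of a
uniformizer: by induction over `J` there is `a'` with `w (x - a') ≤ v pi ^ J * w (x - a)`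
(`closer`, `Imm.val` and `hmax`); take `J = l`. For `g`: `v t = w (x - a)`, `t / g` has the value
`v b ^ l * v pi ^ j`, `j = l * q + i` with `i < l`; `u = b * pi ^ (q + 1)`:
`v g * v u ^ l = v t * v pi ^ (l - i)`, `1 ≤ l - i ≤ l`. -/
theorem room_step {v : Valuation K Γ} {w : Valuation L Γ} (hv : Ext v)
    (hvw : ∀ a : K, w (algebraMap K L a) = v a) (himm : Imm K w) (x : L)
    (hx : ∀ a : K, x ≠ algebraMap K L a) (l : ℕ) (hl : 1 ≤ l) (a : K) :
    ∃ a' : K, w (x - algebraMap K L a') < w (x - algebraMap K L a) ∧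
      ∀ g : K, g ≠ 0 → ∃ u : K, w (x - algebraMap K L a') ≤ v g * v u ^ l ∧
        v g * v u ^ l < w (x - algebraMap K L a) := by
  have hne : ∀ b : K, w (x - algebraMap K L b) ≠ 0 := fun b =>
    (Valuation.ne_zero_iff w).2 (sub_ne_zero.2 (hx b))
  rcases dich hv with hdiv | ⟨pi, h0, hpi, hmax, hz⟩
  · obtain ⟨a', ha'⟩ := closer himm x hx a
    refine ⟨a', ha', fun g hg => ?_⟩
    obtain ⟨t, ht⟩ := Imm.val hvw himm (x - algebraMap K L a')
    have ht0 : t ≠ 0 := by
      rintro rfl
      rw [map_zero] at ht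
      exact hne a' ht.symm
    obtain ⟨u, hu⟩ := hdiv (t / g) (div_ne_zero ht0 hg) l hl
    have hvg : v g ≠ 0 := (Valuation.ne_zero_iff v).2 hg
    have h1 : v g * v u ^ l = w (x - algebraMap K L a') := by
      rw [hu, map_div₀, mul_div_cancel₀ _ hvg, ht]
    exact ⟨u, h1.ge, h1.trans_lt ha'⟩
  · have hvp : v pi ≠ 0 := (Valuation.ne_zero_iff v).2 h0
    have hvp' : 0 < v pi := zero_lt_iff.2 hvp
    have hJ : ∀ J : ℕ, ∃ a' : K, w (x - algebraMap K L a') ≤ v pi ^ J * w (x - algebraMap K L a) := by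
      intro J
      induction J with
      | zero => exact ⟨a, by rw [pow_zero, one_mul]⟩
      | succ J ih =>
        obtain ⟨a1, h1⟩ := ih
        obtain ⟨a2, h2⟩ := closer himm x hx a1
        refine ⟨a2, ?_⟩
        obtain ⟨t1, ht1⟩ := Imm.val hvw himm (x - algebraMap K L a1)
        obtain ⟨t2, ht2⟩ := Imm.val hvw himm (x - algebraMap K L a2)
        have hv1 : v t1 ≠ 0 := by rw [ht1]; exact hne a1
        have h3 : v (t2 / t1) < 1 := by
          rw [map_div₀, div_lt_one₀ (zero_lt_iff.2 hv1), ht1, ht2]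
          exact h2
        have h4 := hmax _ h3
        rw [map_div₀, div_le_iff₀ (zero_lt_iff.2 hv1), ht1, ht2] at h4
        calc w (x - algebraMap K L a2) ≤ v pi * w (x - algebraMap K L a1) := h4
          _ ≤ v pi * (v pi ^ J * w (x - algebraMap K L a)) := mul_le_mul_right h1 _
          _ = v pi ^ (J + 1) * w (x - algebraMap K L a) := by rw [pow_succ', mul_assoc]
    obtain ⟨a', ha'⟩ := hJ l
    have hlt1 : v pi ^ l < 1 := pow_lt_one₀ zero_le hpi (by omega)
    refine ⟨a', ha'.trans_lt ?_, fun g hg => ?_⟩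
    · exact mul_lt_of_lt_one_left (zero_lt_iff.2 (hne a)) hlt1
    · obtain ⟨t, ht⟩ := Imm.val hvw himm (x - algebraMap K L a)
      have ht0 : t ≠ 0 := by
        rintro rfl
        rw [map_zero] at ht
        exact hne a ht.symm
      have hvg : v g ≠ 0 := (Valuation.ne_zero_iff v).2 hg
      obtain ⟨b, j, hb, hbj⟩ := hz (t / g) (div_ne_zero ht0 hg) l hl
      have hj : j = l * (j / l) + j % l := (Nat.div_add_mod j l).symm
      have hi : j % l < l := Nat.mod_lt _ (by omega)
      have hexp : l * (j / l + 1) = j + (l - j % l) := by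
        rw [mul_add, mul_one]; omega
      have h1 : v g * v (b * pi ^ (j / l + 1)) ^ l =
          v pi ^ (l - j % l) * w (x - algebraMap K L a) := by
        rw [map_mul, map_pow, mul_pow, ← pow_mul, mul_comm (j / l + 1) l, hexp, pow_add, ← ht]
        have h2 : v t = v g * (v b ^ l * v pi ^ j) := by
          rw [hbj, map_div₀, mul_div_cancel₀ _ hvg]
        rw [h2, mul_comm (v pi ^ (l - j % l)), mul_assoc, mul_assoc]
      refine ⟨b * pi ^ (j / l + 1), ?_, ?_⟩
      · rw [h1]
        refine ha'.trans (mul_le_mul_left ?_ _)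
        exact pow_le_pow_of_le_one zero_le hpi.le (Nat.sub_le _ _)
      · rw [h1]
        refine mul_lt_of_lt_one_left (zero_lt_iff.2 (hne a)) ?_
        exact pow_lt_one₀ zero_le hpi (by omega)
/- END uc -/

/- MODULE ud -/
/-- Module ud, helper. -/
private theorem ud_pf (f : K[X][X]) (a' r b0 r2 : K) :
    PF (fun u : Fin 2 → K => ev f (a' + r * u 0) (b0 + r2 * u 1)) := by
  have hpow : ∀ {g : (Fin 2 → K) → K}, PF g → ∀ i : ℕ, PF (fun u => g u ^ i) := by
    intro g hg i
    induction i with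
    | zero => simpa using PF.const (n := 2) (1 : K)
    | succ i ih =>
      simp only [pow_succ]
      exact PF.mul ih hg
  have hev : ∀ (g : K[X]) {q : (Fin 2 → K) → K}, PF q → PF (fun u => g.eval (q u)) := by
    intro g q hq
    have h1 : (fun u => g.eval (q u)) =
        fun u => ∑ i ∈ Finset.range (g.natDegree + 1), g.coeff i * q u ^ i := by
      funext u
      exact eval_eq_sum_range _
    rw [h1]
    exact PF.sum _ _ fun i _ => PF.mul (PF.const _) (hpow hq i)
  have h2 : (fun u : Fin 2 → K => ev f (a' + r * u 0) (b0 + r2 * u 1)) =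
      fun u => ∑ i ∈ Finset.range (f.natDegree + 1),
        (f.coeff i).eval (a' + r * u 0) * (b0 + r2 * u 1) ^ i := by
    funext u
    rw [ev, eval_eq_sum_range (p := f), eval_finsetSum]
    refine Finset.sum_congr rfl fun i _ => ?_
    rw [eval_mul, eval_pow, eval_C]
  rw [h2]
  exact PF.sum _ _ fun i _ => PF.mul
    (hev _ (PF.add (PF.const _) (PF.mul (PF.const _) (PF.coord 0))))
    (hpow (PF.add (PF.const _) (PF.mul (PF.const _) (PF.coord 1))) i)

/-- Module ud. PROOF. `room_step` gives `a'`; `v r = w (x - a')`, `r ≠ 0`; `Ext.min` for `n = 2` and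
the function `u ↦ ev f (a' + r * u 0) (b0 + r2 * u 1)` (a polynomial function: `ev f a b =
∑ i, (f.coeff i).eval a * b ^ i`). For the minimum `a1 = a' + r * u 0`: `w (x - a1) ≤ w (x - a')`. -/
theorem box_step {v : Valuation K Γ} {w : Valuation L Γ} (hv : Ext v)
    (hvw : ∀ a : K, w (algebraMap K L a) = v a) (himm : Imm K w) (x : L)
    (hx : ∀ a : K, x ≠ algebraMap K L a) (l : ℕ) (hl : 1 ≤ l) (f : K[X][X]) (b0 r2 : K)
    (hr2 : r2 ≠ 0) (a : K) :
    ∃ a1 b1 : K, w (x - algebraMap K L a1) < w (x - algebraMap K L a) ∧ v (b1 - b0) ≤ v r2 ∧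
      (∀ a' b' : K, w (x - algebraMap K L a') ≤ w (x - algebraMap K L a1) → v (b' - b0) ≤ v r2 →
        v (ev f a1 b1) ≤ v (ev f a' b')) ∧
      ∀ g : K, g ≠ 0 → ∃ u : K, w (x - algebraMap K L a1) ≤ v g * v u ^ l ∧
        v g * v u ^ l < w (x - algebraMap K L a) := by
  obtain ⟨a', ha', hroom⟩ := room_step hv hvw himm x hx l hl a
  obtain ⟨r, hr⟩ := Imm.val hvw himm (x - algebraMap K L a')
  have hr0 : v r ≠ 0 := by
    rw [hr]
    exact (Valuation.ne_zero_iff w).2 (sub_ne_zero.2 (hx a'))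
  have hr0' : r ≠ 0 := (Valuation.ne_zero_iff v).1 hr0
  have hr20 : v r2 ≠ 0 := (Valuation.ne_zero_iff v).2 hr2
  obtain ⟨u, hu, hmin⟩ := Ext.min hv (ud_pf f a' r b0 r2)
  have hle : w (x - algebraMap K L (a' + r * u 0)) ≤ w (x - algebraMap K L a') := by
    have h1 : x - algebraMap K L (a' + r * u 0) =
        (x - algebraMap K L a') - algebraMap K L (r * u 0) := by
      rw [map_add]; ring
    rw [h1]
    refine (Valuation.map_sub w _ _).trans (max_le le_rfl ?_)
    rw [hvw, map_mul, hr]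
    exact mul_le_of_le_one_right' (hu 0)
  refine ⟨a' + r * u 0, b0 + r2 * u 1, hle.trans_lt ha', ?_, ?_, ?_⟩
  · rw [add_sub_cancel_left, map_mul]
    exact mul_le_of_le_one_right' (hu 1)
  · intro a1 b1 ha1 hb1
    have h2 : v (a1 - a') ≤ v r := by
      rw [← hvw, hr]
      have h3 : algebraMap K L (a1 - a') =
          (x - algebraMap K L a') - (x - algebraMap K L a1) := by
        rw [map_sub]; ring
      rw [h3]
      exact (Valuation.map_sub w _ _).trans (max_le le_rfl (ha1.trans hle))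
    have h4 := hmin ![(a1 - a') / r, (b1 - b0) / r2] (by
      intro i
      fin_cases i
      · simp only [Fin.zero_eta, Matrix.cons_val_zero]
        rw [map_div₀]
        exact (div_le_one₀ (zero_lt_iff.2 hr0)).2 h2
      · simp only [Fin.mk_one, Matrix.cons_val_one, Matrix.cons_val_zero]
        rw [map_div₀]
        exact (div_le_one₀ (zero_lt_iff.2 hr20)).2 hb1)
    simp only [Matrix.cons_val_zero, Matrix.cons_val_one] at h4
    have h5 : a' + r * ((a1 - a') / r) = a1 := by
      rw [mul_div_cancel₀ _ hr0']; ring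
    have h6 : b0 + r2 * ((b1 - b0) / r2) = b1 := by
      rw [mul_div_cancel₀ _ hr2]; ring
    rw [h5, h6] at h4
    exact h4
  · intro g hg
    obtain ⟨u', hu1, hu2⟩ := hroom g hg
    exact ⟨u', hle.trans hu1, hu2⟩

/-- Module ud. PROOF. Recursion with `box_step` (a sequence of pairs). -/
theorem box_chain {v : Valuation K Γ} {w : Valuation L Γ} (hv : Ext v)
    (hvw : ∀ a : K, w (algebraMap K L a) = v a) (himm : Imm K w) (x : L)
    (hx : ∀ a : K, x ≠ algebraMap K L a) (l : ℕ) (hl : 1 ≤ l) (f : K[X][X]) (b0 r2 : K)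
    (hr2 : r2 ≠ 0) (a00 : K) :
    ∃ a b : ℕ → K, w (x - algebraMap K L (a 0)) < w (x - algebraMap K L a00) ∧
      (∀ k, w (x - algebraMap K L (a (k + 1))) < w (x - algebraMap K L (a k))) ∧
      (∀ k, v (b k - b0) ≤ v r2) ∧
      (∀ k, ∀ a' b' : K, w (x - algebraMap K L a') ≤ w (x - algebraMap K L (a k)) →
        v (b' - b0) ≤ v r2 → v (ev f (a k) (b k)) ≤ v (ev f a' b')) ∧
      ∀ k, ∀ g : K, g ≠ 0 → ∃ u : K, w (x - algebraMap K L (a (k + 1))) ≤ v g * v u ^ l ∧
        v g * v u ^ l < w (x - algebraMap K L (a k)) := by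
  have hstep := box_step hv hvw himm x hx l hl f b0 r2 hr2
  choose A B h1 h2 h3 h4 using hstep
  let S : ℕ → K := fun k => Nat.rec (A a00) (fun _ q => A q) k
  let T : ℕ → K := fun k => Nat.rec (B a00) (fun k _ => B (S k)) k
  have hS0 : S 0 = A a00 := rfl
  have hS : ∀ k, S (k + 1) = A (S k) := fun k => rfl
  have hT0 : T 0 = B a00 := rfl
  have hT : ∀ k, T (k + 1) = B (S k) := fun k => rfl
  refine ⟨S, T, ?_, ?_, ?_, ?_, ?_⟩
  · rw [hS0]; exact h1 a00
  · intro k; rw [hS]; exact h1 (S k)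
  · intro k
    cases k with
    | zero => rw [hT0]; exact h2 a00
    | succ k => rw [hT]; exact h2 (S k)
  · intro k
    cases k with
    | zero => rw [hT0, hS0]; exact h3 a00
    | succ k => rw [hT, hS]; exact h3 (S k)
  · intro k; rw [hS]; exact h4 (S k)
/- END ud -/

/- MODULE ue -/
/-- Module ue. PROOF. `aeval x g = ∑ j, (taylor a g).coeff j * (x - a) ^ j`. -/
theorem aeval_le_gn {v : Valuation K Γ} {w : Valuation L Γ}
    (hvw : ∀ a : K, w (algebraMap K L a) = v a) (x : L) (a : K) (ρ : Γ)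
    (h : w (x - algebraMap K L a) ≤ ρ) (g : K[X]) : w (aeval x g) ≤ gn v ρ (taylor a g) := by
  have h1 : aeval x g = aeval (x - algebraMap K L a) (taylor a g) := by
    rw [taylor_apply, aeval_comp, map_add, aeval_X, aeval_C, sub_add_cancel]
  rw [h1, aeval_eq_sum_range]
  refine Valuation.map_sum_le w fun i _ => ?_
  rw [Algebra.smul_def, map_mul, hvw, map_pow]
  exact (mul_le_mul_right (pow_le_pow_left₀ zero_le h i) _).trans (le_gn v ρ _ i)

/-- Module ue. PROOF. `f.eval h = ∑ i ∈ range (l + 1), tc f (C b0) i * (h - C b0) ^ i`; `taylor a`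
is a ring homomorphism fixing `C b0`; `gn_sum`, `gn_mul`, `gn_pow`. -/
theorem bd_x (v : Valuation K Γ) {ρ : Γ} (hρ : ρ ≠ 0) (f : K[X][X]) (l : ℕ)
    (hfd : f.natDegree = l) (b0 r2 a : K)
    (hq : ∀ i, i ≤ l → gn v ρ (taylor a (tc f (C b0) i)) ≤ v r2 ^ (l - i)) (h : K[X])
    (hh : gn v ρ (taylor a h - C b0) ≤ v r2) : gn v ρ (taylor a (f.eval h)) ≤ v r2 ^ l := by
  have h1 : f.eval h = ∑ i ∈ Finset.range (l + 1), tc f (C b0) i * (h - C b0) ^ i := by
    have h2 : f.eval h = (taylor (C b0) f).eval (h - C b0) := by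
      rw [taylor_eval, sub_add_cancel]
    rw [h2, eval_eq_sum_range, natDegree_taylor, hfd]
    rfl
  have h3 : taylor a (f.eval h) =
      ∑ i ∈ Finset.range (l + 1), taylor a (tc f (C b0) i) * (taylor a h - C b0) ^ i := by
    rw [h1, map_sum]
    refine Finset.sum_congr rfl fun i _ => ?_
    rw [taylor_mul, taylor_pow, map_sub, taylor_C]
  rw [h3]
  refine gn_sum v ρ _ _ fun i hi => ?_
  have hi' : i ≤ l := Nat.lt_succ_iff.1 (Finset.mem_range.1 hi)
  rw [gn_mul v hρ, gn_pow v hρ]
  calc gn v ρ (taylor a (tc f (C b0) i)) * gn v ρ (taylor a h - C b0) ^ i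
      ≤ v r2 ^ (l - i) * v r2 ^ i := mul_le_mul' (hq i hi') (pow_le_pow_left₀ zero_le hh i)
    _ = v r2 ^ l := by rw [← pow_add, Nat.sub_add_cancel hi']
/- END ue -/

/- MODULE uf -/
/-- Module uf, helper. -/
private theorem uf_pow (w : Valuation L Γ) (a b : L) (M : Γ) (l : ℕ) (hl : 1 ≤ l) (hM : M ≠ 0)
    (ha : w a ≤ M) (hb : w b ≤ M) (hab : w (a - b) < M) : w (a ^ l - b ^ l) < M ^ l := by
  rw [← geom_sum₂_mul, map_mul]
  have h1 : w (∑ i ∈ Finset.range l, a ^ i * b ^ (l - 1 - i)) ≤ M ^ (l - 1) := by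
    refine Valuation.map_sum_le w fun i hi => ?_
    have hi' := Finset.mem_range.1 hi
    rw [map_mul, map_pow, map_pow]
    calc w a ^ i * w b ^ (l - 1 - i) ≤ M ^ i * M ^ (l - 1 - i) :=
          mul_le_mul' (pow_le_pow_left₀ zero_le ha _) (pow_le_pow_left₀ zero_le hb _)
      _ = M ^ (l - 1) := by rw [← pow_add]; congr 1; omega
  calc w (∑ i ∈ Finset.range l, a ^ i * b ^ (l - 1 - i)) * w (a - b)
      ≤ M ^ (l - 1) * w (a - b) := mul_le_mul_left h1 _
    _ < M ^ (l - 1) * M := by
        exact (mul_lt_mul_iff_right₀ (zero_lt_iff.2 (pow_ne_zero _ hM))).2 hab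
    _ = M ^ l := by rw [← pow_succ, Nat.sub_add_cancel hl]

/-- Module uf. PROOF. `g = f.eval h`, `c = (taylor a g).coeff 0`, `N = v c = gn v ρ (taylor a g)`,
`0 < N`. `w (aeval x g - c) < N` (expansion at `a`, `hdom`, `hρ`). `y' = y - aeval x h`; by `fx_eval`:
`0 = aeval x g + ∑ i ∈ Ioo 0 l, aeval x (tc f h i) * y' ^ i + y' ^ l`,
`w (aeval x (tc f h i)) ≤ gn v ρ (taylor a (tc f h i))` (`aeval_le_gn`). If `N < w y' ^ l`: `mid'`
gives a contradiction. So `w y' ^ l ≤ N`, by `mid` `w (aeval x g + y' ^ l) < N`, so `w y' ^ l = N`.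
Choose `e` with `w (y' - e) < w y'`; then `w (y' ^ l - e ^ l) < w y' ^ l = N`. So
`w (c + e ^ l) < N`. -/
theorem h4_x {v : Valuation K Γ} {w : Valuation L Γ}
    (hvw : ∀ a : K, w (algebraMap K L a) = v a) (himm : Imm K w) (x y : L) (l : ℕ) (hl : 1 ≤ l)
    (f : K[X][X]) (hfm : f.Monic) (hfd : f.natDegree = l) (hfy : (fx f x).eval y = 0)
    (h : K[X]) (a : K) (ρ : Γ) (hρ : w (x - algebraMap K L a) ≤ ρ)
    (hS : ∀ i, 0 < i → i < l →
      gn v ρ (taylor a (tc f h i)) ^ l < gn v ρ (taylor a (f.eval h)) ^ (l - i))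
    (hdom : ∀ j, 1 ≤ j → v ((taylor a (f.eval h)).coeff j) * ρ ^ j <
      v ((taylor a (f.eval h)).coeff 0)) :
    ∃ e : K, v ((taylor a (f.eval h)).coeff 0 + e ^ l) < v ((taylor a (f.eval h)).coeff 0) := by
  set g := f.eval h with hg
  set c := (taylor a g).coeff 0 with hc
  have hc0 : 0 < v c := lt_of_le_of_lt zero_le (hdom 1 le_rfl)
  have hN : gn v ρ (taylor a g) = v c := by
    refine le_antisymm (gn_le.2 fun j => ?_) ?_
    · rcases Nat.eq_zero_or_pos j with rfl | hj
      · rw [pow_zero, mul_one]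
      · exact (hdom j hj).le
    · have := le_gn v ρ (taylor a g) 0
      rwa [pow_zero, mul_one] at this
  have hexp : aeval x g = aeval (x - algebraMap K L a) (taylor a g) := by
    rw [taylor_apply, aeval_comp, map_add, aeval_X, aeval_C, sub_add_cancel]
  -- the value of `g` at `x`
  have h1 : w (aeval x g - algebraMap K L c) < v c := by
    have h2 := eval_dom w (x - algebraMap K L a) ((taylor a g).map (algebraMap K L)) 0 (v c)
      (fun i hi => by
        rw [coeff_map, hvw]
        exact (mul_le_mul_right (pow_le_pow_left₀ zero_le hρ i) _).trans_lt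
          (hdom i (Nat.one_le_iff_ne_zero.2 hi))) hc0
    rwa [eval_map_algebraMap, ← hexp, pow_zero, mul_one, coeff_map] at h2
  have h2 : w (aeval x g) = v c := by
    have h3 : aeval x g = algebraMap K L c + (aeval x g - algebraMap K L c) := by ring
    rw [h3, Valuation.map_add_eq_of_lt_left w (by rw [hvw]; exact h1), hvw]
  -- the expansion at `h(x)`
  set y' := y - aeval x h with hy'
  have h3 : aeval x g + ∑ i ∈ Finset.Ico 1 l, aeval x (tc f h i) * y' ^ i + y' ^ l = 0 := by
    have h4 := fx_eval f h x y'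
    rw [show aeval x h + y' = y by rw [hy']; ring, hfy, hfd, Finset.sum_range_succ,
      Finset.sum_range_eq_add_Ico _ (by omega : 0 < l), tc_zero, pow_zero, mul_one] at h4
    have h5 : tc f h l = 1 := by rw [← hfd]; exact tc_top f hfm h
    rw [h5, map_one, one_mul] at h4
    exact h4.symm
  have hA : ∀ i ∈ Finset.Ico 1 l, w (aeval x (tc f h i)) ^ l < v c ^ (l - i) := by
    intro i hi
    obtain ⟨hi1, hi2⟩ := Finset.mem_Ico.1 hi
    refine (pow_le_pow_left₀ zero_le (aeval_le_gn hvw x a ρ hρ _) l).trans_lt ?_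
    rw [← hN]
    exact hS i hi1 hi2
  have h4 : w y' ^ l ≤ v c := by
    by_contra hcon
    rw [not_le] at hcon
    have h5 : w (∑ i ∈ Finset.Ico 1 l, aeval x (tc f h i) * y' ^ i) < w y' ^ l := by
      refine Valuation.map_sum_lt w (hc0.trans hcon).ne' fun i hi => ?_
      obtain ⟨hi1, hi2⟩ := Finset.mem_Ico.1 hi
      rw [map_mul, map_pow]
      exact mid' l i hi1 hi2 _ _ _ (hA i hi) hcon
    have h6 : w (aeval x g + ∑ i ∈ Finset.Ico 1 l, aeval x (tc f h i) * y' ^ i) < w (y' ^ l) := by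
      rw [map_pow]
      exact Valuation.map_add_lt w (by rw [h2]; exact hcon) h5
    have h7 := Valuation.map_add_eq_of_lt_left w h6
    rw [add_comm (y' ^ l), h3, map_zero, map_pow] at h7
    exact (hc0.trans hcon).ne h7
  have h5 : w (∑ i ∈ Finset.Ico 1 l, aeval x (tc f h i) * y' ^ i) < v c := by
    refine Valuation.map_sum_lt w hc0.ne' fun i hi => ?_
    obtain ⟨hi1, hi2⟩ := Finset.mem_Ico.1 hi
    rw [map_mul, map_pow]
    exact mid l i hi1 hi2 _ _ _ (hA i hi) h4
  have h6 : w (aeval x g + y' ^ l) < v c := by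
    have h7 : aeval x g + y' ^ l = -∑ i ∈ Finset.Ico 1 l, aeval x (tc f h i) * y' ^ i := by
      linear_combination h3
    rw [h7, Valuation.map_neg]
    exact h5
  have h7 : w y' ^ l = v c := by
    have h8 : y' ^ l = (aeval x g + y' ^ l) - aeval x g := by ring
    rw [← map_pow, h8, Valuation.map_sub_swap, Valuation.map_sub_eq_of_lt_left w (by rw [h2]; exact h6), h2]
  have hy0 : y' ≠ 0 := by
    rintro h0
    rw [h0, map_zero, zero_pow (by omega)] at h7
    exact hc0.ne h7
  obtain ⟨e, he⟩ := himm y' hy0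
  have he' : w (algebraMap K L e) ≤ w y' := by
    have h8 : algebraMap K L e = y' - (y' - algebraMap K L e) := by ring
    rw [h8]
    exact (Valuation.map_sub w _ _).trans (max_le le_rfl he.le)
  have h8 := uf_pow w y' (algebraMap K L e) (w y') l hl ((Valuation.ne_zero_iff w).2 hy0) le_rfl
    he' he
  rw [h7] at h8
  refine ⟨e, ?_⟩
  have h9 : algebraMap K L (c + e ^ l) = (aeval x g + y' ^ l) - (aeval x g - algebraMap K L c)
      - (y' ^ l - algebraMap K L e ^ l) := by
    rw [map_add, map_pow]; ring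
  rw [← hvw (c + e ^ l), h9]
  exact (Valuation.map_sub w _ _).trans_lt (max_lt
    ((Valuation.map_sub w _ _).trans_lt (max_lt h6 h1)) h8)
/- END uf -/

/- MODULE ug -/
/-- Module ug. The data of the core from a chain around `x`. `z` is closer to `x` than `a M`.
PROOF. `v (a k - z) = w (x - a k)` for `k ≤ M`. For `h'` let `h = taylor (-z) h'`, so
`h' = taylor z h`, `(shf f z).eval h' = taylor z (f.eval h)`, `tc (shf f z) h' i =
taylor z (tc f h i)`. `ss`: `hsr` for `z` and `h`: by `hr` and `aeval_le_gn`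
`γ ^ l < w (aeval x (f.eval h)) ^ (l - 1) ≤ gn v ρ (taylor z (f.eval h)) ^ (l - 1)`. `bd`: `bd_x`,
`hq`. `h4`: `h4_x` with `ss`. `nz`: `hnz`. The rest is translation (`ev_shf`). -/
theorem mkCr {v : Valuation K Γ} {w : Valuation L Γ}
    (hvw : ∀ a : K, w (algebraMap K L a) = v a) (himm : Imm K w) (x y : L)
    (l : ℕ) (hl : l.Prime) (hvl : v (l : K) < 1)
    (f : K[X][X]) (hfm : f.Monic) (hfd : f.natDegree = l) (hfy : (fx f x).eval y = 0)
    (γ : Γ) (b0 r2 : K) (hr2 : r2 ≠ 0) (a0 : K)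
    (hsr : ∀ a : K, w (x - algebraMap K L a) ≤ w (x - algebraMap K L a0) →
      ∀ ρ : Γ, w (x - algebraMap K L a) ≤ ρ → ρ ≤ w (x - algebraMap K L a0) →
        ∀ h : K[X], γ ^ l < gn v ρ (taylor a (f.eval h)) ^ (l - 1) →
          ∀ i, 0 < i → i < l →
            gn v ρ (taylor a (tc f h i)) ^ l < gn v ρ (taylor a (f.eval h)) ^ (l - i))
    (hr : ∀ h : K[X], γ ^ l < w (aeval x (f.eval h)) ^ (l - 1))
    (hq : ∀ a : K, w (x - algebraMap K L a) ≤ w (x - algebraMap K L a0) →
      ∀ ρ : Γ, w (x - algebraMap K L a) ≤ ρ → ρ ≤ w (x - algebraMap K L a0) →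
        ∀ i, i ≤ l → gn v ρ (taylor a (tc f (C b0) i)) ≤ v r2 ^ (l - i))
    (hnz : ∀ a' b' : K, w (x - algebraMap K L a') ≤ w (x - algebraMap K L a0) →
      v (b' - b0) ≤ v r2 → ev f a' b' ≠ 0)
    (D : ℕ) (hD : ∀ c : K, ∀ h : K[X], h.natDegree ≤ D →
      ((shf f c).eval h).natDegree ≤ l * D)
    (M : ℕ) (a b : ℕ → K) (z : K) (ha0 : w (x - algebraMap K L (a 0)) ≤ w (x - algebraMap K L a0))
    (hdec : ∀ k, w (x - algebraMap K L (a (k + 1))) < w (x - algebraMap K L (a k)))
    (hz : w (x - algebraMap K L z) < w (x - algebraMap K L (a M)))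
    (hb : ∀ k, v (b k - b0) ≤ v r2)
    (hmin : ∀ k, ∀ a' b' : K, w (x - algebraMap K L a') ≤ w (x - algebraMap K L (a k)) →
      v (b' - b0) ≤ v r2 → v (ev f (a k) (b k)) ≤ v (ev f a' b'))
    (hroom : ∀ k, ∀ g : K, g ≠ 0 → ∃ u : K,
      w (x - algebraMap K L (a (k + 1))) ≤ v g * v u ^ l ∧
        v g * v u ^ l < w (x - algebraMap K L (a k))) :
    Cr v (shf f z) l D M b0 r2 (fun k => a k - z) b := by
  have hmono : ∀ k n, w (x - algebraMap K L (a (k + n))) ≤ w (x - algebraMap K L (a k)) := by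
    intro k n
    induction n with
    | zero => exact le_rfl
    | succ n ih => exact (hdec (k + n)).le.trans ih
  have hmono' : ∀ k k', k ≤ k' →
      w (x - algebraMap K L (a k')) ≤ w (x - algebraMap K L (a k)) := by
    intro k k' h
    obtain ⟨n, rfl⟩ := Nat.exists_eq_add_of_le h
    exact hmono k n
  have hzk : ∀ k, k ≤ M → w (x - algebraMap K L z) < w (x - algebraMap K L (a k)) :=
    fun k hk => hz.trans_le (hmono' k M hk)
  have hval : ∀ k, k ≤ M → v (a k - z) = w (x - algebraMap K L (a k)) := by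
    intro k hk
    have h1 : algebraMap K L (a k - z) =
        (x - algebraMap K L z) - (x - algebraMap K L (a k)) := by
      rw [map_sub]; ring
    rw [← hvw, h1, Valuation.map_sub_swap, Valuation.map_sub_eq_of_lt_left w (hzk k hk)]
  have hne : ∀ k, k ≤ M → v (a k - z) ≠ 0 := by
    intro k hk
    rw [hval k hk]
    exact (lt_of_le_of_lt zero_le (hzk k hk)).ne'
  have hz0 : w (x - algebraMap K L z) ≤ w (x - algebraMap K L a0) :=
    ((hzk 0 (Nat.zero_le M)).trans_le ha0).le
  have hsh : ∀ k, k ≤ M → ∀ a' : K, v a' ≤ v (a k - z) →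
      w (x - algebraMap K L (a' + z)) ≤ w (x - algebraMap K L (a k)) := by
    intro k hk a' ha'
    have h1 : x - algebraMap K L (a' + z) = (x - algebraMap K L z) - algebraMap K L a' := by
      rw [map_add]; ring
    rw [h1]
    refine (Valuation.map_sub w _ _).trans (max_le (hzk k hk).le ?_)
    rw [hvw, ← hval k hk]
    exact ha'
  have htz : ∀ h : K[X], taylor z (taylor (-z) h) = h := by
    intro h
    rw [taylor_taylor, add_neg_cancel, taylor_zero]
  have hev : ∀ h : K[X], (shf f z).eval h = taylor z (f.eval (taylor (-z) h)) := by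
    intro h
    conv_lhs => rw [← htz h]
    rw [shf_eval]
  have htc : ∀ (h : K[X]) (i : ℕ), tc (shf f z) h i = taylor z (tc f (taylor (-z) h) i) := by
    intro h i
    conv_lhs => rw [← htz h]
    rw [tc_shf]
  have hss : ∀ h : K[X], ∀ ρ, v (a M - z) ≤ ρ → ρ ≤ v (a 0 - z) →
      SS v (shf f z) l h ρ := by
    intro h ρ h1 h2 i hi hil
    rw [hval M le_rfl] at h1
    rw [hval 0 (Nat.zero_le M)] at h2
    have h3 : w (x - algebraMap K L z) ≤ ρ := hz.le.trans h1
    rw [hev, htc]
    refine hsr z hz0 ρ h3 (h2.trans ha0) _ ?_ i hi hil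
    exact (hr _).trans_le (pow_le_pow_left₀ zero_le (aeval_le_gn hvw x z ρ h3 _) _)
  refine
    { prime := hl
      small := hvl
      monic := (shf_monic f z hfm).1
      deg := (shf_monic f z hfm).2.trans hfd
      rad := hr2
      ne := fun k hk h0 => hne k hk (by
        have h0' : a k - z = 0 := h0
        rw [h0', map_zero])
      dec := fun k hk => by
        change v (a (k + 1) - z) < v (a k - z)
        rw [hval (k + 1) hk, hval k hk.le]
        exact hdec k
      bb := fun k _ => hb k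
      min := fun k hk a' b' ha' hb' => by
        change v (ev (shf f z) (a k - z) (b k)) ≤ v (ev (shf f z) a' b')
        rw [ev_shf, ev_shf, sub_add_cancel]
        exact hmin k _ _ (hsh k hk a' ha') hb'
      room := fun k hk g hg => by
        obtain ⟨u, hu1, hu2⟩ := hroom k g hg
        refine ⟨u, ?_, ?_⟩
        · change v (a (k + 1) - z) ≤ _
          rw [hval (k + 1) hk]
          exact hu1
        · change _ < v (a k - z)
          rw [hval k hk.le]
          exact hu2
      degb := hD z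
      nz := fun a' b' ha' hb' => by
        rw [ev_shf]
        exact hnz _ _ ((hsh 0 (Nat.zero_le M) a' ha').trans ha0) hb'
      bd := fun h hh => by
        obtain ⟨-, hh2⟩ := hh
        change gn v (v (a 0 - z)) ((shf f z).eval h) ≤ v r2 ^ l
        rw [hev]
        refine bd_x v (hne 0 (Nat.zero_le M)) f l hfd b0 r2 z (fun i hi => ?_) _ ?_
        · refine hq z hz0 _ ?_ ?_ i hi
          · rw [hval 0 (Nat.zero_le M)]
            exact (hzk 0 (Nat.zero_le M)).le
          · rw [hval 0 (Nat.zero_le M)]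
            exact ha0
        · rw [htz]
          exact hh2
      ss := fun h _ ρ h1 h2 => hss h ρ h1 h2
      h4 := fun h hh k hk hdom => by
        have hS := hss h (v (a k - z))
          (by rw [hval k hk, hval M le_rfl]; exact hmono' k M hk)
          (by rw [hval k hk, hval 0 (Nat.zero_le M)]; exact hmono' 0 k (Nat.zero_le k))
        rw [hev]
        refine h4_x hvw himm x y l hl.one_lt.le f hfm hfd hfy (taylor (-z) h) z (v (a k - z)) ?_
          (fun i hi hil => ?_) (fun j hj => ?_)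
        · rw [hval k hk]
          exact (hzk k hk).le
        · have := hS i hi hil
          rwa [hev, htc] at this
        · have := hdom j hj
          rwa [hev] at this }
/- END ug -/

/- MODULE uh -/
/-- Module uh. The case of a cluster of roots. PROOF. Suppose there is no such zero. By `rlem`
(contrapositive, for every `h`): `γ ^ l < w (aeval x (f.eval h)) ^ (l - 1)`,
`γ = w ((taylor y (fx f x)).coeff 1)`. `hsr` gives `a1`; `reg` for the polynomials `tc f (C b0) i`,
`i ≤ l`, and a centre at least as close to `x` as `a1` and `c` gives `a0`; by `Reg` the Gauss norms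
in `hq` of `mkCr` are `w (aeval x (tc f (C b0) i))`, which is `≤ v r2 ^ (l - i)` by `tc_aeval` and
`ci_bd` with `z = b0 - y` (`taylor_taylor`). `degb` gives `D`, `M = 2 * (l * D + 1)`; `box_chain` for
`a0`; `z = a (M + 1)`. `mkCr`, `mm hv hno`, `core`. -/
theorem clus {v : Valuation K Γ} {w : Valuation L Γ} (hv : Ext v)
    (hvw : ∀ a : K, w (algebraMap K L a) = v a) (himm : Imm K w)
    (hno : ∃ P : K[X], 0 < P.natDegree ∧ ∀ t, P.eval t ≠ 0) (x y : L)
    (hx : ∀ a : K, x ≠ algebraMap K L a) (l : ℕ) (hl : l.Prime) (hvl : v (l : K) < 1)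
    (f : K[X][X]) (hfm : f.Monic) (hfd : f.natDegree = l) (hfy : (fx f x).eval y = 0)
    (hci : CI w l (taylor y (fx f x)))
    (hsr : SR v w x f l (w ((taylor y (fx f x)).coeff 1)))
    (b0 r2 : K) (hr2 : r2 ≠ 0) (hy : w (y - algebraMap K L b0) ≤ v r2)
    (hg : w ((taylor y (fx f x)).coeff 1) ≤ v r2 ^ (l - 1)) (c : K) :
    ∃ a b : K, w (x - algebraMap K L a) ≤ w (x - algebraMap K L c) ∧ v (b - b0) ≤ v r2 ∧
      ev f a b = 0 := by
  by_contra hcon
  set γ := w ((taylor y (fx f x)).coeff 1) with hγ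
  have hl2 : 2 ≤ l := hl.two_le
  have hr : ∀ h : K[X], γ ^ l < w (aeval x (f.eval h)) ^ (l - 1) := by
    intro h
    by_contra hh
    rw [not_lt] at hh
    exact hcon (rlem hv hvw himm x y hx l hl2 f hfm hfd hfy hci b0 r2 hr2 hy hg h hh c)
  obtain ⟨a1, ha1⟩ := hsr
  obtain ⟨c', hc1, hc2⟩ : ∃ c' : K, w (x - algebraMap K L c') ≤ w (x - algebraMap K L a1) ∧
      w (x - algebraMap K L c') ≤ w (x - algebraMap K L c) := by
    rcases le_total (w (x - algebraMap K L a1)) (w (x - algebraMap K L c)) with h | h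
    · exact ⟨a1, le_rfl, h⟩
    · exact ⟨c, h, le_rfl⟩
  obtain ⟨a0, ha0, hreg⟩ := reg hv hvw himm x hx (l + 1) (fun i => tc f (C b0) i) c'
  obtain ⟨D, hD⟩ := degb f l (by omega) hfm hfd
  obtain ⟨a, b, h1, h2, h3, h4, h5⟩ :=
    box_chain hv hvw himm x hx l (by omega) f b0 r2 hr2 a0
  have hpd : (taylor y (fx f x)).natDegree ≤ l := by
    rw [natDegree_taylor, ← hfd]
    exact natDegree_map_le
  have hp0 : (taylor y (fx f x)).coeff 0 = 0 := by
    rw [taylor_coeff_zero]
    exact hfy
  refine core hv (mm hv hno) (mkCr hvw himm x y l hl hvl f hfm hfd hfy γ b0 r2 hr2 a0 ?_ hr ?_ ?_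
    D hD (2 * (l * D + 1)) a b (a (2 * (l * D + 1) + 1)) h1.le h2 (h2 _) h3 h4 h5)
  · intro a' ha' ρ hρ1 hρ2
    exact ha1 a' (ha'.trans (ha0.trans hc1)) ρ hρ1 (hρ2.trans (ha0.trans hc1))
  · intro a' ha' ρ hρ1 hρ2 i hi
    have h6 := (hreg i (by omega)).2 a' ha'
    rw [h6.2.2 ρ hρ1 hρ2, tc_aeval, aeval_C]
    have h7 : taylor (algebraMap K L b0) (fx f x) =
        taylor (algebraMap K L b0 - y) (taylor y (fx f x)) := by
      rw [taylor_taylor, sub_add_cancel]
    rw [h7]
    exact ci_bd l hl2 _ hpd hp0 hci _ (v r2) (by rw [Valuation.map_sub_swap]; exact hy) hg i hi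
  · intro a' b' ha' hb' h0
    exact hcon ⟨a', b', ha'.trans (ha0.trans hc2), hb', h0⟩
/- END uh -/

end

end Pool.Agent.Xtc
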