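import Pool.Agent.Xtc.Defs

set_option autoImplicit false

namespace Pool.Agent.Xtc

variable {Γ : Type*} [LinearOrderedCommGroupWithZero Γ]

/- MODULE pa -/
/-- Module pa. The dominating index does not increase when the radius decreases. PROOF. Otherwise
`j < j'`: multiply `c j' * ρ ^ j' ≤ c j * ρ ^ j` and `c j * σ ^ j ≤ c j' * σ ^ j'`; cancel
`c j * c j' ≠ 0` and powers: `ρ ^ (j' - j) ≤ σ ^ (j' - j)`. -/
theorem dom_mono (c : ℕ → Γ) (ρ σ : Γ) (hσ : 0 < σ) (h : σ < ρ) (j j' : ℕ) (hj : c j ≠ 0)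
    (hj' : c j' ≠ 0) (h1 : c j' * ρ ^ j' ≤ c j * ρ ^ j) (h2 : c j * σ ^ j ≤ c j' * σ ^ j') :
    j' ≤ j := by
  by_contra hlt
  rw [not_le] at hlt
  obtain ⟨k, rfl⟩ := Nat.exists_eq_add_of_lt hlt
  have hρ : 0 < ρ := hσ.trans h
  have hy : 0 < c (j + k + 1) := zero_lt_iff.2 hj'
  have e1 : c (j + k + 1) * ρ ^ (k + 1) ≤ c j := by
    refine le_of_mul_le_mul_right ?_ (pow_pos hρ j)
    calc c (j + k + 1) * ρ ^ (k + 1) * ρ ^ j = c (j + k + 1) * ρ ^ (j + k + 1) := by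
          rw [mul_assoc, ← pow_add]; congr 2; omega
      _ ≤ _ := h1
  have e2 : c j ≤ c (j + k + 1) * σ ^ (k + 1) := by
    refine le_of_mul_le_mul_right ?_ (pow_pos hσ j)
    calc c j * σ ^ j ≤ c (j + k + 1) * σ ^ (j + k + 1) := h2
      _ = c (j + k + 1) * σ ^ (k + 1) * σ ^ j := by
          rw [mul_assoc, ← pow_add]; congr 2; omega
  have e3 : ρ ^ (k + 1) ≤ σ ^ (k + 1) := le_of_mul_le_mul_left (e1.trans e2) hy
  exact absurd (pow_lt_pow_left₀ h zero_le (Nat.succ_ne_zero k)) (not_lt.2 e3)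

/-- Module pa. Strictness at a radius between two radii with the same dominating index. PROOF. If
`c j' = 0` the left side is `0`. For `j' < j`: `c j' * ρ ^ j' = c j' * σ ^ j' * (ρ / σ) ^ j'`
`≤ c j * σ ^ j * (ρ / σ) ^ j' < c j * σ ^ j * (ρ / σ) ^ j`; for `j < j'` the same with `τ`. -/
theorem dom_strict (c : ℕ → Γ) (τ ρ σ : Γ) (hσ : 0 < σ) (h1 : σ < ρ) (h2 : ρ < τ) (j j' : ℕ)
    (hj : c j ≠ 0) (hjj : j' ≠ j) (ha : c j' * τ ^ j' ≤ c j * τ ^ j)
    (hb : c j' * σ ^ j' ≤ c j * σ ^ j) : c j' * ρ ^ j' < c j * ρ ^ j := by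
  have hρ : 0 < ρ := hσ.trans h1
  have hτ : 0 < τ := hρ.trans h2
  have hx : 0 < c j := zero_lt_iff.2 hj
  by_cases hy0 : c j' = 0
  · rw [hy0, zero_mul]
    exact mul_pos hx (pow_pos hρ j)
  have hy : 0 < c j' := zero_lt_iff.2 hy0
  rcases lt_or_gt_of_ne hjj with hlt | hlt
  · obtain ⟨k, rfl⟩ := Nat.exists_eq_add_of_lt hlt
    have e1 : c j' ≤ c (j' + k + 1) * σ ^ (k + 1) := by
      refine le_of_mul_le_mul_right ?_ (pow_pos hσ j')
      calc c j' * σ ^ j' ≤ c (j' + k + 1) * σ ^ (j' + k + 1) := hb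
        _ = c (j' + k + 1) * σ ^ (k + 1) * σ ^ j' := by
            rw [mul_assoc, ← pow_add]; congr 2; omega
    have e2 : c (j' + k + 1) * σ ^ (k + 1) < c (j' + k + 1) * ρ ^ (k + 1) :=
      mul_lt_mul_of_pos_left (pow_lt_pow_left₀ h1 zero_le (Nat.succ_ne_zero k)) hx
    calc c j' * ρ ^ j' < c (j' + k + 1) * ρ ^ (k + 1) * ρ ^ j' :=
          mul_lt_mul_of_pos_right (e1.trans_lt e2) (pow_pos hρ j')
      _ = c (j' + k + 1) * ρ ^ (j' + k + 1) := by
            rw [mul_assoc, ← pow_add]; congr 2; omega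
  · obtain ⟨k, rfl⟩ := Nat.exists_eq_add_of_lt hlt
    have e1 : c (j + k + 1) * τ ^ (k + 1) ≤ c j := by
      refine le_of_mul_le_mul_right ?_ (pow_pos hτ j)
      calc c (j + k + 1) * τ ^ (k + 1) * τ ^ j = c (j + k + 1) * τ ^ (j + k + 1) := by
            rw [mul_assoc, ← pow_add]; congr 2; omega
        _ ≤ c j * τ ^ j := ha
    have e2 : c (j + k + 1) * ρ ^ (k + 1) < c (j + k + 1) * τ ^ (k + 1) :=
      mul_lt_mul_of_pos_left (pow_lt_pow_left₀ h2 zero_le (Nat.succ_ne_zero k)) hy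
    calc c (j + k + 1) * ρ ^ (j + k + 1) = c (j + k + 1) * ρ ^ (k + 1) * ρ ^ j := by
            rw [mul_assoc, ← pow_add]; congr 2; omega
      _ < c j * ρ ^ j := mul_lt_mul_of_pos_right (e2.trans_le e1) (pow_pos hρ j)
/- END pa -/

/- MODULE pb -/
/-- Module pb. Pigeonhole. PROOF. For every `k ≤ 2 * (n + 1)` choose an index `J k ≤ n` with
`c j' * ρ k ^ j' ≤ c (J k) * ρ k ^ J k` for all `j' ≤ n` (`Finset.exists_max_image` on
`range (n + 1)`); `c (J k) ≠ 0` since `c i ≠ 0` for some `i ≤ n`. By `dom_mono` `J` is antitone on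
`{0, .., 2 (n + 1)}`. If no three consecutive values were equal, `J (k + 2) < J k` for all `k` (as
`J (k+2) ≤ J (k+1) ≤ J k`), so `J (2 i) ≤ n - i`, and `J (2 (n+1)) < 0`: contradiction. -/
theorem pig (n : ℕ) (c ρ : ℕ → Γ) (hc : ∃ i, i ≤ n ∧ c i ≠ 0)
    (hρ0 : ∀ k, k ≤ 2 * (n + 1) → 0 < ρ k) (hρ : ∀ k, k < 2 * (n + 1) → ρ (k + 1) < ρ k) :
    ∃ k, k + 2 ≤ 2 * (n + 1) ∧ ∃ j, j ≤ n ∧ c j ≠ 0 ∧ ∀ i, k ≤ i → i ≤ k + 2 →
      ∀ j', j' ≤ n → c j' * ρ i ^ j' ≤ c j * ρ i ^ j := by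
  obtain ⟨i0, hi0, hci0⟩ := hc
  have hJ : ∀ k, ∃ j, j ≤ n ∧ ∀ j', j' ≤ n → c j' * ρ k ^ j' ≤ c j * ρ k ^ j := by
    intro k
    obtain ⟨j, hj, hmax⟩ := Finset.exists_max_image (Finset.range (n + 1))
      (fun j => c j * ρ k ^ j) ⟨0, by simp⟩
    exact ⟨j, by simpa [Nat.lt_succ_iff] using hj,
      fun j' hj' => hmax j' (by simpa [Nat.lt_succ_iff] using hj')⟩
  choose J hJn hJm using hJ
  have hJ0 : ∀ k, k ≤ 2 * (n + 1) → c (J k) ≠ 0 := by
    intro k hk h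
    have h1 := hJm k i0 hi0
    rw [h, zero_mul] at h1
    exact absurd (mul_pos (zero_lt_iff.2 hci0) (pow_pos (hρ0 k hk) i0)) (not_lt.2 h1)
  have hanti : ∀ k, k < 2 * (n + 1) → J (k + 1) ≤ J k := by
    intro k hk
    exact dom_mono c (ρ k) (ρ (k + 1)) (hρ0 _ (by omega)) (hρ k hk) (J k) (J (k + 1))
      (hJ0 k (by omega)) (hJ0 (k + 1) (by omega)) (hJm k _ (hJn _)) (hJm (k + 1) _ (hJn _))
  by_contra hcon
  have hstep : ∀ k, k + 2 ≤ 2 * (n + 1) → J (k + 2) < J k := by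
    intro k hk
    by_contra hge
    rw [not_lt] at hge
    have a1 := hanti k (by omega)
    have a2 := hanti (k + 1) (by omega)
    have e1 : J (k + 1) = J k := by
      rw [show k + 1 + 1 = k + 2 from rfl] at a2
      omega
    have e2 : J (k + 2) = J k := by
      rw [show k + 1 + 1 = k + 2 from rfl] at a2
      omega
    refine hcon ⟨k, hk, J k, hJn k, hJ0 k (by omega), ?_⟩
    intro i h1 h2 j' hj'
    have h3 : i = k ∨ i = k + 1 ∨ i = k + 2 := by omega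
    rcases h3 with rfl | rfl | rfl
    · exact hJm _ j' hj'
    · rw [← e1]
      exact hJm _ j' hj'
    · rw [← e2]
      exact hJm _ j' hj'
  have hind : ∀ i, i ≤ n + 1 → J (2 * i) + i ≤ n := by
    intro i
    induction i with
    | zero =>
      intro _
      simpa using hJn 0
    | succ i ih =>
      intro hi
      have h1 := ih (by omega)
      have h2 := hstep (2 * i) (by omega)
      rw [show 2 * (i + 1) = 2 * i + 2 by ring]
      omega
  have := hind (n + 1) le_rfl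
  omega
/- END pb -/

end Pool.Agent.Xtc
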