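import Pool.Agent.Xtc.Sim
import Pool.Agent.Xtc.Pg

set_option autoImplicit false

namespace Pool.Agent.Xtc

open Polynomial Pool.Agent.Xtr

variable {K : Type*} [Field K] {Γ : Type*} [LinearOrderedCommGroupWithZero Γ]

/- MODULE ca -/
/-- Module ca. Consequences of `Cr`: the radii decrease. -/
theorem Cr.le {v : Valuation K Γ} {f : K[X][X]} {l D M : ℕ} {b0 r2 : K} {a b : ℕ → K}
    (H : Cr v f l D M b0 r2 a b) (k k' : ℕ) (h : k ≤ k') (h' : k' ≤ M) : v (a k') ≤ v (a k) := by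
  induction k', h using Nat.le_induction with
  | base => exact le_rfl
  | succ n hn ih => exact (H.dec n (by omega)).le.trans (ih (by omega))

private theorem ca_box {v : Valuation K Γ} {D : ℕ} {r0 b0 r2 : K} {h : K[X]}
    (hh : HS v D r0 b0 r2 h) (a' : K) (ha : v a' ≤ v r0) : v (h.eval a' - b0) ≤ v r2 := by
  have h1 := (eval_le_gn v a' ha (h - C b0)).trans hh.2
  rwa [eval_sub, eval_C] at h1

/-- Module ca. PROOF. `f(X, h(X)) ≠ 0` for `h` in `HS`: otherwise `(a 0, h (a 0))` is a zero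
(`ev_eval`, `eval_le_gn` for `h - C b0`). -/
theorem Cr.hne {v : Valuation K Γ} {f : K[X][X]} {l D M : ℕ} {b0 r2 : K} {a b : ℕ → K}
    (H : Cr v f l D M b0 r2 a b) (h : K[X]) (hh : HS v D (a 0) b0 r2 h) : f.eval h ≠ 0 := by
  intro h0
  refine H.nz (a 0) (h.eval (a 0)) le_rfl (ca_box hh _ le_rfl) ?_
  rw [ev_eval, h0, eval_zero]

/-- Module ca. PROOF. `sim` with `r0 = a 0`, `s = a`. -/
theorem Cr.exists_opt {v : Valuation K Γ} {f : K[X][X]} {l D M : ℕ} {b0 r2 : K} {a b : ℕ → K}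
    (H : Cr v f l D M b0 r2 a b) (hmm : MM v) :
    ∃ h, ∀ k, k ≤ M → Opt v f D (a 0) b0 r2 (v (a k)) h := by
  exact sim hmm l D H.prime H.small (a 0) b0 r2 (H.ne 0 (Nat.zero_le _)) H.rad f H.monic H.deg
    H.degb H.hne H.bd M a H.ne (fun k hk => H.le 0 k (Nat.zero_le _) hk)
    (fun h hh k hk => H.ss h hh (v (a k)) (H.le k M hk le_rfl) (H.le 0 k (Nat.zero_le _) hk))

/-- Module ca. An optimal polynomial with a strictly dominating coefficient: this coefficient is not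
close to an `l`-th power. PROOF. Suppose `v (c + s ^ l) < v c`, `c = (f.eval h).coeff (l * i)`. By
`cor` with `J = {i}` all coefficients of `f.eval (h + C s * X ^ i)` are small at `ρ = v (a k)`:
`gn v ρ (f.eval (h + C s * X ^ i)) < gn v ρ (f.eval h)`. `h + C s * X ^ i` is in `HS`: `HS.add`,
`cor_size` at the radius `v (a 0)`, `H.bd`; `i ≤ D` by `H.degb` (`coeff (l * i) ≠ 0`, `l * i ≤
l * D`). -/
theorem Cr.nopow {v : Valuation K Γ} {f : K[X][X]} {l D M : ℕ} {b0 r2 : K} {a b : ℕ → K}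
    (H : Cr v f l D M b0 r2 a b) (h : K[X]) (k : ℕ) (hk : k ≤ M)
    (hopt : Opt v f D (a 0) b0 r2 (v (a k)) h) (i : ℕ)
    (hdom : ∀ j, j ≠ l * i → v ((f.eval h).coeff j) * v (a k) ^ j <
      v ((f.eval h).coeff (l * i)) * v (a k) ^ (l * i)) (s : K) :
    v ((f.eval h).coeff (l * i)) ≤ v ((f.eval h).coeff (l * i) + s ^ l) := by
  by_contra hlt
  rw [not_le] at hlt
  have hl0 : 0 < l := H.prime.pos
  have hρ : v (a k) ≠ 0 := v.ne_zero_iff.2 (H.ne k hk)
  have hS : SS v f l h (v (a k)) := H.ss h hopt.1 _ (H.le k M hk le_rfl)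
    (H.le 0 k (Nat.zero_le _) hk)
  have hc0 : (f.eval h).coeff (l * i) ≠ 0 := v.ne_zero_iff.1 (lt_of_le_of_lt zero_le hlt).ne'
  have hne : f.eval h ≠ 0 := H.hne h hopt.1
  have h0 : gn v (v (a k)) (f.eval h) ≠ 0 := gn_ne_zero hρ hne
  have hs : ∀ i' ∈ ({i} : Finset ℕ), v ((f.eval h).coeff (l * i') + (fun _ : ℕ => s) i' ^ l) <
      v ((f.eval h).coeff (l * i')) := by
    intro i' hi'
    rw [Finset.mem_singleton] at hi'
    rw [hi']
    exact hlt
  obtain ⟨h1, h2⟩ := cor v hρ f l H.prime H.small H.monic H.deg h hS h0 {i} (fun _ => s) hs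
  have h3 := cor_size v (v (a 0)) (f.eval h) l hl0 {i} (fun _ => s) hs
  rw [Finset.sum_singleton] at h1 h2 h3
  have hiD : i ≤ D := by
    have h4 : l * i ≤ l * D := (le_natDegree_of_ne_zero hc0).trans (H.degb h hopt.1.1)
    exact Nat.le_of_mul_le_mul_left h4 hl0
  have h5 : HS v D (a 0) b0 r2 (h + C s * X ^ i) := by
    refine hopt.1.add ((natDegree_C_mul_X_pow_le _ _).trans hiD) ?_
    exact (pow_le_pow_iff_left₀ zero_le zero_le hl0.ne').1 (h3.trans (H.bd h hopt.1))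
  have h6 := hopt.2 _ h5
  have h7 : gn v (v (a k)) (f.eval (h + C s * X ^ i)) < gn v (v (a k)) (f.eval h) := by
    rw [gn_lt (lt_of_le_of_ne zero_le h0.symm)]
    intro j
    by_cases hj : j = l * i
    · rw [hj]
      exact h1 i (Finset.mem_singleton_self i)
    · have h8 := h2 j (by
        intro i' hi'
        rw [Finset.mem_singleton] at hi'
        rw [hi']
        exact hj)
      have h9 : v ((f.eval h).coeff j) * v (a k) ^ j < gn v (v (a k)) (f.eval h) :=
        (hdom j hj).trans_le (le_gn v _ _ _)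
      have h10 : v ((f.eval (h + C s * X ^ i)).coeff j) ≤
          max (v ((f.eval (h + C s * X ^ i)).coeff j - (f.eval h).coeff j))
            (v ((f.eval h).coeff j)) := by
        have := v.map_add ((f.eval (h + C s * X ^ i)).coeff j - (f.eval h).coeff j)
          ((f.eval h).coeff j)
        rwa [sub_add_cancel] at this
      rcases le_max_iff.1 h10 with h11 | h11
      · exact (mul_le_mul_left h11 _).trans_lt h8
      · exact (mul_le_mul_left h11 _).trans_lt h9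
  exact absurd h6 (not_le.2 h7)
/- END ca -/

/- MODULE cb -/
private theorem cb_gn {v : Valuation K Γ} {ρ : Γ} {g : K[X]} {j : ℕ}
    (h : ∀ j', v (g.coeff j') * ρ ^ j' ≤ v (g.coeff j) * ρ ^ j) :
    gn v ρ g = v (g.coeff j) * ρ ^ j :=
  le_antisymm (gn_le.2 h) (le_gn v ρ g j)

/-- Module cb. Case `j = l * i`, `i ≥ 1`. PROOF. `N ρ = gn v ρ (f.eval h)`, `ρ = v (a k)`,
`σ = v (a (k + 1))`; `j = l * i`, `c = (f.eval h).coeff j`, `N ρ = v c * ρ ^ j`,
`N σ = v c * σ ^ j < N ρ` as `j ≥ 1`. Let `b' = b k - h.eval (a k)`. If `N ρ < v b' ^ l`: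
`v (ev f (a k) (b k)) = v b' ^ l > N ρ` (`big_ev`). Otherwise `pert_ev` and `eval_dom`: the
difference of `ev f (a k) (b k)` and `c * a k ^ j + b' ^ l = a k ^ j * (c + (b' / a k ^ i) ^ l)` is
`< N ρ`, and the latter is `≥ N ρ` by `Cr.nopow`. So `N ρ ≤ v (ev f (a k) (b k))`. But
`v (ev f (a (k + 1)) (h.eval (a (k + 1)))) ≤ N σ < N ρ` (`ev_eval`, `eval_le_gn`), against
`H.min k` (`v (h.eval (a (k + 1)) - b0) ≤ v r2` from `HS` and `eval_le_gn`). -/
theorem Cr.caseL {v : Valuation K Γ} {f : K[X][X]} {l D M : ℕ} {b0 r2 : K} {a b : ℕ → K}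
    (H : Cr v f l D M b0 r2 a b) (h : K[X]) (k : ℕ) (hk : k + 1 ≤ M)
    (hopt : Opt v f D (a 0) b0 r2 (v (a k)) h) (i : ℕ) (hi : 1 ≤ i)
    (hdom : ∀ j, j ≠ l * i → v ((f.eval h).coeff j) * v (a k) ^ j <
      v ((f.eval h).coeff (l * i)) * v (a k) ^ (l * i))
    (hdom' : ∀ j, v ((f.eval h).coeff j) * v (a (k + 1)) ^ j ≤
      v ((f.eval h).coeff (l * i)) * v (a (k + 1)) ^ (l * i)) : False := by
  have hl0 : 0 < l := H.prime.pos
  have hkM : k ≤ M := by omega
  have hak := H.ne k hkM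
  have hρ : v (a k) ≠ 0 := v.ne_zero_iff.2 hak
  have hσρ : v (a (k + 1)) < v (a k) := H.dec k (by omega)
  have hS : SS v f l h (v (a k)) := H.ss h hopt.1 _ (H.le k M hkM le_rfl)
    (H.le 0 k (Nat.zero_le _) hkM)
  have hc : v ((f.eval h).coeff (l * i)) ≠ 0 := by
    intro h0
    have h1 := hdom (l * i + 1) (by omega)
    rw [h0, zero_mul] at h1
    exact absurd h1 (not_lt.2 zero_le)
  have hli : l * i ≠ 0 := Nat.mul_ne_zero hl0.ne' (by omega)
  have hN : gn v (v (a k)) (f.eval h) = v ((f.eval h).coeff (l * i)) * v (a k) ^ (l * i) := by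
    refine cb_gn fun j' => ?_
    by_cases hj : j' = l * i
    · rw [hj]
    · exact (hdom j' hj).le
  have hN' : gn v (v (a (k + 1))) (f.eval h) =
      v ((f.eval h).coeff (l * i)) * v (a (k + 1)) ^ (l * i) := cb_gn hdom'
  have hNN : gn v (v (a (k + 1))) (f.eval h) < gn v (v (a k)) (f.eval h) := by
    rw [hN, hN']
    exact mul_lt_mul_of_pos_left (pow_lt_pow_left₀ hσρ zero_le hli)
      (lt_of_le_of_ne zero_le hc.symm)
  have hNpos : 0 < gn v (v (a k)) (f.eval h) := lt_of_le_of_lt zero_le hNN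
  have ha0 : v (a (k + 1)) ≤ v (a 0) := H.le 0 (k + 1) (Nat.zero_le _) hk
  have h1 : v (ev f (a k) (b k)) < gn v (v (a k)) (f.eval h) := by
    refine ((H.min k hkM (a (k + 1)) (h.eval (a (k + 1))) hσρ.le
      (ca_box hopt.1 _ ha0)).trans ?_).trans_lt hNN
    rw [ev_eval]
    exact eval_le_gn v _ le_rfl _
  have h2 : ev f (a k) (b k) = ev f (a k) (h.eval (a k) + (b k - h.eval (a k))) := by
    rw [add_sub_cancel]
  rw [h2] at h1
  rcases lt_or_ge (gn v (v (a k)) (f.eval h)) (v (b k - h.eval (a k)) ^ l) with h3 | h3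
  · rw [big_ev v f l hl0 H.monic H.deg h hS (a k) _ le_rfl h3] at h1
    exact lt_asymm h1 h3
  · have h4 := pert_ev v f l hl0 H.monic H.deg h hS hNpos.ne' (a k) _ le_rfl h3
    have h5 := eval_dom v (a k) (f.eval h) (l * i) (gn v (v (a k)) (f.eval h))
      (fun j hj => (hdom j hj).trans_le hN.ge) hNpos
    have h6 := H.nopow h k hkM hopt i hdom ((b k - h.eval (a k)) / a k ^ i)
    have h7 : (f.eval h).coeff (l * i) * a k ^ (l * i) + (b k - h.eval (a k)) ^ l =
        ((f.eval h).coeff (l * i) + ((b k - h.eval (a k)) / a k ^ i) ^ l) * a k ^ (l * i) := by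
      have h8 : (a k ^ i) ^ l = a k ^ (l * i) := by
        rw [← pow_mul, mul_comm]
      rw [add_mul, div_pow, h8, div_mul_cancel₀ _ (pow_ne_zero _ hak)]
    have h8 : gn v (v (a k)) (f.eval h) ≤
        v ((f.eval h).coeff (l * i) * a k ^ (l * i) + (b k - h.eval (a k)) ^ l) := by
      rw [h7, hN, map_mul, map_pow]
      exact mul_le_mul_left h6 _
    have h9 : (f.eval h).coeff (l * i) * a k ^ (l * i) + (b k - h.eval (a k)) ^ l =
        ev f (a k) (h.eval (a k) + (b k - h.eval (a k))) -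
        ((ev f (a k) (h.eval (a k) + (b k - h.eval (a k))) - (f.eval h).eval (a k) -
          (b k - h.eval (a k)) ^ l) +
        ((f.eval h).eval (a k) - (f.eval h).coeff (l * i) * a k ^ (l * i))) := by
      ring
    have h10 : v ((f.eval h).coeff (l * i) * a k ^ (l * i) + (b k - h.eval (a k)) ^ l) <
        gn v (v (a k)) (f.eval h) := by
      rw [h9]
      exact v.map_sub_lt h1 (v.map_add_lt h4 h5)
    exact absurd h8 (not_le.2 h10)

/-- Module cb. Case `j = 0`. PROOF. `H.h4` gives `e`, against `Cr.nopow` with `i = 0`. -/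
theorem Cr.case0 {v : Valuation K Γ} {f : K[X][X]} {l D M : ℕ} {b0 r2 : K} {a b : ℕ → K}
    (H : Cr v f l D M b0 r2 a b) (h : K[X]) (k : ℕ) (hk : k ≤ M)
    (hopt : Opt v f D (a 0) b0 r2 (v (a k)) h)
    (hdom : ∀ j, 1 ≤ j → v ((f.eval h).coeff j) * v (a k) ^ j < v ((f.eval h).coeff 0)) :
    False := by
  obtain ⟨e, he⟩ := H.h4 h hopt.1 k hk hdom
  have h1 := H.nopow h k hk hopt 0 (fun j hj => by
    rw [Nat.mul_zero, pow_zero, mul_one]
    exact hdom j (by omega)) e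
  rw [Nat.mul_zero] at h1
  exact absurd h1 (not_le.2 he)
/- END cb -/

/- MODULE cc -/
/-- Module cc. The exponent arithmetic for the case `l ∤ j`. -/
theorem arith (l j : ℕ) (hl : l.Prime) (hj : ¬ l ∣ j) : ∃ i m : ℕ, 1 + i * j = l * m := by
  have : Fact l.Prime := ⟨hl⟩
  have hj' : (j : ZMod l) ≠ 0 := by
    rw [Ne, ZMod.natCast_eq_zero_iff]
    exact hj
  refine ⟨(-(j : ZMod l)⁻¹).val, ?_⟩
  have h1 : ((1 + (-(j : ZMod l)⁻¹).val * j : ℕ) : ZMod l) = 0 := by
    rw [Nat.cast_add, Nat.cast_mul, ZMod.natCast_zmod_val, Nat.cast_one, neg_mul,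
      inv_mul_cancel₀ hj', add_neg_cancel]
  rw [ZMod.natCast_eq_zero_iff] at h1
  exact h1

/-- Module cc. If `v l < 1` and `l ∤ j` then `v j = 1`. PROOF. `Nat.Coprime`, Bezout:
`1 = x * j + y * l` in `ℤ`. -/
theorem cast_unit {v : Valuation K Γ} (l j : ℕ) (hl : l.Prime) (hvl : v (l : K) < 1)
    (hj : ¬ l ∣ j) : v (j : K) = 1 := by
  obtain ⟨i, m, h⟩ := arith l j hl hj
  refine le_antisymm (natCast_le v j) ?_
  by_contra hlt
  rw [not_le] at hlt
  have h1 : (1 : K) = l * m - i * j := by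
    have h2 : ((1 + i * j : ℕ) : K) = ((l * m : ℕ) : K) := by rw [h]
    push_cast at h2
    rw [← h2]
    ring
  have h3 : v ((l : K) * m) < 1 := by
    rw [map_mul]
    calc v (l : K) * v (m : K) ≤ v (l : K) * 1 := mul_le_mul_right (natCast_le v m) _
      _ = v (l : K) := mul_one _
      _ < 1 := hvl
  have h4 : v ((i : K) * j) < 1 := by
    rw [map_mul]
    calc v (i : K) * v (j : K) ≤ 1 * v (j : K) := mul_le_mul_left (natCast_le v i) _
      _ = v (j : K) := one_mul _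
      _ < 1 := hlt
  have h5 := v.map_sub_lt h3 h4
  rw [← h1, map_one] at h5
  exact lt_irrefl _ h5

/-- Module cc. PROOF. For `l` odd the sum is `0`; for `l = 2` it is `2 * c`. -/
theorem sign_lt {v : Valuation K Γ} (l : ℕ) (hl : l.Prime) (hvl : v (l : K) < 1) (c : K)
    (hc : c ≠ 0) : v (c + (-1) ^ l * c) < v c := by
  have hvc : 0 < v c := lt_of_le_of_ne zero_le (v.ne_zero_iff.2 hc).symm
  rcases hl.eq_two_or_odd' with h2 | h2
  · have h3 : c + (-1) ^ l * c = (l : K) * c := by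
      rw [h2]
      push_cast
      ring
    rw [h3, map_mul]
    calc v (l : K) * v c < 1 * v c := mul_lt_mul_of_pos_right hvl hvc
      _ = v c := one_mul _
  · rw [h2.neg_one_pow]
    have h3 : c + -1 * c = 0 := by ring
    rw [h3, map_zero]
    exact hvc
/- END cc -/

/- MODULE cd -/
/-- Module cd. Gauss norm of `g(d (1 + T))`. PROOF. `g.comp (C d * (1 + X)) =
(taylor 1 (g.comp (C d * X)))`, `gn v 1 (g.comp (C d * X)) = gn v (v d) g`, `gn_taylor` with
`v 1 ≤ 1`. -/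
theorem gn_scale (v : Valuation K Γ) (d : K) (g : K[X]) :
    gn v 1 (g.comp (C d * (1 + X))) = gn v (v d) g := by
  have h1 : g.comp (C d * (1 + X)) = taylor 1 (g.comp (C d * X)) := by
    rw [taylor_apply, comp_assoc]
    congr 1
    rw [mul_comp, C_comp, X_comp, C_1, add_comm]
  rw [h1, gn_taylor v 1 (map_one v).le]
  have h2 : ∀ j, v ((g.comp (C d * X)).coeff j) * 1 ^ j = v (g.coeff j) * v d ^ j := by
    intro j
    rw [comp_C_mul_X_coeff, map_mul, map_pow, one_pow, mul_one]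
  refine le_antisymm (gn_le.2 fun j => ?_) (gn_le.2 fun j => ?_)
  · rw [h2]
    exact le_gn v _ _ _
  · rw [← h2]
    exact le_gn v _ _ _

private theorem cd_root {v : Valuation K Γ} (hv : Ext v) (P Q : K[X]) (u e : K) (j : ℕ)
    (hj : v (j : K) = 1) (hu : u ≠ 0) (hP : P = Q + C u * (1 + X) ^ j + C e)
    (hQ : gn v 1 Q < v u) (hue : v (u + e) < v u) : ∃ t, v t < 1 ∧ P.eval t = 0 := by
  have hvu : 0 < v u := lt_of_le_of_ne zero_le (v.ne_zero_iff.2 hu).symm
  have hQc : ∀ i, v (Q.coeff i) < v u := by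
    intro i
    have h1 := (gn_lt hvu).1 hQ i
    rwa [one_pow, mul_one] at h1
  have hve : v e ≤ v u := by
    have h1 : e = (u + e) - u := by ring
    rw [h1]
    exact v.map_sub_le hue.le le_rfl
  have hc : ∀ i, P.coeff i = Q.coeff i + u * (j.choose i : K) + (C e).coeff i := by
    intro i
    rw [hP, coeff_add, coeff_add, coeff_C_mul, coeff_one_add_X_pow]
  have hCe : ∀ i, v ((C e : K[X]).coeff i) ≤ v u := by
    intro i
    rw [coeff_C]
    split_ifs
    · exact hve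
    · rw [map_zero]
      exact zero_le
  have hall : ∀ i, v (P.coeff i) ≤ v u := by
    intro i
    rw [hc]
    refine v.map_add_le (v.map_add_le (hQc i).le ?_) (hCe i)
    rw [map_mul]
    calc v u * v ((j.choose i : ℕ) : K) ≤ v u * 1 := mul_le_mul_right (natCast_le v _) _
      _ = v u := mul_one _
  have hc0 : v (P.coeff 0) < v u := by
    have h1 : P.coeff 0 = Q.coeff 0 + (u + e) := by
      rw [hc, Nat.choose_zero_right, coeff_C_zero, Nat.cast_one]
      ring
    rw [h1]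
    exact v.map_add_lt (hQc 0) hue
  have hc1 : v (P.coeff 1) = v u := by
    have h1 : P.coeff 1 = Q.coeff 1 + u * j := by
      rw [hc, Nat.choose_one_right, coeff_C_succ, add_zero]
    have h2 : v (u * j) = v u := by
      rw [map_mul, hj, mul_one]
    rw [h1, v.map_add_eq_of_lt_right (by rw [h2]; exact hQc 1), h2]
  have hscale : ∀ i, v ((C u⁻¹ * P).coeff i) = (v u)⁻¹ * v (P.coeff i) := by
    intro i
    rw [coeff_C_mul, map_mul, map_inv₀]
  obtain ⟨t, ht, ht'⟩ := hensB hv (C u⁻¹ * P) (fun i => by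
    rw [hscale]
    calc (v u)⁻¹ * v (P.coeff i) ≤ (v u)⁻¹ * v u := mul_le_mul_right (hall i) _
      _ = 1 := inv_mul_cancel₀ hvu.ne') (by
    rw [hscale]
    calc (v u)⁻¹ * v (P.coeff 0) < (v u)⁻¹ * v u := mul_lt_mul_of_pos_left hc0 (inv_pos.2 hvu)
      _ = 1 := inv_mul_cancel₀ hvu.ne') (by
    rw [hscale, hc1, inv_mul_cancel₀ hvu.ne'])
  refine ⟨t, ht, ?_⟩
  rw [eval_mul, eval_C] at ht'
  exact (mul_eq_zero.1 ht').resolve_left (inv_ne_zero hu)

/-- Module cd. Hensel's lemma for `f` at `(d, h(d) + b)`. PROOF. `c = (f.eval h).coeff j`,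
`N = v c * v d ^ j = gn v (v d) (f.eval h)`, `v b ^ l = N`. The polynomial
`P = (f.eval h).comp (C d * (1 + X)) + ∑ i ∈ Ioo 0 l, (tc f h i).comp (..) * C b ^ i + C b ^ l`;
`ev f (d * (1 + t)) (h.eval (d * (1 + t)) + b) = P.eval t` (`exp3`). `P - C (c * d ^ j) * (1 + X) ^ j
- C (b ^ l)` has Gauss norm (radius `1`) `< N`: `gn_scale` for
`f.eval h - C c * X ^ j` and for `tc f h i`, `mid`, `gn_sum_lt`. So `(c * d ^ j)⁻¹ P` satisfies the
hypotheses of `hensB`: coefficient `0`: `1 + b ^ l / (c * d ^ j)` up to `< 1`; coefficient `1`: `j`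
up to `< 1`, `v j = 1`. -/
theorem hensC {v : Valuation K Γ} (hv : Ext v) (f : K[X][X]) (l : ℕ) (hl : 1 ≤ l)
    (hfm : f.Monic) (hfd : f.natDegree = l) (h : K[X]) (j : ℕ) (hj : v (j : K) = 1) (d b : K)
    (hd : d ≠ 0) (hS : SS v f l h (v d))
    (hdom : ∀ j', j' ≠ j → v ((f.eval h).coeff j') * v d ^ j' <
      v ((f.eval h).coeff j) * v d ^ j)
    (hb : v ((f.eval h).coeff j * d ^ j + b ^ l) < v ((f.eval h).coeff j) * v d ^ j) :
    ∃ t, v t < 1 ∧ ev f (d * (1 + t)) (h.eval (d * (1 + t)) + b) = 0 := by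
  have hvd : v d ≠ 0 := v.ne_zero_iff.2 hd
  have hNpos : 0 < v ((f.eval h).coeff j) * v d ^ j := lt_of_le_of_lt zero_le hb
  have hu : (f.eval h).coeff j * d ^ j ≠ 0 := by
    intro h0
    rw [← map_pow, ← map_mul, h0, map_zero] at hNpos
    exact lt_irrefl _ hNpos
  have hvu : v ((f.eval h).coeff j * d ^ j) = v ((f.eval h).coeff j) * v d ^ j := by
    rw [map_mul, map_pow]
  have hN : gn v (v d) (f.eval h) = v ((f.eval h).coeff j) * v d ^ j := by
    refine cb_gn fun j' => ?_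
    by_cases hj' : j' = j
    · rw [hj']
    · exact (hdom j' hj').le
  have hbl : v b ^ l ≤ v ((f.eval h).coeff j) * v d ^ j := by
    have h1 : b ^ l = ((f.eval h).coeff j * d ^ j + b ^ l) - (f.eval h).coeff j * d ^ j := by ring
    rw [← map_pow, h1]
    exact v.map_sub_le hb.le hvu.le
  obtain ⟨t, ht, ht'⟩ := cd_root hv
    ((f.eval h).comp (C d * (1 + X)) + ∑ i ∈ Finset.Ioo 0 l,
      (tc f h i).comp (C d * (1 + X)) * C b ^ i + C b ^ l)
    ((f.eval h - C ((f.eval h).coeff j) * X ^ j).comp (C d * (1 + X)) +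
      ∑ i ∈ Finset.Ioo 0 l, (tc f h i).comp (C d * (1 + X)) * C b ^ i)
    ((f.eval h).coeff j * d ^ j) (b ^ l) j hj hu (by
      rw [sub_comp, mul_comp, C_comp, pow_comp, X_comp, mul_pow, C_mul, C_pow, C_pow]
      ring) (by
      rw [hvu]
      refine (gn_add v 1 _ _).trans_lt (max_lt ?_ ?_)
      · rw [gn_scale, gn_lt hNpos]
        intro j'
        rw [coeff_sub, coeff_C_mul, coeff_X_pow]
        by_cases hj' : j' = j
        · rw [if_pos hj', hj', mul_one, sub_self, map_zero, zero_mul]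
          exact hNpos
        · rw [if_neg hj', mul_zero, sub_zero]
          exact hdom j' hj'
      · refine gn_sum_lt v 1 _ _ hNpos fun i hi => ?_
        rw [Finset.mem_Ioo] at hi
        rw [gn_mul v one_ne_zero, gn_pow v one_ne_zero, gn_C, gn_scale]
        refine mid l i hi.1 hi.2 _ _ _ ?_ hbl
        rw [← hN]
        exact hS i hi.1 hi.2) (by
      rw [hvu]
      exact hb)
  refine ⟨t, ht, ?_⟩
  rw [exp3 f l hl hfm hfd, ← ht']
  simp only [eval_add, eval_comp, eval_mul, eval_C, eval_one, eval_X, eval_pow, eval_finsetSum]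
/- END cd -/

/- MODULE ce -/
/-- Module ce. Case `l ∤ j`. PROOF. `1 + i * j = l * m` (`arith`), `c = (f.eval h).coeff j ≠ 0`.
`H.room k` for `g = c ^ i` gives `u` with `v (a (k + 1)) ≤ v (c ^ i * u ^ l) < v (a k)`; put
`d = c ^ i * u ^ l`, `b = - (c ^ m * u ^ j)`. Then `b ^ l = (-1) ^ l * (c * d ^ j)`, so `hb` of
`hensC` by `sign_lt`. `v (a (k + 2)) < v d < v (a k)`, so `j` dominates strictly at `v d`
(`dom_strict` for the function `fun i => v ((f.eval h).coeff i)`). `H.ss` at `v d`. The zero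
`(d * (1 + t), h.eval (..) + b)` is in the box: `v (d * (1 + t)) = v d ≤ v (a 0)`,
`v b ^ l = v c * v d ^ j ≤ gn v (v (a 0)) (f.eval h) ≤ v r2 ^ l`. Contradiction to `H.nz`. -/
theorem Cr.caseN {v : Valuation K Γ} {f : K[X][X]} {l D M : ℕ} {b0 r2 : K} {a b : ℕ → K}
    (H : Cr v f l D M b0 r2 a b) (hv : Ext v) (h : K[X]) (hh : HS v D (a 0) b0 r2 h) (k : ℕ)
    (hk : k + 2 ≤ M) (j : ℕ) (hj : ¬ l ∣ j) (hc : (f.eval h).coeff j ≠ 0)
    (hdom : ∀ i, k ≤ i → i ≤ k + 2 → ∀ j', v ((f.eval h).coeff j') * v (a i) ^ j' ≤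
      v ((f.eval h).coeff j) * v (a i) ^ j) : False := by
  have hl0 : 0 < l := H.prime.pos
  obtain ⟨i, m, him⟩ := arith l j H.prime hj
  obtain ⟨u, hu1, hu2⟩ := H.room k (by omega) ((f.eval h).coeff j ^ i) (pow_ne_zero _ hc)
  have hvc : 0 < v ((f.eval h).coeff j) := lt_of_le_of_ne zero_le (v.ne_zero_iff.2 hc).symm
  obtain ⟨d, hd⟩ : ∃ d, d = (f.eval h).coeff j ^ i * u ^ l := ⟨_, rfl⟩
  obtain ⟨b', hb'⟩ : ∃ b', b' = -((f.eval h).coeff j ^ m * u ^ j) := ⟨_, rfl⟩
  have hvd : v d = v ((f.eval h).coeff j ^ i) * v u ^ l := by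
    rw [hd, map_mul, map_pow v u]
  rw [← hvd] at hu1 hu2
  have hak1 : 0 < v (a (k + 1)) := lt_of_le_of_ne zero_le (v.ne_zero_iff.2 (H.ne _ (by omega))).symm
  have hvd0 : 0 < v d := hak1.trans_le hu1
  have hd0 : d ≠ 0 := v.ne_zero_iff.1 hvd0.ne'
  have hbl : b' ^ l = (-1) ^ l * ((f.eval h).coeff j * d ^ j) := by
    have h1 : (-((f.eval h).coeff j ^ m * u ^ j)) ^ l =
        (-1) ^ l * ((f.eval h).coeff j ^ (l * m) * u ^ (l * j)) := by
      rw [neg_pow, mul_pow, ← pow_mul, ← pow_mul, mul_comm m l, mul_comm j l]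
    rw [hb', h1, ← him, hd, mul_pow, ← pow_mul, ← pow_mul, pow_add, pow_one]
    ring
  have h0d : v d ≤ v (a 0) := hu2.le.trans (H.le 0 k (Nat.zero_le _) (by omega))
  have hak2 : v (a (k + 2)) < v (a (k + 1)) := H.dec (k + 1) (by omega)
  have hak20 : 0 < v (a (k + 2)) :=
    lt_of_le_of_ne zero_le (v.ne_zero_iff.2 (H.ne _ (by omega))).symm
  have hcd : v ((f.eval h).coeff j * d ^ j) = v ((f.eval h).coeff j) * v d ^ j := by
    rw [map_mul, map_pow]
  obtain ⟨t, ht, ht'⟩ := hensC hv f l hl0 H.monic H.deg h j (cast_unit l j H.prime H.small hj) d b'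
    hd0 (H.ss h hh (v d) ((H.le (k + 1) M (by omega) le_rfl).trans hu1) h0d)
    (fun j' hj' => dom_strict (fun i => v ((f.eval h).coeff i)) (v (a k)) (v d) (v (a (k + 2)))
      hak20 (hak2.trans_le hu1) hu2 j j' hvc.ne' hj' (hdom k le_rfl (by omega) j')
      (hdom (k + 2) (by omega) le_rfl j')) (by
      rw [hbl, ← hcd]
      exact sign_lt l H.prime H.small _ (mul_ne_zero hc (pow_ne_zero _ hd0)))
  have h1t : v (1 + t) = 1 := by
    rw [v.map_add_eq_of_lt_left (by rw [map_one]; exact ht), map_one]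
  have hvdt : v (d * (1 + t)) = v d := by
    rw [map_mul, h1t, mul_one]
  refine H.nz (d * (1 + t)) (h.eval (d * (1 + t)) + b') (hvdt.le.trans h0d) ?_ ht'
  have h2 : h.eval (d * (1 + t)) + b' - b0 = (h.eval (d * (1 + t)) - b0) + b' := by ring
  rw [h2]
  refine v.map_add_le (ca_box hh _ (hvdt.le.trans h0d)) ?_
  refine (pow_le_pow_iff_left₀ zero_le zero_le hl0.ne').1 ?_
  calc v b' ^ l = v ((f.eval h).coeff j) * v d ^ j := by
        rw [← map_pow, hbl, map_mul, map_pow, v.map_neg, map_one, one_pow, one_mul, hcd]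
    _ ≤ v ((f.eval h).coeff j) * v (a 0) ^ j := mul_le_mul_right (pow_le_pow_left₀ zero_le h0d _) _
    _ ≤ gn v (v (a 0)) (f.eval h) := le_gn v _ _ _
    _ ≤ v r2 ^ l := H.bd h hh
/- END ce -/

/- MODULE cf -/
/-- Module cf. The contradiction. PROOF. `Cr.exists_opt` gives `h`. `pig` with `n = l * D`,
`c j = v ((f.eval h).coeff j)`, `ρ k = v (a k)` (`Cr.hne`, `H.degb`: some coefficient of index
`≤ l * D` is not `0`, and all coefficients of larger index vanish): `k` and `j`. If `l ∤ j`: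
`Cr.caseN`. If `j = l * i`: strict domination at `v (a (k + 1))` by `dom_strict`; `i ≥ 1`:
`Cr.caseL` for `k + 1`; `i = 0`: `Cr.case0` for `k + 1`. -/
theorem core {v : Valuation K Γ} (hv : Ext v) (hmm : MM v) {f : K[X][X]} {l D : ℕ} {b0 r2 : K}
    {a b : ℕ → K} (H : Cr v f l D (2 * (l * D + 1)) b0 r2 a b) : False := by
  obtain ⟨h, hopt⟩ := H.exists_opt hmm
  have hh : HS v D (a 0) b0 r2 h := (hopt 0 (Nat.zero_le _)).1
  have hne : f.eval h ≠ 0 := H.hne h hh
  have hdeg : (f.eval h).natDegree ≤ l * D := H.degb h hh.1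
  obtain ⟨k, hk, j, hjn, hcj, hdom⟩ := pig (l * D) (fun j => v ((f.eval h).coeff j))
    (fun k => v (a k)) ⟨(f.eval h).natDegree, hdeg, v.ne_zero_iff.2 (leadingCoeff_ne_zero.2 hne)⟩
    (fun k hk => lt_of_le_of_ne zero_le (v.ne_zero_iff.2 (H.ne k hk)).symm)
    (fun k hk => H.dec k hk)
  have hdom' : ∀ i, k ≤ i → i ≤ k + 2 → ∀ j', v ((f.eval h).coeff j') * v (a i) ^ j' ≤
      v ((f.eval h).coeff j) * v (a i) ^ j := by
    intro i h1 h2 j'
    rcases le_or_gt j' (l * D) with h3 | h3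
    · exact hdom i h1 h2 j' h3
    · rw [coeff_eq_zero_of_natDegree_lt (hdeg.trans_lt h3), map_zero, zero_mul]
      exact zero_le
  by_cases hlj : l ∣ j
  · obtain ⟨i, rfl⟩ := hlj
    have hstrict : ∀ j', j' ≠ l * i → v ((f.eval h).coeff j') * v (a (k + 1)) ^ j' <
        v ((f.eval h).coeff (l * i)) * v (a (k + 1)) ^ (l * i) := fun j' hj' =>
      dom_strict (fun i => v ((f.eval h).coeff i)) (v (a k)) (v (a (k + 1))) (v (a (k + 2)))
        (lt_of_le_of_ne zero_le (v.ne_zero_iff.2 (H.ne (k + 2) hk)).symm)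
        (H.dec (k + 1) (by omega)) (H.dec k (by omega)) (l * i) j' hcj hj'
        (hdom' k le_rfl (by omega) j') (hdom' (k + 2) (by omega) le_rfl j')
    rcases Nat.eq_zero_or_pos i with h0 | h0
    · refine H.case0 h (k + 1) (by omega) (hopt (k + 1) (by omega)) fun j' hj' => ?_
      have h1 := hstrict j' (by rw [h0, Nat.mul_zero]; omega)
      rwa [h0, Nat.mul_zero, pow_zero, mul_one] at h1
    · exact H.caseL h (k + 1) hk (hopt (k + 1) (by omega)) i h0 hstrict
        (hdom' (k + 2) (by omega) le_rfl)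
  · exact H.caseN hv h hh k hk j hlj (v.ne_zero_iff.1 hcj) hdom'
/- END cf -/

end Pool.Agent.Xtc
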