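import Pool.Agent.Xtc.Ec

set_option autoImplicit false

namespace Pool.Agent.Xtc

open Polynomial Pool.Agent.Xtr

/- MODULE xa -/
/-- Module xa. Values of `G` at the roots of `f0`. PROOF. `χ = resultant (f0.map C)
(C X - G.map C) f0.natDegree (max 1 G.natDegree)`, a resultant over the ring `K[X][X]` whose outer
variable is called `Z` here. For `x` in `E` map with `K[X][X] →+* E[X]`, `mapRingHom (aeval x)`
(`resultant_map_map`); `fx f0 x` is monic of the same degree, splits over `E`, so its image over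
`E[X]` splits, and `resultant_eq_prod_eval` gives the product of `X - C (G(x, r))`. -/
theorem exists_chi {K : Type*} [Field K] (f0 G : K[X][X]) (hf : f0.Monic) :
    ∃ χ : K[X][X], ∀ (E : Type) [Field E] [Algebra K E] (x : E), (fx f0 x).Splits →
      fx χ x = ((fx f0 x).roots.map (fun r => X - C ((fx G x).eval r))).prod := by
  refine ⟨resultant (f0.map (C : K[X] →+* K[X][X])) (C X - G.map (C : K[X] →+* K[X][X]))
    f0.natDegree G.natDegree, fun E _ _ x hs => ?_⟩
  have h1 : ∀ p : K[X][X], (p.map (C : K[X] →+* K[X][X])).map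
      (mapRingHom ((aeval x : K[X] →ₐ[K] E) : K[X] →+* E)) = (fx p x).map (C : E →+* E[X]) := by
    intro p
    unfold fx
    rw [Polynomial.map_map, Polynomial.map_map]
    congr 1
    ext a
    · simp
    · simp
  have h2 : fx (resultant (f0.map (C : K[X] →+* K[X][X])) (C X - G.map (C : K[X] →+* K[X][X]))
      f0.natDegree G.natDegree) x = mapRingHom ((aeval x : K[X] →ₐ[K] E) : K[X] →+* E)
      (resultant (f0.map (C : K[X] →+* K[X][X])) (C X - G.map (C : K[X] →+* K[X][X]))
      f0.natDegree G.natDegree) := rfl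
  have hm : (fx f0 x).Monic := hf.map _
  have hm' : ((fx f0 x).map (C : E →+* E[X])).Monic := hm.map _
  have hd : ((fx f0 x).map (C : E →+* E[X])).natDegree = f0.natDegree := by
    rw [hm.natDegree_map]
    unfold fx
    rw [hf.natDegree_map]
  rw [h2, ← resultant_map_map, Polynomial.map_sub, h1, h1, map_C]
  have h3 : (mapRingHom ((aeval x : K[X] →ₐ[K] E) : K[X] →+* E)) (X : K[X][X]) = X := by
    simp
  rw [h3]
  have h4 := resultant_eq_prod_eval ((fx f0 x).map (C : E →+* E[X]))
    (C X - (fx G x).map (C : E →+* E[X])) G.natDegree (by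
      refine (natDegree_sub_le _ _).trans ?_
      rw [natDegree_C, Nat.zero_max]
      refine natDegree_map_le.trans ?_
      exact natDegree_map_le) (hs.map _)
  rw [hd] at h4
  rw [h4, hm'.leadingCoeff, one_pow, one_mul]
  have h5 : ((fx f0 x).map (C : E →+* E[X])).roots = (fx f0 x).roots.map (C : E →+* E[X]) :=
    (roots_map_of_injective_of_card_eq_natDegree C_injective hs.natDegree_eq_card_roots.symm).symm
  rw [h5, Multiset.map_map]
  congr 1
  refine Multiset.map_congr rfl fun r _ => ?_
  simp only [Function.comp_apply, eval_sub, eval_C]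
  rw [eval_map, eval₂_at_apply]
/- END xa -/

section

variable {Γ : Type*} [LinearOrderedCommGroupWithZero Γ]

/- MODULE xb -/
/-- Module xb. If no root has value `ρ`, some coefficient dominates strictly at `ρ`. PROOF.
Induction on `t`: for `q` with strictly dominating index `k` and `v r ≠ ρ` the product
`(X - C r) * q` has the strictly dominating index `k + 1` if `v r < ρ` and `k` if `ρ < v r`
(`coeff_X_mul`, or `gn`). -/
theorem dom_of_roots {K : Type*} [Field K] (v : Valuation K Γ) (ρ : Γ) (hρ : ρ ≠ 0)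
    (t : Multiset K) (ht : ∀ r ∈ t, v r ≠ ρ) :
    ∃ k, ∀ i, i ≠ k → v (((t.map (fun r => X - C r)).prod).coeff i) * ρ ^ i <
      v (((t.map (fun r => X - C r)).prod).coeff k) * ρ ^ k := by
  classical
  induction t using Multiset.induction_on with
  | empty =>
    refine ⟨0, fun i hi => ?_⟩
    rw [Multiset.map_zero, Multiset.prod_zero, coeff_one, if_neg (fun h => hi h), coeff_one,
      if_pos rfl, map_zero, zero_mul, map_one, one_mul, pow_zero]
    exact zero_lt_one
  | cons r t ih =>
    obtain ⟨k, hk⟩ := ih fun r' hr' => ht r' (Multiset.mem_cons_of_mem hr')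
    have hr : v r ≠ ρ := ht r (Multiset.mem_cons_self r t)
    rw [Multiset.map_cons, Multiset.prod_cons]
    set q : K[X] := (t.map (fun r => X - C r)).prod with hq
    have hpos : 0 < v (q.coeff k) * ρ ^ k := zero_le.trans_lt (hk (k + 1) (by omega))
    have hρ' : 0 < ρ := zero_lt_iff.2 hρ
    have hc0 : ((X - C r) * q).coeff 0 = - (r * q.coeff 0) := by
      rw [sub_mul, coeff_sub, coeff_X_mul_zero, coeff_C_mul, zero_sub]
    have hcs : ∀ i, ((X - C r) * q).coeff (i + 1) = q.coeff i - r * q.coeff (i + 1) := by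
      intro i
      rw [sub_mul, coeff_sub, coeff_X_mul, coeff_C_mul]
    have hle : ∀ i, v (q.coeff i) * ρ ^ i ≤ v (q.coeff k) * ρ ^ k := by
      intro i
      rcases eq_or_ne i k with rfl | hi
      · exact le_rfl
      · exact (hk i hi).le
    have t1 : ∀ i, v (q.coeff i) * ρ ^ (i + 1) = ρ * (v (q.coeff i) * ρ ^ i) := by
      intro i
      rw [pow_succ, ← mul_assoc, mul_comm]
    have t2 : ∀ i, v (r * q.coeff i) * ρ ^ i = v r * (v (q.coeff i) * ρ ^ i) := by
      intro i
      rw [map_mul, mul_assoc]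
    rcases lt_or_gt_of_ne hr with hlt | hgt
    · have hk1 : v (((X - C r) * q).coeff (k + 1)) * ρ ^ (k + 1) =
          ρ * (v (q.coeff k) * ρ ^ k) := by
        rw [hcs, Valuation.map_sub_eq_of_lt_left, t1]
        have h1 : v (r * q.coeff (k + 1)) * ρ ^ (k + 1) < v (q.coeff k) * ρ ^ (k + 1) := by
          rw [t2, t1]
          calc v r * (v (q.coeff (k + 1)) * ρ ^ (k + 1)) ≤ v r * (v (q.coeff k) * ρ ^ k) :=
                mul_le_mul_right (hle _) _
            _ < ρ * (v (q.coeff k) * ρ ^ k) := mul_lt_mul_of_pos_right hlt hpos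
        exact lt_of_mul_lt_mul_right h1 zero_le
      refine ⟨k + 1, fun i hi => ?_⟩
      rw [hk1]
      cases i with
      | zero =>
        rw [hc0, Valuation.map_neg, t2]
        calc v r * (v (q.coeff 0) * ρ ^ 0) ≤ v r * (v (q.coeff k) * ρ ^ k) :=
              mul_le_mul_right (hle _) _
          _ < ρ * (v (q.coeff k) * ρ ^ k) := mul_lt_mul_of_pos_right hlt hpos
      | succ i =>
        have hik : i ≠ k := fun h => hi (by rw [h])
        rw [hcs]
        have h2 : v (q.coeff i - r * q.coeff (i + 1)) * ρ ^ (i + 1) ≤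
            max (v (q.coeff i)) (v (r * q.coeff (i + 1))) * ρ ^ (i + 1) :=
          mul_le_mul_left (v.map_sub _ _) _
        refine h2.trans_lt ?_
        rcases max_choice (v (q.coeff i)) (v (r * q.coeff (i + 1))) with h3 | h3
        · rw [h3, t1]
          exact mul_lt_mul_of_pos_left (hk i hik) hρ'
        · rw [h3, t2]
          calc v r * (v (q.coeff (i + 1)) * ρ ^ (i + 1)) ≤ v r * (v (q.coeff k) * ρ ^ k) :=
                mul_le_mul_right (hle _) _
            _ < ρ * (v (q.coeff k) * ρ ^ k) := mul_lt_mul_of_pos_right hlt hpos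
    · have hr0 : 0 < v r := hρ'.trans hgt
      have hk1 : v (((X - C r) * q).coeff k) * ρ ^ k = v r * (v (q.coeff k) * ρ ^ k) := by
        cases k with
        | zero => rw [hc0, Valuation.map_neg, t2]
        | succ k =>
          rw [hcs, Valuation.map_sub_eq_of_lt_right, t2]
          have h1 : v (q.coeff k) * ρ ^ (k + 1) < v (r * q.coeff (k + 1)) * ρ ^ (k + 1) := by
            rw [t2, t1]
            calc ρ * (v (q.coeff k) * ρ ^ k) ≤ ρ * (v (q.coeff (k + 1)) * ρ ^ (k + 1)) :=
                  mul_le_mul_right (hle _) _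
              _ < v r * (v (q.coeff (k + 1)) * ρ ^ (k + 1)) :=
                  mul_lt_mul_of_pos_right hgt hpos
          exact lt_of_mul_lt_mul_right h1 zero_le
      refine ⟨k, fun i hi => ?_⟩
      rw [hk1]
      cases i with
      | zero =>
        rw [hc0, Valuation.map_neg, t2]
        exact mul_lt_mul_of_pos_left (hk 0 hi) hr0
      | succ i =>
        rw [hcs]
        have h2 : v (q.coeff i - r * q.coeff (i + 1)) * ρ ^ (i + 1) ≤
            max (v (q.coeff i)) (v (r * q.coeff (i + 1))) * ρ ^ (i + 1) :=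
          mul_le_mul_left (v.map_sub _ _) _
        refine h2.trans_lt ?_
        rcases max_choice (v (q.coeff i)) (v (r * q.coeff (i + 1))) with h3 | h3
        · rw [h3, t1]
          calc ρ * (v (q.coeff i) * ρ ^ i) ≤ ρ * (v (q.coeff k) * ρ ^ k) :=
                mul_le_mul_right (hle _) _
            _ < v r * (v (q.coeff k) * ρ ^ k) := mul_lt_mul_of_pos_right hgt hpos
        · rw [h3, t2]
          exact mul_lt_mul_of_pos_left (hk (i + 1) hi) hr0

/-- Module xb. The values of the roots are determined by the values of the coefficients. PROOF.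
`ρ = w r`. If `ρ = 0`: `r = 0`, `p.coeff 0 = 0`, so `q.coeff 0 = 0` and `0` is in `t`. Otherwise, if no
element of `t` has value `ρ`, `dom_of_roots` gives a strictly dominating index for `q`, so for `p`,
and `p.eval r ≠ 0` by `eval_dom`: contradiction. -/
theorem root_val {K : Type*} [Field K] {L : Type*} [Field L] (v : Valuation K Γ)
    (w : Valuation L Γ) (s : Multiset L) (t : Multiset K)
    (h : ∀ k, w (((s.map (fun r => X - C r)).prod).coeff k) =
      v (((t.map (fun r => X - C r)).prod).coeff k)) (r : L) (hr : r ∈ s) :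
    ∃ r' ∈ t, v r' = w r := by
  classical
  have hpr : ((s.map (fun r => X - C r)).prod).eval r = 0 := by
    rw [eval_multiset_prod, Multiset.map_map, Multiset.prod_eq_zero_iff]
    exact Multiset.mem_map.2 ⟨r, hr, by simp⟩
  rcases eq_or_ne (w r) 0 with hρ | hρ
  · have hr0 : r = 0 := (Valuation.zero_iff w).1 hρ
    subst hr0
    have h1 : ((s.map (fun r => X - C r)).prod).coeff 0 = 0 := by
      rw [coeff_zero_eq_eval_zero]
      exact hpr
    have h2 : ((t.map (fun r => X - C r)).prod).coeff 0 = 0 := by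
      have := h 0
      rw [h1, map_zero] at this
      exact (Valuation.zero_iff v).1 this.symm
    rw [coeff_zero_eq_eval_zero, eval_multiset_prod, Multiset.map_map,
      Multiset.prod_eq_zero_iff] at h2
    obtain ⟨r', hr', h3⟩ := Multiset.mem_map.1 h2
    have h4 : r' = 0 := by simpa using h3
    exact ⟨r', hr', by rw [h4, map_zero, map_zero]⟩
  · by_contra hcon
    push Not at hcon
    obtain ⟨k, hk⟩ := dom_of_roots v (w r) hρ t hcon
    have hpos := (zero_le).trans_lt (hk (k + 1) (by omega))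
    rw [← h k] at hpos
    have h1 := eval_dom w r ((s.map (fun r => X - C r)).prod) k
      (w (((s.map (fun r => X - C r)).prod).coeff k) * w r ^ k) (fun i hi => by
        have := hk i hi
        rw [← h i, ← h k] at this
        exact this) hpos
    rw [hpr, zero_sub, Valuation.map_neg, map_mul, map_pow] at h1
    exact lt_irrefl _ h1
/- END xb -/

/- MODULE xc -/
private theorem xc_zpow {H ι : Type*} [CommGroup H] (s : Finset ι) (a : H) (f : ι → ℤ) :
    ∏ i ∈ s, a ^ f i = a ^ ∑ i ∈ s, f i := by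
  classical
  induction s using Finset.induction_on with
  | empty => simp
  | insert i s hi ih => rw [Finset.prod_insert hi, Finset.sum_insert hi, zpow_add, ih]

/-- Module xc. Vandermonde for values. PROOF. `Γˣ` is torsion free (ordered). In additive notation
`∑ j, (t i ^ j) • d j = 0` for all `i`; multiply with the adjugate of the integral matrix
`Matrix.vandermonde (fun i => (t i : ℤ))`, whose determinant is not `0`
(`Matrix.det_vandermonde_ne_zero_iff`). -/
theorem vand (n : ℕ) (δ : Fin n → Γ) (hδ : ∀ j, δ j ≠ 0) (t : Fin n → ℕ)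
    (ht : Function.Injective t) (h : ∀ i, ∏ j, δ j ^ (t i ^ (j : ℕ)) = 1) : ∀ j, δ j = 1 := by
  set A : Matrix (Fin n) (Fin n) ℤ := Matrix.vandermonde (fun i => (t i : ℤ)) with hA
  have hdet : A.det ≠ 0 := by
    rw [hA, Matrix.det_vandermonde_ne_zero_iff]
    intro i j hij
    exact ht (Nat.cast_injective hij)
  have hu : ∀ i, ∏ j, Units.mk0 (δ j) (hδ j) ^ A i j = 1 := by
    intro i
    have h1 : ∀ j, Units.mk0 (δ j) (hδ j) ^ A i j =
        Units.mk0 (δ j) (hδ j) ^ (t i ^ (j : ℕ)) := by
      intro j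
      rw [hA, Matrix.vandermonde_apply, ← Nat.cast_pow, zpow_natCast]
    rw [Finset.prod_congr rfl fun j _ => h1 j]
    ext
    rw [Units.coe_prod, Units.val_one, ← h i]
    exact Finset.prod_congr rfl fun j _ => by rw [Units.val_pow_eq_pow_val, Units.val_mk0]
  intro k
  have h2 : ∏ j, Units.mk0 (δ j) (hδ j) ^ ((A.adjugate * A) k j) = 1 := by
    have h3 : ∀ j, Units.mk0 (δ j) (hδ j) ^ ((A.adjugate * A) k j) =
        ∏ i, (Units.mk0 (δ j) (hδ j) ^ A i j) ^ A.adjugate k i := by
      intro j
      rw [Matrix.mul_apply, ← xc_zpow]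
      refine Finset.prod_congr rfl fun i _ => ?_
      rw [← zpow_mul, mul_comm]
    rw [Finset.prod_congr rfl fun j _ => h3 j, Finset.prod_comm]
    refine Finset.prod_eq_one fun i _ => ?_
    rw [Finset.prod_zpow, hu i, one_zpow]
  have h4 : ∏ j, Units.mk0 (δ j) (hδ j) ^ ((A.adjugate * A) k j) =
      Units.mk0 (δ k) (hδ k) ^ A.det := by
    rw [Matrix.adjugate_mul, Finset.prod_eq_single k]
    · rw [Matrix.smul_apply, Matrix.one_apply_eq, smul_eq_mul, mul_one]
    · intro j _ hj
      rw [Matrix.smul_apply, Matrix.one_apply_ne hj.symm, smul_zero, zpow_zero]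
    · exact fun hk => absurd (Finset.mem_univ k) hk
  rw [h4] at h2
  have h5 := (IsMulTorsionFree.zpow_eq_one_iff_left hdet).1 h2
  have h6 := congrArg Units.val h5
  rwa [Units.val_mk0, Units.val_one] at h6
/- END xc -/

/- MODULE xd -/
/-- Module xd. PROOF. Pigeonhole (`Finset.exists_lt_card_fiber_of_mul_lt_card_of_maps_to`): some `r`
in `S` belongs to at least `n + 1` of the `l * n + 1` numbers `t`. Then `β r j ≠ 0` for all `j` (use
some `t ≥ 1`), and `vand` for `δ j = β r j / α j` and `n` of these `t`. `n = 0`: take `t = 0`. -/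
theorem comb {R : Type*} (S : Finset R) (n l : ℕ) (hS : S.card ≤ l) (α : Fin n → Γ)
    (hα : ∀ j, α j ≠ 0) (β : R → Fin n → Γ)
    (h : ∀ t : ℕ, t < l * n + 1 →
      ∃ r ∈ S, ∏ j, β r j ^ (t ^ (j : ℕ)) = ∏ j, α j ^ (t ^ (j : ℕ))) :
    ∃ r ∈ S, ∀ j, β r j = α j := by
  classical
  rcases Nat.eq_zero_or_pos n with hn | hn
  · subst hn
    obtain ⟨r, hr, _⟩ := h 0 (by omega)
    exact ⟨r, hr, fun j => j.elim0⟩
  haveI : Nonempty R := ⟨(h 0 (by omega)).choose⟩
  choose! ρ hρ1 hρ2 using h
  obtain ⟨r, hr, hcard⟩ := Finset.exists_lt_card_fiber_of_mul_lt_card_of_maps_to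
    (s := Finset.range (l * n + 1)) (t := S) (f := ρ) (n := n)
    (fun t ht => hρ1 t (Finset.mem_range.1 ht)) (by
      rw [Finset.card_range]
      exact Nat.lt_succ_of_le (Nat.mul_le_mul_right n hS))
  set T := (Finset.range (l * n + 1)).filter (fun t => ρ t = r) with hT
  have hTr : ∀ t ∈ T, ∏ j, β r j ^ (t ^ (j : ℕ)) = ∏ j, α j ^ (t ^ (j : ℕ)) := by
    intro t ht
    obtain ⟨h1, h2⟩ := Finset.mem_filter.1 ht
    rw [← h2]
    exact hρ2 t (Finset.mem_range.1 h1)
  have hαp : ∀ t : ℕ, ∏ j, α j ^ (t ^ (j : ℕ)) ≠ 0 := fun t =>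
    Finset.prod_ne_zero_iff.2 fun j _ => pow_ne_zero _ (hα j)
  have hβ : ∀ j, β r j ≠ 0 := by
    obtain ⟨t, ht, ht0⟩ : ∃ t ∈ T, t ≠ 0 := by
      by_contra hcon
      push Not at hcon
      have : T ⊆ {0} := fun t ht => Finset.mem_singleton.2 (hcon t ht)
      have := Finset.card_le_card this
      rw [Finset.card_singleton] at this
      omega
    intro j hj
    have h1 := hTr t ht
    have h2 : ∏ j, β r j ^ (t ^ (j : ℕ)) = 0 := by
      refine Finset.prod_eq_zero (Finset.mem_univ j) ?_
      rw [hj, zero_pow (pow_ne_zero _ ht0)]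
    rw [h2] at h1
    exact hαp t h1.symm
  refine ⟨r, hr, fun j => ?_⟩
  have hle : n ≤ T.card := hcard.le
  obtain ⟨T', hT', hc⟩ := Finset.exists_subset_card_eq hle
  let e : Fin n ≃ T' := (Fin.castOrderIso hc.symm).toEquiv.trans (T'.equivFin).symm
  have h3 := vand n (fun j => β r j / α j) (fun j => div_ne_zero (hβ j) (hα j))
    (fun i => (e i : ℕ)) (fun i j hij => e.injective (Subtype.ext hij)) (fun i => by
      have h4 := hTr _ (hT' (e i).2)
      have h5 : ∏ j, (β r j / α j) ^ ((e i : ℕ) ^ (j : ℕ)) =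
          (∏ j, β r j ^ ((e i : ℕ) ^ (j : ℕ))) / ∏ j, α j ^ ((e i : ℕ) ^ (j : ℕ)) := by
        rw [← Finset.prod_div_distrib]
        exact Finset.prod_congr rfl fun j _ => div_pow _ _ _
      rw [h5, h4]
      exact div_self (hαp _)) j
  exact (div_eq_one_iff_eq (hα j)).1 h3
/- END xd -/

end

/- MODULE xe -/
/-- Module xe. The minimal polynomial over `K[x]`. `x` is transcendental over `K`. PROOF. View `L` as
an algebra over `K[X]` via `aeval x` (`RingHom.toAlgebra`), torsion free since `x` is transcendental;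
`y` is integral (`f`); `f0 = minpoly K[X] y`, `minpoly.isIntegrallyClosed_dvd`, `minpoly.monic`,
`minpoly.aeval`. -/
theorem exists_min {K : Type*} [Field K] {L : Type*} [Field L] [Algebra K L] (x y : L)
    (hx : ∀ g : K[X], aeval x g = 0 → g = 0) (f : K[X][X]) (hfm : f.Monic)
    (hfy : (fx f x).eval y = 0) :
    ∃ f0 : K[X][X], f0.Monic ∧ (fx f0 x).eval y = 0 ∧
      ∀ G : K[X][X], (fx G x).eval y = 0 → f0 ∣ G := by
  letI : Algebra K[X] L := ((aeval x : K[X] →ₐ[K] L) : K[X] →+* L).toAlgebra
  have hal : ∀ g : K[X], algebraMap K[X] L g = aeval x g := fun g => rfl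
  have hinj : Function.Injective (algebraMap K[X] L) := by
    rw [injective_iff_map_eq_zero]
    intro g hg
    exact hx g hg
  haveI : Module.IsTorsionFree K[X] L := Module.isTorsionFree_iff_algebraMap_injective.2 hinj
  have hev : ∀ G : K[X][X], (fx G x).eval y = aeval y G := by
    intro G
    unfold fx
    rw [eval_map]
    rfl
  have hint : IsIntegral K[X] y := ⟨f, hfm, by
    have := hfy
    rw [hev] at this
    exact this⟩
  refine ⟨minpoly K[X] y, minpoly.monic hint, ?_, fun G hG => ?_⟩
  · rw [hev]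
    exact minpoly.aeval _ _
  · exact minpoly.isIntegrallyClosed_dvd hint (by rw [← hev]; exact hG)
/- END xe -/

section

variable {K : Type} [Field K] {Γ : Type*} [LinearOrderedCommGroupWithZero Γ]
  {L : Type} [Field L] [Algebra K L]

/- MODULE xf -/
private theorem xf_ev (G : K[X][X]) (a b : K) : ev G a b = (fx G a).eval b := by
  have h1 : (fx G a).eval b = (G.map (evalRingHom a)).eval ((C b : K[X]).eval a) := by
    rw [eval_C]
    unfold fx
    congr 2
  rw [h1, eval_map]
  exact (Polynomial.hom_eval₂ G (RingHom.id _) (evalRingHom a) (C b))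

private theorem xf_reg {v : Valuation K Γ} {w : Valuation L Γ} (hv : Ext v)
    (hvw : ∀ a : K, w (algebraMap K L a) = v a) (himm : Imm K w) (x : L)
    (hx : ∀ a : K, x ≠ algebraMap K L a) (T : ℕ) (χ : ℕ → K[X][X]) :
    ∃ c : K, ∀ t, t < T → ∀ k, Reg v w x c ((χ t).coeff k) := by
  induction T with
  | zero => exact ⟨0, fun t ht => absurd ht (Nat.not_lt_zero t)⟩
  | succ T ih =>
    obtain ⟨c, hc⟩ := ih
    obtain ⟨c', h1, h2⟩ := reg hv hvw himm x hx ((χ T).natDegree + 1) (fun k => (χ T).coeff k) c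
    refine ⟨c', fun t ht k => ?_⟩
    rcases Nat.lt_succ_iff_lt_or_eq.1 ht with h | rfl
    · exact (hc t h k).mono h1
    · by_cases hk : k < (χ t).natDegree + 1
      · exact h2 k hk
      · rw [coeff_eq_zero_of_natDegree_lt (by omega)]
        refine ⟨fun h => absurd rfl h, fun b _ => ⟨?_, fun h => absurd rfl h, fun ρ _ _ => ?_⟩⟩
        · rw [eval_zero, map_zero, map_zero, map_zero]
        · rw [map_zero, gn_zero, map_zero, map_zero]

/-- Module xf. Criterion: it is enough that `f(a, Y)` splits for `a` close to `x`. PROOF. `x` is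
transcendental (`reg_one`). `f0` from `exists_min`, `f0 ∣ f`, so `fx f0 x` splits, and `fx f0 a`
splits whenever `fx f a` does (`Splits.of_dvd` or similar, `f` monic); its degree is
`l = f0.natDegree ≥ 1`. Let `J` be the set of `j < n` with `G j (x, y) ≠ 0` (enumerate it as
`Fin m`, `m = J.card`); for `t < l * m + 1` let `M t = ∏ i : Fin m, G (j i) ^ (t ^ i)` and `χ t` from
`exists_chi f0 (M t)`. Choose a centre `c` with `Reg` for all coefficients of all `χ t` (`reg`),
and `a` from `hsp c`. The coefficients of `fx (χ t) x` and `fx (χ t) a` have the same values, so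
`root_val` gives a root `r` of `fx f0 a` with `v (M t (a, r)) = w (M t (x, y))`. `comb` with
`S = (fx f0 a).roots.toFinset` gives one root `b` of `fx f0 a` with `v (G j (a, b)) =
w (G j (x, y))` for `j` in `J`. For the other `j`: `f0 ∣ G j`, so `G j (a, b) = 0`. Here
`ev G a b = (fx G a).eval b` (with `L = K`). -/
theorem ec_split {v : Valuation K Γ} {w : Valuation L Γ} (hv : Ext v)
    (hvw : ∀ a : K, w (algebraMap K L a) = v a) (himm : Imm K w) (x y : L)
    (hx : ∀ a : K, x ≠ algebraMap K L a) (f : K[X][X]) (hfm : f.Monic)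
    (hfy : (fx f x).eval y = 0) (hsx : (fx f x).Splits)
    (hsp : ∀ c : K, ∃ a : K, w (x - algebraMap K L a) ≤ w (x - algebraMap K L c) ∧
      (fx f a).Splits)
    (n : ℕ) (G : ℕ → K[X][X]) :
    ∃ a b : K, ev f a b = 0 ∧ ∀ j, j < n → v (ev (G j) a b) = w ((fx (G j) x).eval y) := by
  classical
  have htr : ∀ g : K[X], aeval x g = 0 → g = 0 := by
    intro g hg
    by_contra hne
    obtain ⟨a, ha⟩ := alg_mem hv hvw himm x g hne hg
    exact hx a ha
  obtain ⟨f0, hf0m, hf0y, hf0d⟩ := exists_min x y htr f hfm hfy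
  have hdvd : f0 ∣ f := hf0d f hfy
  have hfx : ∀ (E : Type) [Field E] [Algebra K E] (z : E), (fx f z).Splits → (fx f0 z).Splits :=
    fun E _ _ z hz => hz.of_dvd (hfm.map _).ne_zero (Polynomial.map_dvd _ hdvd)
  have hdeg : ∀ (E : Type) [Field E] [Algebra K E] (z : E),
      (fx f0 z).natDegree = f0.natDegree := by
    intro E _ _ z
    unfold fx
    exact hf0m.natDegree_map _
  set J := (Finset.range n).filter (fun j => (fx (G j) x).eval y ≠ 0) with hJ
  let e : Fin J.card ≃ J := J.equivFin.symm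
  choose χ hχ using fun t : ℕ => exists_chi f0 (∏ i : Fin J.card, G (e i) ^ (t ^ (i : ℕ))) hf0m
  obtain ⟨c, hc⟩ := xf_reg hv hvw himm x hx (f0.natDegree * J.card + 1) χ
  obtain ⟨a, ha1, ha2⟩ := hsp c
  have hs0 : (fx f0 x).Splits := hfx L x hsx
  have ha0 : (fx f0 a).Splits := hfx K a ha2
  have hyr : y ∈ (fx f0 x).roots := by
    rw [mem_roots (show fx f0 x ≠ 0 from (hf0m.map _).ne_zero)]
    exact hf0y
  have hM : ∀ (E : Type) [Field E] [Algebra K E] (z u : E) (t : ℕ),
      (fx (∏ i : Fin J.card, G (e i) ^ (t ^ (i : ℕ))) z).eval u =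
        ∏ i : Fin J.card, ((fx (G (e i)) z).eval u) ^ (t ^ (i : ℕ)) := by
    intro E _ _ z u t
    unfold fx
    rw [Polynomial.map_prod, eval_prod]
    refine Finset.prod_congr rfl fun i _ => ?_
    rw [Polynomial.map_pow, eval_pow]
  obtain ⟨b, hb, hbv⟩ := comb (Γ := Γ) (fx f0 a).roots.toFinset J.card f0.natDegree
    ((Multiset.toFinset_card_le _).trans ((card_roots' _).trans (hdeg K a).le))
    (fun i => w ((fx (G (e i)) x).eval y))
    (fun i => (Valuation.ne_zero_iff w).2 (Finset.mem_filter.1 (e i).2).2)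
    (fun b i => v ((fx (G (e i)) a).eval b)) (by
      intro t ht
      have h1 : ∀ k, w ((((fx f0 x).roots.map (fun r => (fx (∏ i : Fin J.card,
          G (e i) ^ (t ^ (i : ℕ))) x).eval r)).map (fun r => X - C r)).prod.coeff k) =
          v ((((fx f0 a).roots.map (fun r => (fx (∏ i : Fin J.card,
          G (e i) ^ (t ^ (i : ℕ))) a).eval r)).map (fun r => X - C r)).prod.coeff k) := by
        intro k
        rw [Multiset.map_map, Multiset.map_map]
        have h2 := hχ t L x hs0
        have h3 := hχ t K a ha0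
        have h4 := ((hc t ht k).2 a ha1).1
        have h5 : (fx (χ t) x).coeff k = aeval x ((χ t).coeff k) := by
          unfold fx
          rw [coeff_map]
          rfl
        have h6 : (fx (χ t) a).coeff k = ((χ t).coeff k).eval a := by
          unfold fx
          rw [coeff_map]
          exact congrFun (coe_aeval_eq_eval a) _
        change w ((((fx f0 x).roots.map (fun r => X - C ((fx (∏ i : Fin J.card,
          G (e i) ^ (t ^ (i : ℕ))) x).eval r))).prod.coeff k)) =
          v ((((fx f0 a).roots.map (fun r => X - C ((fx (∏ i : Fin J.card,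
          G (e i) ^ (t ^ (i : ℕ))) a).eval r))).prod.coeff k))
        rw [← h2, ← h3, h5, h6, h4]
      obtain ⟨r', hr', h7⟩ := root_val v w _ _ h1 ((fx (∏ i : Fin J.card,
          G (e i) ^ (t ^ (i : ℕ))) x).eval y) (Multiset.mem_map_of_mem _ hyr)
      obtain ⟨b, hb, rfl⟩ := Multiset.mem_map.1 hr'
      refine ⟨b, Multiset.mem_toFinset.2 hb, ?_⟩
      rw [hM, hM, map_prod, map_prod] at h7
      simp only [map_pow] at h7
      exact h7)
  have hb0 : (fx f0 a).eval b = 0 := by
    have := Multiset.mem_toFinset.1 hb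
    rw [mem_roots (show fx f0 a ≠ 0 from (hf0m.map _).ne_zero)] at this
    exact this
  have hzero : ∀ H : K[X][X], f0 ∣ H → ev H a b = 0 := by
    rintro H ⟨Q, rfl⟩
    rw [xf_ev]
    unfold fx at hb0 ⊢
    rw [Polynomial.map_mul, eval_mul, hb0, zero_mul]
  refine ⟨a, b, hzero f hdvd, fun j hj => ?_⟩
  by_cases hz : (fx (G j) x).eval y = 0
  · rw [hz, map_zero, hzero _ (hf0d _ hz), map_zero]
  · have hjJ : j ∈ J := Finset.mem_filter.2 ⟨Finset.mem_range.2 hj, hz⟩
    have h8 := hbv (e.symm ⟨j, hjJ⟩)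
    simp only [Equiv.apply_symm_apply] at h8
    rw [xf_ev]
    exact h8
/- END xf -/

/- MODULE xg -/
/-- Module xg. PROOF. In characteristic `l`, with `u = T - y`: `T ^ l - S ^ (l - 1) T - (y ^ l -
S ^ (l - 1) y) = u ^ l - S ^ (l - 1) u`; for `S = 0` it is `u ^ l`, for `S ≠ 0` it is the product of
the `u - i S`, `i < l` (roots of `X ^ l - X` in the prime field, scaled). -/
theorem split_as {E : Type*} [Field E] (l : ℕ) (hl : l.Prime) [CharP E l] (s b y : E)
    (h : y ^ l + (-s ^ (l - 1)) * y + b = 0) :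
    (X ^ l + C (-s ^ (l - 1)) * X + C b : E[X]).Splits := by
  classical
  haveI : Fact l.Prime := ⟨hl⟩
  have hl0 : l ≠ 0 := hl.ne_zero
  have hl1 : 1 < l := hl.one_lt
  rcases eq_or_ne s 0 with rfl | hs
  · have h1 : (-(0 : E) ^ (l - 1)) = 0 := by
      rw [zero_pow (by omega), neg_zero]
    rw [h1, zero_mul, add_zero] at h
    rw [h1, map_zero, zero_mul, add_zero]
    have h2 : (X ^ l + C b : E[X]) = (X - C y) ^ l := by
      rw [sub_pow_char, ← C_pow, sub_eq_add_neg, ← C_neg]
      congr 2
      exact (neg_eq_of_add_eq_zero_right h).symm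
    rw [h2]
    exact (Splits.X_sub_C y).pow l
  · have hp0 : (X ^ l + C (-s ^ (l - 1)) * X + C b : E[X]).natDegree = l := by
      have e1 : (C (-s ^ (l - 1)) * X + C b : E[X]).natDegree ≤ 1 := natDegree_linear_le
      rw [add_assoc, natDegree_add_eq_left_of_natDegree_lt]
      · exact natDegree_X_pow l
      · rw [natDegree_X_pow]
        omega
    have hpne : (X ^ l + C (-s ^ (l - 1)) * X + C b : E[X]) ≠ 0 := by
      intro h0
      rw [h0, natDegree_zero] at hp0
      exact hl0 hp0.symm
    rw [splits_iff_card_roots]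
    refine le_antisymm (card_roots' _) ?_
    rw [hp0]
    let φ : ZMod l → E := fun i => y + (ZMod.castHom (dvd_refl l) E i) * s
    have hφ : Function.Injective φ := by
      intro i j hij
      have h1 : (ZMod.castHom (dvd_refl l) E i) * s = (ZMod.castHom (dvd_refl l) E j) * s :=
        add_left_cancel hij
      exact (ZMod.castHom (dvd_refl l) E).injective (mul_right_cancel₀ hs h1)
    have hsub : Finset.univ.image φ ⊆
        (X ^ l + C (-s ^ (l - 1)) * X + C b : E[X]).roots.toFinset := by
      intro z hz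
      obtain ⟨i, _, rfl⟩ := Finset.mem_image.1 hz
      rw [Multiset.mem_toFinset, mem_roots hpne, IsRoot.def]
      simp only [eval_add, eval_mul, eval_pow, eval_X, eval_C]
      have h2 : (φ i) ^ l = y ^ l + (ZMod.castHom (dvd_refl l) E i) * s ^ l := by
        change (y + (ZMod.castHom (dvd_refl l) E i) * s) ^ l = _
        rw [add_pow_char, mul_pow, ← map_pow, ZMod.pow_card]
      have h3 : s ^ l = s ^ (l - 1) * s := by
        rw [← pow_succ]
        congr 1
        omega
      rw [h2, h3]
      change y ^ l + (ZMod.castHom (dvd_refl l) E i) * (s ^ (l - 1) * s) +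
        -s ^ (l - 1) * (y + (ZMod.castHom (dvd_refl l) E i) * s) + b = 0
      linear_combination h
    calc l = (Finset.univ.image φ).card := by
          rw [Finset.card_image_of_injective _ hφ, Finset.card_univ, ZMod.card]
      _ ≤ _ := Finset.card_le_card hsub
      _ ≤ _ := Multiset.toFinset_card_le _

/-- Module xg. PROOF. `X_pow_sub_C_splits_of_isPrimitiveRoot` or directly. -/
theorem split_ku {E : Type*} [Field E] (l : ℕ) (hl : l.Prime) (ζ : E) (hζ : IsPrimitiveRoot ζ l)
    (b y : E) (h : y ^ l + b = 0) : (X ^ l + C b : E[X]).Splits := by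
  have h1 : y ^ l = -b := eq_neg_of_add_eq_zero_left h
  have h2 := X_pow_sub_C_splits_of_isPrimitiveRoot hζ h1
  rwa [C_neg, sub_neg_eq_add] at h2
/- END xg -/

/- MODULE xh -/
/-- Module xh. The monic equations. PROOF. `ec_split` for `fAB l A B`; `fx (fAB l A B) x =
X ^ l + C (A(x)) * X + C (B(x))`; `split_as`, `split_ku` over `L` and over `K`; `a` near `x` with a
root `b` of `fx (fAB l A B) a` from `multi` with `n = 0`. If `x` is in `K`: `y` is in `K` (`alg_mem`),
take `(a, b) = (x, y)`. `CharP L l` from `charP_of_injective_algebraMap`. -/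
theorem ec_monic {v : Valuation K Γ} {w : Valuation L Γ} (hv : Ext v)
    (hvw : ∀ a : K, w (algebraMap K L a) = v a) (himm : Imm K w) (x y : L)
    (l : ℕ) (hl : l.Prime) (A B : K[X])
    (hcase : (CharP K l ∧ ∃ S : K[X], A = -S ^ (l - 1)) ∨
      (A = 0 ∧ ∃ ζ : K, IsPrimitiveRoot ζ l))
    (hy : y ^ l + aeval x A * y + aeval x B = 0) (n : ℕ) (G : ℕ → K[X][X]) :
    ∃ a b : K, ∀ j, j < n → v (ev (G j) a b) = w ((fx (G j) x).eval y) := by
  have hfm : (fAB l A B).Monic := (fAB_monic l hl.two_le A B).1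
  have hfx : ∀ (E : Type) [Field E] [Algebra K E] (z : E),
      fx (fAB l A B) z = X ^ l + C (aeval z A) * X + C (aeval z B) := by
    intro E _ _ z
    unfold fx fAB
    simp
  have hspl : ∀ (E : Type) [Field E] [Algebra K E] (z u : E),
      (fx (fAB l A B) z).eval u = 0 → (fx (fAB l A B) z).Splits := by
    intro E _ _ z u hu
    rw [hfx] at hu ⊢
    simp only [eval_add, eval_mul, eval_pow, eval_X, eval_C] at hu
    rcases hcase with ⟨hch, S, rfl⟩ | ⟨rfl, ζ, hζ⟩
    · haveI : CharP E l := charP_of_injective_algebraMap (algebraMap K E).injective l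
      rw [map_neg, map_pow] at hu ⊢
      exact split_as l hl (aeval z S) (aeval z B) u hu
    · rw [map_zero, zero_mul, add_zero] at hu
      rw [map_zero, map_zero, zero_mul, add_zero]
      exact split_ku l hl (algebraMap K E ζ)
        (hζ.map_of_injective (algebraMap K E).injective) (aeval z B) u hu
  have hfy : (fx (fAB l A B) x).eval y = 0 := by
    rw [hfx]
    simpa using hy
  by_cases hx : ∀ a : K, x ≠ algebraMap K L a
  · obtain ⟨a, b, _, h⟩ := ec_split hv hvw himm x y hx (fAB l A B) hfm hfy (hspl L x y hfy)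
      (fun c => by
        have hcase' : l = 2 ∨ CharP K l ∨ A = 0 := by
          rcases hcase with ⟨hch, _⟩ | ⟨h, _⟩
          · exact Or.inr (Or.inl hch)
          · exact Or.inr (Or.inr h)
        obtain ⟨a, b, h1, h2, _⟩ := multi hv hvw himm x y hx l hl A B hcase' hfy 0
          (fun _ => 0) c
        refine ⟨a, h1, hspl K a b ?_⟩
        rw [← xf_ev]
        exact h2) n G
    exact ⟨a, b, h⟩
  · push Not at hx
    obtain ⟨a, rfl⟩ := hx
    have hmon : (fx (fAB l A B) a).Monic := hfm.map _
    have hcomp : ∀ H : K[X][X], fx H (algebraMap K L a) = (fx H a).map (algebraMap K L) := by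
      intro H
      unfold fx
      rw [Polynomial.map_map]
      congr 1
      ext p <;> simp
    obtain ⟨b, rfl⟩ := alg_mem hv hvw himm y (fx (fAB l A B) a) hmon.ne_zero (by
      rw [hcomp, eval_map_algebraMap] at hfy
      exact hfy)
    refine ⟨a, b, fun j _ => ?_⟩
    rw [hcomp, eval_map, eval₂_at_apply, hvw, xf_ev]
/- END xh -/

/- MODULE xi -/
/-- Module xi. From polynomials to the field `K(x, z)`. PROOF. As `quad_ec` in `Main.lean` (`comden`,
`fracs`, `toXX`). -/
theorem ec_field {v : Valuation K Γ} {w : Valuation L Γ} (x y : L)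
    (hec : ∀ (n : ℕ) (G : ℕ → K[X][X]),
      ∃ a b : K, ∀ j, j < n → v (ev (G j) a b) = w ((fx (G j) x).eval y))
    (n : ℕ) (z : Fin n → L) (hz : ∀ i, z i ∈ IntermediateField.adjoin K {x, y})
    (m : ℕ) (F : Fin m → MvPolynomial (Fin n) K) :
    ∃ z' : Fin n → K, ∀ j, v (MvPolynomial.eval z' (F j)) = w (MvPolynomial.aeval z (F j)) := by
  classical
  obtain ⟨R, s, hs, hzR⟩ := comden x y n z hz
  choose d G hG using fun j => fracs n R s (F j)
  choose T hT hT' using fun g : MvPolynomial (Fin 2) K => toXX g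
  obtain ⟨a, b, hab⟩ := hec (m + 1) (fun j => if h : j < m then T (G ⟨j, h⟩) else T s)
  have hs1 : v (MvPolynomial.eval ![a, b] s) = w (MvPolynomial.aeval ![x, y] s) := by
    have h1 := hab m (Nat.lt_succ_self m)
    simp only [lt_irrefl, dif_neg, not_false_iff] at h1
    rw [hT, hT'] at h1
    exact h1
  have hs2 : w (MvPolynomial.aeval ![x, y] s) ≠ 0 := (Valuation.ne_zero_iff _).2 hs
  have hs3 : MvPolynomial.eval ![a, b] s ≠ 0 := by
    intro h
    rw [h, map_zero] at hs1
    exact hs2 hs1.symm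
  refine ⟨fun i => MvPolynomial.eval ![a, b] (R i) / MvPolynomial.eval ![a, b] s, fun j => ?_⟩
  have h1 := hab j (Nat.lt_succ_of_lt j.2)
  simp only [j.2, dif_pos] at h1
  rw [hT, hT'] at h1
  have h2 := hG j K ![a, b] (by
    rw [MvPolynomial.aeval_eq_eval]
    exact hs3)
  have h3 := hG j L ![x, y] hs
  have h4 : z = fun i => MvPolynomial.aeval ![x, y] (R i) / MvPolynomial.aeval ![x, y] s :=
    funext hzR
  rw [← h4] at h3
  simp only [MvPolynomial.aeval_eq_eval] at h2
  refine mul_right_cancel₀ (pow_ne_zero (d j) hs2) ?_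
  rw [← map_pow, ← map_mul, h3, ← h1, map_pow, ← hs1, ← map_pow, ← map_mul]
  exact congrArg v h2

private theorem xi_frac (x u : L) (hu : u ∈ IntermediateField.adjoin K {x}) :
    ∃ N M : K[X], aeval x M ≠ 0 ∧ u * aeval x M = aeval x N := by
  rw [IntermediateField.mem_adjoin_simple_iff] at hu
  obtain ⟨r, s, h⟩ := hu
  by_cases hs : aeval x s = 0
  · refine ⟨0, 1, ?_, ?_⟩
    · rw [map_one]
      exact one_ne_zero
    · rw [h, hs, div_zero, zero_mul, map_zero]
  · exact ⟨r, s, hs, by rw [h, div_mul_cancel₀ _ hs]⟩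

private theorem xi_adj (x y : L) (M : K[X]) (hM : aeval x M ≠ 0) :
    IntermediateField.adjoin K {x, y} ≤ IntermediateField.adjoin K {x, aeval x M * y} := by
  rw [IntermediateField.adjoin_le_iff]
  have hx : x ∈ IntermediateField.adjoin K {x, aeval x M * y} :=
    IntermediateField.subset_adjoin K _ (Or.inl rfl)
  have hz : aeval x M * y ∈ IntermediateField.adjoin K {x, aeval x M * y} :=
    IntermediateField.subset_adjoin K _ (Or.inr rfl)
  have hMx : aeval x M ∈ IntermediateField.adjoin K {x, aeval x M * y} := by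
    have h1 : aeval x M =
        algebraMap (IntermediateField.adjoin K {x, aeval x M * y}) L
          (aeval (⟨x, hx⟩ : IntermediateField.adjoin K {x, aeval x M * y}) M) := by
      rw [← aeval_algebraMap_apply]
      rfl
    have h2 : algebraMap (IntermediateField.adjoin K {x, aeval x M * y}) L
        (aeval (⟨x, hx⟩ : IntermediateField.adjoin K {x, aeval x M * y}) M) ∈
          IntermediateField.adjoin K {x, aeval x M * y} :=
      (aeval (⟨x, hx⟩ : IntermediateField.adjoin K {x, aeval x M * y}) M).2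
    rw [← h1] at h2
    exact h2
  rintro t (rfl | rfl)
  · exact hx
  · have h1 := div_mem hz hMx
    rw [mul_div_cancel_left₀ t hM] at h1
    exact h1

/-- Module xi. Change of the generator. PROOF. `y ^ l - y = N(x) / M(x)` (elements of `K(x)`:
`IntermediateField.mem_adjoin_simple_iff`), `z = M(x) y`, `z ^ l - M(x) ^ (l - 1) z -
M(x) ^ (l - 1) N(x) = 0`, and `K(x, z) = K(x, y)`; similarly for `y ^ l = N(x) / M(x)` (in
characteristic `l` with `S = 0` : `A = - 0 ^ (l - 1) = 0`). `ec_monic`, `ec_field`. -/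
theorem cyc_ec {v : Valuation K Γ} {w : Valuation L Γ} (hv : Ext v)
    (hvw : ∀ a : K, w (algebraMap K L a) = v a) (himm : Imm K w) (x y : L)
    (l : ℕ) (hl : l.Prime)
    (hcase : (CharP K l ∧ y ^ l - y ∈ IntermediateField.adjoin K {x}) ∨
      ((CharP K l ∨ ∃ ζ : K, IsPrimitiveRoot ζ l) ∧ y ^ l ∈ IntermediateField.adjoin K {x}))
    (n : ℕ) (z : Fin n → L) (hz : ∀ i, z i ∈ IntermediateField.adjoin K {x, y})
    (m : ℕ) (F : Fin m → MvPolynomial (Fin n) K) :
    ∃ z' : Fin n → K, ∀ j, v (MvPolynomial.eval z' (F j)) = w (MvPolynomial.aeval z (F j)) := by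
  obtain ⟨k, rfl⟩ : ∃ k, l = k + 2 := ⟨l - 2, by have := hl.two_le; omega⟩
  have hk : k + 2 - 1 = k + 1 := by omega
  rcases hcase with ⟨hc, hu⟩ | ⟨hc, hu⟩
  · obtain ⟨N, M, hM, hN⟩ := xi_frac x _ hu
    refine ec_field x (aeval x M * y) (fun n' G => ?_) n z (fun i => xi_adj x y M hM (hz i)) m F
    refine ec_monic hv hvw himm x (aeval x M * y) (k + 2) hl (-M ^ (k + 2 - 1)) (-(M ^ (k + 1) * N))
      (Or.inl ⟨hc, M, rfl⟩) ?_ n' G
    rw [hk]
    simp only [map_neg, map_mul, map_pow]
    linear_combination (aeval x M) ^ (k + 1) * hN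
  · obtain ⟨N, M, hM, hN⟩ := xi_frac x _ hu
    refine ec_field x (aeval x M * y) (fun n' G => ?_) n z (fun i => xi_adj x y M hM (hz i)) m F
    refine ec_monic hv hvw himm x (aeval x M * y) (k + 2) hl 0 (-(M ^ (k + 1) * N))
      ?_ ?_ n' G
    · rcases hc with hc | hc
      · refine Or.inl ⟨hc, 0, ?_⟩
        rw [hk, pow_succ, mul_zero, neg_zero]
      · exact Or.inr ⟨rfl, hc⟩
    · simp only [map_neg, map_mul, map_pow, map_zero]
      linear_combination (aeval x M) ^ (k + 1) * hN
/- END xi -/

end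

/- MODULE xj -/
private theorem xj_ext {K : Type} [Field K] {Γ₀ : Type} [LinearOrderedCommGroupWithZero Γ₀]
    {v : Valuation K Γ₀} {Γ₁ : Type} [LinearOrderedCommGroupWithZero Γ₁]
    {v' : Valuation K Γ₁} (h : v'.IsEquiv v) (hv : Ext v) : Ext v' := by
  intro n f
  obtain ⟨a, h1, h2⟩ := hv n f
  have h3 : ∀ x : K, v' x ≤ 1 ↔ v x ≤ 1 := by
    intro x
    have := h x 1
    rwa [map_one, map_one] at this
  exact ⟨a, fun i => (h3 _).2 (h1 i), fun b hb => (h _ _).2 (h2 b (fun i => (h3 _).1 (hb i)))⟩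

/-- Module xj. The final form. PROOF. As `quadratic_result`. -/
theorem cyclic_ec_result (K : Type) [Field K] (Γ₀ : Type) [LinearOrderedCommGroupWithZero Γ₀]
    (v : Valuation K Γ₀)
    (hext : ∀ (n : ℕ) (f : MvPolynomial (Fin n) K), ∃ a : Fin n → K, (∀ i, v (a i) ≤ 1) ∧
      ∀ b : Fin n → K, (∀ i, v (b i) ≤ 1) →
        v (MvPolynomial.eval a f) ≤ v (MvPolynomial.eval b f))
    (L : Type) [Field L] [Algebra K L] (Γ₁ : Type) [LinearOrderedCommGroupWithZero Γ₁]
    (w : Valuation L Γ₁) (hvw : (w.comap (algebraMap K L)).IsEquiv v)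
    (himm : ∀ y : L, y ≠ 0 → ∃ x : K, w (y - algebraMap K L x) < w y)
    (l : ℕ) (hl : l.Prime) (x y : L)
    (hcase : (CharP K l ∧ y ^ l - y ∈ IntermediateField.adjoin K {x}) ∨
      ((CharP K l ∨ ∃ ζ : K, IsPrimitiveRoot ζ l) ∧ y ^ l ∈ IntermediateField.adjoin K {x}))
    (n : ℕ) (z : Fin n → L) (hz : ∀ i, z i ∈ IntermediateField.adjoin K {x, y})
    (m : ℕ) (F : Fin m → MvPolynomial (Fin n) K) :
    ∃ z' : Fin n → K, ∀ j,
      w (algebraMap K L (MvPolynomial.eval z' (F j))) = w (MvPolynomial.aeval z (F j)) := by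
  exact cyc_ec (v := w.comap (algebraMap K L)) (w := w) (xj_ext hvw hext) (fun _ => rfl) himm x y
    l hl hcase n z hz m F
/- END xj -/

end Pool.Agent.Xtc
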