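import Pool.Agent.Xtr.Gr

set_option autoImplicit false

/-!
Library `Xtc` (MP_28a29f_lc): curves `A0(X) Y^l + A1(X) Y + A2(X)` over extremal valued fields.
Definitions.

Conventions: a polynomial in `X, Y` over `K` is `f : K[X][X]`, the inner variable is `X`, the outer
one `Y`; `h : K[X]` is a polynomial in `X`, to be substituted for `Y`.
-/

namespace Pool.Agent.Xtc

open Polynomial Pool.Agent.Xtr

section

variable {K : Type*} [Field K] {Γ : Type*} [LinearOrderedCommGroupWithZero Γ]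

/-- Gauss norm of radius `ρ` (with centre `0`) -/
noncomputable def gn (v : Valuation K Γ) (ρ : Γ) (g : K[X]) : Γ :=
  g.support.sup fun j => v (g.coeff j) * ρ ^ j

/-- the maximum of finitely many polynomial functions has a minimum on integral vectors -/
def MM (v : Valuation K Γ) : Prop :=
  ∀ (n N : ℕ) (g : Fin N → (Fin n → K) → K), (∀ i, PF (g i)) →
    ∃ u, Ivec v u ∧ ∀ u', Ivec v u' → ∀ i, ∃ j, v (g i u) ≤ v (g j u')

/-- the value `f(a,b)` -/
noncomputable def ev (f : K[X][X]) (a b : K) : K := (f.eval (C b)).eval a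

/-- the polynomial `Y ^ l + A(X) Y + B(X)` -/
noncomputable def fAB (l : ℕ) (A B : K[X]) : K[X][X] := X ^ l + C A * X + C B

/-- the coefficients of `f(X, h(X) + Y)` with respect to `Y` -/
noncomputable def tc (f : K[X][X]) (h : K[X]) (i : ℕ) : K[X] := (taylor h f).coeff i

/-- the polynomials `h` of degree at most `D` which stay in the disc of radius `r2` around `b0` on
the disc of radius `r0` around `0` -/
def HS (v : Valuation K Γ) (D : ℕ) (r0 b0 r2 : K) (h : K[X]) : Prop :=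
  h.natDegree ≤ D ∧ gn v (v r0) (h - C b0) ≤ v r2

/-- the middle coefficients are small -/
def SS (v : Valuation K Γ) (f : K[X][X]) (l : ℕ) (h : K[X]) (ρ : Γ) : Prop :=
  ∀ i, 0 < i → i < l → gn v ρ (tc f h i) ^ l < gn v ρ (f.eval h) ^ (l - i)

/-- `h` minimises the Gauss norm of `f(X, h(X))` for the radius `ρ` -/
def Opt (v : Valuation K Γ) (f : K[X][X]) (D : ℕ) (r0 b0 r2 : K) (ρ : Γ) (h : K[X]) : Prop :=
  HS v D r0 b0 r2 h ∧ ∀ h', HS v D r0 b0 r2 h' → gn v ρ (f.eval h) ≤ gn v ρ (f.eval h')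

/-- the data of the contradiction -/
structure Cr (v : Valuation K Γ) (f : K[X][X]) (l D M : ℕ) (b0 r2 : K) (a b : ℕ → K) : Prop where
  prime : l.Prime
  small : v (l : K) < 1
  monic : f.Monic
  deg : f.natDegree = l
  rad : r2 ≠ 0
  ne : ∀ k, k ≤ M → a k ≠ 0
  dec : ∀ k, k < M → v (a (k + 1)) < v (a k)
  bb : ∀ k, k ≤ M → v (b k - b0) ≤ v r2
  min : ∀ k, k ≤ M → ∀ a' b' : K, v a' ≤ v (a k) → v (b' - b0) ≤ v r2 →
    v (ev f (a k) (b k)) ≤ v (ev f a' b')
  room : ∀ k, k < M → ∀ g : K, g ≠ 0 →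
    ∃ u : K, v (a (k + 1)) ≤ v g * v u ^ l ∧ v g * v u ^ l < v (a k)
  degb : ∀ h : K[X], h.natDegree ≤ D → (f.eval h).natDegree ≤ l * D
  nz : ∀ a' b' : K, v a' ≤ v (a 0) → v (b' - b0) ≤ v r2 → ev f a' b' ≠ 0
  bd : ∀ h, HS v D (a 0) b0 r2 h → gn v (v (a 0)) (f.eval h) ≤ v r2 ^ l
  ss : ∀ h, HS v D (a 0) b0 r2 h → ∀ ρ, v (a M) ≤ ρ → ρ ≤ v (a 0) → SS v f l h ρ
  h4 : ∀ h, HS v D (a 0) b0 r2 h → ∀ k, k ≤ M →
    (∀ j, 1 ≤ j → v ((f.eval h).coeff j) * v (a k) ^ j < v ((f.eval h).coeff 0)) →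
      ∃ e : K, v ((f.eval h).coeff 0 + e ^ l) < v ((f.eval h).coeff 0)

/-- a parametrisation of `HS` by integral vectors -/
noncomputable def hp (D : ℕ) (r0 b0 r2 : K) (u : Fin (D + 1) → K) : K[X] :=
  C b0 + ∑ j : Fin (D + 1), C (r2 * (r0⁻¹) ^ (j : ℕ) * u j) * X ^ (j : ℕ)

end

section

variable {K : Type*} [Field K] {L : Type*} [Field L] [Algebra K L]

/-- `f(x, Y)` -/
noncomputable def fx (f : K[X][X]) (x : L) : L[X] :=
  f.map ((aeval x : K[X] →ₐ[K] L) : K[X] →+* L)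

/-- `g` behaves like a constant near `x` -/
def Reg {Γ : Type*} [LinearOrderedCommGroupWithZero Γ] (v : Valuation K Γ) (w : Valuation L Γ)
    (x : L) (a0 : K) (g : K[X]) : Prop :=
  (g ≠ 0 → aeval x g ≠ 0) ∧
    ∀ a : K, w (x - algebraMap K L a) ≤ w (x - algebraMap K L a0) →
      v (g.eval a) = w (aeval x g) ∧
      (g ≠ 0 → w (aeval x g - algebraMap K L (g.eval a)) < w (aeval x g)) ∧
      ∀ ρ : Γ, w (x - algebraMap K L a) ≤ ρ → ρ ≤ w (x - algebraMap K L a0) →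
        gn v ρ (taylor a g) = w (aeval x g)

/-- the cluster inequalities for the polynomial `p` of degree `l` with root `0` -/
def CI {Γ : Type*} [LinearOrderedCommGroupWithZero Γ] (w : Valuation L Γ) (l : ℕ) (p : L[X]) :
    Prop :=
  ∀ i, 1 ≤ i → w (p.coeff i) ^ (l - 1) ≤ w (p.coeff 1) ^ (l - i)

/-- the middle coefficients of `f(X, h(X) + Y)` are small near `x`, for all `h` for which
`f(X, h(X))` is not too small -/
def SR {Γ : Type*} [LinearOrderedCommGroupWithZero Γ] (v : Valuation K Γ) (w : Valuation L Γ)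
    (x : L) (f : K[X][X]) (l : ℕ) (γ : Γ) : Prop :=
  ∃ a0 : K, ∀ a : K, w (x - algebraMap K L a) ≤ w (x - algebraMap K L a0) →
    ∀ ρ : Γ, w (x - algebraMap K L a) ≤ ρ → ρ ≤ w (x - algebraMap K L a0) →
      ∀ h : K[X], γ ^ l < gn v ρ (taylor a (f.eval h)) ^ (l - 1) →
        ∀ i, 0 < i → i < l →
          gn v ρ (taylor a (tc f h i)) ^ l < gn v ρ (taylor a (f.eval h)) ^ (l - i)

/-- translation of the variable `X` in `f` -/
noncomputable def shf (f : K[X][X]) (a : K) : K[X][X] :=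
  f.map ((taylorAlgHom a : K[X] →ₐ[K] K[X]) : K[X] →+* K[X])

end

end Pool.Agent.Xtc
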