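import Pool.Agent.Xtc.Fam

set_option autoImplicit false

namespace Pool.Agent.Xtc

open Polynomial Pool.Agent.Xtr

section

variable {K : Type*} [Field K] {Γ : Type*} [LinearOrderedCommGroupWithZero Γ]
  {L : Type*} [Field L] [Algebra K L]

/- MODULE va -/
private theorem va_ev (f : K[X][X]) (a : K) (h : K[X]) :
    ev f a (h.eval a) = (f.eval h).eval a := by
  have key : ∀ p : K[X], (f.eval p).eval a = (f.map (evalRingHom a)).eval (p.eval a) := by
    intro p
    rw [eval_map]
    exact (Polynomial.hom_eval₂ f (RingHom.id _) (evalRingHom a) p)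
  unfold ev
  rw [key, key, eval_C]

private theorem va_fx (f : K[X][X]) (x : L) (h : K[X]) :
    (fx f x).eval (aeval x h) = aeval x (f.eval h) := by
  unfold fx
  rw [eval_map]
  exact (Polynomial.hom_eval₂ f (RingHom.id _) ((aeval x : K[X] →ₐ[K] L) : K[X] →+* L) h).symm

/-- Module va. If `y = h(x)` with `h` in `K[X]`, then `(a, h(a))` for `a` close to `x`. PROOF.
`f.eval h = 0` as `aeval x (f.eval h) = 0` (`reg`); `reg` for the polynomials `h - g i`. -/
theorem multi0 {v : Valuation K Γ} {w : Valuation L Γ} (hv : Ext v)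
    (hvw : ∀ a : K, w (algebraMap K L a) = v a) (himm : Imm K w) (x : L)
    (hx : ∀ a : K, x ≠ algebraMap K L a) (f : K[X][X]) (h : K[X])
    (hh : (fx f x).eval (aeval x h) = 0) (n : ℕ) (g : ℕ → K[X]) (c : K) :
    ∃ a b : K, w (x - algebraMap K L a) ≤ w (x - algebraMap K L c) ∧ ev f a b = 0 ∧
      ∀ i, i < n → v (b - (g i).eval a) = w (aeval x h - aeval x (g i)) := by
  obtain ⟨a0, h1, h2⟩ := reg hv hvw himm x hx (n + 1)
    (fun i => if i < n then h - g i else f.eval h) c
  have h3 : f.eval h = 0 := by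
    by_contra hne
    have h4 := h2 n (Nat.lt_succ_self n)
    simp only [lt_irrefl, if_false] at h4
    rw [va_fx] at hh
    exact h4.1 hne hh
  refine ⟨a0, h.eval a0, h1, ?_, fun i hi => ?_⟩
  · rw [va_ev, h3, eval_zero]
  · have h4 := h2 i (Nat.lt_succ_of_lt hi)
    simp only [hi, if_true] at h4
    have h5 := (h4.2 a0 le_rfl).1
    rw [← eval_sub, ← map_sub]
    exact h5

/-- Module va. The comparison of values. `h` is one of the best approximations of `y` among the
given polynomials `g i`. PROOF. `y - g(x)` and `b - g(a)` differ by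
`(y - h(x) - e) - (b - h(a) - e) + ((h - g)(x) - (h - g)(a))`; the first two terms are
`< w (y - h(x)) ≤ w (y - g(x))`, the third is `0` or `< w ((h - g)(x)) ≤ w (y - g(x))`. -/
theorem multi1 {v : Valuation K Γ} {w : Valuation L Γ}
    (hvw : ∀ a : K, w (algebraMap K L a) = v a) (x y : L) (h g : K[X]) (e a b : K)
    (h1 : w (y - aeval x h - algebraMap K L e) < w (y - aeval x h))
    (h2 : v (b - h.eval a - e) ≤ w (y - aeval x h - algebraMap K L e))
    (h3 : w (y - aeval x h) ≤ w (y - aeval x g))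
    (h4 : h - g ≠ 0 → w (aeval x (h - g) - algebraMap K L ((h - g).eval a)) <
      w (aeval x (h - g))) :
    v (b - g.eval a) = w (y - aeval x g) := by
  have hpos : w (y - aeval x h - algebraMap K L e) < w (y - aeval x g) := h1.trans_le h3
  have h5 : w (aeval x (h - g) - algebraMap K L ((h - g).eval a)) < w (y - aeval x g) := by
    by_cases hg : h - g = 0
    · rw [hg, map_zero, eval_zero, map_zero, sub_zero, map_zero]
      exact (zero_le).trans_lt hpos
    · refine (h4 hg).trans_le ?_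
      have h6 : aeval x (h - g) = (y - aeval x g) - (y - aeval x h) := by
        rw [map_sub]
        ring
      rw [h6]
      exact (Valuation.map_sub _ _ _).trans (max_le le_rfl h3)
  have h6 : w (algebraMap K L (b - h.eval a - e)) < w (y - aeval x g) := by
    rw [hvw]
    exact h2.trans_lt hpos
  have h7 : algebraMap K L (b - g.eval a) - (y - aeval x g) =
      (algebraMap K L (b - h.eval a - e) - (y - aeval x h - algebraMap K L e)) -
        (aeval x (h - g) - algebraMap K L ((h - g).eval a)) := by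
    simp only [eval_sub, map_sub]
    ring
  have h8 : w (algebraMap K L (b - g.eval a) - (y - aeval x g)) < w (y - aeval x g) := by
    rw [h7]
    refine (Valuation.map_sub _ _ _).trans_lt (max_lt ?_ h5)
    exact (Valuation.map_sub _ _ _).trans_lt (max_lt h6 hpos)
  rw [← hvw]
  exact Valuation.map_eq_of_sub_lt _ h8
/- END va -/

/- MODULE vb -/
/-- Module vb. Zeros which have given distances. PROOF. `n = 0`: `mon1` with `h0 = 0` and `r2` with
`v r2 = w y` or `r2 = 1` if `y = 0`. Otherwise let `i0 < n` minimise `w (y - aeval x (g i))`,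
`h = g i0`, `y' = y - aeval x h`. If `y' = 0`: `multi0`. Otherwise choose `e` with
`w (y' - e) < w y'` (`himm`). If `y' = e`: `multi0` for `h + C e`. Otherwise `v r2 = w (y' - e)`
(`Imm.val`) and `mon1` with `h0 = h + C e`, and the centre `c` replaced by a centre from `reg` for
the polynomials `h - g i`; `multi1`. -/
theorem multi {v : Valuation K Γ} {w : Valuation L Γ} (hv : Ext v)
    (hvw : ∀ a : K, w (algebraMap K L a) = v a) (himm : Imm K w) (x y : L)
    (hx : ∀ a : K, x ≠ algebraMap K L a) (l : ℕ) (hl : l.Prime) (A B : K[X])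
    (hcase : l = 2 ∨ CharP K l ∨ A = 0) (hy : (fx (fAB l A B) x).eval y = 0)
    (n : ℕ) (g : ℕ → K[X]) (c : K) :
    ∃ a b : K, w (x - algebraMap K L a) ≤ w (x - algebraMap K L c) ∧
      ev (fAB l A B) a b = 0 ∧ ∀ i, i < n → v (b - (g i).eval a) = w (y - aeval x (g i)) := by
  rcases Nat.eq_zero_or_pos n with hn | hn
  · subst hn
    obtain ⟨r2, hr2, hr⟩ : ∃ r2 : K, r2 ≠ 0 ∧ w y ≤ v r2 := by
      by_cases hy0 : y = 0
      · exact ⟨1, one_ne_zero, by rw [hy0, map_zero]; exact zero_le⟩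
      · obtain ⟨r, hr⟩ := himm.val hvw y
        refine ⟨r, ?_, hr.ge⟩
        rintro rfl
        rw [map_zero] at hr
        exact hy0 ((Valuation.zero_iff _).1 hr.symm)
    obtain ⟨a, b, h1, -, h2⟩ := mon1 hv hvw himm x y hx l hl A B hcase hy 0 r2 hr2
      (by rw [map_zero, sub_zero]; exact hr) c
    exact ⟨a, b, h1, h2, fun i hi => absurd hi (Nat.not_lt_zero i)⟩
  obtain ⟨i0, hi0, hmin⟩ := Finset.exists_min_image (Finset.range n)
    (fun i => w (y - aeval x (g i))) ⟨0, Finset.mem_range.2 hn⟩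
  by_cases hy0 : y - aeval x (g i0) = 0
  · have hyx : y = aeval x (g i0) := sub_eq_zero.1 hy0
    obtain ⟨a, b, h1, h2, h3⟩ := multi0 hv hvw himm x hx (fAB l A B) (g i0) (hyx ▸ hy) n g c
    exact ⟨a, b, h1, h2, fun i hi => by rw [h3 i hi, hyx]⟩
  obtain ⟨e, he⟩ := himm _ hy0
  by_cases hye : y - aeval x (g i0) - algebraMap K L e = 0
  · have hyx : y = aeval x (g i0 + C e) := by
      rw [map_add, aeval_C]
      linear_combination hye
    obtain ⟨a, b, h1, h2, h3⟩ := multi0 hv hvw himm x hx (fAB l A B) (g i0 + C e) (hyx ▸ hy) n g c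
    exact ⟨a, b, h1, h2, fun i hi => by rw [h3 i hi, hyx]⟩
  obtain ⟨r2, hr2⟩ := himm.val hvw (y - aeval x (g i0) - algebraMap K L e)
  have hr0 : r2 ≠ 0 := by
    rintro rfl
    rw [map_zero] at hr2
    exact hye ((Valuation.zero_iff _).1 hr2.symm)
  obtain ⟨a0, h1, h2⟩ := reg hv hvw himm x hx n (fun i => g i0 - g i) c
  have h3 : w (y - aeval x (g i0 + C e)) ≤ v r2 := by
    rw [map_add, aeval_C, hr2, sub_sub]
  obtain ⟨a, b, h4, h5, h6⟩ := mon1 hv hvw himm x y hx l hl A B hcase hy (g i0 + C e) r2 hr0 h3 a0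
  refine ⟨a, b, h4.trans h1, h6, fun i hi => ?_⟩
  refine multi1 hvw x y (g i0) (g i) e a b he ?_ (hmin i (Finset.mem_range.2 hi)) ?_
  · rw [← hr2]
    rw [eval_add, eval_C, ← sub_sub] at h5
    exact h5
  · exact ((h2 i hi).2 a h4).2.1
/- END vb -/

/- MODULE vc -/
/-- Module vc. The non monic equation. `S = A0 * Q`, `z = S(x) y`. -/
theorem nonmon_up (l : ℕ) (hl : 2 ≤ l) (A0 A1 A2 Q : K[X]) (x y : L)
    (hy : aeval x A0 * y ^ l + aeval x A1 * y + aeval x A2 = 0) :
    (fx (fAB l (A1 * A0 ^ (l - 2) * Q ^ (l - 1)) (A0 ^ (l - 1) * Q ^ l * A2)) x).eval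
      (aeval x (A0 * Q) * y) = 0 := by
  obtain ⟨m, rfl⟩ : ∃ m, l = m + 2 := ⟨l - 2, by omega⟩
  have h1 : m + 2 - 2 = m := by omega
  have h2 : m + 2 - 1 = m + 1 := by omega
  rw [fAB_fx, h1, h2]
  simp only [map_mul, map_pow]
  linear_combination ((aeval x A0) ^ (m + 1) * (aeval x Q) ^ (m + 2)) * hy

/-- Module vc. The way back. -/
theorem nonmon_down (l : ℕ) (hl : 2 ≤ l) (A0 A1 A2 Q : K[X]) (a b : K)
    (hS : (A0 * Q).eval a ≠ 0)
    (h : ev (fAB l (A1 * A0 ^ (l - 2) * Q ^ (l - 1)) (A0 ^ (l - 1) * Q ^ l * A2)) a b = 0) :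
    A0.eval a * (b / (A0 * Q).eval a) ^ l + A1.eval a * (b / (A0 * Q).eval a) + A2.eval a = 0 := by
  obtain ⟨m, rfl⟩ : ∃ m, l = m + 2 := ⟨l - 2, by omega⟩
  have h1 : m + 2 - 2 = m := by omega
  have h2 : m + 2 - 1 = m + 1 := by omega
  rw [fAB_ev, h1, h2] at h
  obtain ⟨t, ht⟩ : ∃ t, t = b / (A0 * Q).eval a := ⟨_, rfl⟩
  have hb : b = A0.eval a * Q.eval a * t := by
    rw [ht, mul_div_assoc', eval_mul]
    rw [eval_mul] at hS
    exact (mul_div_cancel_left₀ b hS).symm
  rw [← ht]
  rw [eval_mul] at hS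
  have hA : A0.eval a ≠ 0 := left_ne_zero_of_mul hS
  have hQ : Q.eval a ≠ 0 := right_ne_zero_of_mul hS
  have h3 : (A0.eval a) ^ (m + 1) * (Q.eval a) ^ (m + 2) ≠ 0 :=
    mul_ne_zero (pow_ne_zero _ hA) (pow_ne_zero _ hQ)
  refine mul_left_cancel₀ h3 ?_
  rw [hb] at h
  simp only [eval_mul, eval_pow] at h
  rw [mul_zero]
  linear_combination h
/- END vc -/

/- MODULE vd -/
/-- Module vd. Zeros which give prescribed values to finitely many polynomials of degree at most `1`
in `Y`. PROOF. `Q = ∏ j ∈ range n, (if Q j = 0 then 1 else Q j)`, `S = A0 * Q ≠ 0`, `A0 ≠ 0` since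
`aeval x A0 ≠ 0`. For `Q j ≠ 0` there is `g j` with `Q j * g j = - (P j * S)`. `multi` for
`nonmon_up`, the polynomials `g j` and a centre from `reg` for `S`, `P j`, `Q j` (at most
`2 n + 1` polynomials) gives `(a, b')`; `b = b' / S.eval a`, `nonmon_down`. For `Q j ≠ 0`:
`P j (a) + Q j (a) b = Q j (a) / S (a) * (b' - g j (a))`, and the same over `L` with `z = S(x) y`.
For `Q j = 0`: `Reg` for `P j`. -/
theorem lin {v : Valuation K Γ} {w : Valuation L Γ} (hv : Ext v)
    (hvw : ∀ a : K, w (algebraMap K L a) = v a) (himm : Imm K w) (x y : L)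
    (hx : ∀ a : K, x ≠ algebraMap K L a) (l : ℕ) (hl : l.Prime) (A0 A1 A2 : K[X])
    (hcase : l = 2 ∨ CharP K l ∨ A1 = 0) (h0 : aeval x A0 ≠ 0)
    (hy : aeval x A0 * y ^ l + aeval x A1 * y + aeval x A2 = 0)
    (n : ℕ) (P Q : ℕ → K[X]) :
    ∃ a b : K, A0.eval a * b ^ l + A1.eval a * b + A2.eval a = 0 ∧
      ∀ j, j < n → v ((P j).eval a + (Q j).eval a * b) =
        w (aeval x (P j) + aeval x (Q j) * y) := by
  classical
  let Qp : K[X] := ∏ j ∈ Finset.range n, (if Q j = 0 then 1 else Q j)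
  have hQp : Qp ≠ 0 := by
    refine Finset.prod_ne_zero_iff.2 fun j _ => ?_
    split_ifs with h
    · exact one_ne_zero
    · exact h
  have hA0 : A0 ≠ 0 := by
    rintro rfl
    exact h0 (map_zero _)
  have hS : A0 * Qp ≠ 0 := mul_ne_zero hA0 hQp
  have hT : ∀ j, ∃ T : K[X], j < n → Q j ≠ 0 → A0 * Qp = Q j * T := by
    intro j
    by_cases hj : j < n ∧ Q j ≠ 0
    · have h1 : Q j ∣ Qp := by
        have h2 := Finset.dvd_prod_of_mem (fun j => if Q j = 0 then (1 : K[X]) else Q j)
          (Finset.mem_range.2 hj.1)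
        simp only [hj.2, if_false] at h2
        exact h2
      obtain ⟨T, hT⟩ := h1.mul_left A0
      exact ⟨T, fun _ _ => hT⟩
    · exact ⟨0, fun h1 h2 => absurd ⟨h1, h2⟩ hj⟩
  choose T hT using hT
  obtain ⟨a1, -, hP⟩ := reg hv hvw himm x hx n P 0
  obtain ⟨a2, h12, hQ⟩ := reg hv hvw himm x hx n Q a1
  obtain ⟨a3, h23, hS3⟩ := reg hv hvw himm x hx 1 (fun _ => A0 * Qp) a2
  have hSr := hS3 0 Nat.zero_lt_one
  have hSx : aeval x (A0 * Qp) ≠ 0 := hSr.1 hS
  obtain ⟨a, b', h1, h2, h3⟩ := multi hv hvw himm x (aeval x (A0 * Qp) * y) hx l hl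
    (A1 * A0 ^ (l - 2) * Qp ^ (l - 1)) (A0 ^ (l - 1) * Qp ^ l * A2)
    (by
      rcases hcase with h | h | h
      · exact Or.inl h
      · exact Or.inr (Or.inl h)
      · refine Or.inr (Or.inr ?_)
        rw [h, zero_mul, zero_mul])
    (nonmon_up l hl.two_le A0 A1 A2 Qp x y hy) n (fun j => -(P j * T j)) a3
  have hSv : v ((A0 * Qp).eval a) = w (aeval x (A0 * Qp)) := (hSr.2 a h1).1
  have hSa : (A0 * Qp).eval a ≠ 0 := by
    intro h
    rw [h, map_zero] at hSv
    exact hSx ((Valuation.zero_iff _).1 hSv.symm)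
  refine ⟨a, b' / (A0 * Qp).eval a, nonmon_down l hl.two_le A0 A1 A2 Qp a b' hSa h2,
    fun j hj => ?_⟩
  have ha1 : w (x - algebraMap K L a) ≤ w (x - algebraMap K L a1) := h1.trans (h23.trans h12)
  by_cases hQj : Q j = 0
  · rw [hQj]
    simp only [eval_zero, map_zero, zero_mul, add_zero]
    exact ((hP j hj).2 a ha1).1
  · have hTj := hT j hj hQj
    have hQv : v ((Q j).eval a) = w (aeval x (Q j)) := ((hQ j hj).2 a (h1.trans h23)).1
    have h4 := h3 j hj
    have h5 : (P j).eval a + (Q j).eval a * (b' / (A0 * Qp).eval a) =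
        (Q j).eval a * (b' - (-(P j * T j)).eval a) / (A0 * Qp).eval a := by
      have h6 : (P j).eval a * (A0 * Qp).eval a =
          - ((Q j).eval a * (-(P j * T j)).eval a) := by
        rw [hTj]
        simp only [eval_mul, eval_neg]
        ring
      rw [mul_sub, sub_div, eq_sub_iff_add_eq]
      have h7 : (P j).eval a = (P j).eval a * (A0 * Qp).eval a / (A0 * Qp).eval a :=
        (mul_div_cancel_right₀ _ hSa).symm
      rw [h7, h6]
      ring
    have h5' : aeval x (P j) + aeval x (Q j) * y =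
        aeval x (Q j) * (aeval x (A0 * Qp) * y - aeval x (-(P j * T j))) /
          aeval x (A0 * Qp) := by
      have h6 : aeval x (P j) * aeval x (A0 * Qp) =
          - (aeval x (Q j) * aeval x (-(P j * T j))) := by
        rw [hTj]
        simp only [map_mul, map_neg]
        ring
      rw [eq_div_iff hSx]
      linear_combination h6
    rw [h5, h5', map_div₀, map_div₀, map_mul, map_mul, hSv, hQv, h4]

/-- Module vd. The same for all `x`. PROOF. If `x` is in `K`: `y` is a root of the nonzero polynomial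
`C (A0(x)) * X ^ l + C (A1(x)) * X + C (A2(x))` over `K` (`l ≥ 2`), so `y` is in `K` (`alg_mem`); take
`(a, b) = (x, y)`. -/
theorem lin' {v : Valuation K Γ} {w : Valuation L Γ} (hv : Ext v)
    (hvw : ∀ a : K, w (algebraMap K L a) = v a) (himm : Imm K w) (x y : L)
    (l : ℕ) (hl : l.Prime) (A0 A1 A2 : K[X])
    (hcase : l = 2 ∨ CharP K l ∨ A1 = 0) (h0 : aeval x A0 ≠ 0)
    (hy : aeval x A0 * y ^ l + aeval x A1 * y + aeval x A2 = 0)
    (n : ℕ) (P Q : ℕ → K[X]) :
    ∃ a b : K, A0.eval a * b ^ l + A1.eval a * b + A2.eval a = 0 ∧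
      ∀ j, j < n → v ((P j).eval a + (Q j).eval a * b) =
        w (aeval x (P j) + aeval x (Q j) * y) := by
  by_cases hx : ∀ a : K, x ≠ algebraMap K L a
  · exact lin hv hvw himm x y hx l hl A0 A1 A2 hcase h0 hy n P Q
  push Not at hx
  obtain ⟨a, rfl⟩ := hx
  have hae : ∀ p : K[X], aeval (algebraMap K L a) p = algebraMap K L (p.eval a) := fun p => by
    rw [aeval_algebraMap_apply, coe_aeval_eq_eval]
  have hAa : A0.eval a ≠ 0 := by
    intro h
    rw [hae, h, map_zero] at h0
    exact h0 rfl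
  have hpne : (C (A0.eval a) * X ^ l + C (A1.eval a) * X + C (A2.eval a) : K[X]) ≠ 0 := by
    intro h
    have h1 := congrArg (fun p : K[X] => p.coeff l) h
    have h2 : l ≠ 0 := hl.ne_zero
    have h3 : l ≠ 1 := hl.one_lt.ne'
    simp only [coeff_add, coeff_C_mul, coeff_X_pow, if_true, mul_one, coeff_zero, coeff_X,
      coeff_C, if_neg h2, if_neg h3.symm, mul_zero, add_zero] at h1
    exact hAa h1
  obtain ⟨b, rfl⟩ := alg_mem hv hvw himm y _ hpne (by
    simp only [map_add, map_mul, map_pow, aeval_C, aeval_X]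
    rw [hae, hae, hae] at hy
    exact hy)
  have hinj := (algebraMap K L).injective
  refine ⟨a, b, ?_, fun j _ => ?_⟩
  · apply hinj
    rw [hae, hae, hae] at hy
    simp only [map_add, map_mul, map_pow, map_zero]
    exact hy
  · rw [hae, hae, ← hvw]
    simp only [map_add, map_mul]
/- END vd -/

/- MODULE ve -/
/-- Module ve. Division with remainder. PROOF. Induction on `g` (`Polynomial.induction_on'` or on
monomials): sums: common power of `A0`; step `g ↦ g * X`: if `A0 ^ k g = f H + P + Q Y` then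
`A0 ^ (k + 1) g Y = f (A0 H Y + Q) - A2 Q + (A0 P - A1 Q) Y`. -/
theorem pdiv (A0 A1 A2 : K[X]) (g : K[X][X]) :
    ∃ (k : ℕ) (H : K[X][X]) (P Q : K[X]),
      C (A0 ^ k) * g = (C A0 * X ^ 2 + C A1 * X + C A2) * H + C P + C Q * X := by
  have hstep : ∀ g : K[X][X], (∃ (k : ℕ) (H : K[X][X]) (P Q : K[X]),
      C (A0 ^ k) * g = (C A0 * X ^ 2 + C A1 * X + C A2) * H + C P + C Q * X) →
      ∃ (k : ℕ) (H : K[X][X]) (P Q : K[X]),
      C (A0 ^ k) * (g * X) = (C A0 * X ^ 2 + C A1 * X + C A2) * H + C P + C Q * X := by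
    rintro g ⟨k, H, P, Q, h⟩
    refine ⟨k + 1, C A0 * H * X + C Q, - (A2 * Q), A0 * P - A1 * Q, ?_⟩
    rw [pow_succ]
    simp only [C_mul, C_neg, C_sub]
    linear_combination (C A0 * X) * h
  have hmon : ∀ (m : ℕ) (p : K[X]), ∃ (k : ℕ) (H : K[X][X]) (P Q : K[X]),
      C (A0 ^ k) * (C p * X ^ m) = (C A0 * X ^ 2 + C A1 * X + C A2) * H + C P + C Q * X := by
    intro m p
    induction m with
    | zero => exact ⟨0, 0, p, 0, by simp⟩
    | succ m ih =>
      have h1 := hstep _ ih
      rw [mul_assoc, ← pow_succ] at h1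
      exact h1
  induction g using Polynomial.induction_on' with
  | add p q hp hq =>
    obtain ⟨k, H, P, Q, h⟩ := hp
    obtain ⟨k', H', P', Q', h'⟩ := hq
    refine ⟨k + k', C (A0 ^ k') * H + C (A0 ^ k) * H', A0 ^ k' * P + A0 ^ k * P',
      A0 ^ k' * Q + A0 ^ k * Q', ?_⟩
    rw [pow_add]
    simp only [C_mul, C_add]
    linear_combination C (A0 ^ k') * h + C (A0 ^ k) * h'
  | monomial m p =>
    rw [← C_mul_X_pow_eq_monomial]
    exact hmon m p

/-- Module ve. All polynomials, `l = 2`. PROOF. `pdiv` for every `g j`; `lin'` with `l = 2` for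
`(P j, Q j)`, `j < n`, and `(A0, 0)` as number `n`. `A0(x) ^ k g j (x, y) = P j (x) + Q j (x) y`, the
same at `(a, b)`, `v (A0.eval a) = w (aeval x A0) ≠ 0`. -/
theorem quad {v : Valuation K Γ} {w : Valuation L Γ} (hv : Ext v)
    (hvw : ∀ a : K, w (algebraMap K L a) = v a) (himm : Imm K w) (x y : L)
    (A0 A1 A2 : K[X]) (h0 : aeval x A0 ≠ 0)
    (hy : aeval x A0 * y ^ 2 + aeval x A1 * y + aeval x A2 = 0)
    (n : ℕ) (g : ℕ → K[X][X]) :
    ∃ a b : K, A0.eval a * b ^ 2 + A1.eval a * b + A2.eval a = 0 ∧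
      ∀ j, j < n → v (ev (g j) a b) = w ((fx (g j) x).eval y) := by
  choose k H P Q h using fun j => pdiv A0 A1 A2 (g j)
  obtain ⟨a, b, h1, h2⟩ := lin' hv hvw himm x y 2 Nat.prime_two A0 A1 A2 (Or.inl rfl) h0 hy (n + 1)
    (fun j => if j < n then P j else A0) (fun j => if j < n then Q j else 0)
  have hA : v (A0.eval a) = w (aeval x A0) := by
    have h3 := h2 n (Nat.lt_succ_self n)
    simp only [lt_irrefl, if_false, eval_zero, map_zero, zero_mul, add_zero] at h3
    exact h3
  have hA0 : w (aeval x A0) ≠ 0 := (Valuation.ne_zero_iff _).2 h0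
  refine ⟨a, b, h1, fun j hj => ?_⟩
  have h3 := h2 j (Nat.lt_succ_of_lt hj)
  simp only [hj, if_true] at h3
  have h4 : (A0.eval a) ^ k j * ev (g j) a b = (P j).eval a + (Q j).eval a * b := by
    have h5 := congrArg (fun p : K[X][X] => (p.eval (C b)).eval a) (h j)
    simp only [eval_mul, eval_add, eval_pow, eval_C, eval_X] at h5
    unfold ev
    linear_combination h5 + (Polynomial.eval a (Polynomial.eval (C b) (H j))) * h1
  have h5 : (aeval x A0) ^ k j * (fx (g j) x).eval y = aeval x (P j) + aeval x (Q j) * y := by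
    have h6 := congrArg (fun p : K[X][X] => (fx p x).eval y) (h j)
    unfold fx at h6 ⊢
    simp only [Polynomial.map_mul, Polynomial.map_add, Polynomial.map_pow, map_C, map_X,
      eval_mul, eval_add, eval_pow, eval_C, eval_X, map_pow, AlgHom.coe_toRingHom,
      RingHom.coe_coe] at h6
    linear_combination h6 + (Polynomial.eval y (Polynomial.map
      ((aeval x : K[X] →ₐ[K] L) : K[X] →+* L) (H j))) * hy
  have h6 : w (aeval x A0) ^ k j * v (ev (g j) a b) =
      w (aeval x A0) ^ k j * w ((fx (g j) x).eval y) := by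
    rw [← map_pow, ← map_mul, h5, ← h3, ← h4, map_mul, map_pow, map_pow, hA]
  exact mul_left_cancel₀ (pow_ne_zero _ hA0) h6
/- END ve -/

end

/- MODULE vf -/
/-- Module vf. From two variables to iterated polynomials. PROOF. `G = MvPolynomial.aeval ![C X, X] g`;
`MvPolynomial.induction_on` or uniqueness of algebra homomorphisms. -/
theorem toXX {K : Type*} [Field K] (g : MvPolynomial (Fin 2) K) :
    ∃ G : K[X][X], (∀ a b : K, ev G a b = MvPolynomial.eval ![a, b] g) ∧
      ∀ (L : Type) [Field L] [Algebra K L] (x y : L),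
        (fx G x).eval y = MvPolynomial.aeval ![x, y] g := by
  induction g using MvPolynomial.induction_on with
  | C r =>
    refine ⟨C (C r), fun a b => ?_, fun L _ _ x y => ?_⟩
    · simp [ev]
    · simp [fx]
  | add p q hp hq =>
    obtain ⟨G, h1, h2⟩ := hp
    obtain ⟨G', h1', h2'⟩ := hq
    refine ⟨G + G', fun a b => ?_, fun L _ _ x y => ?_⟩
    · rw [map_add, ← h1, ← h1']
      simp [ev]
    · rw [map_add, ← h2, ← h2']
      simp [fx]
  | mul_X p i hp =>
    obtain ⟨G, h1, h2⟩ := hp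
    refine ⟨G * (if i = 0 then C X else X), fun a b => ?_, fun L _ _ x y => ?_⟩
    · rw [map_mul, ← h1, MvPolynomial.eval_X]
      fin_cases i <;> simp [ev]
    · rw [map_mul, ← h2, MvPolynomial.aeval_X]
      fin_cases i <;> simp [fx]

/-- Module vf. Substitution of fractions with common denominator. PROOF. `MvPolynomial.induction_on`:
constants `d = 0`; sums `G1 * s ^ d2 + G2 * s ^ d1`; `F * X i`: `G * R i`, `d + 1`. -/
theorem fracs {K : Type*} [Field K] (n : ℕ) (R : Fin n → MvPolynomial (Fin 2) K)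
    (s : MvPolynomial (Fin 2) K) (F : MvPolynomial (Fin n) K) :
    ∃ (d : ℕ) (G : MvPolynomial (Fin 2) K), ∀ (E : Type) [Field E] [Algebra K E] (p : Fin 2 → E),
      MvPolynomial.aeval p s ≠ 0 →
        MvPolynomial.aeval (fun i => MvPolynomial.aeval p (R i) / MvPolynomial.aeval p s) F *
          MvPolynomial.aeval p s ^ d = MvPolynomial.aeval p G := by
  induction F using MvPolynomial.induction_on with
  | C r =>
    refine ⟨0, MvPolynomial.C r, fun E _ _ p hp => ?_⟩
    rw [MvPolynomial.aeval_C, MvPolynomial.aeval_C, pow_zero, mul_one]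
  | add F F' hF hF' =>
    obtain ⟨d, G, h⟩ := hF
    obtain ⟨d', G', h'⟩ := hF'
    refine ⟨d + d', G * s ^ d' + G' * s ^ d, fun E _ _ p hp => ?_⟩
    simp only [map_add, map_mul, map_pow]
    rw [← h E p hp, ← h' E p hp]
    ring
  | mul_X F i hF =>
    obtain ⟨d, G, h⟩ := hF
    refine ⟨d + 1, G * R i, fun E _ _ p hp => ?_⟩
    simp only [map_mul, MvPolynomial.aeval_X]
    rw [← h E p hp, pow_succ]
    field_simp

/-- Module vf. Elements of `K(x, y)` with a common denominator. PROOF.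
`IntermediateField.mem_adjoin_range_iff` (with `![x, y]`, `Set.range ![x, y] = {x, y}`) for every
`i`; product of the denominators (`0 / 0 = 0`: take `0 / 1` if the denominator is `0`). -/
theorem comden {K : Type*} [Field K] {L : Type*} [Field L] [Algebra K L] (x y : L) (n : ℕ)
    (z : Fin n → L) (hz : ∀ i, z i ∈ IntermediateField.adjoin K {x, y}) :
    ∃ (R : Fin n → MvPolynomial (Fin 2) K) (s : MvPolynomial (Fin 2) K),
      MvPolynomial.aeval ![x, y] s ≠ 0 ∧
        ∀ i, z i = MvPolynomial.aeval ![x, y] (R i) / MvPolynomial.aeval ![x, y] s := by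
  classical
  have hr : Set.range (![x, y] : Fin 2 → L) = {x, y} := by
    ext t
    constructor
    · rintro ⟨i, rfl⟩
      fin_cases i
      · exact Or.inl rfl
      · exact Or.inr rfl
    · rintro (rfl | rfl)
      · exact ⟨0, rfl⟩
      · exact ⟨1, rfl⟩
  have h1 : ∀ i, ∃ r s : MvPolynomial (Fin 2) K, MvPolynomial.aeval ![x, y] s ≠ 0 ∧
      z i = MvPolynomial.aeval ![x, y] r / MvPolynomial.aeval ![x, y] s := by
    intro i
    have h2 := hz i
    rw [← hr, IntermediateField.mem_adjoin_range_iff] at h2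
    obtain ⟨r, s, hrs⟩ := h2
    by_cases hs : MvPolynomial.aeval ![x, y] s = 0
    · refine ⟨0, 1, ?_, ?_⟩
      · rw [map_one]
        exact one_ne_zero
      · rw [hrs, hs, div_zero, map_zero, zero_div]
    · exact ⟨r, s, hs, hrs⟩
  choose r s hs hrs using h1
  refine ⟨fun i => r i * ∏ j ∈ Finset.univ.erase i, s j, ∏ j, s j, ?_, fun i => ?_⟩
  · rw [map_prod]
    exact Finset.prod_ne_zero_iff.2 fun j _ => hs j
  · have h2 : (∏ j, s j) = s i * ∏ j ∈ Finset.univ.erase i, s j :=
      (Finset.mul_prod_erase _ _ (Finset.mem_univ i)).symm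
    have h3 : MvPolynomial.aeval ![x, y] (∏ j ∈ Finset.univ.erase i, s j) ≠ 0 := by
      rw [map_prod]
      exact Finset.prod_ne_zero_iff.2 fun j _ => hs j
    rw [h2, map_mul, map_mul, mul_div_mul_right _ _ h3]
    exact hrs i
/- END vf -/

end Pool.Agent.Xtc
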