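import Pool.Agent.Xtc.Hg

set_option autoImplicit false

namespace Pool.Agent.Xtc

open Polynomial Pool.Agent.Xtr

variable {K : Type*} [Field K] {Γ : Type*} [LinearOrderedCommGroupWithZero Γ]

/- MODULE ma -/
private theorem pfEval (P : K[X]) : PF (fun u : Fin 1 → K => P.eval (u 0)) := by
  refine ⟨Polynomial.aeval (MvPolynomial.X 0) P, fun y => ?_⟩
  show (MvPolynomial.eval y) ((aeval (MvPolynomial.X 0)) P) = eval (y 0) P
  rw [Polynomial.aeval_def, Polynomial.hom_eval₂, MvPolynomial.eval_X]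
  have h : (MvPolynomial.eval y).comp (algebraMap K (MvPolynomial (Fin 1) K)) = RingHom.id K := by
    ext a
    simp
  rw [h]
  rfl

private theorem pfPow {n : ℕ} {g : (Fin n → K) → K} (hg : PF g) (k : ℕ) :
    PF (fun u => g u ^ k) := by
  obtain ⟨P, hP⟩ := hg
  exact ⟨P ^ k, fun y => by rw [map_pow, hP]⟩

/-- Module ma. The case of a uniformizer: the form `∑ pi ^ i * z i ^ N`. PROOF. The values of
nonzero terms are different: `v pi ^ i * v a ^ N = v pi ^ j * v b ^ N`, `i < j < N`, gives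
`v (a / b) ^ N = v pi ^ (j - i)`, so `v (a / b) < 1`, `v (a / b) ≤ v pi`, and
`v (a / b) ^ N ≤ v pi ^ N < v pi ^ (j - i)`. So the value of the sum is the maximum of the values
of the terms. If `v (z i) < v (z' j)` for all `i` (fixed `j`), then `v (z i) ≤ v pi * v (z' j)`
(`hmax` for `z i / z' j`), the value at `z` is `≤ v pi ^ N * v (z' j) ^ N`
`< v pi ^ (N - 1) * v (z' j) ^ N ≤` the value at `z'`. -/
theorem formZ {v : Valuation K Γ} (pi : K) (h0 : pi ≠ 0) (hpi : v pi < 1)
    (hmax : ∀ a : K, v a < 1 → v a ≤ v pi) (N : ℕ) (z z' : Fin N → K) (j : Fin N)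
    (h : ∀ i, v (z i) < v (z' j)) :
    v (∑ i : Fin N, pi ^ (i : ℕ) * z i ^ N) < v (∑ i : Fin N, pi ^ (i : ℕ) * z' i ^ N) := by
  classical
  have hp0 : 0 < v pi := zero_lt_iff.2 ((Valuation.ne_zero_iff v).2 h0)
  have hdist : ∀ (a b : K) (i k : Fin N), b ≠ 0 → i < k →
      v (pi ^ (i : ℕ) * a ^ N) ≠ v (pi ^ (k : ℕ) * b ^ N) := by
    intro a b i k hb hik he
    obtain ⟨m, hm⟩ := Nat.exists_eq_add_of_lt (show (i : ℕ) < (k : ℕ) from hik)
    have hmN : m + 1 < N := by have := k.2; omega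
    have hb0 : v b ≠ 0 := (Valuation.ne_zero_iff v).2 hb
    rw [map_mul, map_mul, map_pow, map_pow, map_pow, map_pow, hm,
      show (i : ℕ) + m + 1 = (i : ℕ) + (m + 1) by ring, pow_add, mul_assoc] at he
    have he2 : v a ^ N = v pi ^ (m + 1) * v b ^ N :=
      mul_left_cancel₀ (pow_ne_zero _ hp0.ne') he
    have he3 : v (a / b) ^ N = v pi ^ (m + 1) := by
      rw [map_div₀, div_pow, he2, mul_div_assoc, div_self (pow_ne_zero _ hb0), mul_one]
    have h1 : v (a / b) < 1 := by
      by_contra hge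
      rw [not_lt] at hge
      have h2 : (1 : Γ) ≤ v (a / b) ^ N := one_le_pow_of_one_le' hge N
      rw [he3] at h2
      exact absurd (pow_lt_one₀ zero_le hpi (Nat.succ_ne_zero m)) (not_lt.2 h2)
    have h2 : v (a / b) ^ N ≤ v pi ^ N := pow_le_pow_left₀ zero_le (hmax _ h1) N
    rw [he3] at h2
    exact absurd (pow_lt_pow_right_of_lt_one₀ hp0 hpi hmN) (not_lt.2 h2)
  have hpjN : v pi ^ N < v pi ^ (j : ℕ) := pow_lt_pow_right_of_lt_one₀ hp0 hpi j.2
  have hzj : 0 < v (z' j) := lt_of_le_of_lt zero_le (h j)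
  have hzj0 : z' j ≠ 0 := (Valuation.ne_zero_iff v).1 hzj.ne'
  -- the right side
  obtain ⟨i0, -, hi0⟩ := Finset.exists_max_image (Finset.univ : Finset (Fin N))
    (fun i => v (pi ^ (i : ℕ) * z' i ^ N)) ⟨j, Finset.mem_univ j⟩
  have hR : v (∑ i : Fin N, pi ^ (i : ℕ) * z' i ^ N) = v (pi ^ (i0 : ℕ) * z' i0 ^ N) := by
    refine Valuation.map_sum_eq_of_lt v (Finset.mem_univ i0) ?_
    intro i hi
    have hne : i ≠ i0 := by
      rw [Finset.mem_sdiff, Finset.mem_singleton] at hi
      exact hi.2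
    refine lt_of_le_of_ne (hi0 i (Finset.mem_univ i)) ?_
    have hpos : v (pi ^ (i0 : ℕ) * z' i0 ^ N) ≠ 0 := by
      have h1 : v (pi ^ (j : ℕ) * z' j ^ N) ≤ v (pi ^ (i0 : ℕ) * z' i0 ^ N) :=
        hi0 j (Finset.mem_univ j)
      have h2 : 0 < v (pi ^ (j : ℕ) * z' j ^ N) := by
        rw [map_mul, map_pow, map_pow]
        exact mul_pos (pow_pos hp0 _) (pow_pos hzj _)
      exact (h2.trans_le h1).ne'
    rcases lt_or_gt_of_ne hne with hlt | hlt
    · have hb : z' i0 ≠ 0 := by
        intro h3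
        apply hpos
        rw [h3, zero_pow (by have := j.2; omega), mul_zero, map_zero]
      exact hdist _ _ i i0 hb hlt
    · intro he
      have hb : z' i ≠ 0 := by
        intro h3
        apply hpos
        rw [← he, h3, zero_pow (by have := j.2; omega), mul_zero, map_zero]
      exact hdist _ _ i0 i hb hlt he.symm
  have hR2 : v pi ^ (j : ℕ) * v (z' j) ^ N ≤ v (∑ i : Fin N, pi ^ (i : ℕ) * z' i ^ N) := by
    rw [hR, ← map_pow, ← map_pow, ← map_mul]
    exact hi0 j (Finset.mem_univ j)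
  refine lt_of_lt_of_le ?_ hR2
  have hpos : 0 < v pi ^ (j : ℕ) * v (z' j) ^ N := mul_pos (pow_pos hp0 _) (pow_pos hzj _)
  refine Valuation.map_sum_lt v hpos.ne' ?_
  intro i _
  have h1 : v (z i / z' j) < 1 := by
    rw [map_div₀]
    exact (div_lt_one₀ hzj).2 (h i)
  have h2 : v (z i) ≤ v pi * v (z' j) := by
    have := hmax _ h1
    rw [map_div₀] at this
    exact (div_le_iff₀ hzj).1 this
  calc v (pi ^ (i : ℕ) * z i ^ N) = v pi ^ (i : ℕ) * v (z i) ^ N := by
        rw [map_mul, map_pow, map_pow]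
    _ ≤ 1 * v (z i) ^ N := by
        gcongr
        exact pow_le_one₀ zero_le hpi.le
    _ ≤ (v pi * v (z' j)) ^ N := by
        rw [one_mul]
        exact pow_le_pow_left₀ zero_le h2 N
    _ = v pi ^ N * v (z' j) ^ N := mul_pow _ _ _
    _ < v pi ^ (j : ℕ) * v (z' j) ^ N := mul_lt_mul_of_pos_right hpjN (pow_pos hzj N)
/- END ma -/

/- MODULE mb -/
/-- Module mb. In the divisible case a polynomial without root gives a polynomial whose values on
integral elements are units. PROOF. `P` of positive degree `n` without root. Choose `c ≠ 0` with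
`v (P.coeff 0) ≤ v (P.coeff n * c ^ n)` (`hdiv` for `P.coeff 0 / P.coeff n`); `P1 = P (c T)`. Let
`t0` be integral with `v (P1.eval t0)` minimal (`Ext.min`) and `P2 = taylor t0 P1`. Then
`P2.coeff n = P1.coeff n`, `v (P2.coeff 0) ≤ v (P2.eval t)` for all integral `t`, and
`v (P2.coeff 0) ≤ v (P1.eval 0) ≤ v (P2.coeff n)`. For every `i ≥ 1` with `P2.coeff i ≠ 0` let
`v (d i) ^ i = v (P2.coeff 0) / v (P2.coeff i)` (`hdiv`), and let `d` be the one with the smallest
`v (d i)`; `v d ≤ v (d n) ≤ 1`. Then `Q0 = (P2.coeff 0)⁻¹ P2 (d T)` has integral coefficients,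
`Q0.coeff 0 = 1`, some coefficient of positive index has value `1`, and `1 ≤ v (Q0.eval t)`, so
`= 1`, for integral `t`. Let `m` be the largest index with `v (Q0.coeff m) = 1`, and `Q` the
truncation of `Q0` to degree `m`: the values of `Q` and `Q0` at integral elements differ by
elements of value `< 1`. -/
theorem resid {v : Valuation K Γ} (hv : Ext v)
    (hdiv : ∀ a : K, a ≠ 0 → ∀ m : ℕ, 0 < m → ∃ b : K, v b ^ m = v a)
    (P : K[X]) (hP : 0 < P.natDegree) (hno : ∀ t, P.eval t ≠ 0) :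
    ∃ Q : K[X], 0 < Q.natDegree ∧ (∀ i, v (Q.coeff i) ≤ 1) ∧ v (Q.coeff Q.natDegree) = 1 ∧
      ∀ t, v t ≤ 1 → v (Q.eval t) = 1 := by
  classical
  set n := P.natDegree with hn
  have hPn : P.coeff n ≠ 0 := by
    rw [hn, coeff_natDegree]
    intro h
    rw [leadingCoeff_eq_zero] at h
    rw [hn, h, natDegree_zero] at hP
    exact lt_irrefl _ hP
  have hP0 : P.coeff 0 ≠ 0 := by
    rw [coeff_zero_eq_eval_zero]
    exact hno 0
  obtain ⟨c, hc⟩ := hdiv (P.coeff 0 / P.coeff n) (div_ne_zero hP0 hPn) n hP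
  have hvPn : 0 < v (P.coeff n) := zero_lt_iff.2 ((Valuation.ne_zero_iff v).2 hPn)
  have hc0 : c ≠ 0 := by
    rintro rfl
    rw [map_zero, zero_pow hP.ne'] at hc
    exact (Valuation.ne_zero_iff v).2 (div_ne_zero hP0 hPn) hc.symm
  set P1 : K[X] := P.comp (C c * X) with hP1
  have hP1c : ∀ i, P1.coeff i = P.coeff i * c ^ i := fun i => comp_C_mul_X_coeff
  have hP1e : ∀ t, P1.eval t = P.eval (c * t) := by
    intro t
    rw [hP1, eval_comp, eval_mul, eval_C, eval_X]
  have hP1n : P1.natDegree = n := by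
    rw [hP1, natDegree_comp, natDegree_C_mul_X c hc0, mul_one]
  obtain ⟨u0, hu0, hmin⟩ := Ext.min hv (pfEval P1)
  set t0 := u0 0 with ht0
  have ht0v : v t0 ≤ 1 := hu0 0
  have hmin' : ∀ t, v t ≤ 1 → v (P1.eval t0) ≤ v (P1.eval t) := by
    intro t ht
    exact hmin (fun _ => t) (fun _ => ht)
  set P2 : K[X] := taylor t0 P1 with hP2
  have hP2e : ∀ t, P2.eval t = P1.eval (t + t0) := fun t => taylor_eval t0 P1 t
  have hP20 : P2.coeff 0 = P1.eval t0 := taylor_coeff_zero t0 P1
  have hP2nd : P2.natDegree = n := by rw [hP2, natDegree_taylor, hP1n]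
  have hP2n : P2.coeff n = P.coeff n * c ^ n := by
    rw [← hP1c n, hP2]
    conv_lhs => rw [← hP1n]
    rw [coeff_taylor_natDegree, leadingCoeff, hP1n]
  have h20 : P2.coeff 0 ≠ 0 := by
    rw [hP20, hP1e]
    exact hno _
  have hv20 : 0 < v (P2.coeff 0) := zero_lt_iff.2 ((Valuation.ne_zero_iff v).2 h20)
  have hmin2 : ∀ t, v t ≤ 1 → v (P2.coeff 0) ≤ v (P2.eval t) := by
    intro t ht
    rw [hP20, hP2e]
    exact hmin' _ (v.map_add_le ht ht0v)
  have h2n : v (P2.coeff 0) ≤ v (P2.coeff n) := by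
    have h1 := hmin' 0 (by rw [map_zero]; exact zero_le)
    rw [hP20]
    refine h1.trans ?_
    rw [hP1e, mul_zero, ← coeff_zero_eq_eval_zero, hP2n, map_mul, map_pow, hc, map_div₀,
      mul_div_cancel₀ _ hvPn.ne']
  have hP2n0 : P2.coeff n ≠ 0 := by
    rw [hP2n]
    exact mul_ne_zero hPn (pow_ne_zero _ hc0)
  -- the slopes
  have hd : ∀ i : ℕ, ∃ b : K, 0 < i → P2.coeff i ≠ 0 →
      b ≠ 0 ∧ v (P2.coeff i) * v b ^ i = v (P2.coeff 0) := by
    intro i
    by_cases hi : 0 < i ∧ P2.coeff i ≠ 0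
    · obtain ⟨b, hb⟩ := hdiv (P2.coeff 0 / P2.coeff i) (div_ne_zero h20 hi.2) i hi.1
      refine ⟨b, fun _ _ => ⟨?_, ?_⟩⟩
      · rintro rfl
        rw [map_zero, zero_pow hi.1.ne'] at hb
        exact (Valuation.ne_zero_iff v).2 (div_ne_zero h20 hi.2) hb.symm
      · rw [hb, map_div₀, mul_div_cancel₀ _ ((Valuation.ne_zero_iff v).2 hi.2)]
    · exact ⟨0, fun h1 h2 => absurd ⟨h1, h2⟩ hi⟩
  choose d hd using hd
  set S : Finset ℕ := (Finset.range (n + 1)).filter (fun i => 0 < i ∧ P2.coeff i ≠ 0) with hS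
  have hnS : n ∈ S := by
    rw [hS, Finset.mem_filter, Finset.mem_range]
    exact ⟨Nat.lt_succ_self n, hP, hP2n0⟩
  obtain ⟨k, hkS, hkmin⟩ := Finset.exists_min_image S (fun i => v (d i)) ⟨n, hnS⟩
  have hk := hkS
  rw [hS, Finset.mem_filter] at hk
  obtain ⟨hdk0, hdk⟩ := hd k hk.2.1 hk.2.2
  have hdkpos : 0 < v (d k) := zero_lt_iff.2 ((Valuation.ne_zero_iff v).2 hdk0)
  have hdn : v (d n) ≤ 1 := by
    obtain ⟨-, h1⟩ := hd n hP hP2n0
    by_contra hgt
    rw [not_le] at hgt
    have h2 : (1 : Γ) < v (d n) ^ n := one_lt_pow₀ hgt hP.ne'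
    have h3 : v (P2.coeff n) < v (P2.coeff n) * v (d n) ^ n := by
      calc v (P2.coeff n) = v (P2.coeff n) * 1 := (mul_one _).symm
        _ < _ := mul_lt_mul_of_pos_left h2 (hv20.trans_le h2n)
    rw [h1] at h3
    exact absurd h3 (not_lt.2 h2n)
  have hdk1 : v (d k) ≤ 1 := (hkmin n hnS).trans hdn
  set Q0 : K[X] := C (P2.coeff 0)⁻¹ * P2.comp (C (d k) * X) with hQ0
  have hQ0c : ∀ i, Q0.coeff i = (P2.coeff 0)⁻¹ * (P2.coeff i * d k ^ i) := by
    intro i
    rw [hQ0, coeff_C_mul, comp_C_mul_X_coeff]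
  have hQ0e : ∀ t, Q0.eval t = (P2.coeff 0)⁻¹ * P2.eval (d k * t) := by
    intro t
    rw [hQ0, eval_mul, eval_C, eval_comp, eval_mul, eval_C, eval_X]
  have hQ0i : ∀ i, v (Q0.coeff i) ≤ 1 := by
    intro i
    rw [hQ0c, map_mul, map_inv₀, map_mul, map_pow, inv_mul_le_one₀ hv20]
    rcases Nat.eq_zero_or_pos i with rfl | hi
    · rw [pow_zero, mul_one]
    · by_cases h1 : P2.coeff i = 0
      · rw [h1, map_zero, zero_mul]
        exact zero_le
      · have hiS : i ∈ S := by
          rw [hS, Finset.mem_filter, Finset.mem_range]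
          refine ⟨?_, hi, h1⟩
          have := le_natDegree_of_ne_zero h1
          omega
        obtain ⟨-, h2⟩ := hd i hi h1
        rw [← h2]
        gcongr
        exact hkmin i hiS
  have hQ0k : v (Q0.coeff k) = 1 := by
    rw [hQ0c, map_mul, map_inv₀, map_mul, map_pow, hdk, inv_mul_cancel₀ hv20.ne']
  have hQ0u : ∀ t, v t ≤ 1 → v (Q0.eval t) = 1 := by
    intro t ht
    apply le_antisymm
    · rw [eval_eq_sum_range]
      refine v.map_sum_le fun i _ => ?_
      rw [map_mul, map_pow]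
      exact mul_le_one₀ (hQ0i i) zero_le (pow_le_one₀ zero_le ht)
    · rw [hQ0e, map_mul, map_inv₀]
      rw [← div_eq_inv_mul, one_le_div₀ hv20]
      refine hmin2 _ ?_
      rw [map_mul]
      exact mul_le_one₀ hdk1 zero_le ht
  have hQ0big : ∀ i, n < i → Q0.coeff i = 0 := by
    intro i hi
    have h1 : P2.coeff i = 0 := coeff_eq_zero_of_natDegree_lt (by rw [hP2nd]; exact hi)
    rw [hQ0c, h1, zero_mul, mul_zero]
  -- truncation
  set T : Finset ℕ := (Finset.range (n + 1)).filter (fun i => v (Q0.coeff i) = 1) with hT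
  have hkT : k ∈ T := by
    rw [hT, Finset.mem_filter]
    exact ⟨hk.1, hQ0k⟩
  obtain ⟨m, hmT, hmmax⟩ := Finset.exists_max_image T id ⟨k, hkT⟩
  have hm := hmT
  rw [hT, Finset.mem_filter, Finset.mem_range] at hm
  have hmk : k ≤ m := hmmax k hkT
  have hmlt : ∀ i, m < i → v (Q0.coeff i) < 1 := by
    intro i hi
    refine lt_of_le_of_ne (hQ0i i) fun h1 => ?_
    by_cases hin : i < n + 1
    · have : i ∈ T := by
        rw [hT, Finset.mem_filter, Finset.mem_range]
        exact ⟨hin, h1⟩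
      have := hmmax i this
      simp only [id] at this
      omega
    · rw [hQ0big i (by omega), map_zero] at h1
      exact zero_ne_one h1
  set Q : K[X] := ∑ i ∈ Finset.range (m + 1), monomial i (Q0.coeff i) with hQ
  have hQc : ∀ i, Q.coeff i = if i ≤ m then Q0.coeff i else 0 := by
    intro i
    rw [hQ, finsetSum_coeff]
    simp only [coeff_monomial]
    rw [Finset.sum_ite_eq' (Finset.range (m + 1)) i]
    simp only [Finset.mem_range, Nat.lt_succ_iff]
  have hQm : Q.coeff m ≠ 0 := by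
    rw [hQc, if_pos le_rfl]
    intro h
    rw [h, map_zero] at hm
    exact zero_ne_one hm.2
  have hQd : Q.natDegree = m := by
    apply le_antisymm
    · rw [natDegree_le_iff_coeff_eq_zero]
      intro i hi
      rw [hQc, if_neg (by omega)]
    · exact le_natDegree_of_ne_zero hQm
  refine ⟨Q, ?_, ?_, ?_, ?_⟩
  · rw [hQd]
    exact lt_of_lt_of_le hk.2.1 hmk
  · intro i
    rw [hQc]
    split_ifs
    · exact hQ0i i
    · rw [map_zero]
      exact zero_le
  · rw [hQd, hQc, if_pos le_rfl]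
    exact hm.2
  · intro t ht
    have h1 : v ((Q0 - Q).eval t) < 1 := by
      rw [eval_eq_sum_range]
      refine v.map_sum_lt one_ne_zero fun i _ => ?_
      rw [map_mul, map_pow, coeff_sub, hQc]
      split_ifs with h2
      · rw [sub_self, map_zero, zero_mul]
        exact zero_lt_one
      · rw [sub_zero]
        exact mul_lt_one_of_lt_of_le (hmlt i (by omega)) (pow_le_one₀ zero_le ht)
    have h2 : Q.eval t = Q0.eval t - (Q0 - Q).eval t := by
      rw [eval_sub]
      ring
    rw [h2, Valuation.map_sub_eq_of_lt_left]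
    · exact hQ0u t ht
    · rw [hQ0u t ht]
      exact h1
/- END mb -/

/- MODULE mc -/
/-- Module mc. The binary form of `Q`. PROOF. `B s t = ∑ i ≤ m, Q.coeff i * t ^ i * s ^ (m - i)`,
`m = Q.natDegree`. If `v t ≤ v s`, `s ≠ 0`: `B s t = s ^ m * Q.eval (t / s)`. If `v s < v t`:
`B s t / t ^ m` is `Q.coeff m` plus terms of value `< 1`. -/
theorem binform {v : Valuation K Γ} (Q : K[X]) (hQ : 0 < Q.natDegree)
    (hi : ∀ i, v (Q.coeff i) ≤ 1) (hl : v (Q.coeff Q.natDegree) = 1)
    (hu : ∀ t, v t ≤ 1 → v (Q.eval t) = 1) (s t : K) :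
    v (∑ i ∈ Finset.range (Q.natDegree + 1), Q.coeff i * t ^ i * s ^ (Q.natDegree - i)) =
      max (v s) (v t) ^ Q.natDegree := by
  set m := Q.natDegree with hm
  by_cases hst : v t ≤ v s
  · rw [max_eq_left hst]
    by_cases hs : s = 0
    · subst hs
      rw [map_zero, zero_pow hQ.ne']
      have ht : t = 0 := by
        rw [map_zero] at hst
        exact (v.zero_iff).1 (le_antisymm hst zero_le)
      subst ht
      rw [Finset.sum_eq_zero, map_zero]
      intro i hi
      rw [Finset.mem_range] at hi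
      by_cases him : i = 0
      · subst him
        rw [Nat.sub_zero, zero_pow hQ.ne', mul_zero]
      · rw [zero_pow him, mul_zero, zero_mul]
    · have h1 : ∑ i ∈ Finset.range (m + 1), Q.coeff i * t ^ i * s ^ (m - i) =
          s ^ m * Q.eval (t / s) := by
        rw [eval_eq_sum_range, Finset.mul_sum]
        refine Finset.sum_congr rfl fun i hi => ?_
        rw [Finset.mem_range] at hi
        have h2 : s ^ m = s ^ (m - i) * s ^ i := by
          rw [← pow_add]
          congr 1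
          omega
        rw [h2, div_pow]
        field_simp
      have hvs : 0 < v s := zero_lt_iff.2 ((Valuation.ne_zero_iff v).2 hs)
      rw [h1, map_mul, map_pow, hu _ (by rw [map_div₀]; exact (div_le_one₀ hvs).2 hst), mul_one]
  · rw [not_le] at hst
    rw [max_eq_right hst.le]
    have hvt : 0 < v t := lt_of_le_of_lt zero_le hst
    have hlead : v (Q.coeff m * t ^ m * s ^ (m - m)) = v t ^ m := by
      rw [Nat.sub_self, pow_zero, mul_one, map_mul, map_pow, hl, one_mul]
    rw [Finset.sum_range_succ, Valuation.map_add_eq_of_lt_right]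
    · exact hlead
    · rw [hlead]
      refine v.map_sum_lt (pow_pos hvt m).ne' fun i hii => ?_
      rw [Finset.mem_range] at hii
      rw [map_mul, map_mul, map_pow, map_pow]
      calc v (Q.coeff i) * v t ^ i * v s ^ (m - i) ≤ 1 * v t ^ i * v s ^ (m - i) := by
            gcongr
            exact hi i
        _ = v t ^ i * v s ^ (m - i) := by rw [one_mul]
        _ < v t ^ i * v t ^ (m - i) :=
            mul_lt_mul_of_pos_left (pow_lt_pow_left₀ hst zero_le (by omega)) (pow_pos hvt i)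
        _ = v t ^ m := by
            rw [← pow_add]
            congr 1
            omega
/- END mc -/

/- MODULE md -/
/-- Module md. Maxima of `N` polynomial functions are, up to a power, values of one polynomial
function. PROOF. Induction over `N` with the binary form of `mc` (degree `m > 0`): if
`v (G z) = (max over i < N) ^ d` take `B (G z) (z N ^ d)` : exponent `d * m`. (Closure of `PF`
under sums, products: `PF.add`, `PF.mul`, `PF.sum`, `PF.const`.) -/
theorem maxform {v : Valuation K Γ} (Q : K[X]) (hQ : 0 < Q.natDegree)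
    (hi : ∀ i, v (Q.coeff i) ≤ 1) (hl : v (Q.coeff Q.natDegree) = 1)
    (hu : ∀ t, v t ≤ 1 → v (Q.eval t) = 1) (n N : ℕ) (g : Fin (N + 1) → (Fin n → K) → K)
    (hg : ∀ i, PF (g i)) :
    ∃ (G : (Fin n → K) → K) (d : ℕ), 0 < d ∧ PF G ∧ ∀ u, (∀ i, v (g i u) ^ d ≤ v (G u)) ∧
      ∃ i, v (G u) = v (g i u) ^ d := by
  induction N with
  | zero =>
    refine ⟨g 0, 1, one_pos, hg 0, fun u => ⟨fun i => ?_, 0, by rw [pow_one]⟩⟩
    rw [pow_one, Fin.fin_one_eq_zero i]
  | succ N ih =>
    obtain ⟨G, d, hd, hG, hmax⟩ := ih (fun i => g i.castSucc) (fun i => hg i.castSucc)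
    set m := Q.natDegree with hm
    refine ⟨fun u => ∑ i ∈ Finset.range (m + 1),
      Q.coeff i * (g (Fin.last (N + 1)) u ^ d) ^ i * G u ^ (m - i), d * m, Nat.mul_pos hd hQ,
      ?_, ?_⟩
    · exact PF.sum _ _ fun i _ => PF.mul (PF.mul (PF.const _)
        (pfPow (pfPow (hg _) d) i)) (pfPow hG _)
    · intro u
      have hB := binform Q hQ hi hl hu (G u) (g (Fin.last (N + 1)) u ^ d)
      rw [← hm] at hB
      rw [hB, map_pow]
      refine ⟨fun i => ?_, ?_⟩
      · rw [pow_mul]
        refine pow_le_pow_left₀ zero_le ?_ m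
        induction i using Fin.lastCases with
        | last => exact le_max_right _ _
        | cast i => exact ((hmax u).1 i).trans (le_max_left _ _)
      · rcases le_total (v (G u)) (v (g (Fin.last (N + 1)) u) ^ d) with h | h
        · exact ⟨Fin.last (N + 1), by rw [max_eq_right h, pow_mul]⟩
        · obtain ⟨i, hi2⟩ := (hmax u).2
          exact ⟨i.castSucc, by rw [max_eq_left h, pow_mul, hi2]⟩
/- END md -/

/- MODULE me -/
/-- Module me. PROOF. `dich hv`. Divisible case: `resid`, `maxform` (`N = 0` is trivial), `Ext.min`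
for `G`: if `v (g i u) > v (g j u')` for all `j`, then
`v (G u') = v (g j u') ^ d < v (g i u) ^ d ≤ v (G u)`. Case of a uniformizer: `Ext.min` for
`∑ i, pi ^ i * g i u ^ N` and `formZ`: if `v (g j u') < v (g i u)` for all `j`, then the value at
`u'` is smaller than the value at `u`. -/
theorem mm {v : Valuation K Γ} (hv : Ext v)
    (hno : ∃ P : K[X], 0 < P.natDegree ∧ ∀ t, P.eval t ≠ 0) : MM v := by
  intro n N g hg
  rcases dich hv with hdiv | ⟨pi, h0, hpi, hmax, -⟩
  · obtain ⟨P, hP, hPno⟩ := hno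
    obtain ⟨Q, hQ, hi, hl, hu⟩ := resid hv hdiv P hP hPno
    cases N with
    | zero =>
      exact ⟨fun _ => 0, fun _ => by rw [map_zero]; exact zero_le, fun _ _ i => i.elim0⟩
    | succ N =>
      obtain ⟨G, d, hd, hG, hmax⟩ := maxform Q hQ hi hl hu n N g hg
      obtain ⟨u, hu1, hmin⟩ := Ext.min hv hG
      refine ⟨u, hu1, fun u' hu' i => ?_⟩
      by_contra hcon
      push Not at hcon
      obtain ⟨j, hj⟩ := (hmax u').2
      have h1 : v (G u') < v (G u) := by
        rw [hj]
        exact (pow_lt_pow_left₀ (hcon j) zero_le hd.ne').trans_le ((hmax u).1 i)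
      exact absurd h1 (not_lt.2 (hmin u' hu'))
  · have hPF : PF (fun u => ∑ i : Fin N, pi ^ (i : ℕ) * g i u ^ N) :=
      PF.sum _ _ fun i _ => PF.mul (PF.const _) (pfPow (hg i) N)
    obtain ⟨u, hu1, hmin⟩ := Ext.min hv hPF
    refine ⟨u, hu1, fun u' hu' i => ?_⟩
    by_contra hcon
    push Not at hcon
    exact absurd (formZ pi h0 hpi hmax N (fun j => g j u') (fun j => g j u) i hcon)
      (not_lt.2 (hmin u' hu'))
/- END me -/

end Pool.Agent.Xtc
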