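import Pool.Agent.Xtc.Lr
import Pool.Agent.Xtc.Me

set_option autoImplicit false

namespace Pool.Agent.Xtc

open Polynomial Pool.Agent.Xtr

variable {K : Type*} [Field K] {Γ : Type*} [LinearOrderedCommGroupWithZero Γ]

/- MODULE ea -/
private theorem ea_split {R : Type*} [CommRing R] (l : ℕ) (hl : 1 ≤ l) (F : ℕ → R) (a b : R)
    (ha : F 0 = a) (hb : F l = b) :
    ∑ i ∈ Finset.range (l + 1), F i = a + ∑ i ∈ Finset.Ioo 0 l, F i + b := by
  have h1 : Finset.range l = insert 0 (Finset.Ioo 0 l) := by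
    ext i
    simp only [Finset.mem_range, Finset.mem_insert, Finset.mem_Ioo]
    omega
  rw [Finset.sum_range_succ, hb, h1, Finset.sum_insert (by simp), ha]

/-- Module ea. PROOF. `taylor h f` evaluated at `e`; `tc_zero`, `tc_top`, `tc_gt`. -/
theorem exp2 (f : K[X][X]) (l : ℕ) (hl : 1 ≤ l) (hfm : f.Monic) (hfd : f.natDegree = l)
    (h e : K[X]) :
    f.eval (h + e) = f.eval h + ∑ i ∈ Finset.Ioo 0 l, tc f h i * e ^ i + e ^ l := by
  have h1 : f.eval (h + e) = (taylor h f).eval e := by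
    rw [taylor_eval, add_comm]
  rw [h1, eval_eq_sum_range, natDegree_taylor, hfd]
  exact ea_split l hl (fun i => (taylor h f).coeff i * e ^ i) (f.eval h) (e ^ l)
    (by
      change tc f h 0 * e ^ 0 = _
      rw [tc_zero, pow_zero, mul_one])
    (by
      change tc f h l * e ^ l = _
      rw [← hfd, tc_top f hfm, one_mul])

/-- Module ea. The same for elements. PROOF. `ev_eq`. -/
theorem exp3 (f : K[X][X]) (l : ℕ) (hl : 1 ≤ l) (hfm : f.Monic) (hfd : f.natDegree = l)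
    (h : K[X]) (a b : K) :
    ev f a (h.eval a + b) =
      (f.eval h).eval a + ∑ i ∈ Finset.Ioo 0 l, (tc f h i).eval a * b ^ i + b ^ l := by
  rw [ev_eq, hfd]
  exact ea_split l hl (fun i => (tc f h i).eval a * b ^ i) _ _
    (by rw [tc_zero, pow_zero, mul_one])
    (by rw [← hfd, tc_top f hfm, eval_one, one_mul])

/-- Module ea. The middle terms are small: with `N = gn v ρ (f.eval h)`, `s ^ l ≤ N`,
`A ^ l < N ^ (l - i)`: `(A * s ^ i) ^ l < N ^ (l - i) * N ^ i = N ^ l`. -/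
theorem mid (l i : ℕ) (hi : 0 < i) (hil : i < l) (A N s : Γ) (hA : A ^ l < N ^ (l - i))
    (hs : s ^ l ≤ N) : A * s ^ i < N := by
  have hl0 : l ≠ 0 := by omega
  have hN : 0 < N := by
    rcases eq_or_ne N 0 with h | h
    · rw [h, zero_pow (by omega)] at hA
      exact absurd hA not_lt_zero
    · exact zero_lt_iff.2 h
  rw [← pow_lt_pow_iff_left₀ zero_le zero_le hl0]
  calc (A * s ^ i) ^ l = A ^ l * (s ^ l) ^ i := by
        rw [mul_pow, ← pow_mul, ← pow_mul, mul_comm i l]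
    _ ≤ A ^ l * N ^ i := mul_le_mul_right (pow_le_pow_left₀ zero_le hs i) _
    _ < N ^ (l - i) * N ^ i := (mul_lt_mul_iff_left₀ (pow_pos hN i)).2 hA
    _ = N ^ l := by rw [← pow_add, Nat.sub_add_cancel hil.le]

/-- Module ea. PROOF. With `N < s ^ l`: `(A * s ^ i) ^ l < (s ^ l) ^ (l - i) * (s ^ l) ^ i`. -/
theorem mid' (l i : ℕ) (hi : 0 < i) (hil : i < l) (A N s : Γ) (hA : A ^ l < N ^ (l - i))
    (hs : N < s ^ l) : A * s ^ i < s ^ l := by
  have hl0 : l ≠ 0 := by omega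
  have hs0 : 0 < s ^ l := lt_of_le_of_lt zero_le hs
  rw [← pow_lt_pow_iff_left₀ zero_le zero_le hl0]
  calc (A * s ^ i) ^ l = A ^ l * (s ^ l) ^ i := by
        rw [mul_pow, ← pow_mul, ← pow_mul, mul_comm i l]
    _ < N ^ (l - i) * (s ^ l) ^ i := (mul_lt_mul_iff_left₀ (pow_pos hs0 i)).2 hA
    _ ≤ (s ^ l) ^ (l - i) * (s ^ l) ^ i := mul_le_mul_left (pow_le_pow_left₀ zero_le hs.le _) _
    _ = (s ^ l) ^ l := by rw [← pow_add, Nat.sub_add_cancel hil.le]
/- END ea -/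

/- MODULE eb -/
/-- Module eb. Small perturbations. PROOF. `exp2`, `gn_sum_lt`, `gn_mul`, `gn_pow`, `mid`. -/
theorem pert (v : Valuation K Γ) {ρ : Γ} (hρ : ρ ≠ 0) (f : K[X][X]) (l : ℕ) (hl : 1 ≤ l)
    (hfm : f.Monic) (hfd : f.natDegree = l) (h e : K[X]) (hS : SS v f l h ρ)
    (h0 : gn v ρ (f.eval h) ≠ 0) (he : gn v ρ e ^ l ≤ gn v ρ (f.eval h)) :
    gn v ρ (f.eval (h + e) - f.eval h - e ^ l) < gn v ρ (f.eval h) := by
  have h1 : f.eval (h + e) - f.eval h - e ^ l = ∑ i ∈ Finset.Ioo 0 l, tc f h i * e ^ i := by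
    rw [exp2 f l hl hfm hfd]; ring
  rw [h1]
  refine gn_sum_lt v ρ _ _ (zero_lt_iff.2 h0) fun i hi => ?_
  obtain ⟨h2, h3⟩ := Finset.mem_Ioo.1 hi
  rw [gn_mul v hρ, gn_pow v hρ]
  exact mid l i h2 h3 _ _ _ (hS i h2 h3) he

/-- Module eb. Large perturbations. PROOF. `exp2`, `mid'`, `gn_add_eq`. -/
theorem big (v : Valuation K Γ) {ρ : Γ} (hρ : ρ ≠ 0) (f : K[X][X]) (l : ℕ) (hl : 1 ≤ l)
    (hfm : f.Monic) (hfd : f.natDegree = l) (h e : K[X]) (hS : SS v f l h ρ)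
    (he : gn v ρ (f.eval h) < gn v ρ e ^ l) : gn v ρ (f.eval (h + e)) = gn v ρ e ^ l := by
  rw [exp2 f l hl hfm hfd]
  have h0 : 0 < gn v ρ e ^ l := lt_of_le_of_lt zero_le he
  have h1 : gn v ρ (∑ i ∈ Finset.Ioo 0 l, tc f h i * e ^ i) < gn v ρ e ^ l := by
    refine gn_sum_lt v ρ _ _ h0 fun i hi => ?_
    obtain ⟨h2, h3⟩ := Finset.mem_Ioo.1 hi
    rw [gn_mul v hρ, gn_pow v hρ]
    exact mid' l i h2 h3 _ _ _ (hS i h2 h3) he
  rw [gn_add_eq, gn_pow v hρ]
  rw [gn_pow v hρ]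
  exact (gn_add v ρ _ _).trans_lt (max_lt he h1)

/-- Module eb. The same for values: `v a ≤ ρ`. PROOF. `exp3`, `eval_le_gn` for `tc f h i`,
`mid`. -/
theorem pert_ev (v : Valuation K Γ) {ρ : Γ} (f : K[X][X]) (l : ℕ) (hl : 1 ≤ l)
    (hfm : f.Monic) (hfd : f.natDegree = l) (h : K[X]) (hS : SS v f l h ρ)
    (h0 : gn v ρ (f.eval h) ≠ 0) (a b : K) (ha : v a ≤ ρ) (hb : v b ^ l ≤ gn v ρ (f.eval h)) :
    v (ev f a (h.eval a + b) - (f.eval h).eval a - b ^ l) < gn v ρ (f.eval h) := by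
  have h1 : ev f a (h.eval a + b) - (f.eval h).eval a - b ^ l =
      ∑ i ∈ Finset.Ioo 0 l, (tc f h i).eval a * b ^ i := by
    rw [exp3 f l hl hfm hfd]; ring
  rw [h1]
  refine Valuation.map_sum_lt v h0 fun i hi => ?_
  obtain ⟨h2, h3⟩ := Finset.mem_Ioo.1 hi
  rw [map_mul, map_pow]
  refine lt_of_le_of_lt (mul_le_mul_left (eval_le_gn v a ha _) _) ?_
  exact mid l i h2 h3 _ _ _ (hS i h2 h3) hb

/-- Module eb. PROOF. `exp3`, `mid'`. -/
theorem big_ev (v : Valuation K Γ) {ρ : Γ} (f : K[X][X]) (l : ℕ) (hl : 1 ≤ l)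
    (hfm : f.Monic) (hfd : f.natDegree = l) (h : K[X]) (hS : SS v f l h ρ) (a b : K)
    (ha : v a ≤ ρ) (hb : gn v ρ (f.eval h) < v b ^ l) :
    v (ev f a (h.eval a + b)) = v b ^ l := by
  rw [exp3 f l hl hfm hfd]
  have h0 : 0 < v b ^ l := lt_of_le_of_lt zero_le hb
  have h1 : v (∑ i ∈ Finset.Ioo 0 l, (tc f h i).eval a * b ^ i) < v b ^ l := by
    refine Valuation.map_sum_lt v h0.ne' fun i hi => ?_
    obtain ⟨h2, h3⟩ := Finset.mem_Ioo.1 hi
    rw [map_mul, map_pow]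
    refine lt_of_le_of_lt (mul_le_mul_left (eval_le_gn v a ha _) _) ?_
    exact mid' l i h2 h3 _ _ _ (hS i h2 h3) hb
  have h2 : v ((f.eval h).eval a) < v b ^ l := (eval_le_gn v a ha _).trans_lt hb
  rw [Valuation.map_add_eq_of_lt_right v, map_pow]
  rw [map_pow]
  exact (Valuation.map_add v _ _).trans_lt (max_lt h2 h1)
/- END eb -/

/- MODULE ec -/
/-- Module ec. -/
theorem hp_mem (v : Valuation K Γ) (D : ℕ) (r0 b0 r2 : K) (hr0 : r0 ≠ 0)
    (u : Fin (D + 1) → K) (hu : Ivec v u) : HS v D r0 b0 r2 (hp D r0 b0 r2 u) := by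
  constructor
  · unfold hp
    refine (natDegree_add_le _ _).trans (max_le (by rw [natDegree_C]; exact Nat.zero_le _) ?_)
    refine natDegree_sum_le_of_forall_le _ _ fun j _ => ?_
    exact (natDegree_C_mul_X_pow_le _ _).trans (Nat.lt_succ_iff.1 j.2)
  · have h1 : hp D r0 b0 r2 u - C b0 =
        ∑ j : Fin (D + 1), C (r2 * (r0⁻¹) ^ (j : ℕ) * u j) * X ^ (j : ℕ) := by
      unfold hp; ring
    rw [h1]
    refine gn_sum v _ _ _ fun j _ => ?_
    rw [gn_mon, map_mul, map_mul, map_pow, map_inv₀]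
    have h0 : v r0 ≠ 0 := (Valuation.ne_zero_iff v).2 hr0
    have h2 : v r2 * (v r0)⁻¹ ^ (j : ℕ) * v (u j) * v r0 ^ (j : ℕ) = v r2 * v (u j) := by
      have h3 : (v r0)⁻¹ ^ (j : ℕ) * v r0 ^ (j : ℕ) = 1 := by
        rw [← mul_pow, inv_mul_cancel₀ h0, one_pow]
      calc v r2 * (v r0)⁻¹ ^ (j : ℕ) * v (u j) * v r0 ^ (j : ℕ) =
          v r2 * v (u j) * ((v r0)⁻¹ ^ (j : ℕ) * v r0 ^ (j : ℕ)) := by
            ac_rfl
        _ = v r2 * v (u j) := by rw [h3, mul_one]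
    rw [h2]
    exact mul_le_of_le_one_right' (hu j)

/-- Module ec. PROOF. `u j = (h - C b0).coeff j * r0 ^ j / r2`. -/
theorem hp_surj (v : Valuation K Γ) (D : ℕ) (r0 b0 r2 : K) (hr0 : r0 ≠ 0) (hr2 : r2 ≠ 0)
    (h : K[X]) (hh : HS v D r0 b0 r2 h) : ∃ u, Ivec v u ∧ hp D r0 b0 r2 u = h := by
  have h2 : v r2 ≠ 0 := (Valuation.ne_zero_iff v).2 hr2
  refine ⟨fun j => (h - C b0).coeff j * r0 ^ (j : ℕ) / r2, fun j => ?_, ?_⟩
  · rw [map_div₀, map_mul, map_pow, div_le_one₀ (zero_lt_iff.2 h2)]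
    exact (le_gn v (v r0) (h - C b0) j).trans hh.2
  · unfold hp
    have h3 : ∀ j : Fin (D + 1), r2 * (r0⁻¹) ^ (j : ℕ) *
        ((h - C b0).coeff j * r0 ^ (j : ℕ) / r2) = (h - C b0).coeff j := by
      intro j
      have h5 : r0⁻¹ ^ (j : ℕ) * r0 ^ (j : ℕ) = 1 := by
        rw [← mul_pow, inv_mul_cancel₀ hr0, one_pow]
      calc r2 * (r0⁻¹) ^ (j : ℕ) * ((h - C b0).coeff j * r0 ^ (j : ℕ) / r2) =
          (h - C b0).coeff j * (r0⁻¹ ^ (j : ℕ) * r0 ^ (j : ℕ)) * (r2 / r2) := by ring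
        _ = (h - C b0).coeff j := by rw [h5, div_self hr2, mul_one, mul_one]
    simp only [h3]
    have hd : (h - C b0).natDegree < D + 1 := by
      refine Nat.lt_succ_of_le ((natDegree_sub_le _ _).trans (max_le hh.1 ?_))
      rw [natDegree_C]
      exact Nat.zero_le _
    have h4 := (as_sum_range_C_mul_X_pow' (p := h - C b0) hd).symm
    rw [← Fin.sum_univ_eq_sum_range (fun j => C ((h - C b0).coeff j) * X ^ j) (D + 1)] at h4
    rw [h4]
    ring

private def ec_good {n : ℕ} (F : (Fin n → K) → K[X]) : Prop := ∀ j, PF (fun u => (F u).coeff j)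

private theorem ec_const {n : ℕ} (c : K[X]) : ec_good (fun _ : Fin n → K => c) :=
  fun _ => PF.const _

private theorem ec_add {n : ℕ} {F G : (Fin n → K) → K[X]} (hF : ec_good F) (hG : ec_good G) :
    ec_good (fun u => F u + G u) := by
  intro j
  simp only [coeff_add]
  exact PF.add (hF j) (hG j)

private theorem ec_mul {n : ℕ} {F G : (Fin n → K) → K[X]} (hF : ec_good F) (hG : ec_good G) :
    ec_good (fun u => F u * G u) := by
  intro j
  simp only [coeff_mul]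
  exact PF.sum _ _ fun q _ => PF.mul (hF q.1) (hG q.2)

private theorem ec_sum {n : ℕ} {ι : Type*} (s : Finset ι) (F : ι → (Fin n → K) → K[X])
    (hF : ∀ i, ec_good (F i)) : ec_good (fun u => ∑ i ∈ s, F i u) := by
  intro j
  simp only [finsetSum_coeff]
  exact PF.sum _ _ fun i _ => hF i j

private theorem ec_pow {n : ℕ} {F : (Fin n → K) → K[X]} (hF : ec_good F) (m : ℕ) :
    ec_good (fun u => F u ^ m) := by
  induction m with
  | zero => simp only [pow_zero]; exact ec_const 1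
  | succ m ih => simp only [pow_succ]; exact ec_mul ih hF

private theorem ec_C {n : ℕ} {g : (Fin n → K) → K} (hg : PF g) :
    ec_good (fun u => C (g u)) := by
  intro j
  rcases Nat.eq_zero_or_pos j with rfl | hj
  · simp only [coeff_C_zero]
    exact hg
  · simp only [coeff_C_of_ne_zero hj.ne']
    exact PF.const 0

/-- Module ec. The coefficients of `f(X, h(X))` are polynomial functions of the parameter. PROOF.
The set of functions `F : (Fin n → K) → K[X]` all of whose coefficients are polynomial functions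
contains the constants and is closed under sums and products (`coeff_mul`, `PF.sum`, `PF.mul`);
`hp` is in it, and `f.eval (hp ..) = ∑ i ∈ range (natDegree + 1), f.coeff i * hp .. ^ i`. -/
theorem pf_coeff (D : ℕ) (r0 b0 r2 : K) (f : K[X][X]) (j : ℕ) :
    PF (fun u => (f.eval (hp D r0 b0 r2 u)).coeff j) := by
  have h1 : ec_good (fun u : Fin (D + 1) → K => hp D r0 b0 r2 u) := by
    unfold hp
    exact ec_add (ec_const _) (ec_sum _ _ fun j =>
      ec_mul (ec_C (PF.mul (PF.const _) (PF.coord j))) (ec_const _))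
  have h2 : ec_good (fun u : Fin (D + 1) → K => f.eval (hp D r0 b0 r2 u)) := by
    simp only [eval_eq_sum_range]
    exact ec_sum _ _ fun i => ec_mul (ec_const _) (ec_pow h1 i)
  exact h2 j

/-- Module ec. Minimum of a maximum over `HS`. PROOF. `Finite.equivFin`, `MM` for the functions
`u ↦ t i * (f.eval (hp ..)).coeff (j i)` (`pf_coeff`, `PF.mul`, `PF.const`), `hp_mem`,
`hp_surj`. -/
theorem mm_hs {v : Valuation K Γ} (hmm : MM v) (D : ℕ) (r0 b0 r2 : K) (hr0 : r0 ≠ 0)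
    (hr2 : r2 ≠ 0) (f : K[X][X]) (ι : Type) [Finite ι] (t : ι → K) (j : ι → ℕ) :
    ∃ h, HS v D r0 b0 r2 h ∧ ∀ h', HS v D r0 b0 r2 h' → ∀ i, ∃ i',
      v (t i) * v ((f.eval h).coeff (j i)) ≤ v (t i') * v ((f.eval h').coeff (j i')) := by
  have E := Finite.equivFin ι
  obtain ⟨u, hu, hmin⟩ := hmm (D + 1) (Nat.card ι)
    (fun i u => t (E.symm i) * (f.eval (hp D r0 b0 r2 u)).coeff (j (E.symm i)))
    (fun i => PF.mul (PF.const _) (pf_coeff D r0 b0 r2 f _))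
  refine ⟨hp D r0 b0 r2 u, hp_mem v D r0 b0 r2 hr0 u hu, fun h' hh' i => ?_⟩
  obtain ⟨u', hu', rfl⟩ := hp_surj v D r0 b0 r2 hr0 hr2 h' hh'
  obtain ⟨i', hi'⟩ := hmin u' hu' (E i)
  refine ⟨E.symm i', ?_⟩
  simp only [map_mul, Equiv.symm_apply_apply] at hi'
  exact hi'
/- END ec -/

end Pool.Agent.Xtc
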