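import Pool.Agent.Xtc.Clus

set_option autoImplicit false

namespace Pool.Agent.Xtc

open Polynomial Pool.Agent.Xtr

section

variable {K : Type*} [Field K] {L : Type*} [Field L] [Algebra K L]

/- MODULE fa -/
/-- Module fa. -/
theorem fAB_monic (l : ℕ) (hl : 2 ≤ l) (A B : K[X]) :
    (fAB l A B).Monic ∧ (fAB l A B).natDegree = l := by
  have hd : (C A * X + C B : K[X][X]).degree < (l : WithBot ℕ) := by
    refine lt_of_le_of_lt degree_linear_le ?_
    exact_mod_cast hl
  have h1 : fAB l A B = X ^ l + (C A * X + C B) := by unfold fAB; ring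
  rw [h1]
  refine ⟨monic_X_pow_add hd, ?_⟩
  rw [natDegree_add_eq_left_of_degree_lt (by rwa [degree_X_pow]), natDegree_X_pow]

/-- Module fa. -/
theorem fAB_eval (l : ℕ) (A B h : K[X]) : (fAB l A B).eval h = h ^ l + A * h + B := by
  simp [fAB]

/-- Module fa. -/
theorem fAB_ev (l : ℕ) (A B : K[X]) (a b : K) :
    ev (fAB l A B) a b = b ^ l + A.eval a * b + B.eval a := by
  simp [ev, fAB]

/-- Module fa. -/
theorem fAB_fx (l : ℕ) (A B : K[X]) (x y : L) :
    (fx (fAB l A B) x).eval y = y ^ l + aeval x A * y + aeval x B := by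
  simp [fx, fAB]

private theorem fa_coeff {R : Type*} [CommRing R] (l : ℕ) (a b h : R) (i : ℕ) (hi : 1 ≤ i) :
    (taylor h (X ^ l + C a * X + C b)).coeff i =
      h ^ (l - i) * ((l.choose i : ℕ) : R) + if i = 1 then a else 0 := by
  rw [map_add, map_add, taylor_X_pow, taylor_mul, taylor_C, taylor_X, taylor_C, coeff_add,
    coeff_add, coeff_X_add_C_pow, coeff_C_mul, coeff_add, coeff_C_of_ne_zero (by omega), coeff_X,
    coeff_C_of_ne_zero (by omega), add_zero, add_zero]
  congr 1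
  by_cases h1 : i = 1
  · rw [if_pos h1, if_pos h1.symm, mul_one]
  · rw [if_neg h1, if_neg (fun h' => h1 h'.symm), mul_zero]

/-- Module fa. PROOF. `taylor h (X ^ l) = (X + C h) ^ l`, `coeff_X_add_C_pow`. -/
theorem fAB_tc (l : ℕ) (A B h : K[X]) (i : ℕ) (hi : 1 ≤ i) :
    tc (fAB l A B) h i = h ^ (l - i) * ((l.choose i : ℕ) : K[X]) + if i = 1 then A else 0 := by
  unfold tc fAB
  exact fa_coeff l A B h i hi

/-- Module fa. -/
theorem fAB_tx (l : ℕ) (A B : K[X]) (x y : L) (i : ℕ) (hi : 1 ≤ i) :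
    (taylor y (fx (fAB l A B) x)).coeff i =
      y ^ (l - i) * ((l.choose i : ℕ) : L) + if i = 1 then aeval x A else 0 := by
  have h1 : fx (fAB l A B) x = X ^ l + C (aeval x A) * X + C (aeval x B) := by
    simp [fx, fAB]
  rw [h1]
  exact fa_coeff l _ _ y i hi
/- END fa -/

end

section

variable {K : Type*} [Field K] {Γ : Type*} [LinearOrderedCommGroupWithZero Γ]
  {L : Type*} [Field L] [Algebra K L]

/- MODULE fb -/
private theorem fb_top {w : Valuation L Γ} (l : ℕ) (hl : 2 ≤ l) (A B : K[X]) (x y : L) (i : ℕ)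
    (hi : l ≤ i) : w ((taylor y (fx (fAB l A B) x)).coeff i) ^ (l - 1) ≤
      w ((taylor y (fx (fAB l A B) x)).coeff 1) ^ (l - i) := by
  rw [fAB_tx l A B x y i (by omega), if_neg (by omega), add_zero]
  rcases hi.eq_or_lt with h | h
  · subst h
    rw [Nat.sub_self, pow_zero, pow_zero, Nat.choose_self, Nat.cast_one, mul_one, map_one, one_pow]
  · rw [Nat.choose_eq_zero_of_lt h, Nat.cast_zero, mul_zero, map_zero, zero_pow (by omega)]
    exact zero_le

private theorem fb_one {w : Valuation L Γ} (l : ℕ) (p : L[X]) :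
    w (p.coeff 1) ^ (l - 1) ≤ w (p.coeff 1) ^ (l - 1) := le_rfl

/-- Module fb. PROOF. `fAB_tx` with `l = 2`: `i = 1` trivial, `i = 2`: `1 ≤ 1`, `i > 2`: `0`. -/
theorem ci_two {w : Valuation L Γ} (A B : K[X]) (x y : L) :
    CI w 2 (taylor y (fx (fAB 2 A B) x)) := by
  intro i hi
  rcases Nat.lt_or_ge i 2 with h | h
  · have : i = 1 := by omega
    subst this
    exact le_rfl
  · exact fb_top 2 le_rfl A B x y i h

/-- Module fb. PROOF. The binomial coefficients vanish for `1 ≤ i < l`. -/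
theorem ci_char {w : Valuation L Γ} (l : ℕ) (hl : l.Prime) [CharP K l] (A B : K[X]) (x y : L) :
    CI w l (taylor y (fx (fAB l A B) x)) := by
  intro i hi
  rcases Nat.lt_or_ge i l with h | h
  · by_cases h1 : i = 1
    · subst h1
      exact le_rfl
    · have : CharP L l := charP_of_injective_algebraMap (algebraMap K L).injective l
      have h2 : ((l.choose i : ℕ) : L) = 0 :=
        (CharP.cast_eq_zero_iff L l _).2 (hl.dvd_choose_self (by omega) h)
      rw [fAB_tx l A B x y i hi, if_neg h1, h2, mul_zero, add_zero, map_zero,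
        zero_pow (by have := hl.two_le; omega)]
      exact zero_le
  · exact fb_top l hl.two_le A B x y i h

private theorem fb_nat {F : Type*} [Field F] (w : Valuation F Γ) (l m : ℕ) (h : l ∣ m) :
    w (m : F) ≤ w (l : F) := by
  obtain ⟨k, rfl⟩ := h
  rw [Nat.cast_mul, map_mul]
  exact mul_le_of_le_one_right' (natCast_le w k)

/-- Module fb. PROOF. `w (y ^ (l - i) * choose) ^ (l - 1) ≤ (w l * w y ^ (l - i)) ^ (l - 1) ≤
(w l * w y ^ (l - 1)) ^ (l - i)` for `1 ≤ i < l` (`l ∣ choose`, `w` of a natural number is `≤ 1`,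
`w l ^ (l - 1) ≤ w l ^ (l - i)`). -/
theorem ci_kum {w : Valuation L Γ} (l : ℕ) (hl : l.Prime) (B : K[X]) (x y : L) :
    CI w l (taylor y (fx (fAB l 0 B) x)) := by
  intro i hi
  rcases Nat.lt_or_ge i l with h | h
  · have h1 : w ((taylor y (fx (fAB l 0 B) x)).coeff 1) = w y ^ (l - 1) * w (l : L) := by
      rw [fAB_tx l 0 B x y 1 le_rfl, if_pos rfl, map_zero, add_zero, map_mul, map_pow,
        Nat.choose_one_right]
    have h2 : w ((taylor y (fx (fAB l 0 B) x)).coeff i) =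
        w y ^ (l - i) * w ((l.choose i : ℕ) : L) := by
      rw [fAB_tx l 0 B x y i hi, map_zero, ite_self, add_zero, map_mul, map_pow]
    rw [h1, h2]
    calc (w y ^ (l - i) * w ((l.choose i : ℕ) : L)) ^ (l - 1)
        ≤ (w y ^ (l - i) * w (l : L)) ^ (l - 1) := pow_le_pow_left₀ zero_le
          (mul_le_mul_right (fb_nat w l _ (hl.dvd_choose_self (by omega) h)) _) _
      _ = (w y ^ (l - 1)) ^ (l - i) * w (l : L) ^ (l - 1) := by
          rw [mul_pow, ← pow_mul, ← pow_mul, mul_comm (l - i)]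
      _ ≤ (w y ^ (l - 1)) ^ (l - i) * w (l : L) ^ (l - i) :=
          mul_le_mul_right (pow_le_pow_right_of_le_one' (natCast_le w l) (by omega)) _
      _ = (w y ^ (l - 1) * w (l : L)) ^ (l - i) := (mul_pow _ _ _).symm
  · exact fb_top l hl.two_le 0 B x y i h
/- END fb -/

/- MODULE fc -/
private theorem fc_pos {w : Valuation L Γ} (x : L) (hx : ∀ a : K, x ≠ algebraMap K L a) (a : K)
    {ρ : Γ} (h : w (x - algebraMap K L a) ≤ ρ) : ρ ≠ 0 := by
  intro h0
  rw [h0] at h
  have h1 : w (x - algebraMap K L a) = 0 := le_antisymm h zero_le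
  exact hx a (sub_eq_zero.1 ((Valuation.zero_iff w).1 h1))

private theorem fc_nz {N γ : Γ} {m n : ℕ} (hn : n ≠ 0) (h : γ ^ m < N ^ n) : 0 < N := by
  refine zero_lt_iff.2 fun h0 => ?_
  rw [h0, zero_pow hn] at h
  exact not_lt_zero h

/-- Module fc. PROOF. `Δ = A ^ 2 - 4 * B`; `reg_one` for `Δ` gives `a0`. `γ = w (2 y + A(x))`,
`γ ^ 2 = w (aeval x Δ) = gn v ρ (taylor a Δ)`. For `h`: `G = tc _ h 1 = 2 * h + A`,
`G ^ 2 = 4 * (fAB 2 A B).eval h + Δ`; apply `taylor a` and `gn_pow`, `gn_add`, `gn v ρ (4 * g) ≤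
v 4 * gn v ρ g`, `v 4 = v 2 ^ 2 < 1`. -/
theorem sr_two {v : Valuation K Γ} {w : Valuation L Γ} (hv : Ext v)
    (hvw : ∀ a : K, w (algebraMap K L a) = v a) (himm : Imm K w) (x y : L)
    (hx : ∀ a : K, x ≠ algebraMap K L a) (hv2 : v ((2 : ℕ) : K) < 1) (A B : K[X])
    (hy : (fx (fAB 2 A B) x).eval y = 0) :
    SR v w x (fAB 2 A B) 2 (w ((taylor y (fx (fAB 2 A B) x)).coeff 1)) := by
  obtain ⟨a0, -, hreg⟩ := reg_one hv hvw himm x hx (A ^ 2 - 4 * B) 0
  refine ⟨a0, fun a ha ρ hρ1 hρ2 h hN i hi1 hi2 => ?_⟩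
  have hi : i = 1 := by omega
  subst hi
  have hρ : ρ ≠ 0 := fc_pos x hx a hρ1
  have hγ : w ((taylor y (fx (fAB 2 A B) x)).coeff 1) ^ 2 =
      gn v ρ (taylor a (A ^ 2 - 4 * B)) := by
    rw [(hreg.2 a ha).2.2 ρ hρ1 hρ2, ← map_pow, fAB_tx 2 A B x y 1 le_rfl, if_pos rfl]
    congr 1
    rw [fAB_fx] at hy
    simp only [map_sub, map_mul, map_pow, map_ofNat]
    have h3 : y ^ 2 = -(aeval x A * y) - aeval x B := by linear_combination hy
    norm_num
    linear_combination 4 * h3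
  have htc : tc (fAB 2 A B) h 1 ^ 2 = 4 * (fAB 2 A B).eval h + (A ^ 2 - 4 * B) := by
    rw [fAB_tc 2 A B h 1 le_rfl, if_pos rfl, fAB_eval]
    norm_num
    ring
  have hN0 : 0 < gn v ρ (taylor a ((fAB 2 A B).eval h)) := fc_nz (by norm_num) hN
  rw [← gn_pow v hρ, ← taylor_pow, htc, map_add, taylor_mul]
  have h4 : taylor a (4 : K[X]) = C 4 := by
    rw [← map_ofNat (C : K →+* K[X]) 4, taylor_C]
  rw [h4]
  refine (gn_add v ρ _ _).trans_lt (max_lt ?_ ?_)
  · rw [gn_mul v hρ, gn_C, pow_one]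
    have h5 : v (4 : K) < 1 := by
      have h6 : (4 : K) = ((2 : ℕ) : K) * ((2 : ℕ) : K) := by norm_num
      rw [h6, map_mul]
      exact mul_lt_one_of_lt_of_le hv2 hv2.le
    calc v 4 * gn v ρ (taylor a ((fAB 2 A B).eval h))
        < 1 * gn v ρ (taylor a ((fAB 2 A B).eval h)) := (mul_lt_mul_iff_left₀ hN0).2 h5
      _ = _ := one_mul _
  · rw [← hγ]
    exact hN

/-- Module fc. PROOF. `reg_one` for `A`; `tc _ h 1 = A`, `tc _ h i = 0` for `1 < i < l`. -/
theorem sr_char {v : Valuation K Γ} {w : Valuation L Γ} (hv : Ext v)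
    (hvw : ∀ a : K, w (algebraMap K L a) = v a) (himm : Imm K w) (x y : L)
    (hx : ∀ a : K, x ≠ algebraMap K L a) (l : ℕ) (hl : l.Prime) [CharP K l] (A B : K[X]) :
    SR v w x (fAB l A B) l (w ((taylor y (fx (fAB l A B) x)).coeff 1)) := by
  obtain ⟨a0, -, hreg⟩ := reg_one hv hvw himm x hx A 0
  have : CharP L l := charP_of_injective_algebraMap (algebraMap K L).injective l
  have : CharP K[X] l := inferInstance
  refine ⟨a0, fun a ha ρ hρ1 hρ2 h hN i hi1 hi2 => ?_⟩
  have hN0 : 0 < gn v ρ (taylor a ((fAB l A B).eval h)) :=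
    fc_nz (by have := hl.two_le; omega) hN
  have hch : ((l.choose i : ℕ) : K[X]) = 0 :=
    (CharP.cast_eq_zero_iff K[X] l _).2 (hl.dvd_choose_self (by omega) hi2)
  rw [fAB_tc l A B h i (by omega), hch, mul_zero, zero_add]
  by_cases h1 : i = 1
  · subst h1
    rw [if_pos rfl, (hreg.2 a ha).2.2 ρ hρ1 hρ2]
    have hch1 : ((l.choose 1 : ℕ) : L) = 0 := by
      rw [Nat.choose_one_right]
      exact CharP.cast_eq_zero L l
    rw [fAB_tx l A B x y 1 le_rfl, hch1, mul_zero, zero_add, if_pos rfl] at hN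
    exact hN
  · rw [if_neg h1, map_zero, gn_zero, zero_pow hl.ne_zero]
    exact pow_pos hN0 _
/- END fc -/

/- MODULE fd -/
/-- Module fd. The inequality for `Y ^ l + B`. `N` = norm of `h ^ l + B`, `s` = norm of `h`,
`t = w y`, `e = w l`. PROOF. If `s ^ l ≤ N`: `(e * s ^ (l - i)) ^ l = e ^ l * (s ^ l) ^ (l - i) ≤
e ^ l * N ^ (l - i) < N ^ (l - i)` (`0 < N`). Otherwise `s ^ l ≤ t ^ l`; raise to the power `l - 1`:
`(e ^ l * t ^ (l * (l - i))) ^ (l - 1) ≤ (e ^ l * t ^ (l * (l - 1))) ^ (l - i) <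
(N ^ (l - 1)) ^ (l - i)` (`e ^ (l * (l - 1)) ≤ e ^ (l * (l - i))`). -/
theorem kum_ineq (l i : ℕ) (hi : 0 < i) (hil : i < l) (e N s t : Γ) (he : e < 1)
    (hs : s ^ l ≤ max N (t ^ l)) (hN : (e * t ^ (l - 1)) ^ l < N ^ (l - 1)) :
    (e * s ^ (l - i)) ^ l < N ^ (l - i) := by
  have hN0 : 0 < N := fc_nz (by omega) hN
  rcases le_max_iff.1 hs with h | hst
  · calc (e * s ^ (l - i)) ^ l = e ^ l * (s ^ l) ^ (l - i) := by
          rw [mul_pow, ← pow_mul, ← pow_mul, mul_comm l]
      _ ≤ e ^ l * N ^ (l - i) := mul_le_mul_right (pow_le_pow_left₀ zero_le h _) _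
      _ < 1 * N ^ (l - i) :=
        (mul_lt_mul_iff_left₀ (pow_pos hN0 _)).2 (pow_lt_one₀ zero_le he (by omega))
      _ = N ^ (l - i) := one_mul _
  · have h1 : ((e * s ^ (l - i)) ^ l) ^ (l - 1) < (N ^ (l - i)) ^ (l - 1) := by
      calc ((e * s ^ (l - i)) ^ l) ^ (l - 1) = (e ^ l * (s ^ l) ^ (l - i)) ^ (l - 1) := by
            rw [mul_pow e, ← pow_mul s, ← pow_mul s, mul_comm l]
        _ ≤ (e ^ l * (t ^ l) ^ (l - i)) ^ (l - 1) := pow_le_pow_left₀ zero_le
            (mul_le_mul_right (pow_le_pow_left₀ zero_le hst _) _) _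
        _ = (e ^ l) ^ (l - 1) * ((t ^ (l - 1)) ^ l) ^ (l - i) := by
            rw [mul_pow]
            congr 1
            rw [← pow_mul, ← pow_mul, ← pow_mul, ← pow_mul]
            congr 1
            ring
        _ ≤ (e ^ l) ^ (l - i) * ((t ^ (l - 1)) ^ l) ^ (l - i) :=
            mul_le_mul_left (pow_le_pow_right_of_le_one' (pow_le_one₀ zero_le he.le)
              (by omega)) _
        _ = ((e * t ^ (l - 1)) ^ l) ^ (l - i) := by rw [mul_pow e, mul_pow]
        _ < (N ^ (l - 1)) ^ (l - i) := pow_lt_pow_left₀ hN zero_le (by omega)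
        _ = (N ^ (l - i)) ^ (l - 1) := by rw [← pow_mul, ← pow_mul, mul_comm]
    exact lt_of_pow_lt_pow_left₀ _ zero_le h1

/-- Module fd. PROOF. `reg_one` for `B`; `w (aeval x B) = w y ^ l = gn v ρ (taylor a B)`;
`h ^ l = (h ^ l + B) - B`; `kum_ineq` with `N = gn v ρ (taylor a (h ^ l + B))`,
`s = gn v ρ (taylor a h)`, `t = w y`, `e = v l`. -/
theorem sr_kum {v : Valuation K Γ} {w : Valuation L Γ} (hv : Ext v)
    (hvw : ∀ a : K, w (algebraMap K L a) = v a) (himm : Imm K w) (x y : L)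
    (hx : ∀ a : K, x ≠ algebraMap K L a) (l : ℕ) (hl : l.Prime) (hvl : v (l : K) < 1)
    (B : K[X]) (hy : (fx (fAB l 0 B) x).eval y = 0) :
    SR v w x (fAB l 0 B) l (w ((taylor y (fx (fAB l 0 B) x)).coeff 1)) := by
  obtain ⟨a0, -, hreg⟩ := reg_one hv hvw himm x hx B 0
  refine ⟨a0, fun a ha ρ hρ1 hρ2 h hN i hi1 hi2 => ?_⟩
  have hρ : ρ ≠ 0 := fc_pos x hx a hρ1
  have hB : gn v ρ (taylor a B) = w y ^ l := by
    rw [(hreg.2 a ha).2.2 ρ hρ1 hρ2, ← map_pow]
    rw [fAB_fx, map_zero, zero_mul, add_zero] at hy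
    rw [eq_neg_of_add_eq_zero_left hy, Valuation.map_neg]
  have hwl : w (l : L) = v (l : K) := by rw [← hvw, map_natCast (algebraMap K L)]
  have hN' : (v (l : K) * w y ^ (l - 1)) ^ l <
      gn v ρ (taylor a ((fAB l 0 B).eval h)) ^ (l - 1) := by
    have h1 : w ((taylor y (fx (fAB l 0 B) x)).coeff 1) = v (l : K) * w y ^ (l - 1) := by
      rw [fAB_tx l 0 B x y 1 le_rfl, if_pos rfl, map_zero, add_zero, map_mul, map_pow,
        Nat.choose_one_right, hwl, mul_comm]
    rw [h1] at hN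
    exact hN
  have hs : gn v ρ (taylor a h) ^ l ≤ max (gn v ρ (taylor a ((fAB l 0 B).eval h))) (w y ^ l) := by
    rw [← gn_pow v hρ, ← taylor_pow, ← hB]
    have h1 : taylor a (h ^ l) = taylor a ((fAB l 0 B).eval h) - taylor a B := by
      rw [← map_sub, fAB_eval]
      congr 1
      ring
    rw [h1]
    exact gn_sub v ρ _ _
  have h2 := kum_ineq l i hi1 hi2 _ _ _ _ hvl hs hN'
  refine lt_of_le_of_lt (pow_le_pow_left₀ zero_le ?_ l) h2
  rw [fAB_tc l 0 B h i (by omega), ite_self, add_zero, taylor_mul, gn_mul v hρ, taylor_pow,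
    gn_pow v hρ, mul_comm]
  refine mul_le_mul_left ?_ _
  have h3 : ((l.choose i : ℕ) : K[X]) = C ((l.choose i : ℕ) : K) := by simp
  rw [h3, taylor_C, gn_C]
  exact fb_nat v l _ (hl.dvd_choose_self (by omega) hi2)
/- END fd -/

/- MODULE fe -/
/-- Module fe. The case `v l = 1`. PROOF. `l = 2`: `h = C (-1/2) * A`,
`(fAB 2 A B).eval h = - (1/4) * (A ^ 2 - 4 B)`, `v 2 = 1`. `A = 0`: `h = 0`, `w (aeval x B) =
w y ^ l`. -/
theorem tame_h {v : Valuation K Γ} {w : Valuation L Γ}
    (hvw : ∀ a : K, w (algebraMap K L a) = v a) (x y : L) (l : ℕ) (hl : l.Prime)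
    (hvl : v (l : K) = 1) (A B : K[X]) (hcase : l = 2 ∨ A = 0)
    (hy : (fx (fAB l A B) x).eval y = 0) :
    ∃ h : K[X], w (aeval x ((fAB l A B).eval h)) ^ (l - 1) ≤
      w ((taylor y (fx (fAB l A B) x)).coeff 1) ^ l := by
  rcases hcase with h2 | h0
  · subst h2
    have h20 : (2 : K) ≠ 0 := by
      intro h
      have h' : ((2 : ℕ) : K) = 0 := by exact_mod_cast h
      rw [h', map_zero] at hvl
      exact zero_ne_one hvl
    refine ⟨C (-1 / 2) * A, le_of_eq ?_⟩
    rw [fAB_eval, fAB_tx 2 A B x y 1 le_rfl, if_pos rfl, show (2 : ℕ) - 1 = 1 from rfl, pow_one,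
      pow_one, ← map_pow]
    rw [fAB_fx] at hy
    have h3 : aeval x ((C (-1 / 2) * A) ^ 2 + A * (C (-1 / 2) * A) + B) =
        algebraMap K L (-1 / 4) * (y * ((Nat.choose 2 1 : ℕ) : L) + aeval x A) ^ 2 := by
      have h4 : algebraMap K L 2 ≠ 0 := by
        rw [Ne, map_eq_zero]
        exact h20
      have h5 : algebraMap K L 2 = 2 := map_ofNat _ 2
      rw [h5] at h4
      simp only [map_add, map_mul, map_pow, aeval_C, map_div₀, map_neg, map_one, map_ofNat]
      norm_num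
      have h6 : (4 : L) = 2 * 2 := by norm_num
      have h7 : aeval x B = -y ^ 2 - aeval x A * y := by linear_combination hy
      rw [h7, h6]
      field_simp
      ring
    rw [h3, map_mul, hvw]
    have h8 : v (-1 / 4 : K) = 1 := by
      have h9 : (4 : K) = ((2 : ℕ) : K) * ((2 : ℕ) : K) := by norm_num
      rw [map_div₀, Valuation.map_neg, map_one, h9, map_mul, hvl]
      simp
    rw [h8, one_mul]
  · subst h0
    refine ⟨0, le_of_eq ?_⟩
    rw [fAB_eval, zero_pow hl.ne_zero, zero_mul, zero_add, zero_add,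
      fAB_tx l 0 B x y 1 le_rfl, if_pos rfl, map_zero, add_zero, Nat.choose_one_right]
    rw [fAB_fx, map_zero, zero_mul, add_zero] at hy
    have h1 : aeval x B = -y ^ l := by linear_combination hy
    have h2 : w (l : L) = 1 := by rw [← hvl, ← hvw, map_natCast (algebraMap K L)]
    rw [h1, Valuation.map_neg, map_mul, map_pow, map_pow, h2, mul_one, ← pow_mul, ← pow_mul,
      mul_comm]
/- END fe -/

/- MODULE ff -/
/-- Module ff. Translation of the variable `Y`. PROOF. `fx` is a `map`, `taylor` commutes with ring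
homomorphisms. -/
theorem fx_tY (f : K[X][X]) (h0 : K[X]) (x : L) :
    fx (taylor h0 f) x = taylor (aeval x h0) (fx f x) := by
  unfold fx
  rw [map_taylor]
  rfl

/-- Module ff. -/
theorem ev_tY (f : K[X][X]) (h0 : K[X]) (a b : K) :
    ev (taylor h0 f) a b = ev f a (h0.eval a + b) := by
  have h1 : h0.eval a + b = (h0 + C b).eval a := by simp
  rw [h1, ev_eval]
  unfold ev
  rw [taylor_eval, add_comm]

/-- Module ff. -/
theorem tY_eval (f : K[X][X]) (h0 h : K[X]) : (taylor h0 f).eval h = f.eval (h0 + h) := by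
  rw [taylor_eval, add_comm]

/-- Module ff. PROOF. `taylor_taylor`. -/
theorem tc_tY (f : K[X][X]) (h0 h : K[X]) (i : ℕ) : tc (taylor h0 f) h i = tc f (h0 + h) i := by
  unfold tc
  rw [taylor_taylor, add_comm]

/-- Module ff. -/
theorem tY_monic (f : K[X][X]) (h0 : K[X]) (hf : f.Monic) :
    (taylor h0 f).Monic ∧ (taylor h0 f).natDegree = f.natDegree := by
  refine ⟨?_, natDegree_taylor f h0⟩
  unfold Monic
  rw [leadingCoeff_taylor]
  exact hf

/-- Module ff. PROOF. `tY_eval`, `tc_tY`. -/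
theorem SR.tY {v : Valuation K Γ} {w : Valuation L Γ} {x : L} {f : K[X][X]} {l : ℕ} {γ : Γ}
    (h : SR v w x f l γ) (h0 : K[X]) : SR v w x (taylor h0 f) l γ := by
  obtain ⟨a0, ha0⟩ := h
  refine ⟨a0, fun a ha ρ hρ1 hρ2 h hN i hi1 hi2 => ?_⟩
  rw [tY_eval] at hN ⊢
  rw [tc_tY]
  exact ha0 a ha ρ hρ1 hρ2 (h0 + h) hN i hi1 hi2
/- END ff -/

/- MODULE fg -/
/-- Module fg. Monic polynomials, disc with centre `h0(x)` and radius `≠ 0`. PROOF. Let
`f = fAB l A B`, `f' = taylor h0 f`, `y' = y - aeval x h0`; `y'` is a root of `fx f' x`, and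
`taylor y' (fx f' x) = taylor y (fx f x) =: p`, so `CI` (`ci_two`, `ci_char`, `ci_kum`), and `SR` for
`f'` (`sr_two`, `sr_char`, `sr_kum`, `SR.tY`). Apply to `f'`, `y'`, `b0 = 0`, `r2`: if
`v r2 ^ (l - 1) < w (p.coeff 1)`: `sep`. Otherwise, if `v l = 1` (then not `CharP K l`): `rlem` with
`h - h0`, `h` from `tame_h`. If `v l < 1` (`natCast_le`): if every polynomial of positive degree over
`K` has a root: `ecase`; otherwise `clus`. The result `(a, b')` gives `b = h0.eval a + b'`. -/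
theorem mon1 {v : Valuation K Γ} {w : Valuation L Γ} (hv : Ext v)
    (hvw : ∀ a : K, w (algebraMap K L a) = v a) (himm : Imm K w) (x y : L)
    (hx : ∀ a : K, x ≠ algebraMap K L a) (l : ℕ) (hl : l.Prime) (A B : K[X])
    (hcase : l = 2 ∨ CharP K l ∨ A = 0) (hy : (fx (fAB l A B) x).eval y = 0)
    (h0 : K[X]) (r2 : K) (hr2 : r2 ≠ 0) (hyr : w (y - aeval x h0) ≤ v r2) (c : K) :
    ∃ a b : K, w (x - algebraMap K L a) ≤ w (x - algebraMap K L c) ∧
      v (b - h0.eval a) ≤ v r2 ∧ ev (fAB l A B) a b = 0 := by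
  have hm := fAB_monic l hl.two_le A B
  have hm' := tY_monic (fAB l A B) h0 hm.1
  have hfd' : (taylor h0 (fAB l A B)).natDegree = l := hm'.2.trans hm.2
  have hy' : (fx (taylor h0 (fAB l A B)) x).eval (y - aeval x h0) = 0 := by
    rw [fx_tY, taylor_eval, sub_add_cancel]
    exact hy
  have hp : taylor (y - aeval x h0) (fx (taylor h0 (fAB l A B)) x) =
      taylor y (fx (fAB l A B) x) := by
    rw [fx_tY, taylor_taylor, sub_add_cancel]
  have hyr' : w (y - aeval x h0 - algebraMap K L 0) ≤ v r2 := by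
    rw [map_zero, sub_zero]
    exact hyr
  have fin : (∃ a b : K, w (x - algebraMap K L a) ≤ w (x - algebraMap K L c) ∧
      v (b - 0) ≤ v r2 ∧ ev (taylor h0 (fAB l A B)) a b = 0) →
      ∃ a b : K, w (x - algebraMap K L a) ≤ w (x - algebraMap K L c) ∧
        v (b - h0.eval a) ≤ v r2 ∧ ev (fAB l A B) a b = 0 := by
    rintro ⟨a, b, h1, h2, h3⟩
    refine ⟨a, h0.eval a + b, h1, ?_, ?_⟩
    · rw [add_sub_cancel_left]
      rwa [sub_zero] at h2
    · rw [← ev_tY]
      exact h3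
  apply fin
  have hci : CI w l (taylor y (fx (fAB l A B) x)) := by
    rcases hcase with h | h | h
    · subst h
      exact ci_two A B x y
    · have := h
      exact ci_char l hl A B x y
    · subst h
      exact ci_kum l hl B x y
  rcases lt_or_ge (v r2 ^ (l - 1)) (w ((taylor y (fx (fAB l A B) x)).coeff 1)) with hg | hg
  · exact sep hv hvw himm x (y - aeval x h0) hx l hl.two_le _ hfd' hy' (by rw [hp]; exact hci)
      0 r2 hr2 hyr' (by rw [hp]; exact hg) c
  · rcases (natCast_le v l).lt_or_eq with hvl | hvl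
    · by_cases hac : ∀ P : K[X], 0 < P.natDegree → ∃ t, P.eval t = 0
      · exact ecase hv hvw himm hac x (y - aeval x h0) hx _ hm'.1
          (by rw [hfd']; exact hl.one_le) hy' 0 r2 hr2 hyr' c
      · push Not at hac
        have hsr : SR v w x (fAB l A B) l (w ((taylor y (fx (fAB l A B) x)).coeff 1)) := by
          rcases hcase with h | h | h
          · subst h
            exact sr_two hv hvw himm x y hx hvl A B hy
          · have := h
            exact sr_char hv hvw himm x y hx l hl A B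
          · subst h
            exact sr_kum hv hvw himm x y hx l hl hvl B hy
        exact clus hv hvw himm hac x (y - aeval x h0) hx l hl hvl _ hm'.1 hfd' hy'
          (by rw [hp]; exact hci) (by rw [hp]; exact hsr.tY h0) 0 r2 hr2 hyr'
          (by rw [hp]; exact hg) c
    · have hcase' : l = 2 ∨ A = 0 := by
        rcases hcase with h | h | h
        · exact Or.inl h
        · exfalso
          have := h
          rw [CharP.cast_eq_zero K l, map_zero] at hvl
          exact zero_ne_one hvl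
        · exact Or.inr h
      obtain ⟨h, hh⟩ := tame_h hvw x y l hl hvl A B hcase' hy
      refine rlem hv hvw himm x (y - aeval x h0) hx l hl.two_le _ hm'.1 hfd' hy'
        (by rw [hp]; exact hci) 0 r2 hr2 hyr' (by rw [hp]; exact hg) (h - h0) ?_ c
      rw [hp, tY_eval, add_sub_cancel]
      exact hh
/- END fg -/

end

end Pool.Agent.Xtc
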