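import Pool.Agent.Xtc.Defs

set_option autoImplicit false

namespace Pool.Agent.Xtc

open Polynomial Pool.Agent.Xtr

variable {K : Type*} [Field K] {Γ : Type*} [LinearOrderedCommGroupWithZero Γ]

/- MODULE ga -/
/-- Module ga. Basic properties of `gn`: `Finset.le_sup`, `Finset.sup_le_iff`,
`Finset.exists_mem_eq_sup`; `⊥ = 0` in `Γ`. -/
theorem le_gn (v : Valuation K Γ) (ρ : Γ) (g : K[X]) (j : ℕ) :
    v (g.coeff j) * ρ ^ j ≤ gn v ρ g := by
  by_cases hj : j ∈ g.support
  · exact Finset.le_sup (f := fun j => v (g.coeff j) * ρ ^ j) hj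
  · rw [notMem_support_iff.mp hj, map_zero, zero_mul]
    exact zero_le

/-- Module ga. -/
theorem gn_le {v : Valuation K Γ} {ρ : Γ} {g : K[X]} {γ : Γ} :
    gn v ρ g ≤ γ ↔ ∀ j, v (g.coeff j) * ρ ^ j ≤ γ := by
  constructor
  · intro h j
    exact (le_gn v ρ g j).trans h
  · intro h
    exact Finset.sup_le fun j _ => h j

/-- Module ga. -/
theorem gn_lt {v : Valuation K Γ} {ρ : Γ} {g : K[X]} {γ : Γ} (hγ : 0 < γ) :
    gn v ρ g < γ ↔ ∀ j, v (g.coeff j) * ρ ^ j < γ := by
  constructor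
  · intro h j
    exact (le_gn v ρ g j).trans_lt h
  · intro h
    exact (Finset.sup_lt_iff (by rw [bot_eq_zero]; exact hγ)).mpr fun j _ => h j

/-- Module ga. The supremum is attained. -/
theorem gn_att (v : Valuation K Γ) (ρ : Γ) (g : K[X]) :
    ∃ j, j ≤ g.natDegree ∧ v (g.coeff j) * ρ ^ j = gn v ρ g := by
  by_cases hg : g = 0
  · refine ⟨0, Nat.zero_le _, ?_⟩
    subst hg
    simp [gn, bot_eq_zero]
  · obtain ⟨j, hj, he⟩ := Finset.exists_mem_eq_sup g.support (support_nonempty.mpr hg)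
      (fun j => v (g.coeff j) * ρ ^ j)
    exact ⟨j, le_natDegree_of_mem_supp j hj, he.symm⟩

/-- Module ga. -/
theorem gn_zero (v : Valuation K Γ) (ρ : Γ) : gn v ρ (0 : K[X]) = 0 := by
  simp [gn, bot_eq_zero]

/-- Module ga. -/
theorem gn_ne_zero {v : Valuation K Γ} {ρ : Γ} (hρ : ρ ≠ 0) {g : K[X]} (hg : g ≠ 0) :
    gn v ρ g ≠ 0 := by
  intro h
  apply hg
  ext j
  have h1 := le_gn v ρ g j
  rw [h] at h1
  have h2 : v (g.coeff j) * ρ ^ j = 0 := le_antisymm h1 zero_le
  rcases mul_eq_zero.mp h2 with h3 | h3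
  · rw [coeff_zero]
    exact (map_eq_zero v).mp h3
  · exact absurd h3 (pow_ne_zero _ hρ)

/-- Module ga. -/
theorem gn_C (v : Valuation K Γ) (ρ : Γ) (a : K) : gn v ρ (C a) = v a := by
  apply le_antisymm
  · rw [gn_le]
    intro j
    rw [coeff_C]
    split_ifs with h
    · subst h; simp
    · simp
  · have h := le_gn v ρ (C a) 0
    simpa using h

/-- Module ga. -/
theorem gn_neg (v : Valuation K Γ) (ρ : Γ) (g : K[X]) : gn v ρ (-g) = gn v ρ g := by
  apply le_antisymm
  · rw [gn_le]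
    intro j
    rw [coeff_neg, Valuation.map_neg]
    exact le_gn v ρ g j
  · rw [gn_le]
    intro j
    have h := le_gn v ρ (-g) j
    rwa [coeff_neg, Valuation.map_neg] at h

/-- Module ga. -/
theorem gn_mono (v : Valuation K Γ) {ρ ρ' : Γ} (h : ρ ≤ ρ') (g : K[X]) :
    gn v ρ g ≤ gn v ρ' g := by
  rw [gn_le]
  intro j
  refine le_trans ?_ (le_gn v ρ' g j)
  exact mul_le_mul_right (pow_le_pow_left₀ zero_le h j) _
/- END ga -/

/- MODULE gb -/
/-- Module gb. -/
theorem gn_add (v : Valuation K Γ) (ρ : Γ) (g h : K[X]) :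
    gn v ρ (g + h) ≤ max (gn v ρ g) (gn v ρ h) := by
  rw [gn_le]
  intro j
  rw [coeff_add]
  rcases le_max_iff.mp (v.map_add (g.coeff j) (h.coeff j)) with h1 | h1
  · exact le_trans (le_trans (mul_le_mul_left h1 _) (le_gn v ρ g j)) (le_max_left _ _)
  · exact le_trans (le_trans (mul_le_mul_left h1 _) (le_gn v ρ h j)) (le_max_right _ _)

/-- Module gb. -/
theorem gn_sub (v : Valuation K Γ) (ρ : Γ) (g h : K[X]) :
    gn v ρ (g - h) ≤ max (gn v ρ g) (gn v ρ h) := by
  rw [sub_eq_add_neg]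
  refine (gn_add v ρ g (-h)).trans ?_
  rw [gn_neg]

/-- Module gb. -/
theorem gn_sum (v : Valuation K Γ) (ρ : Γ) {ι : Type*} (s : Finset ι) (g : ι → K[X]) {γ : Γ}
    (h : ∀ i ∈ s, gn v ρ (g i) ≤ γ) : gn v ρ (∑ i ∈ s, g i) ≤ γ := by
  classical
  induction s using Finset.induction_on with
  | empty => rw [Finset.sum_empty, gn_zero]; exact zero_le
  | insert a s ha ih =>
    rw [Finset.sum_insert ha]
    refine (gn_add v ρ _ _).trans (max_le (h a (Finset.mem_insert_self _ _)) ?_)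
    exact ih fun i hi => h i (Finset.mem_insert_of_mem hi)

/-- Module gb. -/
theorem gn_sum_lt (v : Valuation K Γ) (ρ : Γ) {ι : Type*} (s : Finset ι) (g : ι → K[X]) {γ : Γ}
    (hγ : 0 < γ) (h : ∀ i ∈ s, gn v ρ (g i) < γ) : gn v ρ (∑ i ∈ s, g i) < γ := by
  classical
  induction s using Finset.induction_on with
  | empty => rw [Finset.sum_empty, gn_zero]; exact hγ
  | insert a s ha ih =>
    rw [Finset.sum_insert ha]
    refine (gn_add v ρ _ _).trans_lt (max_lt (h a (Finset.mem_insert_self _ _)) ?_)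
    exact ih fun i hi => h i (Finset.mem_insert_of_mem hi)

/-- Module gb. -/
theorem gn_add_eq (v : Valuation K Γ) (ρ : Γ) (g h : K[X]) (hlt : gn v ρ g < gn v ρ h) :
    gn v ρ (g + h) = gn v ρ h := by
  apply le_antisymm
  · exact (gn_add v ρ g h).trans (max_le hlt.le le_rfl)
  · have h1 : h = (g + h) - g := by ring
    have h2 := gn_sub v ρ (g + h) g
    rw [← h1] at h2
    rcases le_max_iff.mp h2 with h3 | h3
    · exact h3
    · exact absurd h3 (not_le.mpr hlt)

/-- Module gb. A monomial. -/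
theorem gn_mon (v : Valuation K Γ) (ρ : Γ) (a : K) (i : ℕ) :
    gn v ρ (C a * X ^ i) = v a * ρ ^ i := by
  apply le_antisymm
  · rw [gn_le]
    intro j
    rw [coeff_C_mul_X_pow]
    split_ifs with h
    · rw [h]
    · rw [map_zero, zero_mul]; exact zero_le
  · have h := le_gn v ρ (C a * X ^ i) i
    rwa [coeff_C_mul_X_pow, if_pos rfl] at h
/- END gb -/

/- MODULE gc -/
private theorem gc_le (v : Valuation K Γ) {ρ : Γ} (hρ : ρ ≠ 0) (g h : K[X]) :
    gn v ρ (g * h) ≤ gn v ρ g * gn v ρ h := by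
  rw [gn_le]
  intro n
  have hρn : (0 : Γ) < ρ ^ n := zero_lt_iff.mpr (pow_ne_zero _ hρ)
  rw [← le_div_iff₀ hρn, coeff_mul]
  apply Valuation.map_sum_le
  intro p hp
  rw [le_div_iff₀ hρn, Valuation.map_mul, ← Finset.HasAntidiagonal.mem_antidiagonal.mp hp, pow_add]
  calc v (g.coeff p.1) * v (h.coeff p.2) * (ρ ^ p.1 * ρ ^ p.2)
      = (v (g.coeff p.1) * ρ ^ p.1) * (v (h.coeff p.2) * ρ ^ p.2) := by
        rw [mul_mul_mul_comm]
    _ ≤ gn v ρ g * gn v ρ h := mul_le_mul' (le_gn v ρ g _) (le_gn v ρ h _)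

private theorem gc_min (v : Valuation K Γ) (ρ : Γ) (g : K[X]) :
    ∃ i, v (g.coeff i) * ρ ^ i = gn v ρ g ∧ ∀ i' < i, v (g.coeff i') * ρ ^ i' < gn v ρ g := by
  classical
  have hex : ∃ i, v (g.coeff i) * ρ ^ i = gn v ρ g := by
    obtain ⟨j, _, hj⟩ := gn_att v ρ g
    exact ⟨j, hj⟩
  refine ⟨Nat.find hex, Nat.find_spec hex, ?_⟩
  intro i' hi'
  exact lt_of_le_of_ne (le_gn v ρ g i') (Nat.find_min hex hi')

/-- Module gc. `gn v ρ` is multiplicative (Gauss). PROOF. `≤`: every coefficient of `g * h` is a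
sum of products (`coeff_mul`, `Valuation.map_sum_le`). `≥` for `g, h ≠ 0`: let `i`, `j` be the
least indices with `v (g.coeff i) * ρ ^ i = gn v ρ g`, `v (h.coeff j) * ρ ^ j = gn v ρ h`; in
`(g * h).coeff (i + j)` the term `(i, j)` has value `gn g * gn h / ρ ^ (i + j)`, all others are
strictly smaller. -/
theorem gn_mul (v : Valuation K Γ) {ρ : Γ} (hρ : ρ ≠ 0) (g h : K[X]) :
    gn v ρ (g * h) = gn v ρ g * gn v ρ h := by
  classical
  by_cases hg : g = 0
  · subst hg; rw [zero_mul, gn_zero, zero_mul]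
  by_cases hh : h = 0
  · subst hh; rw [mul_zero, gn_zero, mul_zero]
  apply le_antisymm (gc_le v hρ g h)
  obtain ⟨i, hi, hi'⟩ := gc_min v ρ g
  obtain ⟨j, hj, hj'⟩ := gc_min v ρ h
  have hA : (0 : Γ) < gn v ρ g := zero_lt_iff.mpr (gn_ne_zero hρ hg)
  have hB : (0 : Γ) < gn v ρ h := zero_lt_iff.mpr (gn_ne_zero hρ hh)
  have hρn : (0 : Γ) < ρ ^ (i + j) := zero_lt_iff.mpr (pow_ne_zero _ hρ)
  have hmem : (i, j) ∈ Finset.HasAntidiagonal.antidiagonal (i + j) := Finset.HasAntidiagonal.mem_antidiagonal.mpr rfl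
  have hterm : v (g.coeff i * h.coeff j) = gn v ρ g * gn v ρ h / ρ ^ (i + j) := by
    rw [eq_div_iff hρn.ne', Valuation.map_mul, pow_add, mul_mul_mul_comm, hi, hj]
  have hpos : (0 : Γ) < gn v ρ g * gn v ρ h / ρ ^ (i + j) :=
    div_pos (mul_pos hA hB) hρn
  have hrest : v (∑ p ∈ (Finset.HasAntidiagonal.antidiagonal (i + j)).erase (i, j),
      g.coeff p.1 * h.coeff p.2) < gn v ρ g * gn v ρ h / ρ ^ (i + j) := by
    apply Valuation.map_sum_lt _ hpos.ne'
    intro p hp
    obtain ⟨hne, hp⟩ := Finset.mem_erase.mp hp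
    have hs : p.1 + p.2 = i + j := Finset.HasAntidiagonal.mem_antidiagonal.mp hp
    rw [lt_div_iff₀ hρn, Valuation.map_mul, ← hs, pow_add, mul_mul_mul_comm]
    rcases lt_trichotomy p.1 i with h1 | h1 | h1
    · exact lt_of_le_of_lt (mul_le_mul_right (le_gn v ρ h _) _) (mul_lt_mul_of_pos_right (hi' _ h1) hB)
    · exfalso
      apply hne
      ext
      · exact h1
      · simp only
        omega
    · have h2 : p.2 < j := by omega
      rw [mul_comm (gn v ρ g), mul_comm (v (g.coeff p.1) * ρ ^ p.1)]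
      exact lt_of_le_of_lt (mul_le_mul_right (le_gn v ρ g _) _) (mul_lt_mul_of_pos_right (hj' _ h2) hA)
  have hco : (g * h).coeff (i + j) = g.coeff i * h.coeff j +
      ∑ p ∈ (Finset.HasAntidiagonal.antidiagonal (i + j)).erase (i, j), g.coeff p.1 * h.coeff p.2 := by
    rw [coeff_mul, ← Finset.add_sum_erase _ _ hmem]
  have hv : v ((g * h).coeff (i + j)) = gn v ρ g * gn v ρ h / ρ ^ (i + j) := by
    rw [hco, ← hterm]
    apply Valuation.map_add_eq_of_lt_left
    rw [hterm]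
    exact hrest
  have := le_gn v ρ (g * h) (i + j)
  rwa [hv, div_mul_cancel₀ _ hρn.ne'] at this

/-- Module gc. -/
theorem gn_pow (v : Valuation K Γ) {ρ : Γ} (hρ : ρ ≠ 0) (g : K[X]) (n : ℕ) :
    gn v ρ (g ^ n) = gn v ρ g ^ n := by
  induction n with
  | zero =>
    rw [pow_zero, pow_zero, ← C_1, gn_C, map_one]
  | succ n ih => rw [pow_succ, pow_succ, gn_mul v hρ, ih]
/- END gc -/

/- MODULE gd -/
private theorem gd_le (v : Valuation K Γ) {ρ : Γ} (hρ : ρ ≠ 0) (d : K) (hd : v d ≤ ρ)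
    (g : K[X]) : gn v ρ (taylor d g) ≤ gn v ρ g := by
  have hX : gn v ρ (X + C d) ≤ ρ := by
    refine (gn_add v ρ _ _).trans (max_le ?_ ?_)
    · have h := gn_mon v ρ (1 : K) 1
      rw [C_1, one_mul, pow_one, map_one, one_mul, pow_one] at h
      exact h.le
    · rw [gn_C]; exact hd
  rw [taylor_apply, comp, eval₂_eq_sum_range]
  apply gn_sum
  intro i _
  rw [gn_mul v hρ, gn_C, gn_pow v hρ]
  exact (mul_le_mul_right (pow_le_pow_left₀ zero_le hX i) _).trans (le_gn v ρ g i)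

/-- Module gd. Change of the centre. PROOF. `(taylor d g).coeff j = (hasseDeriv j g).eval d`
(`taylor_coeff`, `hasseDeriv_apply`, `eval` of a sum): the terms are
`(i.choose j) * g.coeff i * d ^ (i - j)` with `i ≥ j`, so `≤` holds for every `d` with `v d ≤ ρ`
(`v` of a natural number is `≤ 1`); for `≥` use `taylor (-d) (taylor d g) = g`. -/
theorem gn_taylor (v : Valuation K Γ) {ρ : Γ} (d : K) (hd : v d ≤ ρ) (g : K[X]) :
    gn v ρ (taylor d g) = gn v ρ g := by
  by_cases hρ : ρ = 0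
  · subst hρ
    have h0 : d = 0 := (map_eq_zero v).mp (le_antisymm hd zero_le)
    subst h0
    rw [taylor_zero]
  · apply le_antisymm (gd_le v hρ d hd g)
    have h1 := gd_le v hρ (-d) (by rwa [Valuation.map_neg]) (taylor d g)
    rwa [taylor_taylor, neg_add_cancel, taylor_zero] at h1

/-- Module gd. -/
theorem eval_le_gn (v : Valuation K Γ) {ρ : Γ} (a : K) (ha : v a ≤ ρ) (g : K[X]) :
    v (g.eval a) ≤ gn v ρ g := by
  rw [eval_eq_sum_range]
  apply Valuation.map_sum_le
  intro i _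
  rw [Valuation.map_mul, Valuation.map_pow]
  exact (mul_le_mul_right (pow_le_pow_left₀ zero_le ha i) _).trans (le_gn v ρ g i)

/-- Module gd. The natural numbers are integral. -/
theorem natCast_le (v : Valuation K Γ) (n : ℕ) : v (n : K) ≤ 1 := by
  induction n with
  | zero => simp
  | succ n ih =>
    rw [Nat.cast_succ]
    refine (v.map_add _ _).trans (max_le ih ?_)
    rw [map_one]

/-- Module gd. If one term dominates strictly, the value at points of the right size is known.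
(`Polynomial.eval_eq_sum_range`.) -/
theorem eval_dom (v : Valuation K Γ) (a : K) (g : K[X]) (j : ℕ) (γ : Γ)
    (h : ∀ i, i ≠ j → v (g.coeff i) * v a ^ i < γ) (hγ : 0 < γ) :
    v (g.eval a - g.coeff j * a ^ j) < γ := by
  classical
  have hsub : g.support ⊆ insert j g.support := Finset.subset_insert _ _
  have he : g.eval a = ∑ i ∈ insert j g.support, g.coeff i * a ^ i := by
    rw [eval_eq_sum, sum_def]
    apply Finset.sum_subset hsub
    intro i _ hi
    rw [notMem_support_iff.mp hi, zero_mul]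
  rw [he, ← Finset.add_sum_erase _ _ (Finset.mem_insert_self j g.support), add_sub_cancel_left]
  apply Valuation.map_sum_lt _ hγ.ne'
  intro i hi
  rw [Valuation.map_mul, Valuation.map_pow]
  exact h i (Finset.ne_of_mem_erase hi)
/- END gd -/

/- MODULE ge -/
/-- Module ge. `p`-th powers of sums. PROOF. `add_pow`, the terms with `0 < i < l` are divisible by
`l` (`Nat.Prime.dvd_choose_self`). -/
theorem gn_add_pow (v : Valuation K Γ) {ρ : Γ} (hρ : ρ ≠ 0) (l : ℕ) (hl : l.Prime) (g h : K[X])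
    {γ : Γ} (hg : gn v ρ g ≤ γ) (hh : gn v ρ h ≤ γ) :
    gn v ρ ((g + h) ^ l - g ^ l - h ^ l) ≤ v (l : K) * γ ^ l := by
  obtain ⟨k, rfl⟩ : ∃ k, l = k + 1 := ⟨l - 1, by have := hl.pos; omega⟩
  have he : (g + h) ^ (k + 1) - g ^ (k + 1) - h ^ (k + 1) =
      ∑ m ∈ Finset.range k, g ^ (m + 1) * h ^ (k - m) * (((k + 1).choose (m + 1) : ℕ) : K[X]) := by
    rw [add_pow, Finset.sum_range_succ, Finset.sum_range_succ']
    have h1 : ∀ m : ℕ, k + 1 - (m + 1) = k - m := fun m => by omega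
    simp only [h1, pow_zero, one_mul, Nat.sub_zero, Nat.choose_zero_right, Nat.cast_one, mul_one,
      Nat.sub_self, Nat.choose_self]
    ring
  rw [he]
  apply gn_sum
  intro m hm
  have hm' : m < k := Finset.mem_range.mp hm
  obtain ⟨c, hc⟩ := hl.dvd_choose_self (k := m + 1) (by omega) (by omega)
  rw [gn_mul v hρ, gn_mul v hρ, gn_pow v hρ, gn_pow v hρ, ← C_eq_natCast, gn_C, hc,
    Nat.cast_mul, Valuation.map_mul]
  have h2 : γ ^ (k + 1) = γ ^ (m + 1) * γ ^ (k - m) := by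
    rw [← pow_add]
    congr 1
    omega
  rw [h2, mul_comm (v ((k + 1 : ℕ) : K)) (γ ^ (m + 1) * γ ^ (k - m))]
  refine mul_le_mul' (mul_le_mul' (pow_le_pow_left₀ zero_le hg _)
    (pow_le_pow_left₀ zero_le hh _)) ?_
  exact mul_le_of_le_one_right' (natCast_le v c)

private theorem ge_sum (v : Valuation K Γ) {ρ : Γ} (hρ : ρ ≠ 0) (l : ℕ) (hl : l.Prime)
    (e : K[X]) (s : Finset ℕ) :
    gn v ρ ((∑ i ∈ s, C (e.coeff i) * X ^ i) ^ l - ∑ i ∈ s, C (e.coeff i ^ l) * X ^ (i * l)) ≤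
      v (l : K) * gn v ρ e ^ l := by
  classical
  induction s using Finset.induction_on with
  | empty =>
    rw [Finset.sum_empty, Finset.sum_empty, zero_pow hl.ne_zero, sub_zero, gn_zero]
    exact zero_le
  | insert a s ha ih =>
    rw [Finset.sum_insert ha, Finset.sum_insert ha]
    have h1 : (C (e.coeff a) * X ^ a) ^ l = C (e.coeff a ^ l) * X ^ (a * l) := by
      rw [mul_pow, ← C_pow, pow_mul]
    have h2 : (C (e.coeff a) * X ^ a + ∑ i ∈ s, C (e.coeff i) * X ^ i) ^ l -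
        (C (e.coeff a ^ l) * X ^ (a * l) + ∑ i ∈ s, C (e.coeff i ^ l) * X ^ (i * l)) =
        ((C (e.coeff a) * X ^ a + ∑ i ∈ s, C (e.coeff i) * X ^ i) ^ l -
          (C (e.coeff a) * X ^ a) ^ l - (∑ i ∈ s, C (e.coeff i) * X ^ i) ^ l) +
        ((∑ i ∈ s, C (e.coeff i) * X ^ i) ^ l - ∑ i ∈ s, C (e.coeff i ^ l) * X ^ (i * l)) := by
      rw [h1]
      ring
    rw [h2]
    refine (gn_add v ρ _ _).trans (max_le ?_ ih)
    apply gn_add_pow v hρ l hl
    · rw [gn_mon]
      exact le_gn v ρ e a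
    · apply gn_sum
      intro i _
      rw [gn_mon]
      exact le_gn v ρ e i

/-- Module ge. The coefficients of `e ^ l`. PROOF. Induction over the terms of `e` (write
`e = ∑ i ∈ range (e.natDegree + 1), C (e.coeff i) * X ^ i`) with `gn_add_pow`: the difference of
`e ^ l` and `∑ i, C (e.coeff i ^ l) * X ^ (i * l)` has norm `≤ v l * gn v ρ e ^ l`. -/
theorem pow_coeff (v : Valuation K Γ) {ρ : Γ} (hρ : ρ ≠ 0) (l : ℕ) (hl : l.Prime) (e : K[X])
    (j : ℕ) :
    v ((e ^ l).coeff j - if l ∣ j then e.coeff (j / l) ^ l else 0) * ρ ^ j ≤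
      v (l : K) * gn v ρ e ^ l := by
  have h1 := ge_sum v hρ l hl e (Finset.range (e.natDegree + 1))
  rw [← as_sum_range_C_mul_X_pow] at h1
  have h2 := (le_gn v ρ _ j).trans h1
  rw [coeff_sub, finsetSum_coeff] at h2
  have h3 : (∑ i ∈ Finset.range (e.natDegree + 1), (C (e.coeff i ^ l) * X ^ (i * l)).coeff j) =
      if l ∣ j then e.coeff (j / l) ^ l else 0 := by
    simp only [coeff_C_mul_X_pow]
    split_ifs with hd
    · obtain ⟨q, rfl⟩ := hd
      rw [Nat.mul_div_cancel_left _ hl.pos]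
      by_cases hq : q < e.natDegree + 1
      · rw [Finset.sum_eq_single q]
        · rw [if_pos (mul_comm _ _)]
        · intro b _ hb
          rw [if_neg]
          intro hc
          apply hb
          rw [mul_comm] at hc
          exact (Nat.eq_of_mul_eq_mul_right hl.pos hc).symm
        · intro hb
          exact absurd (Finset.mem_range.mpr hq) hb
      · rw [coeff_eq_zero_of_natDegree_lt (by omega), zero_pow hl.ne_zero]
        apply Finset.sum_eq_zero
        intro b hb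
        rw [if_neg]
        intro hc
        rw [mul_comm] at hc
        have := Nat.eq_of_mul_eq_mul_right hl.pos hc
        have := Finset.mem_range.mp hb
        omega
    · apply Finset.sum_eq_zero
      intro b _
      rw [if_neg]
      rintro rfl
      exact hd (Dvd.intro_left b rfl)
  rwa [h3] at h2
/- END ge -/

end Pool.Agent.Xtc
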