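import Pool.Agent.Xtc.Gn

set_option autoImplicit false

namespace Pool.Agent.Xtc

open Polynomial Pool.Agent.Xtr

variable {K : Type*} [Field K] {Γ : Type*} [LinearOrderedCommGroupWithZero Γ]

/- MODULE ha -/
private theorem ha_small {v : Valuation K Γ} (Q : K[X]) (s : K) (γ : Γ) (hγ : γ ≠ 0)
    (hQ : ∀ i, v (Q.coeff i) * v s ^ i < γ) : v (Q.eval s) < γ := by
  rw [eval_eq_sum_range]
  refine Valuation.map_sum_lt v hγ fun i _ => ?_
  rw [map_mul, map_pow]
  exact hQ i

private theorem ha_pf (P : K[X]) : PF (fun u : Fin 1 → K => P.eval (u 0)) := by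
  have hp : ∀ k : ℕ, PF (fun u : Fin 1 → K => u 0 ^ k) := by
    intro k
    induction k with
    | zero =>
      simp only [pow_zero]
      exact PF.const _
    | succ k ih =>
      simp only [pow_succ]
      exact PF.mul ih (PF.coord 0)
  simp only [eval_eq_sum_range]
  exact PF.sum _ _ fun i _ => PF.mul (PF.const _) (hp i)

/-- the part of degree at least two -/
private noncomputable def ha_tail (P : K[X]) : K[X] := P - C (P.coeff 0) - C (P.coeff 1) * X

private theorem ha_tail_coeff (P : K[X]) (i : ℕ) :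
    (ha_tail P).coeff i = if 2 ≤ i then P.coeff i else 0 := by
  unfold ha_tail
  rcases i with _ | _ | i
  · simp
  · simp
  · rw [coeff_sub, coeff_sub, coeff_C_of_ne_zero (by omega), coeff_C_mul, coeff_X_of_ne_one (by omega),
      if_pos (by omega)]
    ring

private theorem ha_tail_eval (P : K[X]) (s : K) :
    (ha_tail P).eval s = P.eval s - P.coeff 0 - P.coeff 1 * s := by
  unfold ha_tail
  simp

private theorem ha_tl (P : K[X]) (t : K) (i : ℕ) (hi : 1 ≤ i) :
    (taylor t P).coeff i = (if i = 1 then P.coeff 1 else 0) + (taylor t (ha_tail P)).coeff i := by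
  have h1 : P = C (P.coeff 0) + C (P.coeff 1) * X + ha_tail P := by unfold ha_tail; ring
  conv_lhs => rw [h1]
  rw [map_add, map_add, taylor_C, taylor_mul, taylor_C, taylor_X, coeff_add, coeff_add,
    coeff_C_of_ne_zero (by omega), coeff_C_mul, coeff_add, coeff_C_of_ne_zero (by omega), coeff_X,
    zero_add, add_zero]
  by_cases h : i = 1
  · rw [if_pos h.symm, if_pos h, mul_one]
  · rw [if_neg (fun h' => h h'.symm), if_neg h, mul_zero]

private theorem ha_one {v : Valuation K Γ} (a b : K) (ha : v a = 1) (hb : v b < 1) :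
    v (a + b) = 1 := by
  rw [← ha] at hb
  rw [Valuation.map_add_eq_of_lt_left v hb, ha]

/-- the Newton step -/
private theorem ha_newton {v : Valuation K Γ} (P : K[X]) (t : K) (hne : P.eval t ≠ 0)
    (h1 : v ((taylor t P).coeff 1) = 1)
    (h2 : ∀ i, 2 ≤ i → v ((taylor t P).coeff i) * v (P.eval t) ^ i < v (P.eval t)) :
    ∃ s, v s = v (P.eval t) ∧ v (P.eval (t + s)) < v (P.eval t) := by
  have hq1 : (taylor t P).coeff 1 ≠ 0 := by
    intro h
    rw [h, map_zero] at h1
    exact zero_ne_one h1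
  have hs : v (-P.eval t / (taylor t P).coeff 1) = v (P.eval t) := by
    rw [map_div₀, Valuation.map_neg, h1, div_one]
  refine ⟨-P.eval t / (taylor t P).coeff 1, hs, ?_⟩
  have h3 : P.eval (t + -P.eval t / (taylor t P).coeff 1) =
      (ha_tail (taylor t P)).eval (-P.eval t / (taylor t P).coeff 1) := by
    rw [ha_tail_eval, taylor_eval, taylor_coeff_zero]
    rw [mul_div_cancel₀ _ hq1, add_comm]
    ring
  rw [h3]
  have hv : v (P.eval t) ≠ 0 := (Valuation.ne_zero_iff v).2 hne
  refine ha_small _ _ _ hv fun i => ?_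
  rw [ha_tail_coeff, hs]
  split_ifs with h
  · exact h2 i h
  · rw [map_zero, zero_mul]
    exact zero_lt_iff.2 hv

/-- Module ha. Hensel's lemma from extremality, first form. PROOF. `t ↦ P.eval t` is a polynomial
function on `Fin 1 → K`; by `Ext.min` let `t` minimise `v (P.eval t)` over integral `t`. If
`P.eval t ≠ 0`: `(taylor t P).coeff 1` has value `1` and the higher coefficients of `taylor t P`
have value `< 1` (`taylor_coeff`, `hasseDeriv`: sums of `(i.choose j) * P.coeff i * t ^ (i - j)`),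
`v (P.eval t) ≤ 1`. For `s = - P.eval t / (taylor t P).coeff 1`:
`P.eval (t + s) = (taylor t P).eval s` has value `< v s = v (P.eval t)`: contradiction. -/
theorem hensA {v : Valuation K Γ} (hv : Ext v) (P : K[X]) (h0 : v (P.coeff 0) ≤ 1)
    (h1 : v (P.coeff 1) = 1) (h2 : ∀ i, 2 ≤ i → v (P.coeff i) < 1) :
    ∃ t, v t ≤ 1 ∧ P.eval t = 0 := by
  obtain ⟨a, ha, hmin⟩ := Ext.min hv (ha_pf P)
  refine ⟨a 0, ha 0, ?_⟩
  by_contra hne
  have ht : v (a 0) ≤ 1 := ha 0
  have hP : ∀ i, v (P.coeff i) ≤ 1 := by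
    intro i
    rcases i with _ | _ | i
    · exact h0
    · exact h1.le
    · exact (h2 _ (by omega)).le
  have hev : v (P.eval (a 0)) ≤ 1 := by
    refine (eval_le_gn v (a 0) ht P).trans (gn_le.2 fun j => ?_)
    rw [one_pow, mul_one]
    exact hP j
  have hg : gn v 1 (taylor (a 0) (ha_tail P)) < 1 := by
    rw [gn_taylor v (a 0) ht, gn_lt zero_lt_one]
    intro j
    rw [one_pow, mul_one, ha_tail_coeff]
    split_ifs with h
    · exact h2 j h
    · rw [map_zero]
      exact zero_lt_one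
  have hc : ∀ j, v ((taylor (a 0) (ha_tail P)).coeff j) < 1 := by
    intro j
    have := le_gn v 1 (taylor (a 0) (ha_tail P)) j
    rw [one_pow, mul_one] at this
    exact this.trans_lt hg
  have hq1 : v ((taylor (a 0) P).coeff 1) = 1 := by
    rw [ha_tl P (a 0) 1 le_rfl, if_pos rfl]
    exact ha_one _ _ h1 (hc 1)
  have hv0 : 0 < v (P.eval (a 0)) := zero_lt_iff.2 ((Valuation.ne_zero_iff v).2 hne)
  obtain ⟨s, hs, hlt⟩ := ha_newton P (a 0) hne hq1 fun i hi => by
    rw [ha_tl P (a 0) i (by omega), if_neg (by omega), zero_add]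
    have h3 : v (P.eval (a 0)) ^ i ≤ v (P.eval (a 0)) := by
      calc v (P.eval (a 0)) ^ i ≤ v (P.eval (a 0)) ^ 1 :=
            pow_le_pow_right_of_le_one' hev (by omega)
        _ = v (P.eval (a 0)) := pow_one _
    calc v ((taylor (a 0) (ha_tail P)).coeff i) * v (P.eval (a 0)) ^ i
        ≤ v ((taylor (a 0) (ha_tail P)).coeff i) * v (P.eval (a 0)) := mul_le_mul_right h3 _
      _ < 1 * v (P.eval (a 0)) := (mul_lt_mul_iff_left₀ hv0).2 (hc i)
      _ = v (P.eval (a 0)) := one_mul _
  have h4 := hmin (fun _ => a 0 + s) fun _ =>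
    (Valuation.map_add v _ _).trans (max_le ht (hs.le.trans hev))
  exact absurd (h4.trans_lt hlt) (lt_irrefl _)
/- END ha -/

/- MODULE hb -/
/-- Module hb. Hensel's lemma from extremality, second form. PROOF. Put `c = P.coeff 0` (if `c = 0`
take `t = 0`) and minimise `v (P.eval t)` over `v t ≤ v c` (`Ext.min_ball`). For these `t`:
`v (P.eval t) ≤ v c`, `v ((taylor t P).coeff 1) = 1`, all coefficients of `taylor t P` are
integral. The Newton step `s` has `v s ≤ v c < 1` and `v (P.eval (t + s)) ≤ v s ^ 2 < v s`. -/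
theorem hensB {v : Valuation K Γ} (hv : Ext v) (P : K[X]) (h : ∀ i, v (P.coeff i) ≤ 1)
    (h0 : v (P.coeff 0) < 1) (h1 : v (P.coeff 1) = 1) :
    ∃ t, v t < 1 ∧ P.eval t = 0 := by
  by_cases hc0 : P.coeff 0 = 0
  · refine ⟨0, by rw [map_zero]; exact zero_lt_one, ?_⟩
    rw [← coeff_zero_eq_eval_zero, hc0]
  have hvc : v (P.coeff 0) ≠ 0 := (Valuation.ne_zero_iff v).2 hc0
  have hvc0 : 0 < v (P.coeff 0) := zero_lt_iff.2 hvc
  obtain ⟨a, ha, hmin⟩ := Ext.min_ball hv (ha_pf P) (fun _ => 0) (P.coeff 0) hc0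
  simp only [sub_zero] at ha hmin
  have ht : v (a 0) ≤ v (P.coeff 0) := ha 0
  have ht1 : v (a 0) ≤ 1 := ht.trans h0.le
  refine ⟨a 0, ht.trans_lt h0, ?_⟩
  by_contra hne
  have hpow : ∀ i, 2 ≤ i → v (P.coeff 0) ^ i ≤ v (P.coeff 0) ^ 2 := fun i hi =>
    pow_le_pow_right_of_le_one' h0.le hi
  have hg2 : gn v (v (P.coeff 0)) (ha_tail P) ≤ v (P.coeff 0) ^ 2 := by
    refine gn_le.2 fun j => ?_
    rw [ha_tail_coeff]
    split_ifs with hj
    · exact (mul_le_of_le_one_left' (h j)).trans (hpow j hj)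
    · rw [map_zero, zero_mul]
      exact zero_le
  have hq1 : v ((taylor (a 0) P).coeff 1) = 1 := by
    rw [ha_tl P (a 0) 1 le_rfl, if_pos rfl]
    refine ha_one _ _ h1 ?_
    have h3 := le_gn v (v (P.coeff 0)) (taylor (a 0) (ha_tail P)) 1
    rw [gn_taylor v (a 0) ht, pow_one] at h3
    have h4 := h3.trans hg2
    rw [pow_two] at h4
    exact (le_of_mul_le_mul_right h4 hvc0).trans_lt h0
  have hev : v (P.eval (a 0)) ≤ v (P.coeff 0) := by
    have h3 : P.eval (a 0) = P.coeff 0 + (P.coeff 1 * a 0 + (ha_tail P).eval (a 0)) := by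
      rw [ha_tail_eval]
      ring
    rw [h3]
    refine (Valuation.map_add v _ _).trans (max_le le_rfl ?_)
    refine (Valuation.map_add v _ _).trans (max_le ?_ ?_)
    · rw [map_mul, h1, one_mul]
      exact ht
    · refine (eval_le_gn v (a 0) ht (ha_tail P)).trans (hg2.trans ?_)
      rw [pow_two]
      exact mul_le_of_le_one_right' h0.le
  have hv0 : 0 < v (P.eval (a 0)) := zero_lt_iff.2 ((Valuation.ne_zero_iff v).2 hne)
  have hev1 : v (P.eval (a 0)) < 1 := hev.trans_lt h0
  have hint : ∀ i, v ((taylor (a 0) P).coeff i) ≤ 1 := by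
    intro i
    have h3 := le_gn v 1 (taylor (a 0) P) i
    rw [gn_taylor v (a 0) ht1, one_pow, mul_one] at h3
    refine h3.trans (gn_le.2 fun j => ?_)
    rw [one_pow, mul_one]
    exact h j
  obtain ⟨s, hs, hlt⟩ := ha_newton P (a 0) hne hq1 fun i hi => by
    calc v ((taylor (a 0) P).coeff i) * v (P.eval (a 0)) ^ i
        ≤ v (P.eval (a 0)) ^ i := mul_le_of_le_one_left' (hint i)
      _ ≤ v (P.eval (a 0)) ^ 2 := pow_le_pow_right_of_le_one' hev1.le hi
      _ < v (P.eval (a 0)) := by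
        rw [pow_two]
        calc v (P.eval (a 0)) * v (P.eval (a 0)) < 1 * v (P.eval (a 0)) :=
              (mul_lt_mul_iff_left₀ hv0).2 hev1
          _ = v (P.eval (a 0)) := one_mul _
  have h4 := hmin (fun _ => a 0 + s) fun _ =>
    (Valuation.map_add v _ _).trans (max_le ht (hs.le.trans hev))
  exact absurd (h4.trans_lt hlt) (lt_irrefl _)
/- END hb -/

end Pool.Agent.Xtc
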