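import Pool.Agent.Xtc.Gn
import Pool.Agent.Xtc.Pg
import Pool.Agent.Xtr.Fn

set_option autoImplicit false

namespace Pool.Agent.Xtc

open Polynomial Pool.Agent.Xtr

variable {K : Type*} [Field K] {Γ : Type*} [LinearOrderedCommGroupWithZero Γ]
  {L : Type*} [Field L] [Algebra K L]

/- MODULE ka -/
/-- Module ka. PROOF. `himm (x - a)` gives `b` with `w (x - a - b) < w (x - a)`; take `a + b`. -/
theorem closer {w : Valuation L Γ} (himm : Imm K w) (x : L)
    (hx : ∀ a : K, x ≠ algebraMap K L a) (a : K) :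
    ∃ a' : K, w (x - algebraMap K L a') < w (x - algebraMap K L a) := by
  obtain ⟨b, hb⟩ := himm (x - algebraMap K L a) (sub_ne_zero.2 (hx a))
  refine ⟨a + b, ?_⟩
  rw [map_add, ← sub_sub]
  exact hb

/-- Module ka. PROOF. `closer` gives `a'`; let `v r = w (x - a')` (`Imm.val`), `r ≠ 0`;
`Ext.min_ball` for `n = 1`, the function `u ↦ g.eval (u 0)` (a polynomial function:
`Polynomial.eval_eq_sum_range`, `PF.sum` ..), centre `a'`, radius `r`. For its minimum `m`:
`w (x - m) ≤ w (x - a')`, and `w (x - b) ≤ w (x - m)` gives `v (b - a') ≤ v r`. -/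
theorem ball_min {v : Valuation K Γ} {w : Valuation L Γ} (hv : Ext v)
    (hvw : ∀ a : K, w (algebraMap K L a) = v a) (himm : Imm K w) (x : L)
    (hx : ∀ a : K, x ≠ algebraMap K L a) (g : K[X]) (a : K) :
    ∃ m : K, w (x - algebraMap K L m) < w (x - algebraMap K L a) ∧
      ∀ b : K, w (x - algebraMap K L b) ≤ w (x - algebraMap K L m) →
        v (g.eval m) ≤ v (g.eval b) := by
  obtain ⟨a', ha'⟩ := closer himm x hx a
  obtain ⟨r, hr⟩ := Imm.val hvw himm (x - algebraMap K L a')
  have hr0 : r ≠ 0 := by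
    rintro rfl
    rw [map_zero] at hr
    exact hx a' (sub_eq_zero.1 ((Valuation.zero_iff w).1 hr.symm))
  have hpf : PF (fun u : Fin 1 → K => g.eval (u 0)) := by
    have h0 : (fun u : Fin 1 → K => g.eval (u 0)) =
        fun u => ∑ i ∈ Finset.range (g.natDegree + 1), (g.coeff i * (u 0) ^ i) := by
      funext u
      exact Polynomial.eval_eq_sum_range _
    rw [h0]
    have hpow : ∀ i : ℕ, PF (fun u : Fin 1 → K => (u 0) ^ i) := by
      intro i
      induction i with
      | zero => simpa using PF.const (n := 1) (1 : K)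
      | succ i ih => simp only [pow_succ]; exact PF.mul ih (PF.coord 0)
    exact PF.sum _ _ fun i _ => PF.mul (PF.const _) (hpow i)
  obtain ⟨m, hm1, hm2⟩ := Ext.min_ball hv hpf (fun _ => a') r hr0
  have hm3 : w (x - algebraMap K L (m 0)) ≤ w (x - algebraMap K L a') := by
    have h1 : x - algebraMap K L (m 0) = (x - algebraMap K L a') - algebraMap K L (m 0 - a') := by
      rw [map_sub]; ring
    rw [h1]
    refine w.map_sub_le le_rfl ?_
    rw [hvw, ← hr]
    exact hm1 0
  refine ⟨m 0, lt_of_le_of_lt hm3 ha', fun b hb => ?_⟩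
  refine hm2 (fun _ => b) (fun _ => ?_)
  have h2 : algebraMap K L (b - a') = (x - algebraMap K L a') - (x - algebraMap K L b) := by
    rw [map_sub]; ring
  rw [hr, ← hvw, h2]
  exact w.map_sub_le le_rfl (hb.trans hm3)

/-- Module ka. PROOF. Recursion with `ball_min`, starting with `ball_min` for `a`. -/
theorem kchain {v : Valuation K Γ} {w : Valuation L Γ} (hv : Ext v)
    (hvw : ∀ a : K, w (algebraMap K L a) = v a) (himm : Imm K w) (x : L)
    (hx : ∀ a : K, x ≠ algebraMap K L a) (g : K[X]) (a : K) :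
    ∃ m : ℕ → K, w (x - algebraMap K L (m 0)) < w (x - algebraMap K L a) ∧
      (∀ k, w (x - algebraMap K L (m (k + 1))) < w (x - algebraMap K L (m k))) ∧
      ∀ k, ∀ b : K, w (x - algebraMap K L b) ≤ w (x - algebraMap K L (m k)) →
        v (g.eval (m k)) ≤ v (g.eval b) := by
  choose f hf1 hf2 using fun a => ball_min hv hvw himm x hx g a
  refine ⟨fun k => Nat.rec (f a) (fun _ m => f m) k, hf1 a, fun k => hf1 _, fun k => ?_⟩
  cases k with
  | zero => exact hf2 a
  | succ k => exact hf2 _
/- END ka -/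

/- MODULE kb -/
private theorem kb_ne (x : L) (g : K[X]) (hg : g ≠ 0) :
    taylor x (g.map (algebraMap K L)) ≠ 0 := by
  intro h
  have h1 : g.map (algebraMap K L) = 0 := by
    apply taylor_injective x
    rw [h, map_zero]
  exact hg ((Polynomial.map_eq_zero _).1 h1)

private theorem kb_eval (x : L) (g : K[X]) (b : K) :
    algebraMap K L (g.eval b) =
      (taylor x (g.map (algebraMap K L))).eval (algebraMap K L b - x) := by
  rw [taylor_eval, sub_add_cancel, eval_map_algebraMap, aeval_algebraMap_apply]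
  rfl

private theorem kb_coeff (x : L) (g : K[X]) :
    (taylor x (g.map (algebraMap K L))).coeff 0 = aeval x g := by
  rw [taylor_coeff_zero, eval_map_algebraMap]

/-- Module kb. The constant term of the expansion at `x` dominates. PROOF.
`G = taylor x (g.map (algebraMap K L))`, `c j = w (G.coeff j)`, `n = G.natDegree`; `G ≠ 0`. Take
`m` from `kchain` and `ρ k = w (x - m k) > 0` and apply `pig`: `k` and `j` with `c j ≠ 0` dominating
at `ρ k`, `ρ (k + 1)`, `ρ (k + 2)`, so strictly dominating at `ρ (k + 1)` by `dom_strict` (also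
`c j' = 0` for `j' > n`). Since `algebraMap (g.eval (m i)) = G.eval (m i - x)`
(`Polynomial.taylor_eval`, `eval_map_algebraMap`), `eval_dom` gives
`v (g.eval (m (k + 1))) = c j * ρ (k + 1) ^ j`, and `v (g.eval (m (k + 2))) ≤ c j * ρ (k + 2) ^ j`
(`eval_le_gn`). If `j ≥ 1` the latter is smaller, against the minimality of `m (k + 1)`. So `j = 0`;
take `a0 = m (k + 1)`. -/
theorem dom0 {v : Valuation K Γ} {w : Valuation L Γ} (hv : Ext v)
    (hvw : ∀ a : K, w (algebraMap K L a) = v a) (himm : Imm K w) (x : L)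
    (hx : ∀ a : K, x ≠ algebraMap K L a) (g : K[X]) (hg : g ≠ 0) (a : K) :
    ∃ a0 : K, w (x - algebraMap K L a0) ≤ w (x - algebraMap K L a) ∧ aeval x g ≠ 0 ∧
      ∀ j, 1 ≤ j → w ((taylor x (g.map (algebraMap K L))).coeff j)
        * w (x - algebraMap K L a0) ^ j < w (aeval x g) := by
  classical
  obtain ⟨m, hm0, hm1, hm2⟩ := kchain hv hvw himm x hx g a
  have hG0 : taylor x (g.map (algebraMap K L)) ≠ 0 := kb_ne x g hg
  have hev := kb_eval (K := K) x g
  have hc0 := kb_coeff (K := K) x g
  set G : L[X] := taylor x (g.map (algebraMap K L)) with hG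
  have hlc : ∃ i, i ≤ G.natDegree ∧ w (G.coeff i) ≠ 0 :=
    ⟨G.natDegree, le_rfl, (Valuation.ne_zero_iff w).2 (leadingCoeff_ne_zero.2 hG0)⟩
  have hpos : ∀ k, 0 < w (x - algebraMap K L (m k)) := fun k =>
    zero_lt_iff.2 ((Valuation.ne_zero_iff w).2 (sub_ne_zero.2 (hx _)))
  obtain ⟨k, hk, j, hj, hcj, hdom⟩ := pig G.natDegree (fun i => w (G.coeff i))
    (fun k => w (x - algebraMap K L (m k))) hlc (fun k _ => hpos k) (fun k _ => hm1 k)
  have hdom' : ∀ i, k ≤ i → i ≤ k + 2 → ∀ j', w (G.coeff j') * w (x - algebraMap K L (m i)) ^ j' ≤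
      w (G.coeff j) * w (x - algebraMap K L (m i)) ^ j := by
    intro i h1 h2 j'
    rcases le_or_gt j' G.natDegree with h | h
    · exact hdom i h1 h2 j' h
    · rw [coeff_eq_zero_of_natDegree_lt h, map_zero, zero_mul]
      exact zero_le
  have hstr : ∀ j', j' ≠ j → w (G.coeff j') * w (x - algebraMap K L (m (k + 1))) ^ j' <
      w (G.coeff j) * w (x - algebraMap K L (m (k + 1))) ^ j := fun j' hj' =>
    dom_strict (fun i => w (G.coeff i)) (w (x - algebraMap K L (m k)))
      (w (x - algebraMap K L (m (k + 1)))) (w (x - algebraMap K L (m (k + 2)))) (hpos _) (hm1 _)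
      (hm1 _) j j' hcj hj' (hdom' k le_rfl (by omega) j') (hdom' (k + 2) (by omega) le_rfl j')
  have hj0 : j = 0 := by
    by_contra hne
    have h1 : v (g.eval (m (k + 1))) = w (G.coeff j) * w (x - algebraMap K L (m (k + 1))) ^ j := by
      have hγ : 0 < w (G.coeff j) * w (x - algebraMap K L (m (k + 1))) ^ j :=
        mul_pos (zero_lt_iff.2 hcj) (pow_pos (hpos _) _)
      have h2 := eval_dom w (algebraMap K L (m (k + 1)) - x) G j
        (w (G.coeff j) * w (x - algebraMap K L (m (k + 1))) ^ j)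
        (fun i hi => by rw [Valuation.map_sub_swap]; exact hstr i hi) hγ
      have h3 : w (G.coeff j * (algebraMap K L (m (k + 1)) - x) ^ j) =
          w (G.coeff j) * w (x - algebraMap K L (m (k + 1))) ^ j := by
        rw [map_mul, map_pow, Valuation.map_sub_swap]
      rw [← hvw, hev, ← h3]
      have h4 : G.eval (algebraMap K L (m (k + 1)) - x) =
          (G.eval (algebraMap K L (m (k + 1)) - x) -
            G.coeff j * (algebraMap K L (m (k + 1)) - x) ^ j) +
            G.coeff j * (algebraMap K L (m (k + 1)) - x) ^ j := by ring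
      rw [h4]
      refine Valuation.map_add_eq_of_lt_right w ?_
      rw [h3]
      exact h2
    have h5 : v (g.eval (m (k + 2))) ≤ w (G.coeff j) * w (x - algebraMap K L (m (k + 2))) ^ j := by
      rw [← hvw, hev]
      refine (eval_le_gn w _ (le_of_eq (Valuation.map_sub_swap w _ _)) G).trans ?_
      exact gn_le.2 fun j' => hdom' (k + 2) (by omega) le_rfl j'
    have h6 : w (G.coeff j) * w (x - algebraMap K L (m (k + 2))) ^ j <
        w (G.coeff j) * w (x - algebraMap K L (m (k + 1))) ^ j :=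
      mul_lt_mul_of_pos_left (pow_lt_pow_left₀ (hm1 (k + 1)) zero_le hne) (zero_lt_iff.2 hcj)
    have h7 := hm2 (k + 1) (m (k + 2)) (hm1 (k + 1)).le
    rw [h1] at h7
    exact absurd (h7.trans h5) (not_le.2 h6)
  subst hj0
  have hlt : ∀ i, w (x - algebraMap K L (m i)) < w (x - algebraMap K L a) := by
    intro i
    induction i with
    | zero => exact hm0
    | succ i ih => exact (hm1 i).trans ih
  refine ⟨m (k + 1), (hlt _).le, ?_, fun j hj => ?_⟩
  · rw [← hc0]
    exact (Valuation.ne_zero_iff w).1 hcj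
  · have h8 := hstr j (by omega)
    rw [pow_zero, mul_one, hc0] at h8
    exact h8
/- END kb -/

/- MODULE kc -/
private theorem kc_map {v : Valuation K Γ} {w : Valuation L Γ}
    (hvw : ∀ a : K, w (algebraMap K L a) = v a) (ρ : Γ) (p : K[X]) :
    gn v ρ p = gn w ρ (p.map (algebraMap K L)) := by
  refine le_antisymm (gn_le.2 fun j => ?_) (gn_le.2 fun j => ?_)
  · have h := le_gn w ρ (p.map (algebraMap K L)) j
    rw [coeff_map, hvw] at h
    exact h
  · rw [coeff_map, hvw]
    exact le_gn v ρ p j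

private theorem kc_taylor (x : L) (b : K) (g : K[X]) :
    (taylor b g).map (algebraMap K L) =
      taylor (algebraMap K L b - x) (taylor x (g.map (algebraMap K L))) := by
  rw [taylor_taylor, sub_add_cancel, map_taylor]

/-- Module kc. PROOF. `Reg v w x a0 g` from `dom0`. For `g = 0` everything is `0`. For
`w (x - a) ≤ w (x - a0)`: `algebraMap (g.eval a) = G.eval (a - x)` and `eval_dom` with `j = 0`;
`gn v ρ (taylor a g) = gn w ρ ((taylor a g).map (algebraMap K L))` (`hvw`), which is
`gn w ρ (taylor (a - x) G)` (`taylor_taylor`), which is `gn w ρ G` by `gn_taylor`, which is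
`w (aeval x g)`. -/
theorem reg_one {v : Valuation K Γ} {w : Valuation L Γ} (hv : Ext v)
    (hvw : ∀ a : K, w (algebraMap K L a) = v a) (himm : Imm K w) (x : L)
    (hx : ∀ a : K, x ≠ algebraMap K L a) (g : K[X]) (a : K) :
    ∃ a0 : K, w (x - algebraMap K L a0) ≤ w (x - algebraMap K L a) ∧ Reg v w x a0 g := by
  rcases eq_or_ne g 0 with rfl | hg
  · refine ⟨a, le_rfl, fun h => absurd rfl h, fun b _ => ⟨?_, fun h => absurd rfl h, fun ρ _ _ => ?_⟩⟩
    · rw [eval_zero, map_zero, map_zero, map_zero]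
    · rw [map_zero, gn_zero, map_zero, map_zero]
  obtain ⟨a0, ha0, hne, hdom⟩ := dom0 hv hvw himm x hx g hg a
  have hpos : 0 < w (aeval x g) := zero_lt_iff.2 ((Valuation.ne_zero_iff w).2 hne)
  have hcl : ∀ b : K, w (x - algebraMap K L b) ≤ w (x - algebraMap K L a0) →
      w (aeval x g - algebraMap K L (g.eval b)) < w (aeval x g) := by
    intro b hb
    have h1 := eval_dom w (algebraMap K L b - x) (taylor x (g.map (algebraMap K L))) 0
      (w (aeval x g)) (fun i hi => by
        refine lt_of_le_of_lt ?_ (hdom i (Nat.one_le_iff_ne_zero.2 hi))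
        rw [Valuation.map_sub_swap]
        exact mul_le_mul_right (pow_le_pow_left₀ zero_le hb i) _) hpos
    rw [pow_zero, mul_one, kb_coeff, ← kb_eval, Valuation.map_sub_swap] at h1
    exact h1
  refine ⟨a0, ha0, fun _ => hne, fun b hb => ⟨?_, fun _ => hcl b hb, fun ρ h1 h2 => ?_⟩⟩
  · rw [← hvw]
    have h3 : algebraMap K L (g.eval b) =
        aeval x g - (aeval x g - algebraMap K L (g.eval b)) := by ring
    rw [h3]
    exact Valuation.map_sub_eq_of_lt_left w (hcl b hb)
  · have hρ : ρ ≠ 0 := by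
      intro h
      rw [h] at h1
      exact hx b (sub_eq_zero.1 ((Valuation.zero_iff w).1 (le_antisymm h1 zero_le)))
    rw [kc_map hvw, kc_taylor x, gn_taylor w _ (le_trans (le_of_eq (Valuation.map_sub_swap w _ _)) h1)]
    refine le_antisymm (gn_le.2 fun j => ?_) ?_
    · rcases Nat.eq_zero_or_pos j with rfl | hj
      · rw [pow_zero, mul_one, kb_coeff]
      · exact (mul_le_mul_right (pow_le_pow_left₀ zero_le h2 j) _).trans (hdom j hj).le
    · have h4 := le_gn w ρ (taylor x (g.map (algebraMap K L))) 0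
      rw [pow_zero, mul_one, kb_coeff] at h4
      exact h4
/- END kc -/

/- MODULE kd -/
/-- Module kd. -/
theorem Reg.mono {v : Valuation K Γ} {w : Valuation L Γ} {x : L} {a0 a1 : K} {g : K[X]}
    (h : Reg v w x a0 g) (h1 : w (x - algebraMap K L a1) ≤ w (x - algebraMap K L a0)) :
    Reg v w x a1 g := by
  refine ⟨h.1, fun a ha => ?_⟩
  obtain ⟨h2, h3, h4⟩ := h.2 a (ha.trans h1)
  exact ⟨h2, h3, fun ρ h5 h6 => h4 ρ h5 (h6.trans h1)⟩

/-- Module kd. Finitely many polynomials. PROOF. Induction on `n` with `reg_one`, `Reg.mono`. -/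
theorem reg {v : Valuation K Γ} {w : Valuation L Γ} (hv : Ext v)
    (hvw : ∀ a : K, w (algebraMap K L a) = v a) (himm : Imm K w) (x : L)
    (hx : ∀ a : K, x ≠ algebraMap K L a) (n : ℕ) (g : ℕ → K[X]) (a : K) :
    ∃ a0 : K, w (x - algebraMap K L a0) ≤ w (x - algebraMap K L a) ∧
      ∀ i, i < n → Reg v w x a0 (g i) := by
  induction n with
  | zero => exact ⟨a, le_rfl, fun i hi => absurd hi (Nat.not_lt_zero i)⟩
  | succ n ih =>
    obtain ⟨a0, h0, h1⟩ := ih
    obtain ⟨a1, h2, h3⟩ := reg_one hv hvw himm x hx (g n) a0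
    refine ⟨a1, h2.trans h0, fun i hi => ?_⟩
    rcases Nat.lt_succ_iff_lt_or_eq.1 hi with h | rfl
    · exact (h1 i h).mono h2
    · exact h3

/-- Module kd. An element of `L` which is algebraic over `K` is in `K`. PROOF. Otherwise
`reg_one` for `x` gives `aeval x g ≠ 0`. -/
theorem alg_mem {v : Valuation K Γ} {w : Valuation L Γ} (hv : Ext v)
    (hvw : ∀ a : K, w (algebraMap K L a) = v a) (himm : Imm K w) (x : L) (g : K[X]) (hg : g ≠ 0)
    (hgx : aeval x g = 0) : ∃ a : K, x = algebraMap K L a := by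
  by_contra hne
  push Not at hne
  obtain ⟨a0, _, h⟩ := reg_one hv hvw himm x hne g 0
  exact h.1 hg hgx
/- END kd -/

end Pool.Agent.Xtc
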