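import Pool.Agent.Xtc.Kk
import Pool.Agent.Xtc.Hg

set_option autoImplicit false

namespace Pool.Agent.Xtc

open Polynomial Pool.Agent.Xtr

section

variable {K : Type*} [Field K] {L : Type*} [Field L] [Algebra K L]

/- MODULE la -/
private theorem la_eval₂ {R S : Type*} [CommSemiring R] [CommSemiring S] (φ : R →+* S)
    (f : R[X]) (r : R) : φ (f.eval r) = (f.map φ).eval (φ r) := by
  rw [eval_map, eval₂_at_apply]

/-- Module la. The Taylor coefficients of `f(x, Y)`. PROOF. `taylor` commutes with ring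
homomorphisms (`Polynomial.map_taylor` or `taylor_coeff`, `hasseDeriv` and `eval₂`). -/
theorem tc_aeval (f : K[X][X]) (h : K[X]) (x : L) (i : ℕ) :
    aeval x (tc f h i) = (taylor (aeval x h) (fx f x)).coeff i := by
  unfold tc fx
  have := map_taylor f h ((aeval x : K[X] →ₐ[K] L) : K[X] →+* L)
  rw [RingHom.coe_coe] at this
  rw [← this, coeff_map, RingHom.coe_coe]

private theorem la_deg (f : K[X][X]) (x : L) : (fx f x).natDegree < f.natDegree + 1 := by
  unfold fx
  exact Nat.lt_succ_of_le natDegree_map_le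

/-- Module la. -/
theorem fx_eval (f : K[X][X]) (h : K[X]) (x y : L) :
    (fx f x).eval (aeval x h + y) =
      ∑ i ∈ Finset.range (f.natDegree + 1), aeval x (tc f h i) * y ^ i := by
  rw [add_comm, ← taylor_eval, eval_eq_sum_range' (n := f.natDegree + 1)]
  · exact Finset.sum_congr rfl fun i _ => by rw [tc_aeval]
  · rw [natDegree_taylor]
    exact la_deg f x

/-- Module la. -/
theorem ev_eq (f : K[X][X]) (h : K[X]) (a b : K) :
    ev f a (h.eval a + b) =
      ∑ i ∈ Finset.range (f.natDegree + 1), (tc f h i).eval a * b ^ i := by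
  have e1 : ∀ c : K, ev f a c = (f.map (evalRingHom a)).eval c := by
    intro c
    have := la_eval₂ (evalRingHom a) f (C c)
    rw [coe_evalRingHom, eval_C] at this
    exact this
  rw [e1, add_comm, ← taylor_eval, eval_eq_sum_range' (n := f.natDegree + 1)]
  · apply Finset.sum_congr rfl
    intro i _
    have := map_taylor f h (evalRingHom a)
    rw [coe_evalRingHom] at this
    rw [← this, coeff_map, coe_evalRingHom]
    rfl
  · rw [natDegree_taylor]
    exact Nat.lt_succ_of_le natDegree_map_le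

/-- Module la. -/
theorem fx_aeval (f : K[X][X]) (h : K[X]) (x : L) :
    (fx f x).eval (aeval x h) = aeval x (f.eval h) := by
  have := la_eval₂ ((aeval x : K[X] →ₐ[K] L) : K[X] →+* L) f h
  rw [RingHom.coe_coe] at this
  exact this.symm

/-- Module la. -/
theorem ev_eval (f : K[X][X]) (h : K[X]) (a : K) : ev f a (h.eval a) = (f.eval h).eval a := by
  have := ev_eq f h a 0
  rw [add_zero] at this
  rw [this, Finset.sum_eq_single 0]
  · have h0 : tc f h 0 = f.eval h := taylor_coeff_zero h f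
    rw [pow_zero, mul_one, h0]
  · intro i _ hi
    rw [zero_pow hi, mul_zero]
  · intro h0
    exact absurd (Finset.mem_range.2 (Nat.succ_pos _)) h0

/-- Module la. -/
theorem tc_zero (f : K[X][X]) (h : K[X]) : tc f h 0 = f.eval h := by
  unfold tc
  exact taylor_coeff_zero h f

/-- Module la. -/
theorem tc_top (f : K[X][X]) (hf : f.Monic) (h : K[X]) : tc f h f.natDegree = 1 := by
  unfold tc
  rw [coeff_taylor_natDegree]
  exact hf

/-- Module la. -/
theorem tc_gt (f : K[X][X]) (h : K[X]) (i : ℕ) (hi : f.natDegree < i) : tc f h i = 0 := by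
  unfold tc
  apply coeff_eq_zero_of_natDegree_lt
  rw [natDegree_taylor]
  exact hi
/- END la -/

end

section

variable {K : Type*} [Field K] {Γ : Type*} [LinearOrderedCommGroupWithZero Γ]
  {L : Type*} [Field L] [Algebra K L]

/- MODULE lb -/
/-- Module lb. Zeros of `f` from Hensel's lemma. PROOF. `reg` for the polynomials `tc f h i`,
`i ≤ f.natDegree`, and the centre `c` gives `a`; put `q i = (tc f h i).eval a`, so
`v (q i) = w (aeval x (tc f h i))`; `q 1 ≠ 0` by `hlr 2`. By `fx_eval` and `hy`: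
`v (q 0) ≤ v (q 1) * v r` (every term with `i ≥ 1` is `≤ w (aeval x (tc f h 1)) * v r`). Apply
`hensA` to `P = ∑ i, C (q i * r ^ i / (q 1 * r)) * X ^ i`; `b = r * t`; `ev_eq`. -/
theorem lr {v : Valuation K Γ} {w : Valuation L Γ} (hv : Ext v)
    (hvw : ∀ a : K, w (algebraMap K L a) = v a) (himm : Imm K w) (x : L)
    (hx : ∀ a : K, x ≠ algebraMap K L a) (f : K[X][X]) (h : K[X]) (y : L)
    (hy : (fx f x).eval (aeval x h + y) = 0) (r : K) (hr : r ≠ 0) (hyr : w y ≤ v r)
    (hlr : ∀ i, 2 ≤ i → w (aeval x (tc f h i)) * v r ^ (i - 1) < w (aeval x (tc f h 1)))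
    (c : K) :
    ∃ a b : K, w (x - algebraMap K L a) ≤ w (x - algebraMap K L c) ∧ v b ≤ v r ∧
      ev f a (h.eval a + b) = 0 := by
  obtain ⟨a, hac, hreg⟩ := reg hv hvw himm x hx (f.natDegree + 1) (tc f h) c
  have hr0 : v r ≠ 0 := (Valuation.ne_zero_iff v).2 hr
  -- the values of the coefficients at `a`
  have hq : ∀ i, v ((tc f h i).eval a) = w (aeval x (tc f h i)) := by
    intro i
    by_cases hi : i < f.natDegree + 1
    · exact ((hreg i hi).2 a le_rfl).1
    · rw [tc_gt f h i (by omega), eval_zero, map_zero, map_zero, map_zero]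
  have h1 : w (aeval x (tc f h 1)) ≠ 0 := by
    intro h0
    have := hlr 2 le_rfl
    rw [h0] at this
    exact absurd this (not_lt.2 zero_le)
  have hq1 : (tc f h 1).eval a ≠ 0 := by
    intro h0
    apply h1
    rw [← hq 1, h0, map_zero]
  have hn : 1 ≤ f.natDegree := by
    by_contra hc
    apply hq1
    rw [tc_gt f h 1 (by omega), eval_zero]
  -- the constant coefficient
  have hc0 : w (aeval x (tc f h 0)) ≤ w (aeval x (tc f h 1)) * v r := by
    have e1 := fx_eval f h x y
    rw [hy, Finset.sum_range_succ'] at e1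
    have e2 : aeval x (tc f h 0) = - ∑ i ∈ Finset.range f.natDegree,
        aeval x (tc f h (i + 1)) * y ^ (i + 1) := by
      rw [pow_zero, mul_one] at e1
      exact (neg_eq_of_add_eq_zero_right e1.symm).symm
    rw [e2, Valuation.map_neg]
    apply Valuation.map_sum_le
    intro i _
    rw [map_mul, map_pow]
    calc w (aeval x (tc f h (i + 1))) * w y ^ (i + 1)
        ≤ w (aeval x (tc f h (i + 1))) * v r ^ (i + 1) :=
          mul_le_mul_right (pow_le_pow_left₀ zero_le hyr _) _
      _ = w (aeval x (tc f h (i + 1))) * v r ^ i * v r := by rw [pow_succ, mul_assoc]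
      _ ≤ w (aeval x (tc f h 1)) * v r := by
          apply mul_le_mul_left
          rcases Nat.eq_zero_or_pos i with hi | hi
          · rw [hi, pow_zero, mul_one]
          · have := hlr (i + 1) (by omega)
            rw [Nat.add_sub_cancel] at this
            exact this.le
  set q : ℕ → K := fun i => (tc f h i).eval a with hqd
  set P : K[X] := ∑ i ∈ Finset.range (f.natDegree + 1), C (q i * r ^ i / (q 1 * r)) * X ^ i with hP
  have hqr : q 1 * r ≠ 0 := mul_ne_zero hq1 hr
  have hcf : ∀ i, P.coeff i = q i * r ^ i / (q 1 * r) := by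
    intro i
    rw [hP, finsetSum_coeff]
    simp only [coeff_C_mul, coeff_X_pow]
    by_cases hi : i < f.natDegree + 1
    · rw [Finset.sum_eq_single i]
      · rw [if_pos rfl, mul_one]
      · intro j _ hj
        rw [if_neg (Ne.symm hj), mul_zero]
      · intro hh
        exact absurd (Finset.mem_range.2 hi) hh
    · have : q i = 0 := by
        rw [hqd]
        simp only
        rw [tc_gt f h i (by omega), eval_zero]
      rw [this, zero_mul, zero_div]
      apply Finset.sum_eq_zero
      intro j hj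
      rw [if_neg, mul_zero]
      intro hij
      rw [hij] at hi
      exact hi (Finset.mem_range.1 hj)
  have hvq1 : v (q 1) ≠ 0 := (Valuation.ne_zero_iff v).2 hq1
  have hpos : 0 < v (q 1) * v r := by
    rw [zero_lt_iff]
    exact mul_ne_zero hvq1 hr0
  obtain ⟨t, ht, hPt⟩ := hensA hv P
    (by
      rw [hcf, pow_zero, mul_one, map_div₀, map_mul]
      apply (div_le_one₀ hpos).2
      rw [hqd]
      simp only
      rw [hq 0, hq 1]
      exact hc0)
    (by
      rw [hcf, pow_one, div_self hqr, map_one])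
    (by
      intro i hi
      rw [hcf, map_div₀, map_mul, map_mul, map_pow]
      apply (div_lt_one₀ hpos).2
      rw [hqd]
      simp only
      rw [hq i, hq 1]
      have e1 : v r ^ i = v r ^ (i - 1) * v r := by
        rw [← pow_succ]
        congr 1
        omega
      rw [e1, ← mul_assoc]
      exact mul_lt_mul_of_pos_right (hlr i hi) (zero_lt_iff.2 hr0))
  refine ⟨a, r * t, hac, ?_, ?_⟩
  · rw [map_mul]
    calc v r * v t ≤ v r * 1 := mul_le_mul_right ht _
      _ = v r := mul_one _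
  · rw [ev_eq]
    have e1 : (q 1 * r) * P.eval t = 0 := by rw [hPt, mul_zero]
    rw [← e1, hP, eval_finsetSum, Finset.mul_sum]
    apply Finset.sum_congr rfl
    intro i _
    rw [eval_mul, eval_C, eval_pow, eval_X, mul_pow]
    change q i * (r ^ i * t ^ i) = _
    have hq1' : q 1 ≠ 0 := hq1
    field_simp
/- END lb -/

/- MODULE lc -/
private theorem lc_gam {w : Valuation L Γ} (l : ℕ) (hl : 2 ≤ l) (p : L[X]) (hd : p.natDegree ≤ l)
    (hci : CI w l p) (ρ : Γ) (hρ : ρ ^ (l - 1) < w (p.coeff 1)) (m : ℕ) (hm : 2 ≤ m) :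
    w (p.coeff m) * ρ ^ (m - 1) < w (p.coeff 1) := by
  have hγ : 0 < w (p.coeff 1) := lt_of_le_of_lt zero_le hρ
  by_cases hml : m ≤ l
  · by_contra hc
    rw [not_lt] at hc
    have e1 := pow_le_pow_left₀ zero_le hc (l - 1)
    have e2 : (w (p.coeff m) * ρ ^ (m - 1)) ^ (l - 1) < w (p.coeff 1) ^ (l - 1) := by
      calc (w (p.coeff m) * ρ ^ (m - 1)) ^ (l - 1)
          = w (p.coeff m) ^ (l - 1) * (ρ ^ (l - 1)) ^ (m - 1) := by
            rw [mul_pow, ← pow_mul, ← pow_mul, Nat.mul_comm (m - 1) (l - 1)]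
        _ ≤ w (p.coeff 1) ^ (l - m) * (ρ ^ (l - 1)) ^ (m - 1) :=
            mul_le_mul_left (hci m (by omega)) _
        _ < w (p.coeff 1) ^ (l - m) * w (p.coeff 1) ^ (m - 1) := by
            apply mul_lt_mul_of_pos_left _ (pow_pos hγ _)
            exact pow_lt_pow_left₀ hρ zero_le (by omega)
        _ = w (p.coeff 1) ^ (l - 1) := by
            rw [← pow_add]
            congr 1
            omega
    exact absurd e2 (not_lt.2 e1)
  · rw [coeff_eq_zero_of_natDegree_lt (by omega), map_zero, zero_mul]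
    exact hγ

private theorem lc_cast {w : Valuation L Γ} (n : ℕ) : w (n : L) ≤ 1 := by
  induction n with
  | zero => rw [Nat.cast_zero, map_zero]; exact zero_le
  | succ n ih =>
    rw [Nat.cast_succ]
    exact (w.map_add _ _).trans (max_le ih (by rw [map_one]))

private theorem lc_tay (z : L) (p : L[X]) (i : ℕ) : (taylor z p).coeff i =
    ∑ m ∈ Finset.range (p.natDegree + 1), (m.choose i : L) * p.coeff m * z ^ (m - i) := by
  rw [taylor_coeff, hasseDeriv_apply, sum_over_range]
  · rw [eval_finsetSum]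
    apply Finset.sum_congr rfl
    intro m _
    rw [eval_monomial]
  · intro n
    simp

private theorem lc_sum {w : Valuation L Γ} (z : L) (p : L[X]) (i : ℕ) (γ : Γ)
    (h : ∀ m, i ≤ m → m ≤ p.natDegree → w (p.coeff m) * w z ^ (m - i) ≤ γ) :
    w ((taylor z p).coeff i) ≤ γ := by
  rw [lc_tay]
  apply Valuation.map_sum_le
  intro m hm
  rw [Finset.mem_range] at hm
  by_cases him : i ≤ m
  · rw [map_mul, map_mul, map_pow]
    calc w (m.choose i : L) * w (p.coeff m) * w z ^ (m - i)
        ≤ 1 * w (p.coeff m) * w z ^ (m - i) :=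
          mul_le_mul_left (mul_le_mul_left (lc_cast _) _) _
      _ ≤ γ := by
          rw [one_mul]
          exact h m him (by omega)
  · rw [Nat.choose_eq_zero_of_lt (by omega), Nat.cast_zero, zero_mul, zero_mul, map_zero]
    exact zero_le

private theorem lc_sum_lt {w : Valuation L Γ} (z : L) (p : L[X]) (i : ℕ) (γ : Γ) (hγ : γ ≠ 0)
    (h : ∀ m, i < m → m ≤ p.natDegree → w (p.coeff m) * w z ^ (m - i) < γ) :
    w ((taylor z p).coeff i - p.coeff i) < γ := by
  have e0 : (taylor z p).coeff i - p.coeff i =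
      ∑ m ∈ (Finset.range (p.natDegree + 1)).filter (fun m => i < m),
        (m.choose i : L) * p.coeff m * z ^ (m - i) := by
    rw [lc_tay]
    by_cases hi : i ∈ Finset.range (p.natDegree + 1)
    · rw [← Finset.add_sum_erase _ _ hi, Nat.choose_self, Nat.cast_one, one_mul, Nat.sub_self,
        pow_zero, mul_one, add_sub_cancel_left, Finset.sum_filter]
      have e1 : ∀ m ∈ Finset.range (p.natDegree + 1), m ≠ i →
          (if i < m then (m.choose i : L) * p.coeff m * z ^ (m - i) else 0) =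
            (m.choose i : L) * p.coeff m * z ^ (m - i) := by
        intro m _ hmi
        split_ifs with hh
        · rfl
        · rw [Nat.choose_eq_zero_of_lt (by omega), Nat.cast_zero, zero_mul, zero_mul]
      rw [← Finset.add_sum_erase _ _ hi, if_neg (lt_irrefl i), zero_add]
      apply Finset.sum_congr rfl
      intro m hm
      rw [e1 m (Finset.mem_of_mem_erase hm) (Finset.ne_of_mem_erase hm)]
    · rw [Finset.mem_range] at hi
      rw [coeff_eq_zero_of_natDegree_lt (show p.natDegree < i by omega), sub_zero,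
        Finset.sum_eq_zero, Finset.sum_eq_zero]
      · intro m hm
        rw [Finset.mem_filter, Finset.mem_range] at hm
        omega
      · intro m hm
        rw [Finset.mem_range] at hm
        rw [Nat.choose_eq_zero_of_lt (by omega), Nat.cast_zero, zero_mul, zero_mul]
  rw [e0]
  apply Valuation.map_sum_lt _ hγ
  intro m hm
  rw [Finset.mem_filter, Finset.mem_range] at hm
  rw [map_mul, map_mul, map_pow]
  calc w (m.choose i : L) * w (p.coeff m) * w z ^ (m - i)
      ≤ 1 * w (p.coeff m) * w z ^ (m - i) :=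
        mul_le_mul_left (mul_le_mul_left (lc_cast _) _) _
    _ < γ := by
        rw [one_mul]
        exact h m hm.2 (by omega)

/-- Module lc. PROOF. For `m ≥ 2`: `(w (p.coeff m) * ρ ^ (m - 1)) ^ (l - 1) ≤
γ ^ (l - m) * (ρ ^ (l - 1)) ^ (m - 1) < γ ^ (l - m) * γ ^ (m - 1) = γ ^ (l - 1)` for `m ≤ l`, where
`γ = w (p.coeff 1)`; so `w (p.coeff m) * ρ ^ (m - 1) < γ` (`pow_lt_pow_left₀`, contrapositive).
`(taylor z p).coeff i = ∑ m, (m.choose i) * p.coeff m * z ^ (m - i)`, `m ≥ i`. -/
theorem ci_shift {w : Valuation L Γ} (l : ℕ) (hl : 2 ≤ l) (p : L[X]) (hd : p.natDegree ≤ l)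
    (hci : CI w l p) (z : L) (ρ : Γ) (hz : w z ≤ ρ) (hρ : ρ ^ (l - 1) < w (p.coeff 1)) :
    w ((taylor z p).coeff 1) = w (p.coeff 1) ∧
      ∀ i, 2 ≤ i → w ((taylor z p).coeff i) * ρ ^ (i - 1) < w (p.coeff 1) := by
  have hγ : 0 < w (p.coeff 1) := lt_of_le_of_lt zero_le hρ
  have hg := lc_gam l hl p hd hci ρ hρ
  constructor
  · have e1 : w ((taylor z p).coeff 1 - p.coeff 1) < w (p.coeff 1) := by
      apply lc_sum_lt z p 1 _ hγ.ne'
      intro m hm _
      calc w (p.coeff m) * w z ^ (m - 1) ≤ w (p.coeff m) * ρ ^ (m - 1) :=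
            mul_le_mul_right (pow_le_pow_left₀ zero_le hz _) _
        _ < w (p.coeff 1) := hg m (by omega)
    have e2 := Valuation.map_add_eq_of_lt_left w e1
    rw [add_sub_cancel] at e2
    exact e2
  · intro i hi
    rcases eq_or_ne ρ 0 with h0 | h0
    · rw [h0, zero_pow (by omega), mul_zero]
      exact hγ
    · have hp : 0 < ρ ^ (i - 1) := pow_pos (zero_lt_iff.2 h0) _
      -- every term is smaller
      rw [lc_tay, ← lt_div_iff₀ hp]
      apply Valuation.map_sum_lt _ (div_ne_zero hγ.ne' hp.ne')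
      intro m hm
      rw [lt_div_iff₀ hp, map_mul, map_mul, map_pow]
      by_cases him : i ≤ m
      · calc w (m.choose i : L) * w (p.coeff m) * w z ^ (m - i) * ρ ^ (i - 1)
            ≤ 1 * w (p.coeff m) * ρ ^ (m - i) * ρ ^ (i - 1) := by
              apply mul_le_mul_left
              exact mul_le_mul' (mul_le_mul_left (lc_cast _) _) (pow_le_pow_left₀ zero_le hz _)
          _ = w (p.coeff m) * ρ ^ (m - 1) := by
              rw [one_mul, mul_assoc, ← pow_add]
              congr 2
              omega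
          _ < w (p.coeff 1) := hg m (by omega)
      · rw [Nat.choose_eq_zero_of_lt (by omega), Nat.cast_zero, map_zero, zero_mul, zero_mul,
          zero_mul]
        exact hγ

/-- Module lc. PROOF. For `1 ≤ i < l`: `(w (p.coeff i) * w z ^ i) ^ (l - 1) ≤
γ ^ (l - i) * (w z ^ (l - 1)) ^ i < (w z ^ (l - 1)) ^ l`; the term `i = l` has value `w z ^ l`. -/
theorem ci_big {w : Valuation L Γ} (l : ℕ) (hl : 2 ≤ l) (p : L[X]) (hd : p.natDegree ≤ l)
    (hm : p.coeff l = 1) (h0 : p.coeff 0 = 0) (hci : CI w l p) (z : L)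
    (hz : w (p.coeff 1) < w z ^ (l - 1)) : w (p.eval z) = w z ^ l := by
  have hz0 : 0 < w z := by
    rw [zero_lt_iff]
    intro hh
    rw [hh, zero_pow (by omega)] at hz
    exact absurd hz (not_lt.2 zero_le)
  have e1 : w (p.eval z - z ^ l) < w (z ^ l) := by
    have e2 : p.eval z - z ^ l = ∑ i ∈ Finset.range l, p.coeff i * z ^ i := by
      rw [eval_eq_sum_range' (n := l + 1) (by omega), Finset.sum_range_succ, hm, one_mul,
        add_sub_cancel_right]
    rw [e2]
    apply Valuation.map_sum_lt _ (by rw [map_pow]; exact (pow_pos hz0 l).ne')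
    intro i hi
    rw [Finset.mem_range] at hi
    rcases Nat.eq_zero_or_pos i with h1 | h1
    · rw [h1, h0, zero_mul, map_zero, map_pow]
      exact pow_pos hz0 l
    · rw [map_mul, map_pow, map_pow]
      by_contra hc
      rw [not_lt] at hc
      have e3 := pow_le_pow_left₀ zero_le hc (l - 1)
      have e4 : (w (p.coeff i) * w z ^ i) ^ (l - 1) < (w z ^ l) ^ (l - 1) := by
        calc (w (p.coeff i) * w z ^ i) ^ (l - 1)
            = w (p.coeff i) ^ (l - 1) * (w z ^ (l - 1)) ^ i := by
              rw [mul_pow, ← pow_mul, ← pow_mul, Nat.mul_comm i (l - 1)]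
          _ ≤ w (p.coeff 1) ^ (l - i) * (w z ^ (l - 1)) ^ i :=
              mul_le_mul_left (hci i h1) _
          _ < (w z ^ (l - 1)) ^ (l - i) * (w z ^ (l - 1)) ^ i := by
              apply mul_lt_mul_of_pos_right _ (pow_pos (pow_pos hz0 _) _)
              exact pow_lt_pow_left₀ hz zero_le (by omega)
          _ = (w z ^ l) ^ (l - 1) := by
              rw [← pow_add, ← pow_mul, ← pow_mul, Nat.sub_add_cancel hi.le, Nat.mul_comm]
      exact absurd e4 (not_lt.2 e3)
  have e2 := Valuation.map_add_eq_of_lt_left w e1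
  rw [add_sub_cancel, map_pow] at e2
  exact e2

/-- Module lc. The coefficients at a centre at distance at most `R`. PROOF.
`w (p.coeff m) ≤ R ^ (l - m)` for `1 ≤ m ≤ l` (take the `(l - 1)`-th power), `p.coeff 0 = 0`. -/
theorem ci_bd {w : Valuation L Γ} (l : ℕ) (hl : 2 ≤ l) (p : L[X]) (hd : p.natDegree ≤ l)
    (h0 : p.coeff 0 = 0) (hci : CI w l p) (z : L) (R : Γ) (hz : w z ≤ R)
    (hR : w (p.coeff 1) ≤ R ^ (l - 1)) (i : ℕ) (hi : i ≤ l) :
    w ((taylor z p).coeff i) ≤ R ^ (l - i) := by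
  apply lc_sum
  intro m him hm
  rcases Nat.eq_zero_or_pos m with h1 | h1
  · rw [h1, h0, map_zero, zero_mul]
    exact zero_le
  · have hml : m ≤ l := hm.trans hd
    have e1 : w (p.coeff m) ≤ R ^ (l - m) := by
      by_contra hc
      rw [not_le] at hc
      have e2 := pow_lt_pow_left₀ hc zero_le (show l - 1 ≠ 0 by omega)
      have e3 : w (p.coeff m) ^ (l - 1) ≤ (R ^ (l - m)) ^ (l - 1) := by
        calc w (p.coeff m) ^ (l - 1) ≤ w (p.coeff 1) ^ (l - m) := hci m h1
          _ ≤ (R ^ (l - 1)) ^ (l - m) := pow_le_pow_left₀ zero_le hR _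
          _ = (R ^ (l - m)) ^ (l - 1) := by
              rw [← pow_mul, ← pow_mul, Nat.mul_comm]
      exact absurd e2 (not_lt.2 e3)
    calc w (p.coeff m) * w z ^ (m - i) ≤ R ^ (l - m) * R ^ (m - i) :=
          mul_le_mul' e1 (pow_le_pow_left₀ zero_le hz _)
      _ = R ^ (l - i) := by
          rw [← pow_add]
          congr 1
          omega
/- END lc -/

/- MODULE ld -/
/-- Module ld. The case of a separated root. PROOF. `lr` with `h = C b0`, `r = r2`, the root
`y - b0` of `f(x, b0 + Y)`. `taylor (algebraMap b0) (fx f x) = taylor (b0 - y) (taylor y (fx f x))`;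
`ci_shift` with `z = b0 - y`, `ρ = v r2` gives the hypothesis of `lr` (`tc_aeval`,
`aeval x (C b0) = algebraMap b0`). -/
theorem sep {v : Valuation K Γ} {w : Valuation L Γ} (hv : Ext v)
    (hvw : ∀ a : K, w (algebraMap K L a) = v a) (himm : Imm K w) (x y : L)
    (hx : ∀ a : K, x ≠ algebraMap K L a) (l : ℕ) (hl : 2 ≤ l) (f : K[X][X])
    (hfd : f.natDegree = l) (hfy : (fx f x).eval y = 0) (hci : CI w l (taylor y (fx f x)))
    (b0 r2 : K) (hr2 : r2 ≠ 0) (hy : w (y - algebraMap K L b0) ≤ v r2)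
    (hg : v r2 ^ (l - 1) < w ((taylor y (fx f x)).coeff 1)) (c : K) :
    ∃ a b : K, w (x - algebraMap K L a) ≤ w (x - algebraMap K L c) ∧ v (b - b0) ≤ v r2 ∧
      ev f a b = 0 := by
  have hcst : aeval x (C b0 : K[X]) = algebraMap K L b0 := aeval_C x b0
  have hd : (taylor y (fx f x)).natDegree ≤ l := by
    rw [natDegree_taylor, ← hfd]
    exact Nat.lt_succ_iff.1 (la_deg f x)
  have htt : taylor (aeval x (C b0 : K[X])) (fx f x) =
      taylor (algebraMap K L b0 - y) (taylor y (fx f x)) := by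
    rw [taylor_taylor, sub_add_cancel, hcst]
  have hz : w (algebraMap K L b0 - y) ≤ v r2 := by
    rw [Valuation.map_sub_swap]
    exact hy
  obtain ⟨e1, e2⟩ := ci_shift l hl _ hd hci (algebraMap K L b0 - y) (v r2) hz hg
  obtain ⟨a, b, ha, hb, hab⟩ := lr hv hvw himm x hx f (C b0) (y - algebraMap K L b0)
    (by rw [hcst, add_sub_cancel]; exact hfy) r2 hr2 hy
    (by
      intro i hi
      rw [tc_aeval, tc_aeval, htt, e1]
      exact e2 i hi) c
  refine ⟨a, b0 + b, ha, ?_, ?_⟩
  · rw [add_sub_cancel_left]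
    exact hb
  · rw [eval_C] at hab
    exact hab
/- END ld -/

/- MODULE le -/
/-- Module le. If `h(x)` is a root of `f(x, Y)` in the disc, then `h` gives zeros of `f`. PROOF.
`aeval x (f.eval h) = 0` (`fx_aeval`), so `f.eval h = 0` (`reg`); choose `a` with `reg` for
`h - C b0`: `v (h.eval a - b0) = w (aeval x h - b0)`; `b = h.eval a`, `ev_eval`. -/
theorem zero_of_root {v : Valuation K Γ} {w : Valuation L Γ} (hv : Ext v)
    (hvw : ∀ a : K, w (algebraMap K L a) = v a) (himm : Imm K w) (x : L)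
    (hx : ∀ a : K, x ≠ algebraMap K L a) (f : K[X][X]) (h : K[X])
    (hh : (fx f x).eval (aeval x h) = 0) (b0 r2 : K)
    (hy : w (aeval x h - algebraMap K L b0) ≤ v r2) (c : K) :
    ∃ a b : K, w (x - algebraMap K L a) ≤ w (x - algebraMap K L c) ∧ v (b - b0) ≤ v r2 ∧
      ev f a b = 0 := by
  rw [fx_aeval] at hh
  have h0 : f.eval h = 0 := by
    by_contra hne
    obtain ⟨a1, _, hreg1⟩ := reg_one hv hvw himm x hx (f.eval h) c
    exact hreg1.1 hne hh
  obtain ⟨a, hac, hreg⟩ := reg_one hv hvw himm x hx (h - C b0) c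
  have e1 := (hreg.2 a le_rfl).1
  rw [eval_sub, eval_C, map_sub (aeval x : K[X] →ₐ[K] L), aeval_C] at e1
  refine ⟨a, h.eval a, hac, ?_, ?_⟩
  · rw [e1]
    exact hy
  · rw [ev_eval, h0, eval_zero]

/-- Module le. PROOF. `p = taylor y (fx f x)`, `y' = y - aeval x h`, `γ = w (p.coeff 1)`.
`aeval x (f.eval h) = p.eval (- y')`. If `γ < w y' ^ (l - 1)`, then by `ci_big` the value of
`aeval x (f.eval h)` is `w y' ^ l`, and `hh` says `w y' ^ (l * (l - 1)) ≤ γ ^ l`: contradiction. So
`w y' ^ (l - 1) ≤ γ`, hence `w y' ≤ v r2` and `w (aeval x h - b0) ≤ v r2`. If `y' = 0`: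
`zero_of_root`. Otherwise choose `e` with `w (y' - e) < w y'` (`himm`), `y'' = y' - e`. If
`y'' = 0`: `zero_of_root` for `h + C e`. Otherwise `v r = w y''` (`Imm.val`) and `lr` for
`h + C e`, `y''`, `r`: the hypothesis from `ci_shift` with `z = - y''`, `ρ = w y''`,
`ρ ^ (l - 1) < w y' ^ (l - 1) ≤ γ`. Choose the centre `c` in `lr` such that also
`v (h.eval a - b0) ≤ v r2` (`reg_one` for `h - C b0`). `b = (h + C e).eval a + b'`. -/
theorem rlem {v : Valuation K Γ} {w : Valuation L Γ} (hv : Ext v)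
    (hvw : ∀ a : K, w (algebraMap K L a) = v a) (himm : Imm K w) (x y : L)
    (hx : ∀ a : K, x ≠ algebraMap K L a) (l : ℕ) (hl : 2 ≤ l) (f : K[X][X]) (hfm : f.Monic)
    (hfd : f.natDegree = l) (hfy : (fx f x).eval y = 0) (hci : CI w l (taylor y (fx f x)))
    (b0 r2 : K) (hr2 : r2 ≠ 0) (hy : w (y - algebraMap K L b0) ≤ v r2)
    (hg : w ((taylor y (fx f x)).coeff 1) ≤ v r2 ^ (l - 1)) (h : K[X])
    (hh : w (aeval x (f.eval h)) ^ (l - 1) ≤ w ((taylor y (fx f x)).coeff 1) ^ l) (c : K) :
    ∃ a b : K, w (x - algebraMap K L a) ≤ w (x - algebraMap K L c) ∧ v (b - b0) ≤ v r2 ∧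
      ev f a b = 0 := by
  set p := taylor y (fx f x) with hp
  set y' := y - aeval x h with hy'
  have hpd : p.natDegree ≤ l := by
    rw [hp, natDegree_taylor, ← hfd]
    exact Nat.lt_succ_iff.1 (la_deg f x)
  have hp0 : p.coeff 0 = 0 := by
    rw [hp, taylor_coeff_zero]
    exact hfy
  have hpl : p.coeff l = 1 := by
    have hmon : (fx f x).Monic := hfm.map _
    have hnd : (fx f x).natDegree = l := by
      unfold fx
      rw [hfm.natDegree_map, hfd]
    rw [hp, ← hnd, coeff_taylor_natDegree]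
    exact hmon
  have hev : p.eval (-y') = aeval x (f.eval h) := by
    rw [hp, taylor_eval, hy', ← fx_aeval]
    congr 1
    ring
  have hle : w y' ^ (l - 1) ≤ w (p.coeff 1) := by
    by_contra hc
    rw [not_le] at hc
    have e1 := ci_big l hl p hpd hpl hp0 hci (-y') (by rw [Valuation.map_neg]; exact hc)
    rw [hev, Valuation.map_neg] at e1
    rw [e1] at hh
    have e2 : w (p.coeff 1) ^ l < (w y' ^ (l - 1)) ^ l :=
      pow_lt_pow_left₀ hc zero_le (by omega)
    rw [← pow_mul, Nat.mul_comm, pow_mul] at e2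
    exact absurd e2 (not_lt.2 hh)
  have hy2 : w y' ≤ v r2 := by
    by_contra hc
    rw [not_le] at hc
    have e1 := pow_lt_pow_left₀ hc zero_le (show l - 1 ≠ 0 by omega)
    exact absurd e1 (not_lt.2 (hle.trans hg))
  have hh0 : w (aeval x h - algebraMap K L b0) ≤ v r2 := by
    have e1 : aeval x h - algebraMap K L b0 = (y - algebraMap K L b0) - y' := by
      rw [hy']
      ring
    rw [e1]
    exact (Valuation.map_sub w _ _).trans (max_le hy hy2)
  by_cases hy0 : y' = 0
  · have e1 : aeval x h = y := by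
      rw [hy', sub_eq_zero] at hy0
      exact hy0.symm
    exact zero_of_root hv hvw himm x hx f h (by rw [e1]; exact hfy) b0 r2 hh0 c
  obtain ⟨e, he⟩ := himm y' hy0
  set y'' := y' - algebraMap K L e with hy''
  have hae : aeval x (h + C e) = aeval x h + algebraMap K L e := by
    rw [map_add, aeval_C]
  have hsum : aeval x (h + C e) + y'' = y := by
    rw [hae, hy'', hy']
    ring
  have hve : v e ≤ v r2 := by
    rw [← hvw e]
    have e1 : algebraMap K L e = y' - y'' := by
      rw [hy'']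
      ring
    rw [e1]
    exact (Valuation.map_sub w _ _).trans (max_le hy2 (he.le.trans hy2))
  by_cases hy1 : y'' = 0
  · rw [hy1, add_zero] at hsum
    exact zero_of_root hv hvw himm x hx f (h + C e) (by rw [hsum]; exact hfy) b0 r2
      (by rw [hsum]; exact hy) c
  obtain ⟨r, hr⟩ := Imm.val hvw himm y''
  have hr0 : r ≠ 0 := by
    intro h0
    rw [h0, map_zero] at hr
    exact hy1 ((Valuation.zero_iff w).1 hr.symm)
  obtain ⟨c', hc', hreg⟩ := reg_one hv hvw himm x hx (h - C b0) c
  have htt : taylor (aeval x (h + C e)) (fx f x) = taylor (-y'') p := by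
    have e1 : aeval x (h + C e) = -y'' + y :=
      eq_neg_add_iff_add_eq.2 (by rw [add_comm]; exact hsum)
    rw [hp, taylor_taylor, e1]
  have hlt : v r ^ (l - 1) < w (p.coeff 1) := by
    rw [hr]
    exact lt_of_lt_of_le (pow_lt_pow_left₀ he zero_le (by omega)) hle
  obtain ⟨e1, e2⟩ := ci_shift l hl p hpd hci (-y'') (v r)
    (by rw [Valuation.map_neg, hr]) hlt
  obtain ⟨a, b, ha, hb, hab⟩ := lr hv hvw himm x hx f (h + C e) y''
    (by rw [hsum]; exact hfy) r hr0 hr.ge
    (by
      intro i hi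
      rw [tc_aeval, tc_aeval, htt, e1]
      exact e2 i hi) c'
  have e3 := (hreg.2 a ha).1
  rw [eval_sub, eval_C, map_sub (aeval x : K[X] →ₐ[K] L), aeval_C] at e3
  refine ⟨a, (h + C e).eval a + b, ha.trans hc', ?_, hab⟩
  have e4 : (h + C e).eval a + b - b0 = (h.eval a - b0) + (e + b) := by
    rw [eval_add, eval_C]
    ring
  rw [e4]
  apply (Valuation.map_add v _ _).trans (max_le _ _)
  · rw [e3]
    exact hh0
  · apply (Valuation.map_add v _ _).trans (max_le hve _)
    calc v b ≤ v r := hb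
      _ = w y'' := hr
      _ ≤ w y' := he.le
      _ ≤ v r2 := hy2
/- END le -/

/- MODULE lf -/
/-- Module lf. A small root of a split polynomial. PROOF. Induction on `P.natDegree`. `P ≠ 0`,
`P.natDegree ≥ i ≥ 1`, so there is a root `t`, `P = (X - C t) * Q`. If `v t ≤ ρ` done. Otherwise
`P.coeff 0 = - t * Q.coeff 0`, `P.coeff i = Q.coeff (i - 1) - t * Q.coeff i`. If
`v (Q.coeff j) * ρ ^ j < v (Q.coeff 0)` for all `j ≥ 1`, then `v (P.coeff i) * ρ ^ i <
v t * v (Q.coeff 0)`: contradiction. So `v (Q.coeff 0) ≤ v (Q.coeff j) * ρ ^ j` for some `j ≥ 1`; if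
`Q.coeff j = 0`, then `Q.coeff 0 = 0` and `0` is a root; otherwise the induction hypothesis. -/
theorem split_root {v : Valuation K Γ} (hac : ∀ P : K[X], 0 < P.natDegree → ∃ t, P.eval t = 0)
    (P : K[X]) (ρ : Γ) (i : ℕ) (hi : 1 ≤ i) (h0 : P.coeff i ≠ 0)
    (h : v (P.coeff 0) ≤ v (P.coeff i) * ρ ^ i) : ∃ t, P.eval t = 0 ∧ v t ≤ ρ := by
  induction hN : P.natDegree using Nat.strong_induction_on generalizing P i with
  | _ N ih =>
  have hP0 : P ≠ 0 := by
    intro hh
    rw [hh, coeff_zero] at h0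
    exact h0 rfl
  have hPi : i ≤ P.natDegree := le_natDegree_of_ne_zero h0
  obtain ⟨t, ht⟩ := hac P (by omega)
  obtain ⟨Q, hQ⟩ := dvd_iff_isRoot.2 ht
  have hQ0 : Q ≠ 0 := by
    intro hh
    rw [hh, mul_zero] at hQ
    exact hP0 hQ
  have hdQ : Q.natDegree < P.natDegree := by
    rw [hQ, natDegree_mul (X_sub_C_ne_zero t) hQ0, natDegree_X_sub_C]
    omega
  by_cases hvt : v t ≤ ρ
  · exact ⟨t, ht, hvt⟩
  rw [not_le] at hvt
  have hvt0 : 0 < v t := lt_of_le_of_lt zero_le hvt
  have hc0 : P.coeff 0 = -(t * Q.coeff 0) := by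
    rw [hQ, sub_mul, coeff_sub, mul_coeff_zero, coeff_X_zero, zero_mul, coeff_C_mul, zero_sub]
  have hci : P.coeff i = Q.coeff (i - 1) - t * Q.coeff i := by
    obtain ⟨i', rfl⟩ : ∃ i', i = i' + 1 := ⟨i - 1, by omega⟩
    rw [hQ, sub_mul, coeff_sub, coeff_X_mul, coeff_C_mul, Nat.add_sub_cancel]
  have hex : ∃ j, 1 ≤ j ∧ v (Q.coeff 0) ≤ v (Q.coeff j) * ρ ^ j := by
    by_contra hc
    push Not at hc
    have hQ1 : 0 < v (Q.coeff 0) := lt_of_le_of_lt zero_le (hc 1 le_rfl)
    have e1 : v (Q.coeff (i - 1)) * ρ ^ i < v t * v (Q.coeff 0) := by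
      have e2 : ρ ^ i = ρ ^ (i - 1) * ρ := by
        rw [← pow_succ]
        congr 1
        omega
      rw [e2, ← mul_assoc, mul_comm (v t)]
      have e3 : v (Q.coeff (i - 1)) * ρ ^ (i - 1) ≤ v (Q.coeff 0) := by
        rcases Nat.eq_zero_or_pos (i - 1) with h1 | h1
        · rw [h1, pow_zero, mul_one]
        · exact (hc (i - 1) h1).le
      calc v (Q.coeff (i - 1)) * ρ ^ (i - 1) * ρ ≤ v (Q.coeff 0) * ρ := mul_le_mul_left e3 ρ
        _ < v (Q.coeff 0) * v t := mul_lt_mul_of_pos_left hvt hQ1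
    have e4 : v (t * Q.coeff i) * ρ ^ i < v t * v (Q.coeff 0) := by
      rw [map_mul, mul_assoc]
      exact mul_lt_mul_of_pos_left (hc i hi) hvt0
    have e5 : v (P.coeff i) * ρ ^ i < v t * v (Q.coeff 0) := by
      rw [hci]
      calc v (Q.coeff (i - 1) - t * Q.coeff i) * ρ ^ i
          ≤ max (v (Q.coeff (i - 1))) (v (t * Q.coeff i)) * ρ ^ i :=
            mul_le_mul_left (Valuation.map_sub v _ _) _
        _ < v t * v (Q.coeff 0) := by
            rcases max_choice (v (Q.coeff (i - 1))) (v (t * Q.coeff i)) with hm | hm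
            · rw [hm]
              exact e1
            · rw [hm]
              exact e4
    rw [hc0, Valuation.map_neg, map_mul] at h
    exact absurd e5 (not_lt.2 h)
  obtain ⟨j, hj1, hj⟩ := hex
  by_cases hQj : Q.coeff j = 0
  · rw [hQj, map_zero, zero_mul] at hj
    have e1 : Q.coeff 0 = 0 := (Valuation.zero_iff v).1 (le_antisymm hj zero_le)
    refine ⟨0, ?_, ?_⟩
    · rw [← coeff_zero_eq_eval_zero, hc0, e1, mul_zero, neg_zero]
    · rw [map_zero]
      exact zero_le
  · obtain ⟨s, hs, hvs⟩ := ih Q.natDegree (by omega) Q j hj1 hQj hj rfl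
    refine ⟨s, ?_, hvs⟩
    rw [hQ, eval_mul, hs, mul_zero]

/-- Module lf. PROOF. `y = b0 + y'`, `w y' ≤ v r2`; by `fx_eval` with `h = C b0` there is `i`,
`1 ≤ i ≤ f.natDegree`, with `w (aeval x (tc f (C b0) 0)) ≤ w (aeval x (tc f (C b0) i)) * v r2 ^ i`
and `aeval x (tc f (C b0) i) ≠ 0` (if `aeval x (tc f (C b0) 0) = 0` take `i = f.natDegree`,
`tc_top`). `reg` for all `tc f (C b0) i`, then `split_root` for
`P = ∑ i, C ((tc f (C b0) i).eval a) * X ^ i`, `b = b0 + t`, `ev_eq`. -/
theorem ecase {v : Valuation K Γ} {w : Valuation L Γ} (hv : Ext v)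
    (hvw : ∀ a : K, w (algebraMap K L a) = v a) (himm : Imm K w)
    (hac : ∀ P : K[X], 0 < P.natDegree → ∃ t, P.eval t = 0) (x y : L)
    (hx : ∀ a : K, x ≠ algebraMap K L a) (f : K[X][X]) (hfm : f.Monic) (hfd : 1 ≤ f.natDegree)
    (hfy : (fx f x).eval y = 0) (b0 r2 : K) (hr2 : r2 ≠ 0)
    (hy : w (y - algebraMap K L b0) ≤ v r2) (c : K) :
    ∃ a b : K, w (x - algebraMap K L a) ≤ w (x - algebraMap K L c) ∧ v (b - b0) ≤ v r2 ∧
      ev f a b = 0 := by
  set y' := y - algebraMap K L b0 with hy'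
  have hcst : aeval x (C b0 : K[X]) = algebraMap K L b0 := aeval_C x b0
  have hs : ∑ i ∈ Finset.range (f.natDegree + 1), aeval x (tc f (C b0) i) * y' ^ i = 0 := by
    rw [← fx_eval, hcst, hy', add_sub_cancel]
    exact hfy
  have hvr2 : 0 < v r2 := zero_lt_iff.2 ((Valuation.ne_zero_iff v).2 hr2)
  have hex : ∃ i, 1 ≤ i ∧ i ≤ f.natDegree ∧ aeval x (tc f (C b0) i) ≠ 0 ∧
      w (aeval x (tc f (C b0) 0)) ≤ w (aeval x (tc f (C b0) i)) * v r2 ^ i := by
    by_cases h0 : aeval x (tc f (C b0) 0) = 0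
    · refine ⟨f.natDegree, hfd, le_rfl, ?_, ?_⟩
      · rw [tc_top f hfm, map_one]
        exact one_ne_zero
      · rw [h0, map_zero]
        exact zero_le
    · by_contra hc
      push Not at hc
      have h1 : w (aeval x (tc f (C b0) 0)) ≠ 0 := (Valuation.ne_zero_iff w).2 h0
      rw [Finset.sum_range_succ', pow_zero, mul_one] at hs
      have e2 : aeval x (tc f (C b0) 0) = - ∑ i ∈ Finset.range f.natDegree,
          aeval x (tc f (C b0) (i + 1)) * y' ^ (i + 1) :=
        (neg_eq_of_add_eq_zero_right hs).symm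
      have e3 : w (∑ i ∈ Finset.range f.natDegree,
          aeval x (tc f (C b0) (i + 1)) * y' ^ (i + 1)) < w (aeval x (tc f (C b0) 0)) := by
        apply Valuation.map_sum_lt _ h1
        intro i hi
        rw [Finset.mem_range] at hi
        by_cases hi0 : aeval x (tc f (C b0) (i + 1)) = 0
        · rw [hi0, zero_mul, map_zero]
          exact zero_lt_iff.2 h1
        · rw [map_mul, map_pow]
          calc w (aeval x (tc f (C b0) (i + 1))) * w y' ^ (i + 1)
              ≤ w (aeval x (tc f (C b0) (i + 1))) * v r2 ^ (i + 1) :=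
                mul_le_mul_right (pow_le_pow_left₀ zero_le hy _) _
            _ < w (aeval x (tc f (C b0) 0)) := hc (i + 1) (by omega) (by omega) hi0
      rw [← Valuation.map_neg, ← e2] at e3
      exact absurd e3 (lt_irrefl _)
  obtain ⟨i, hi1, hin, hi0, hi⟩ := hex
  obtain ⟨a, hac', hreg⟩ := reg hv hvw himm x hx (f.natDegree + 1) (tc f (C b0)) c
  have hq : ∀ i, v ((tc f (C b0) i).eval a) = w (aeval x (tc f (C b0) i)) := by
    intro i
    by_cases hi : i < f.natDegree + 1
    · exact ((hreg i hi).2 a le_rfl).1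
    · rw [tc_gt f (C b0) i (by omega), eval_zero, map_zero, map_zero, map_zero]
  set P : K[X] := ∑ i ∈ Finset.range (f.natDegree + 1), C ((tc f (C b0) i).eval a) * X ^ i with hP
  have hcf : ∀ i, i ≤ f.natDegree → P.coeff i = (tc f (C b0) i).eval a := by
    intro i hi
    rw [hP, finsetSum_coeff]
    simp only [coeff_C_mul, coeff_X_pow]
    rw [Finset.sum_eq_single i]
    · rw [if_pos rfl, mul_one]
    · intro j _ hj
      rw [if_neg (Ne.symm hj), mul_zero]
    · intro hh
      exact absurd (Finset.mem_range.2 (Nat.lt_succ_of_le hi)) hh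
  obtain ⟨t, ht, hvt⟩ := split_root (v := v) hac P (v r2) i hi1
    (by
      rw [hcf i hin, ← Valuation.ne_zero_iff v, hq i]
      exact (Valuation.ne_zero_iff w).2 hi0)
    (by
      rw [hcf 0 (Nat.zero_le _), hcf i hin, hq 0, hq i]
      exact hi)
  refine ⟨a, b0 + t, hac', ?_, ?_⟩
  · rw [add_sub_cancel_left]
    exact hvt
  · have e1 := ev_eq f (C b0) a t
    rw [eval_C] at e1
    rw [e1, ← ht, hP, eval_finsetSum]
    apply Finset.sum_congr rfl
    intro j _
    rw [eval_mul, eval_C, eval_pow, eval_X]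
/- END lf -/

end

end Pool.Agent.Xtc
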