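import Pool.Agent.Xtc.Ec

set_option autoImplicit false

namespace Pool.Agent.Xtc

open Polynomial Pool.Agent.Xtr

/- MODULE wa -/
/-- Module wa. PROOF. `z i = R i / s` (`comden`), `fracs` for every `F j` gives `d j`, `G j`;
`toXX` for `G j` and `s`; `quad` for these `m + 1` polynomials gives `(a, b)`; `s(a, b) ≠ 0` as its
value is `w (s(x, y)) ≠ 0`; `z' i = R i (a, b) / s (a, b)` and `v (F j (z')) * v (s(a, b)) ^ d j =
v (G j (a, b)) = w (G j (x, y)) = w (F j (z)) * w (s(x, y)) ^ d j`. -/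
theorem quad_ec {K : Type} [Field K] {Γ : Type*} [LinearOrderedCommGroupWithZero Γ]
    {L : Type} [Field L] [Algebra K L] {v : Valuation K Γ} {w : Valuation L Γ} (hv : Ext v)
    (hvw : ∀ a : K, w (algebraMap K L a) = v a) (himm : Imm K w) (x y : L)
    (A0 A1 A2 : K[X]) (h0 : aeval x A0 ≠ 0)
    (hy : aeval x A0 * y ^ 2 + aeval x A1 * y + aeval x A2 = 0)
    (n : ℕ) (z : Fin n → L) (hz : ∀ i, z i ∈ IntermediateField.adjoin K {x, y})
    (m : ℕ) (F : Fin m → MvPolynomial (Fin n) K) :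
    ∃ z' : Fin n → K, ∀ j, v (MvPolynomial.eval z' (F j)) = w (MvPolynomial.aeval z (F j)) := by
  classical
  obtain ⟨R, s, hs, hzR⟩ := comden x y n z hz
  choose d G hG using fun j => fracs n R s (F j)
  choose T hT hT' using fun g : MvPolynomial (Fin 2) K => toXX g
  obtain ⟨a, b, -, hab⟩ := quad hv hvw himm x y A0 A1 A2 h0 hy (m + 1)
    (fun j => if h : j < m then T (G ⟨j, h⟩) else T s)
  have hs1 : v (MvPolynomial.eval ![a, b] s) = w (MvPolynomial.aeval ![x, y] s) := by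
    have h1 := hab m (Nat.lt_succ_self m)
    simp only [lt_irrefl, dif_neg, not_false_iff] at h1
    rw [hT, hT'] at h1
    exact h1
  have hs2 : w (MvPolynomial.aeval ![x, y] s) ≠ 0 := (Valuation.ne_zero_iff _).2 hs
  have hs3 : MvPolynomial.eval ![a, b] s ≠ 0 := by
    intro h
    rw [h, map_zero] at hs1
    exact hs2 hs1.symm
  refine ⟨fun i => MvPolynomial.eval ![a, b] (R i) / MvPolynomial.eval ![a, b] s, fun j => ?_⟩
  have h1 := hab j (Nat.lt_succ_of_lt j.2)
  simp only [j.2, dif_pos] at h1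
  rw [hT, hT'] at h1
  have h2 := hG j K ![a, b] (by
    rw [MvPolynomial.aeval_eq_eval]
    exact hs3)
  have h3 := hG j L ![x, y] hs
  have h4 : z = fun i => MvPolynomial.aeval ![x, y] (R i) / MvPolynomial.aeval ![x, y] s :=
    funext hzR
  rw [← h4] at h3
  simp only [MvPolynomial.aeval_eq_eval] at h2
  refine mul_right_cancel₀ (pow_ne_zero (d j) hs2) ?_
  rw [← map_pow, ← map_mul, h3, ← h1, map_pow, ← hs1, ← map_pow, ← map_mul]
  exact congrArg v h2
/- END wa -/

/- MODULE wb -/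
private theorem wb_ext {K : Type} [Field K] {Γ₀ : Type} [LinearOrderedCommGroupWithZero Γ₀]
    {v : Valuation K Γ₀} {Γ₁ : Type} [LinearOrderedCommGroupWithZero Γ₁]
    {v' : Valuation K Γ₁} (h : v'.IsEquiv v) (hv : Ext v) : Ext v' := by
  intro n f
  obtain ⟨a, h1, h2⟩ := hv n f
  have h3 : ∀ x : K, v' x ≤ 1 ↔ v x ≤ 1 := by
    intro x
    have := h x 1
    rwa [map_one, map_one] at this
  exact ⟨a, fun i => (h3 _).2 (h1 i), fun b hb => (h _ _).2 (h2 b (fun i => (h3 _).1 (hb i)))⟩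

/-- Module wb. The final form. PROOF. As `cubic_result` in `Pool.Agent.Xtr.Main`: replace `v` by
`w.comap (algebraMap K L)`, which is extremal since it is equivalent to `v`; `quad_ec`. -/
theorem quadratic_result (K : Type) [Field K] (Γ₀ : Type) [LinearOrderedCommGroupWithZero Γ₀]
    (v : Valuation K Γ₀)
    (hext : ∀ (n : ℕ) (f : MvPolynomial (Fin n) K), ∃ a : Fin n → K, (∀ i, v (a i) ≤ 1) ∧
      ∀ b : Fin n → K, (∀ i, v (b i) ≤ 1) →
        v (MvPolynomial.eval a f) ≤ v (MvPolynomial.eval b f))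
    (L : Type) [Field L] [Algebra K L] (Γ₁ : Type) [LinearOrderedCommGroupWithZero Γ₁]
    (w : Valuation L Γ₁) (hvw : (w.comap (algebraMap K L)).IsEquiv v)
    (himm : ∀ y : L, y ≠ 0 → ∃ x : K, w (y - algebraMap K L x) < w y)
    (x y : L) (A0 A1 A2 : K[X]) (h0 : aeval x A0 ≠ 0)
    (hy : aeval x A0 * y ^ 2 + aeval x A1 * y + aeval x A2 = 0)
    (n : ℕ) (z : Fin n → L) (hz : ∀ i, z i ∈ IntermediateField.adjoin K {x, y})
    (m : ℕ) (F : Fin m → MvPolynomial (Fin n) K) :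
    ∃ z' : Fin n → K, ∀ j,
      w (algebraMap K L (MvPolynomial.eval z' (F j))) = w (MvPolynomial.aeval z (F j)) :=
  quad_ec (v := w.comap (algebraMap K L)) (w := w) (wb_ext hvw hext) (fun _ => rfl) himm x y
    A0 A1 A2 h0 hy n z hz m F

/-- Module wb. The final form. PROOF. In the same way from `lin'`. -/
theorem cyclic_result (K : Type) [Field K] (Γ₀ : Type) [LinearOrderedCommGroupWithZero Γ₀]
    (v : Valuation K Γ₀)
    (hext : ∀ (n : ℕ) (f : MvPolynomial (Fin n) K), ∃ a : Fin n → K, (∀ i, v (a i) ≤ 1) ∧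
      ∀ b : Fin n → K, (∀ i, v (b i) ≤ 1) →
        v (MvPolynomial.eval a f) ≤ v (MvPolynomial.eval b f))
    (L : Type) [Field L] [Algebra K L] (Γ₁ : Type) [LinearOrderedCommGroupWithZero Γ₁]
    (w : Valuation L Γ₁) (hvw : (w.comap (algebraMap K L)).IsEquiv v)
    (himm : ∀ y : L, y ≠ 0 → ∃ x : K, w (y - algebraMap K L x) < w y)
    (l : ℕ) (hl : l.Prime) (A0 A1 A2 : K[X]) (hcase : CharP K l ∨ A1 = 0)
    (x y : L) (h0 : aeval x A0 ≠ 0)
    (hy : aeval x A0 * y ^ l + aeval x A1 * y + aeval x A2 = 0)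
    (n : ℕ) (P Q : Fin n → K[X]) :
    ∃ a b : K, A0.eval a * b ^ l + A1.eval a * b + A2.eval a = 0 ∧
      ∀ j, w (algebraMap K L ((P j).eval a + (Q j).eval a * b)) =
        w (aeval x (P j) + aeval x (Q j) * y) := by
  obtain ⟨a, b, h1, h2⟩ := lin' (v := w.comap (algebraMap K L)) (w := w) (wb_ext hvw hext)
    (fun _ => rfl) himm x y l hl A0 A1 A2 (Or.inr hcase) h0 hy n
    (fun j => if h : j < n then P ⟨j, h⟩ else 0) (fun j => if h : j < n then Q ⟨j, h⟩ else 0)
  refine ⟨a, b, h1, fun j => ?_⟩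
  have h3 := h2 j j.2
  simp only [j.2, dif_pos] at h3
  exact h3
/- END wb -/

end Pool.Agent.Xtc
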