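import Pool.Agent.Xtc.Ex

set_option autoImplicit false

namespace Pool.Agent.Xtc

open Polynomial Pool.Agent.Xtr

variable {K : Type*} [Field K] {Γ : Type*} [LinearOrderedCommGroupWithZero Γ]

/- MODULE sa -/
/-- Module sa. Optimal polynomials for one radius. PROOF. `mm_hs` with `ι = Fin (l * D + 1)`,
`t j = s ^ j`, and `hD` (the other coefficients vanish); `gn_le`, `gn_att`. -/
theorem opt1 {v : Valuation K Γ} (hmm : MM v) (l D : ℕ) (r0 b0 r2 : K) (hr0 : r0 ≠ 0)
    (hr2 : r2 ≠ 0) (f : K[X][X]) (hD : ∀ h : K[X], h.natDegree ≤ D → (f.eval h).natDegree ≤ l * D)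
    (s : K) : ∃ h, Opt v f D r0 b0 r2 (v s) h := by
  obtain ⟨h, hh, hmin⟩ := mm_hs hmm D r0 b0 r2 hr0 hr2 f (Fin (l * D + 1))
    (fun j => s ^ (j : ℕ)) (fun j => j)
  refine ⟨h, hh, fun h' hh' => gn_le.2 fun j => ?_⟩
  rcases Nat.lt_or_ge (l * D) j with hj | hj
  · rw [coeff_eq_zero_of_natDegree_lt ((hD h hh.1).trans_lt hj), map_zero, zero_mul]
    exact zero_le
  · obtain ⟨i, hi⟩ := hmin h' hh' ⟨j, Nat.lt_succ_of_le hj⟩
    simp only [map_pow] at hi
    rw [mul_comm, mul_comm (v s ^ (i : ℕ))] at hi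
    exact hi.trans (le_gn v _ _ _)

/-- Module sa. Closure of `HS` under small perturbations (`gn_add`, `natDegree_add_le`). -/
theorem HS.add {v : Valuation K Γ} {D : ℕ} {r0 b0 r2 : K} {h e : K[X]}
    (hh : HS v D r0 b0 r2 h) (hd : e.natDegree ≤ D) (he : gn v (v r0) e ≤ v r2) :
    HS v D r0 b0 r2 (h + e) := by
  refine ⟨(natDegree_add_le _ _).trans (max_le hh.1 hd), ?_⟩
  have h1 : h + e - C b0 = (h - C b0) + e := by ring
  rw [h1]
  exact (gn_add v _ _ _).trans (max_le hh.2 he)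
/- END sa -/

/- MODULE sb -/
/-- Module sb. If `h'` is better than `h`, then every dominating coefficient of `f(X, h(X))` is up
to sign close to an `l`-th power. PROOF. `e = h' - h`, `N = gn v ρ (f.eval h)`. By `big`:
`gn v ρ e ^ l ≤ N` (otherwise `gn v ρ (f.eval h') = gn v ρ e ^ l > N`). By `pert` and
`gn v ρ (f.eval h') < N`: `gn v ρ (f.eval h + e ^ l) < N`. By `pow_coeff`, `v l < 1`, `N > 0`:
`v ((f.eval h).coeff j + if l ∣ j then e.coeff (j / l) ^ l else 0) * ρ ^ j < N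
= v ((f.eval h).coeff j) * ρ ^ j`. So `l ∣ j` and `s = e.coeff (j / l)`. -/
theorem crit (v : Valuation K Γ) {ρ : Γ} (hρ : ρ ≠ 0) (f : K[X][X]) (l : ℕ) (hl : l.Prime)
    (hvl : v (l : K) < 1) (hfm : f.Monic) (hfd : f.natDegree = l) (h h' : K[X])
    (hS : SS v f l h ρ) (hlt : gn v ρ (f.eval h') < gn v ρ (f.eval h)) (j : ℕ)
    (hj : v ((f.eval h).coeff j) * ρ ^ j = gn v ρ (f.eval h)) :
    ∃ (i : ℕ) (s : K), j = l * i ∧ v ((f.eval h).coeff j + s ^ l) < v ((f.eval h).coeff j) := by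
  set N := gn v ρ (f.eval h) with hN
  set e : K[X] := h' - h with he
  have hl1 : 1 ≤ l := hl.one_lt.le
  have hN0 : 0 < N := lt_of_le_of_lt zero_le hlt
  have hhe : h + e = h' := by rw [he]; ring
  have h1 : gn v ρ e ^ l ≤ N := by
    by_contra hc
    push Not at hc
    have h2 := big v hρ f l hl1 hfm hfd h e hS hc
    rw [hhe] at h2
    exact absurd (hlt.trans hc) (by rw [h2]; exact lt_irrefl _)
  have h2 := pert v hρ f l hl1 hfm hfd h e hS hN0.ne' h1
  rw [hhe] at h2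
  have h3 : gn v ρ (f.eval h + e ^ l) < N := by
    have h4 : f.eval h + e ^ l = f.eval h' - (f.eval h' - f.eval h - e ^ l) := by ring
    rw [h4]
    exact (gn_sub v _ _ _).trans_lt (max_lt hlt h2)
  have h5 := pow_coeff v hρ l hl e j
  have h6 : v (l : K) * gn v ρ e ^ l < N := by
    calc v (l : K) * gn v ρ e ^ l ≤ v (l : K) * N := mul_le_mul_right h1 _
      _ < 1 * N := (mul_lt_mul_iff_left₀ hN0).2 hvl
      _ = N := one_mul N
  have h7 : v ((f.eval h).coeff j + if l ∣ j then e.coeff (j / l) ^ l else 0) * ρ ^ j < N := by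
    have h8 : ((f.eval h).coeff j + if l ∣ j then e.coeff (j / l) ^ l else 0) =
        (f.eval h + e ^ l).coeff j - ((e ^ l).coeff j - if l ∣ j then e.coeff (j / l) ^ l else 0)
        := by
      rw [coeff_add]; ring
    rw [h8]
    refine lt_of_le_of_lt (mul_le_mul_left (Valuation.map_sub v _ _) _) ?_
    rw [max_mul]
    exact max_lt ((le_gn v ρ _ j).trans_lt h3) (h5.trans_lt h6)
  rw [← hj] at h7
  have hρj : 0 < ρ ^ j := pow_pos (zero_lt_iff.2 hρ) j
  have h8 := (mul_lt_mul_iff_left₀ hρj).1 h7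
  by_cases hlj : l ∣ j
  · obtain ⟨i, rfl⟩ := hlj
    rw [if_pos (dvd_mul_right l i), Nat.mul_div_cancel_left i hl.pos] at h8
    exact ⟨i, e.coeff i, rfl, h8⟩
  · rw [if_neg hlj, add_zero] at h8
    exact absurd h8 (lt_irrefl _)
/- END sb -/

/- MODULE sc -/
/-- Module sc. The correction. `J` is a finite set of indices `i`, `s i` an approximate `l`-th root
of `- (f.eval h).coeff (l * i)`; `e = ∑ i ∈ J, C (s i) * X ^ i`. PROOF of the size of `e`:
`v (s i) ^ l = v ((f.eval h).coeff (l * i))`, so `(v (s i) * ρ ^ i) ^ l ≤ gn v ρ (f.eval h)`. -/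
theorem cor_size (v : Valuation K Γ) (ρ : Γ) (g : K[X]) (l : ℕ) (hl : 1 ≤ l)
    (J : Finset ℕ) (s : ℕ → K)
    (hs : ∀ i ∈ J, v (g.coeff (l * i) + s i ^ l) < v (g.coeff (l * i))) :
    gn v ρ (∑ i ∈ J, C (s i) * X ^ i) ^ l ≤ gn v ρ g := by
  classical
  have hl0 : l ≠ 0 := by omega
  obtain ⟨j, -, hj⟩ := gn_att v ρ (∑ i ∈ J, C (s i) * X ^ i)
  rw [← hj]
  have h1 : (∑ i ∈ J, C (s i) * X ^ i).coeff j = if j ∈ J then s j else 0 := by
    rw [finsetSum_coeff]
    simp only [coeff_C_mul, coeff_X_pow, mul_ite, mul_one, mul_zero]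
    rw [Finset.sum_ite_eq]
  rw [h1]
  by_cases hjJ : j ∈ J
  · rw [if_pos hjJ]
    have h2 : v (s j) ^ l = v (g.coeff (l * j)) := by
      have h3 := hs j hjJ
      rw [← map_pow]
      have h4 : s j ^ l = (g.coeff (l * j) + s j ^ l) - g.coeff (l * j) := by ring
      rw [h4, Valuation.map_sub_swap, Valuation.map_sub_eq_of_lt_left v h3]
    rw [mul_pow, h2, ← pow_mul, mul_comm j l]
    exact le_gn v ρ g (l * j)
  · rw [if_neg hjJ, map_zero, zero_mul, zero_pow hl0]
    exact zero_le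

/-- Module sc. The corrected coefficients. PROOF. `pert` for `e` (size by `cor_size`), `pow_coeff`:
with `N = gn v ρ (f.eval h) > 0`, for every `j`:
`v ((f.eval (h + e)).coeff j - (f.eval h).coeff j - (if l ∣ j then e.coeff (j / l) ^ l else 0))
* ρ ^ j < N`; `e.coeff i = s i` for `i ∈ J` and `0` otherwise. -/
theorem cor (v : Valuation K Γ) {ρ : Γ} (hρ : ρ ≠ 0) (f : K[X][X]) (l : ℕ) (hl : l.Prime)
    (hvl : v (l : K) < 1) (hfm : f.Monic) (hfd : f.natDegree = l) (h : K[X])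
    (hS : SS v f l h ρ) (h0 : gn v ρ (f.eval h) ≠ 0) (J : Finset ℕ) (s : ℕ → K)
    (hs : ∀ i ∈ J, v ((f.eval h).coeff (l * i) + s i ^ l) < v ((f.eval h).coeff (l * i))) :
    (∀ i ∈ J, v ((f.eval (h + ∑ i ∈ J, C (s i) * X ^ i)).coeff (l * i)) * ρ ^ (l * i) <
      gn v ρ (f.eval h)) ∧
    ∀ j, (∀ i ∈ J, j ≠ l * i) →
      v ((f.eval (h + ∑ i ∈ J, C (s i) * X ^ i)).coeff j - (f.eval h).coeff j) * ρ ^ j <
        gn v ρ (f.eval h) := by
  classical
  have hl1 : 1 ≤ l := hl.one_lt.le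
  have hsz := cor_size v ρ (f.eval h) l hl1 J s hs
  set e : K[X] := ∑ i ∈ J, C (s i) * X ^ i with he
  set N := gn v ρ (f.eval h) with hN
  have hN0 : 0 < N := zero_lt_iff.2 h0
  have h2 := pert v hρ f l hl1 hfm hfd h e hS h0 hsz
  have h6 : v (l : K) * gn v ρ e ^ l < N := by
    calc v (l : K) * gn v ρ e ^ l ≤ v (l : K) * N := mul_le_mul_right hsz _
      _ < 1 * N := (mul_lt_mul_iff_left₀ hN0).2 hvl
      _ = N := one_mul N
  have hec : ∀ j, e.coeff j = if j ∈ J then s j else 0 := by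
    intro j
    rw [he, finsetSum_coeff]
    simp only [coeff_C_mul, coeff_X_pow, mul_ite, mul_one, mul_zero]
    rw [Finset.sum_ite_eq]
  have h7 : ∀ j, v ((f.eval (h + e)).coeff j - (f.eval h).coeff j -
      (if l ∣ j then e.coeff (j / l) ^ l else 0)) * ρ ^ j < N := by
    intro j
    have h8 : ((f.eval (h + e)).coeff j - (f.eval h).coeff j -
        (if l ∣ j then e.coeff (j / l) ^ l else 0)) =
        (f.eval (h + e) - f.eval h - e ^ l).coeff j +
          ((e ^ l).coeff j - if l ∣ j then e.coeff (j / l) ^ l else 0) := by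
      rw [coeff_sub, coeff_sub]; ring
    rw [h8]
    refine lt_of_le_of_lt (mul_le_mul_left (Valuation.map_add v _ _) _) ?_
    rw [max_mul]
    exact max_lt ((le_gn v ρ _ j).trans_lt h2) ((pow_coeff v hρ l hl e j).trans_lt h6)
  constructor
  · intro i hi
    have h9 := h7 (l * i)
    rw [if_pos (dvd_mul_right l i), Nat.mul_div_cancel_left i hl.pos, hec, if_pos hi] at h9
    have h10 : (f.eval (h + e)).coeff (l * i) =
        ((f.eval (h + e)).coeff (l * i) - (f.eval h).coeff (l * i) - s i ^ l) +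
          ((f.eval h).coeff (l * i) + s i ^ l) := by ring
    rw [h10]
    refine lt_of_le_of_lt (mul_le_mul_left (Valuation.map_add v _ _) _) ?_
    rw [max_mul]
    refine max_lt h9 ?_
    exact ((mul_lt_mul_iff_left₀ (pow_pos (zero_lt_iff.2 hρ) _)).2 (hs i hi)).trans_le
      (le_gn v ρ _ _)
  · intro j hj
    have h9 := h7 j
    have h10 : (if l ∣ j then e.coeff (j / l) ^ l else 0) = 0 := by
      split_ifs with hlj
      · obtain ⟨i, rfl⟩ := hlj
        rw [Nat.mul_div_cancel_left i hl.pos, hec, if_neg (fun hi => hj i hi rfl),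
          zero_pow hl.ne_zero]
      · rfl
    rw [h10, sub_zero] at h9
    exact h9
/- END sc -/

/- MODULE sd -/
/-- Module sd. A polynomial which is optimal for finitely many radii. PROOF. By `opt1` choose `g k`
optimal for `v (s k)`, and `n k` with `v (n k) = gn v (v (s k)) (f.eval (g k))` (attained by a
coefficient: `gn_att`), `n k ≠ 0` by `hne`. By `mm_hs` for the pairs `(k, j)`, `k ≤ M`,
`j ≤ l * D` (`ι = Fin (M + 1) × Fin (l * D + 1)`), with `t = s k ^ j / n k`, let `h` minimise the maximum `μ` of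
`v ((f.eval h).coeff j) * v (s k) ^ j / v (n k)`; `1 ≤ μ`. If `μ = 1`: `h` is optimal for all
`v (s k)`. Suppose `1 < μ`. For every `(k, j)` with value `μ` (critical pairs) `crit` (with
`h' = g k`) gives `i`, `s'` with `j = l * i`, `v (coeff + s' ^ l) < v coeff`; let `J` be the set of
these `i` (`i ≤ D` since `j ≤ l * D`, `coeff j ≠ 0`) and `e = ∑ i ∈ J, C (s' i) * X ^ i`. `h + e` is
in `HS`: `HS.add`, `gn v (v r0) e ^ l ≤ gn v (v r0) (f.eval h) ≤ v r2 ^ l` by `cor_size` and `hbd`.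
By `cor` at `ρ = v (s k)`, `gn v ρ (f.eval h) ≤ μ * v (n k)`: all numbers
`v ((f.eval (h + e)).coeff j) * v (s k) ^ j / v (n k)` are `< μ` (for `j = l * i`, `i ∈ J`, by the
first part; otherwise by the second part, and `v ((f.eval h).coeff j) * v (s k) ^ j < μ * v (n k)`
since `(k, j)` is not critical). This contradicts the choice of `h`. -/
theorem sim {v : Valuation K Γ} (hmm : MM v) (l D : ℕ) (hl : l.Prime) (hvl : v (l : K) < 1)
    (r0 b0 r2 : K) (hr0 : r0 ≠ 0) (hr2 : r2 ≠ 0) (f : K[X][X]) (hfm : f.Monic)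
    (hfd : f.natDegree = l)
    (hD : ∀ h : K[X], h.natDegree ≤ D → (f.eval h).natDegree ≤ l * D)
    (hne : ∀ h, HS v D r0 b0 r2 h → f.eval h ≠ 0)
    (hbd : ∀ h, HS v D r0 b0 r2 h → gn v (v r0) (f.eval h) ≤ v r2 ^ l)
    (M : ℕ) (s : ℕ → K) (hs0 : ∀ k, k ≤ M → s k ≠ 0) (hsr : ∀ k, k ≤ M → v (s k) ≤ v r0)
    (hS : ∀ h, HS v D r0 b0 r2 h → ∀ k, k ≤ M → SS v f l h (v (s k))) :
    ∃ h, ∀ k, k ≤ M → Opt v f D r0 b0 r2 (v (s k)) h := by
  classical
  choose g hg using fun k => opt1 hmm l D r0 b0 r2 hr0 hr2 f hD (s k)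
  have h2 : ∀ k, ∃ n : K, v n = gn v (v (s k)) (f.eval (g k)) := by
    intro k
    obtain ⟨j, -, hj⟩ := gn_att v (v (s k)) (f.eval (g k))
    exact ⟨(f.eval (g k)).coeff j * s k ^ j, by rw [map_mul, map_pow, hj]⟩
  choose n hn using h2
  have hsv : ∀ k, k ≤ M → v (s k) ≠ 0 := fun k hk => (Valuation.ne_zero_iff v).2 (hs0 k hk)
  have hn0 : ∀ k, k ≤ M → 0 < v (n k) := fun k hk => by
    rw [hn]
    exact zero_lt_iff.2 (gn_ne_zero (hsv k hk) (hne _ (hg k).1))
  obtain ⟨h, hh, hmin⟩ := mm_hs hmm D r0 b0 r2 hr0 hr2 f (Fin (M + 1) × Fin (l * D + 1))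
    (fun q => s q.1 ^ (q.2 : ℕ) / n q.1) (fun q => q.2)
  have key : ∀ (c : K) (k j : ℕ), v (s k ^ j / n k) * v c = v c * v (s k) ^ j / v (n k) := by
    intro c k j
    rw [map_div₀, map_pow, div_mul_eq_mul_div, mul_comm]
  refine ⟨h, fun k0 hk0 => ?_⟩
  by_contra hno
  have h3 : ∃ h', HS v D r0 b0 r2 h' ∧ gn v (v (s k0)) (f.eval h') <
      gn v (v (s k0)) (f.eval h) := by
    by_contra hc
    push Not at hc
    exact hno ⟨hh, hc⟩
  obtain ⟨h', hh', hlt⟩ := h3
  obtain ⟨q0, -, hq0⟩ := Finset.exists_max_image (Finset.univ : Finset (Fin (M + 1) ×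
    Fin (l * D + 1))) (fun q => v (s q.1 ^ (q.2 : ℕ) / n q.1) * v ((f.eval h).coeff q.2))
    ⟨(0, 0), Finset.mem_univ _⟩
  set μ : Γ := v (s q0.1 ^ (q0.2 : ℕ) / n q0.1) * v ((f.eval h).coeff q0.2) with hμ
  have hdeg : ∀ j, l * D < j → (f.eval h).coeff j = 0 := fun j hj =>
    coeff_eq_zero_of_natDegree_lt ((hD h hh.1).trans_lt hj)
  -- all terms are bounded by `μ`
  have hle : ∀ k, k ≤ M → ∀ j, v ((f.eval h).coeff j) * v (s k) ^ j ≤ μ * v (n k) := by
    intro k hk j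
    rcases Nat.lt_or_ge (l * D) j with hj | hj
    · rw [hdeg j hj, map_zero, zero_mul]
      exact zero_le
    · have := hq0 (⟨k, Nat.lt_succ_of_le hk⟩, ⟨j, Nat.lt_succ_of_le hj⟩) (Finset.mem_univ _)
      simp only at this
      rw [key] at this
      rwa [div_le_iff₀ (hn0 k hk)] at this
  have hgle : ∀ k, k ≤ M → gn v (v (s k)) (f.eval h) ≤ μ * v (n k) := fun k hk =>
    gn_le.2 (hle k hk)
  -- `μ > 1`
  have hμ1 : 1 < μ := by
    have h4 : v (n k0) < gn v (v (s k0)) (f.eval h) := by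
      rw [hn]
      exact ((hg k0).2 h' hh').trans_lt hlt
    have h5 := h4.trans_le (hgle k0 hk0)
    exact (lt_mul_iff_one_lt_left (hn0 k0 hk0)).1 h5
  have hμ0 : 0 < μ := zero_lt_one.trans hμ1
  -- critical coefficients
  have hcrit : ∀ k, k ≤ M → ∀ j, v ((f.eval h).coeff j) * v (s k) ^ j = μ * v (n k) →
      ∃ (i : ℕ) (t : K), j = l * i ∧ v ((f.eval h).coeff j + t ^ l) < v ((f.eval h).coeff j) := by
    intro k hk j hj
    have h4 : v ((f.eval h).coeff j) * v (s k) ^ j = gn v (v (s k)) (f.eval h) :=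
      le_antisymm (le_gn v _ _ j) (by rw [hj]; exact hgle k hk)
    have h5 : gn v (v (s k)) (f.eval (g k)) < gn v (v (s k)) (f.eval h) := by
      rw [← hn, ← h4, hj]
      exact (lt_mul_iff_one_lt_left (hn0 k hk)).2 hμ1
    exact crit v (hsv k hk) f l hl hvl hfm hfd h (g k) (hS h hh k hk) h5 j h4
  -- the correction
  set J : Finset ℕ := (Finset.range (D + 1)).filter
    (fun i => ∃ t : K, v ((f.eval h).coeff (l * i) + t ^ l) < v ((f.eval h).coeff (l * i)))
    with hJ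
  have hch : ∀ i, ∃ t : K, i ∈ J →
      v ((f.eval h).coeff (l * i) + t ^ l) < v ((f.eval h).coeff (l * i)) := by
    intro i
    by_cases hi : i ∈ J
    · obtain ⟨t, ht⟩ := (Finset.mem_filter.1 hi).2
      exact ⟨t, fun _ => ht⟩
    · exact ⟨0, fun h => absurd h hi⟩
  choose t ht using hch
  set e : K[X] := ∑ i ∈ J, C (t i) * X ^ i with he
  have hl0 : l ≠ 0 := hl.ne_zero
  have heD : e.natDegree ≤ D := by
    refine natDegree_sum_le_of_forall_le _ _ fun i hi => ?_
    refine (natDegree_C_mul_X_pow_le _ _).trans ?_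
    exact Nat.lt_succ_iff.1 (Finset.mem_range.1 (Finset.mem_filter.1 hi).1)
  have heHS : HS v D r0 b0 r2 (h + e) := by
    refine HS.add hh heD ?_
    have h6 := cor_size v (v r0) (f.eval h) l hl.one_lt.le J t ht
    have h7 := h6.trans (hbd h hh)
    exact (pow_le_pow_iff_left₀ zero_le zero_le hl0).1 h7
  -- all terms of `f(X, h + e)` are smaller than `μ`
  have hsm : ∀ k, k ≤ M → ∀ j, v ((f.eval (h + e)).coeff j) * v (s k) ^ j < μ * v (n k) := by
    intro k hk j
    have hc := cor v (hsv k hk) f l hl hvl hfm hfd h (hS h hh k hk)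
      (gn_ne_zero (hsv k hk) (hne h hh)) J t ht
    by_cases hj : ∃ i ∈ J, j = l * i
    · obtain ⟨i, hi, rfl⟩ := hj
      exact (hc.1 i hi).trans_le (hgle k hk)
    · push Not at hj
      have h8 := (hc.2 j hj).trans_le (hgle k hk)
      have h9 : v ((f.eval h).coeff j) * v (s k) ^ j < μ * v (n k) := by
        refine lt_of_le_of_ne (hle k hk j) fun h10 => ?_
        obtain ⟨i, t', hi, ht'⟩ := hcrit k hk j h10
        refine hj i ?_ hi
        rw [hJ, Finset.mem_filter, Finset.mem_range]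
        refine ⟨?_, t', hi ▸ ht'⟩
        by_contra hiD
        have h11 : l * D < j := by
          rw [hi]
          exact Nat.mul_lt_mul_of_pos_left (by omega) hl.pos
        rw [hdeg j h11, map_zero, zero_mul] at h10
        exact (mul_pos hμ0 (hn0 k hk)).ne h10
      have h12 : (f.eval (h + e)).coeff j =
          ((f.eval (h + e)).coeff j - (f.eval h).coeff j) + (f.eval h).coeff j := by ring
      rw [h12]
      have h13 := Valuation.map_add v ((f.eval (h + e)).coeff j - (f.eval h).coeff j)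
        ((f.eval h).coeff j)
      refine lt_of_le_of_lt (mul_le_mul_left h13 _) ?_
      rw [max_mul]
      exact max_lt h8 h9
  obtain ⟨q', hq'⟩ := hmin (h + e) heHS q0
  have h14 := hsm q'.1 (Nat.lt_succ_iff.1 q'.1.2) q'.2
  have h15 : v (s q'.1 ^ (q'.2 : ℕ) / n q'.1) * v ((f.eval (h + e)).coeff q'.2) < μ := by
    rw [key, div_lt_iff₀ (hn0 _ (Nat.lt_succ_iff.1 q'.1.2))]
    exact h14
  exact absurd (hq'.trans_lt h15) (lt_irrefl _)
/- END sd -/

end Pool.Agent.Xtc
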